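import Pool.Agent.NT.Quant

/-!
NT (natural time): the definitions of the interface between the modules.
-/

set_option autoImplicit false

namespace HexObs

namespace NTm

open Finset TS SDN SDN.CN

open scoped ENNReal Classical

/-- l k is an upper quantile (at the level θ) of the lengths of the bridges of height at most 2 ^ k -/
structure Seq (θ : ℝ) (l : ℕ → ℕ) : Prop where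
  one : ∀ k, 1 ≤ l k
  mono : Monotone l
  as : ∃ C0 : ℝ, 1 ≤ C0 ∧ ∀ k, AS ((l k : ℝ) + 1) (C0 * Ub k)
  tail : ∀ k, TL (2 ^ k) ((l k : ℝ) + 1) ≤ ENNReal.ofReal (θ * Ub k)
  up : ∀ e : ℝ, 0 < e → ∃ C : ℝ, 0 < C ∧ ∀ k : ℕ, (l k : ℝ) ≤ C * (2 : ℝ) ^ ((4 / 3 + e) * k)
  low : ∀ e : ℝ, 0 < e → ∃ k0 : ℕ, ∀ k : ℕ, k0 ≤ k → (2 : ℝ) ^ ((4 / 3 - e) * k) ≤ l k

/-- the scales of G are good for the sequence l -/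
def Good (l : ℕ → ℕ) (G : Set ℕ) : Prop :=
  ∃ c : ℕ → ℝ, (∀ j, 0 < c j) ∧ ∀ L ∈ G, ∀ j, j ≤ L → c j * (l L : ℝ) ≤ l (L - j)

/-- every large window [x, (1 + δ) x] has a proportion of at least 1 - ε of scales of G -/
def Dense (ε : ℝ) (G : Set ℕ) : Prop := ∀ δ : ℝ, 0 < δ → ∃ x0 : ℕ, ∀ x : ℕ, x0 ≤ x →
  (1 - ε) * (δ * x) ≤ (((Finset.Icc x ⌊(1 + δ) * (x : ℝ)⌋₊).filter (fun k => k ∈ G)).card : ℝ)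

/-- the bridges with at most l L letters at the good scales (critical weights) -/
structure Facts (l : ℕ → ℕ) (G : Set ℕ) : Prop where
  modu : ∀ r ε : ℝ, 0 < r → 0 < ε → ∃ (ρ : ℝ) (L0 : ℕ), 0 < ρ ∧ ∀ L ∈ G, L0 ≤ L →
    gf {t | t ∈ BU ∧ (t.length : ℝ) < (l L : ℝ) + 1 ∧ ∃ (dir : Bool) (i j : ℕ), i ≤ j ∧ j ≤ t.length ∧
      (j : ℝ) - i ≤ ρ * l L ∧ r * 2 ^ L ≤ |((lvl dir (vx oo up t j) - lvl dir (vx oo up t i) : ℤ) : ℝ)|} ≤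
      ENNReal.ofReal (ε * Ub L)
  few : ∀ ε : ℝ, 0 < ε → ∃ (ρ : ℝ) (L0 : ℕ), 0 < ρ ∧ ∀ L ∈ G, L0 ≤ L →
    gf {t | t ∈ BU ∧ (t.length : ℝ) ≤ ρ * l L} ≤ ENNReal.ofReal (ε * Ub L)
  hgt : ∀ ε : ℝ, 0 < ε → ∃ (κ : ℝ) (L0 : ℕ), 0 < κ ∧ ∀ L : ℕ, L0 ≤ L →
    gf {t | t ∈ BU ∧ (lev t t.length : ℝ) ≤ κ * 2 ^ L} ≤ ENNReal.ofReal (ε * Ub L)
  tail : ∃ (K : ℝ) (L0 : ℕ), 0 < K ∧ ∀ L i : ℕ, L0 ≤ L →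
    gf {t | t ∈ BU ∧ (t.length : ℝ) < (l L : ℝ) + 1 ∧
      ∃ dir : Bool, (2 : ℝ) ^ i * 2 ^ L ≤ |((lvl dir (vx oo up t t.length) : ℤ) : ℝ)|} ≤
      ENNReal.ofReal (K / 2 ^ (12 * i) * Ub L)

/-- the properties of the uniform n-step bridges, n in A k, k in G -/
structure Core (ε : ℝ) (G : Set ℕ) (A : ℕ → Set ℕ) : Prop where
  typ : ∀ k ∈ G, ∑ h ∈ Finset.range (2 ^ k + 1), gf {t | t ∈ Brd h ∧ t.length ∉ A k} ≤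
    ENNReal.ofReal ε * ∑ h ∈ Finset.range (2 ^ k + 1), gf {t | t ∈ Brd h}
  pos : ∀ k ∈ G, ∀ n ∈ A k, 1 ≤ n ∧ gf (BW n) ≠ 0
  exps : ∀ η : ℝ, 0 < η → ∃ k0 : ℕ, ∀ k ∈ G, k0 ≤ k → ∀ n ∈ A k,
    (2 : ℝ) ^ ((4 / 3 - η) * k) ≤ n ∧ (n : ℝ) ≤ (2 : ℝ) ^ ((4 / 3 + η) * k)
  modu : ∀ r e : ℝ, 0 < r → 0 < e → ∃ (ρ : ℝ) (k0 : ℕ), 0 < ρ ∧ ∀ k ∈ G, k0 ≤ k → ∀ n ∈ A k,
    gf {t | t ∈ BW n ∧ ∃ (dir : Bool) (i j : ℕ), i ≤ j ∧ j ≤ n ∧ (j : ℝ) - i ≤ ρ * n ∧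
      r * 2 ^ k ≤ |((lvl dir (vx oo up t j) - lvl dir (vx oo up t i) : ℤ) : ℝ)|} ≤ ENNReal.ofReal e * gf (BW n)
  hgt : ∀ e : ℝ, 0 < e → ∃ (κ : ℝ) (k0 : ℕ), 0 < κ ∧ ∀ k ∈ G, k0 ≤ k → ∀ n ∈ A k,
    gf {t | t ∈ BW n ∧ (lev t n : ℝ) ≤ κ * 2 ^ k} ≤ ENNReal.ofReal e * gf (BW n)
  tail : ∃ K : ℝ, 0 < K ∧ ∀ k ∈ G, ∀ n ∈ A k, ∀ i : ℕ,
    gf {t | t ∈ BW n ∧ ∃ dir : Bool, (2 : ℝ) ^ i * 2 ^ k ≤ |((lvl dir (vx oo up t n) : ℤ) : ℝ)|} ≤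
      ENNReal.ofReal (K / 32 ^ i) * gf (BW n)

/-- the output of the part with the critical weights -/
def OutT : Prop := ∀ ε : ℝ, 0 < ε → ε < 1 → ∃ (G : Set ℕ) (A : ℕ → Set ℕ), Dense ε G ∧ Core ε G A

end NTm

end HexObs
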