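import Pool.Agent.NT.TallV
import Pool.Agent.NT.SeqDefs
import Pool.Agent.Tight.LatT
import Pool.Agent.T2.FrameT

/-!
NT (natural time), module 4d: the bridges with at most ell (2 ^ L) letters stay in the box of radius 2 ^ (L + i), up to
a weight which decays fast in i.
-/

set_option autoImplicit false

namespace HexObs

namespace NTm

open Finset TS SDN SDN.CN

open scoped ENNReal

lemma num_exp {c : ℝ} (hc : 0 < c) (m : ℕ) : ∃ K : ℝ, 0 < K ∧ ∀ a : ℕ, (2 : ℝ) ^ (m * a) * Real.exp (-(c * 2 ^ a)) ≤ K := by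
  refine ⟨(m.factorial : ℝ) / c ^ m, by positivity, fun a => ?_⟩
  have h1 := Real.pow_div_factorial_le_exp (c * 2 ^ a) (by positivity) m
  have hf : (0 : ℝ) < m.factorial := by exact_mod_cast Nat.factorial_pos m
  rw [Real.exp_neg, ← div_eq_mul_inv, div_le_div_iff₀ (Real.exp_pos _) (by positivity)]
  rw [div_le_iff₀ hf, mul_pow] at h1
  calc (2 : ℝ) ^ (m * a) * c ^ m = c ^ m * (2 ^ a) ^ m := by
        rw [mul_comm m a, pow_mul]
        ring
    _ ≤ Real.exp (c * 2 ^ a) * m.factorial := h1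
    _ = _ := mul_comm _ _

lemma AS_total {lam x : ℝ} (h : AS lam x) : gf {t | t ∈ BU ∧ (t.length : ℝ) < lam} ≤ ENNReal.ofReal x := by
  have h1 : {t | t ∈ BU ∧ (t.length : ℝ) < lam} ⊆ ⋃ h : ℕ, {Z | Z ∈ Brd h ∧ (Z.length : ℝ) < lam} := by
    rintro t ⟨⟨n, hn⟩, hl⟩
    rw [Set.mem_iUnion]
    exact ⟨n, hn, hl⟩
  refine (gf_mono h1).trans ((ENNReal.tsum_iUnion_le_tsum (fun t => wE t) _).trans ?_)
  refine ENNReal.tsum_le_of_sum_range_le fun n => ?_
  refine le_trans ?_ (h n)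
  exact Finset.sum_le_sum_of_subset (Finset.range_mono (by omega))

theorem brd_BL {h e f : ℕ} {X : List Bool} (hX : X ∈ Brd h) (hh : h ≤ 2 ^ e) (hef : e ≤ f) (hb : InBox X (2 ^ f)) :
    X ∈ BL (f + 2) := by
  obtain ⟨h1, h2, -, -⟩ := mem_Brd.1 hX
  have hX' : X ∈ SA := ⟨fun _ _ _ => Set.mem_univ _, fun i k hik hk => h2 i k hik hk⟩
  refine ⟨⟨h, hX⟩, hX', ?_⟩
  intro i hi' dir
  have hp : (0 : ℤ) < 2 ^ f := by positivity
  have hhf : (h : ℤ) ≤ 2 ^ f := by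
    have : h ≤ 2 ^ f := hh.trans (Nat.pow_le_pow_right (by norm_num) hef)
    exact_mod_cast this
  have h3 : 0 ≤ lev X i ∧ lev X i ≤ 3 * 2 ^ f := by
    rcases Nat.eq_zero_or_pos i with rfl | hpos
    · rw [lev_zero]
      constructor <;> omega
    · have := h1 i hpos hi'
      constructor <;> omega
  have h4 := hb i hi'
  have h4' : |lat X i| ≤ 2 ^ f := by
    refine h4.trans ?_
    push_cast
    exact le_rfl
  rw [abs_le] at h4'
  have h5 : |lvl dir (vx oo up X i)| ≤ 6 * 2 ^ f := by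
    rw [abs_le]
    unfold lev at h3
    unfold lat at h4'
    cases dir <;>
    simp only [lvl, SDN.hd, ip, up, cross, Bool.false_eq_true, if_false, if_true] at h3 h4' ⊢ <;>
    constructor <;> omega
  refine T2.row_of_lvl h5 ?_
  have : (2 : ℤ) ^ (f + 2) = 4 * 2 ^ f := by rw [pow_add]; ring
  rw [this]
  omega

/-- lateral part -/
lemma far_lat : ∃ C c : ℝ, 0 < C ∧ 0 < c ∧ ∀ e M : ℕ, 1 ≤ M →
    gf {t | ∃ h, h ≤ 2 ^ e ∧ t ∈ Brd h ∧ ¬ InBox t (M * 2 ^ e)} ≤ ENNReal.ofReal (C * Real.exp (-(c * M)) * Ub e) := by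
  obtain ⟨C, c, hc, hC⟩ := latTail
  refine ⟨|C| + 1, c, by positivity, hc, fun e M hM => ?_⟩
  have hsub : {t | ∃ h, h ≤ 2 ^ e ∧ t ∈ Brd h ∧ ¬ InBox t (M * 2 ^ e)} ⊆
      ⋃ h ∈ Finset.range (2 ^ e + 1), {t | 1 ≤ h ∧ t ∈ Brd h ∧ ¬ InBox t (M * h)} := by
    rintro t ⟨h, h1, h2, h3⟩
    rw [Set.mem_iUnion₂]
    refine ⟨h, Finset.mem_range.2 (by omega), ?_, h2, ?_⟩
    · by_contra hcon
      have h0 : h = 0 := by omega
      subst h0
      rw [Brd_zero] at h2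
      have h2' : t = [] := h2
      apply h3
      intro i hi
      rw [h2'] at hi ⊢
      have hi0 : i = 0 := by simpa using hi
      rw [hi0]
      have : lat ([] : List Bool) 0 = 0 := by decide
      rw [this, abs_zero]
      positivity
    · intro hb
      apply h3
      intro i hi
      refine (hb i hi).trans ?_
      have : M * h ≤ M * 2 ^ e := Nat.mul_le_mul_left _ h1
      exact_mod_cast this
  refine (gf_mono hsub).trans ((ENNReal.tsum_biUnion_le (fun t => wE t) (Finset.range (2 ^ e + 1)) _).trans ?_)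
  have h1 : ∀ h ∈ Finset.range (2 ^ e + 1), gf {t | 1 ≤ h ∧ t ∈ Brd h ∧ ¬ InBox t (M * h)} ≤
      ENNReal.ofReal ((|C| + 1) * Real.exp (-(c * M)) * uu h) := by
    intro h _
    have hu := uu_pos h
    rcases Nat.eq_zero_or_pos h with h0 | h0
    · have : {t | 1 ≤ h ∧ t ∈ Brd h ∧ ¬ InBox t (M * h)} = ∅ := by
        ext t
        exact ⟨fun ht => by have := ht.1; omega, fun ht => ht.elim⟩
      rw [this]
      have : gf (∅ : Set (List Bool)) = 0 := by
        unfold gf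
        exact tsum_empty
      rw [this]
      exact zero_le
    · refine (gf_mono fun t ht => ht.2).trans ((hC h M h0).trans (ENNReal.ofReal_le_ofReal ?_))
      have := le_abs_self C
      gcongr
      linarith
  refine (Finset.sum_le_sum h1).trans ?_
  rw [← ENNReal.ofReal_sum_of_nonneg (fun h _ => by have := uu_pos h; positivity), ← Finset.mul_sum]
  exact le_rfl

/-- for every d there is j: the length l (k - j) is short at the scale k -/
theorem seq_small {θ : ℝ} {l : ℕ → ℕ} (hl : Seq θ l) {d : ℝ} (hd : 0 < d) :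
    ∃ j : ℕ, ∀ k : ℕ, j ≤ k → AS ((l (k - j) : ℝ) + 1) (d * Ub k) := by
  obtain ⟨C0, hC0, h⟩ := hl.as
  have hκ := kap0_pos
  obtain ⟨j, hj⟩ : ∃ j : ℕ, 2 * C0 / d ≤ (2 : ℝ) ^ (kap0 * (j : ℝ)) := by
    have h1 : 1 < (2 : ℝ) ^ kap0 := Real.one_lt_rpow (by norm_num) hκ
    obtain ⟨j, hj⟩ := pow_unbounded_of_one_lt (2 * C0 / d) h1
    refine ⟨j, hj.le.trans (le_of_eq ?_)⟩
    rw [← Real.rpow_natCast, ← Real.rpow_mul (by norm_num)]
  refine ⟨j, fun k hk => AS_mono le_rfl ?_ (h (k - j))⟩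
  have h1 := Ub_growth (show k - j ≤ k by omega)
  rw [Nat.cast_sub hk, show (k : ℝ) - (k - j) = j by ring] at h1
  have hU := Ub_pos (k - j)
  have h2 : (2 : ℝ) * C0 ≤ d * (2 : ℝ) ^ (kap0 * (j : ℝ)) := by
    rw [div_le_iff₀ hd] at hj
    linarith
  have h3 : 2 * C0 * Ub (k - j) ≤ d * (2 * Ub k) := by
    calc 2 * C0 * Ub (k - j) ≤ d * (2 : ℝ) ^ (kap0 * (j : ℝ)) * Ub (k - j) := by gcongr
      _ = d * (Ub (k - j) * (2 : ℝ) ^ (kap0 * (j : ℝ))) := by ring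
      _ ≤ _ := by gcongr
  linarith

theorem far_seq {θ : ℝ} {l : ℕ → ℕ} (hl : Seq θ l) : ∃ (K : ℝ) (k0 : ℕ), 0 < K ∧ ∀ L i : ℕ, k0 ≤ L →
    gf {t | t ∈ BU ∧ (t.length : ℝ) < (l L : ℝ) + 1 ∧ t ∉ BL (L + i)} ≤ ENNReal.ofReal (K / 2 ^ (20 * i) * Ub L) := by
  obtain ⟨C0, hC0, hell⟩ := hl.as
  obtain ⟨d, s, k1, hd, htall⟩ := tallV
  obtain ⟨j0, hj0⟩ := seq_small hl hd
  obtain ⟨C, c, hC, hc, hlat⟩ := far_lat
  obtain ⟨q, hq⟩ : ∃ q, q = j0 + s := ⟨_, rfl⟩
  obtain ⟨K1, hK1, hn1⟩ := num_exp (c := Real.log 2 / 2 ^ q) (by positivity) 40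
  obtain ⟨K2, hK2, hn2⟩ := num_exp (c := c / 4) (by positivity) 41
  obtain ⟨i1, hi1⟩ : ∃ i1, i1 = 2 * q + 6 := ⟨_, rfl⟩
  refine ⟨C0 * 2 ^ (20 * i1) + 2 ^ 20 * (2 ^ j0 * K1) + 2 ^ 20 * (C * K2), k1, by positivity, fun L i hL => ?_⟩
  have hU := Ub_pos L
  rcases Nat.lt_or_ge i i1 with hi | hi
  · -- small i
    have h1 := AS_total (hell L)
    have h0 : {t | t ∈ BU ∧ (t.length : ℝ) < (l L : ℝ) + 1 ∧ t ∉ BL (L + i)} ⊆
        {t | t ∈ BU ∧ (t.length : ℝ) < (l L : ℝ) + 1} := fun t ht => ⟨ht.1, ht.2.1⟩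
    refine (gf_mono h0).trans (h1.trans (ENNReal.ofReal_le_ofReal ?_))
    apply mul_le_mul_of_nonneg_right _ hU.le
    rw [le_div_iff₀ (by positivity)]
    have h2 : (2 : ℝ) ^ (20 * i) ≤ 2 ^ (20 * i1) := pow_le_pow_right₀ (by norm_num) (by omega)
    have h3 : C0 * 2 ^ (20 * i) ≤ C0 * 2 ^ (20 * i1) := by gcongr
    have h4 : 0 < 2 ^ 20 * (2 ^ j0 * K1) + 2 ^ 20 * (C * K2) := by positivity
    linarith
  · -- large i
    obtain ⟨a, ha⟩ : ∃ a, a = i / 2 := ⟨_, rfl⟩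
    have ha1 : 2 * a ≤ i := by omega
    have ha2 : i ≤ 2 * a + 1 := by omega
    have haq : q + 3 ≤ a := by omega
    obtain ⟨H, hH⟩ : ∃ H, H = 2 ^ (a - q) := ⟨_, rfl⟩
    obtain ⟨M, hM⟩ : ∃ M, M = 2 ^ (i - 2 - a) := ⟨_, rfl⟩
    have hsub : {t | t ∈ BU ∧ (t.length : ℝ) < (l L : ℝ) + 1 ∧ t ∉ BL (L + i)} ⊆
        TB (L + j0 + s) H ((l L : ℝ) + 1) ∪ {t | ∃ h, h ≤ 2 ^ (L + a) ∧ t ∈ Brd h ∧ ¬ InBox t (M * 2 ^ (L + a))} := by
      rintro t ⟨⟨h, ht⟩, hlt, hnot⟩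
      rcases Nat.lt_or_ge (2 ^ (L + a)) h with h1 | h1
      · left
        refine ⟨h, ?_, ht, hlt⟩
        have h2 : H * 2 ^ (L + j0 + s) = 2 ^ (L + a) := by
          rw [hH, ← pow_add]
          congr 1
          omega
        omega
      · right
        refine ⟨h, h1, ht, fun hb => hnot ?_⟩
        have h2 : M * 2 ^ (L + a) = 2 ^ (L + i - 2) := by
          rw [hM, ← pow_add]
          congr 1
          omega
        rw [h2] at hb
        have h3 := brd_BL ht h1 (show L + a ≤ L + i - 2 by omega) hb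
        rw [show L + i - 2 + 2 = L + i by omega] at h3
        exact h3
    have hAS := hj0 (L + j0) (by omega)
    rw [show L + j0 - j0 = L by omega] at hAS
    have h1 := htall (L + j0) _ (by omega) hAS H (by rw [hH]; exact Nat.one_le_two_pow)
    have h2 := hlat (L + a) M (by rw [hM]; exact Nat.one_le_two_pow)
    refine (gf_mono hsub).trans ((gf_union_le _ _).trans ((add_le_add h1 h2).trans ?_))
    have hUj := Ub_pos (L + j0)
    have hUa := Ub_pos (L + a)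
    rw [← ENNReal.ofReal_add (by positivity) (by positivity)]
    apply ENNReal.ofReal_le_ofReal
    have e1 : Ub (L + j0) ≤ 2 ^ j0 * Ub L := UU_ratio_up L j0
    have e2 : Ub (L + a) ≤ 2 ^ a * Ub L := UU_ratio_up L a
    have hi20 : (2 : ℝ) ^ (20 * i) ≤ 2 ^ 20 * 2 ^ (40 * a) := by
      rw [← pow_add]
      exact pow_le_pow_right₀ (by norm_num) (by omega)
    -- first part
    have p1 : Ub (L + j0) / 2 ^ H ≤ 2 ^ 20 * (2 ^ j0 * K1) / 2 ^ (20 * i) * Ub L := by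
      have n1 := hn1 a
      have e3 : Real.exp (-(Real.log 2 / 2 ^ q * 2 ^ a)) = 1 / 2 ^ H := by
        have e4 : (2 : ℝ) ^ a = 2 ^ q * 2 ^ (a - q) := by
          rw [← pow_add]
          congr 1
          omega
        have e5 : Real.log 2 / 2 ^ q * 2 ^ a = (H : ℝ) * Real.log 2 := by
          rw [e4, hH]
          push_cast
          field_simp
        rw [e5, Real.exp_neg, ← Real.log_pow, Real.exp_log (by positivity), one_div]
      rw [e3] at n1
      have h2H : (0 : ℝ) < 2 ^ H := by positivity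
      rw [mul_one_div, div_le_iff₀ h2H] at n1
      rw [div_mul_eq_mul_div, div_le_div_iff₀ h2H (by positivity)]
      calc Ub (L + j0) * 2 ^ (20 * i) ≤ (2 ^ j0 * Ub L) * (2 ^ 20 * 2 ^ (40 * a)) := by gcongr
        _ = 2 ^ 20 * 2 ^ j0 * Ub L * 2 ^ (40 * a) := by ring
        _ ≤ 2 ^ 20 * 2 ^ j0 * Ub L * (K1 * 2 ^ H) := by gcongr
        _ = _ := by ring
    -- second part
    have p2 : C * Real.exp (-(c * M)) * Ub (L + a) ≤ 2 ^ 20 * (C * K2) / 2 ^ (20 * i) * Ub L := by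
      have n2 := hn2 a
      have e3 : Real.exp (-(c * M)) ≤ Real.exp (-(c / 4 * 2 ^ a)) := by
        rw [Real.exp_le_exp, neg_le_neg_iff]
        have e4 : (2 : ℝ) ^ a ≤ 4 * M := by
          rw [hM]
          push_cast
          have : (4 : ℝ) = 2 ^ 2 := by norm_num
          rw [this, ← pow_add]
          exact pow_le_pow_right₀ (by norm_num) (by omega)
        nlinarith
      have hE := Real.exp_pos (-(c / 4 * 2 ^ a))
      rw [div_mul_eq_mul_div, le_div_iff₀ (by positivity)]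
      calc C * Real.exp (-(c * M)) * Ub (L + a) * 2 ^ (20 * i) ≤
            C * Real.exp (-(c / 4 * 2 ^ a)) * (2 ^ a * Ub L) * (2 ^ 20 * 2 ^ (40 * a)) := by gcongr
        _ = 2 ^ 20 * C * Ub L * (2 ^ (41 * a) * Real.exp (-(c / 4 * 2 ^ a))) := by
            rw [show 41 * a = a + 40 * a by ring, pow_add]
            ring
        _ ≤ 2 ^ 20 * C * Ub L * K2 := by gcongr
        _ = _ := by ring
    have p3 : 0 ≤ C0 * 2 ^ (20 * i1) / 2 ^ (20 * i) * Ub L := by positivity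
    calc Ub (L + j0) / 2 ^ H + C * Real.exp (-(c * M)) * Ub (L + a) ≤
          2 ^ 20 * (2 ^ j0 * K1) / 2 ^ (20 * i) * Ub L + 2 ^ 20 * (C * K2) / 2 ^ (20 * i) * Ub L := add_le_add p1 p2
      _ ≤ C0 * 2 ^ (20 * i1) / 2 ^ (20 * i) * Ub L + (2 ^ 20 * (2 ^ j0 * K1) / 2 ^ (20 * i) * Ub L +
            2 ^ 20 * (C * K2) / 2 ^ (20 * i) * Ub L) := le_add_of_nonneg_left p3
      _ = _ := by ring

end NTm

end HexObs
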