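import Pool.Agent.NT.Chain
import Pool.Agent.SDN.CrowdBrd
import Pool.Agent.T2.Few

/-!
NT (natural time), module 4: the bridges of the box with a leaf in a class of small norm are rare.
-/

set_option autoImplicit false

namespace HexObs

namespace NTm

open Finset TS SDN SDN.CN

open scoped ENNReal

/-- bridges of the box of radius 2 ^ (kc + J) with a leaf of the scale kc + 5 in S -/
def EV (kc J : ℕ) (S : Set (List Bool)) : Set (List Bool) :=
  {t | t ∈ BL (kc + J) ∧ ∃ (m u : ℕ) (e : ℕ → ℕ) (gs : List (List Bool)), Lf false (kc + 5) t m u e ∧ gs.length = m ∧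
    unf gs = t ∧ gs.IsChain LFold ∧ (∀ g ∈ gs, g ∈ BrR (2 ^ (kc + 4)) (2 ^ (kc + J))) ∧ ∃ g ∈ gs, g ∈ S}

lemma tail_sum {K : ℝ} (hK : 0 ≤ K) (m0 : ℕ) (F : ℕ → ℝ≥0∞) (hF : ∀ m, m0 ≤ m → F m ≤ ENNReal.ofReal (K / 4 ^ m))
    (hF0 : ∀ m, m < m0 → F m = 0) : ∑' m, F m ≤ ENNReal.ofReal (2 * K * (1 / 2) ^ m0) := by
  have h1 : ∀ m, F m ≤ ENNReal.ofReal (K * (1 / 2) ^ m0) * (1 / 2) ^ m := by
    intro m
    rcases Nat.lt_or_ge m m0 with h | h
    · rw [hF0 m h]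
      exact zero_le
    · refine (hF m h).trans ?_
      have e1 : ((1 / 2 : ℝ≥0∞)) ^ m = ENNReal.ofReal ((1 / 2 : ℝ) ^ m) := by
        rw [ENNReal.ofReal_pow (by norm_num), ENNReal.ofReal_div_of_pos (by norm_num), ENNReal.ofReal_one,
          ENNReal.ofReal_ofNat]
      rw [e1, ← ENNReal.ofReal_mul (by positivity)]
      apply ENNReal.ofReal_le_ofReal
      have h2 : K / 4 ^ m = K * (1 / 2 : ℝ) ^ m * (1 / 2 : ℝ) ^ m := by
        rw [mul_assoc, ← mul_pow, div_eq_mul_inv, ← inv_pow]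
        norm_num
      rw [h2]
      have h3 : (1 / 2 : ℝ) ^ m ≤ (1 / 2 : ℝ) ^ m0 := pow_le_pow_of_le_one (by norm_num) (by norm_num) h
      gcongr
  refine (ENNReal.tsum_le_tsum h1).trans ?_
  rw [ENNReal.tsum_mul_left]
  have : ∑' m : ℕ, (1 / 2 : ℝ≥0∞) ^ m = 2 := by
    rw [ENNReal.tsum_geometric]
    rw [one_div, ENNReal.one_sub_inv_two, inv_inv]
  rw [this]
  have e2 : (2 : ℝ≥0∞) = ENNReal.ofReal 2 := by norm_num
  rw [e2, ← ENNReal.ofReal_mul (by positivity)]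
  apply ENNReal.ofReal_le_ofReal
  linarith

theorem event (J : ℕ) (hJ : 6 ≤ J) {ε : ℝ} (hε : 0 < ε) : ∃ (δ : ℝ) (k0 : ℕ), 0 < δ ∧ ∀ (kc : ℕ) (S : Set (List Bool)),
    k0 ≤ kc → Sm kc S δ → gf (EV kc J S) ≤ ENNReal.ofReal (ε * Ub (kc + J)) := by
  classical
  obtain ⟨A, C, b0, hA, hC, hb0, hcr⟩ := crowd_brd ((J : ℝ) - 2) (by
    have : (6 : ℝ) ≤ J := by exact_mod_cast hJ
    linarith)
  obtain ⟨K, hK, hch⟩ := chain_sm
  -- the number of leaves
  obtain ⟨P, hP⟩ : ∃ P : ℝ, P = (2 : ℝ) ^ (C * ((J : ℝ) - 2)) * C := ⟨_, rfl⟩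
  have hP0 : 0 ≤ P := by rw [hP]; positivity
  obtain ⟨m0, hm0, hm1, hm2⟩ : ∃ m0 : ℕ, 1 ≤ m0 ∧ A * 4 ^ (J - 3) ≤ m0 ∧ 2 * P * (1 / 2) ^ m0 ≤ ε / 2 := by
    obtain ⟨a, ha⟩ := exists_nat_ge (A * 4 ^ (J - 3))
    obtain ⟨b, hb⟩ := exists_pow_lt_of_lt_one (show 0 < ε / (4 * (P + 1)) by positivity) (show (1 / 2 : ℝ) < 1 by norm_num)
    refine ⟨max (max a b) 1, le_max_right _ _, ?_, ?_⟩
    · refine ha.trans ?_
      exact_mod_cast (le_max_left a b).trans (le_max_left _ 1)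
    · have h1 : (1 / 2 : ℝ) ^ (max (max a b) 1) ≤ (1 / 2) ^ b :=
        pow_le_pow_of_le_one (by norm_num) (by norm_num) ((le_max_right a b).trans (le_max_left _ 1))
      have h2 : (1 / 2 : ℝ) ^ (max (max a b) 1) ≤ ε / (4 * (P + 1)) := h1.trans hb.le
      calc 2 * P * (1 / 2) ^ (max (max a b) 1) ≤ 2 * (P + 1) * (ε / (4 * (P + 1))) := by
            apply mul_le_mul _ h2 (by positivity) (by positivity)
            linarith
        _ = ε / 2 := by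
            field_simp
            norm_num
  obtain ⟨B, hB⟩ : ∃ B : ℝ, B = (K * 2 ^ J) ^ (m0 + 1) := ⟨_, rfl⟩
  have hKJ : 1 ≤ K * 2 ^ J := by
    have h2J : (1 : ℝ) ≤ 2 ^ J := one_le_pow₀ (by norm_num)
    nlinarith
  have hB1 : 1 ≤ B := by
    rw [hB]
    exact one_le_pow₀ hKJ
  have hm0R : (1 : ℝ) ≤ m0 := by exact_mod_cast hm0
  refine ⟨ε / (2 * m0 * B), b0, by positivity, ?_⟩
  intro kc S hkc hS
  obtain ⟨δ, hδ⟩ : ∃ δ, δ = ε / (2 * m0 * B) := ⟨_, rfl⟩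
  rw [← hδ] at hS
  have hδ0 : 0 ≤ δ := by rw [hδ]; positivity
  have hUL := Ub_pos (kc + J)
  have hUk : Ub kc ≤ Ub (kc + J) := UU_mono (Nat.pow_le_pow_right (by norm_num) (by omega))
  have hUk0 := Ub_pos kc
  -- many leaves
  let Q : ℕ → Set (List Bool) := fun m => {t | m0 ≤ m ∧ t ∈ BL (kc + J) ∧ ∃ u e, Lf false (kc + 5) t m u e ∧
    A * nb (kc + 5) t ≤ m ∧ (dbl (2 ^ (kc + 5 - 1)) (lws t e 1 (m - 2)) : ℝ) ≤ ((J : ℝ) - 2) * m}
  have hQ1 : ∀ m, m0 ≤ m → gf (Q m) ≤ ENNReal.ofReal (Ub (kc + J) * P / 4 ^ m) := by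
    intro m hm
    refine (gf_mono (fun t ht => ht.2)).trans ((hcr (kc + J) (kc + 5) m (by omega) (by omega)).trans (le_of_eq ?_))
    congr 1
    rw [hP]
    have e1 : ((kc + J : ℕ) : ℝ) + 3 - ((kc + 5 : ℕ) : ℝ) = (J : ℝ) - 2 := by
      push_cast
      ring
    rw [e1]
    ring
  have hQ0 : ∀ m, m < m0 → gf (Q m) = 0 := by
    intro m hm
    have : Q m = ∅ := by
      ext t
      exact ⟨fun ht => by have := ht.1; omega, fun ht => ht.elim⟩
    rw [this]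
    simp [gf]
  have hsub : EV kc J S ⊆ (⋃ m, Q m) ∪ ⋃ m ∈ range m0, CE (2 ^ (kc + 4)) (2 ^ (kc + J)) m S := by
    rintro t ⟨ht, m, u, e, gs, h1, h2, h3, h4, h5, h6⟩
    rcases Nat.lt_or_ge m m0 with hm | hm
    · right
      rw [Set.mem_iUnion₂]
      exact ⟨m, Finset.mem_range.2 hm, gs, h2, h3, h4, h5, h6⟩
    · left
      rw [Set.mem_iUnion]
      have h7 : nb (kc + 5) t ≤ 4 ^ (J - 3) := by
        have := T2.Few.nb_box' ht.2 (J - 4) (kc + 5) (by omega)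
        rw [show J - 4 + 1 = J - 3 by omega] at this
        exact this
      refine ⟨m, hm, ht, u, e, h1, ?_, ?_⟩
      · have h8 : ((nb (kc + 5) t : ℕ) : ℝ) ≤ 4 ^ (J - 3) := by exact_mod_cast h7
        calc A * nb (kc + 5) t ≤ A * 4 ^ (J - 3) := by gcongr
          _ ≤ m0 := hm1
          _ ≤ m := by exact_mod_cast hm
      · have h8 := T2.Few.dbl_box (b := kc + 5) (μ := J - 5) (dir := false) (by
          rw [show kc + 5 + (J - 5) = kc + J by omega]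
          exact ht.2) (by omega) h1
        have h9 : ((dbl (2 ^ (kc + 5 - 1)) (lws t e 1 (m - 2)) : ℕ) : ℝ) ≤ ((J - 5 + 3 : ℕ) : ℝ) * m := by exact_mod_cast h8
        have e2 : ((J - 5 + 3 : ℕ) : ℝ) = (J : ℝ) - 2 := by
          rw [show J - 5 + 3 = J - 2 by omega, Nat.cast_sub (by omega)]
          norm_num
        rw [e2] at h9
        exact h9
  have hfew : gf (⋃ m ∈ range m0, CE (2 ^ (kc + 4)) (2 ^ (kc + J)) m S) ≤ ENNReal.ofReal (ε / 2 * Ub (kc + J)) := by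
    have h1 : gf (⋃ m ∈ range m0, CE (2 ^ (kc + 4)) (2 ^ (kc + J)) m S) ≤
        ∑ m ∈ range m0, gf (CE (2 ^ (kc + 4)) (2 ^ (kc + J)) m S) :=
      ENNReal.tsum_biUnion_le (fun t => wE t) (range m0) (fun m => CE (2 ^ (kc + 4)) (2 ^ (kc + J)) m S)
    refine h1.trans ?_
    have h2 : ∀ m ∈ range m0, gf (CE (2 ^ (kc + 4)) (2 ^ (kc + J)) m S) ≤ ENNReal.ofReal (δ * B * Ub kc) := by
      intro m hm
      rw [Finset.mem_range] at hm
      refine (hch kc J m S δ (by omega) hδ0 hS).trans (ENNReal.ofReal_le_ofReal ?_)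
      have : (K * 2 ^ J) ^ (m + 1) ≤ B := by
        rw [hB]
        exact pow_le_pow_right₀ hKJ (by omega)
      gcongr
    refine (Finset.sum_le_sum h2).trans ?_
    rw [Finset.sum_const, Finset.card_range, nsmul_eq_mul, ← ENNReal.ofReal_natCast, ← ENNReal.ofReal_mul (by positivity)]
    apply ENNReal.ofReal_le_ofReal
    calc (m0 : ℝ) * (δ * B * Ub kc) ≤ m0 * (δ * B * Ub (kc + J)) := by gcongr
      _ = ε / 2 * Ub (kc + J) := by
          rw [hδ]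
          field_simp
  have hmany : gf (⋃ m, Q m) ≤ ENNReal.ofReal (ε / 2 * Ub (kc + J)) := by
    refine (ENNReal.tsum_iUnion_le_tsum (fun t => wE t) Q).trans ((tail_sum (K := Ub (kc + J) * P) (by positivity) m0 _ hQ1 hQ0).trans ?_)
    apply ENNReal.ofReal_le_ofReal
    calc 2 * (Ub (kc + J) * P) * (1 / 2) ^ m0 = (2 * P * (1 / 2) ^ m0) * Ub (kc + J) := by ring
      _ ≤ _ := by gcongr
  refine (gf_mono hsub).trans ((gf_union_le _ _).trans ((add_le_add hmany hfew).trans ?_))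
  rw [← ENNReal.ofReal_add (by positivity) (by positivity)]
  apply ENNReal.ofReal_le_ofReal
  linarith

end NTm

end HexObs
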