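import Pool.Agent.SDN.ZigZag

/-!
NT (natural time), module 1: a bridge without backtracks in a window of rows has a cut or a short zig-zag at every row of
the window.
-/

set_option autoImplicit false

namespace HexObs

namespace NTm

open Finset TS SDN SDN.ZZ

/-- no backtracks of the scale b that end at a level of [3 α, 3 β] -/
def Win (b α β : ℕ) (g : List Bool) : Prop :=
  ∀ i i', i ≤ i' → i' ≤ g.length → 3 * (α : ℤ) ≤ lev g i' → lev g i' ≤ 3 * (β : ℤ) → lev g i - lev g i' < RR b

lemma Win_of_CL {b α β : ℕ} {g : List Bool} (h : g ∈ CL b) : Win b α β g := fun i i' h1 h2 _ _ => h i i' h1 h2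

lemma Win_mono {b α β α' β' : ℕ} {g : List Bool} (h1 : α ≤ α') (h2 : β' ≤ β) (h : Win b α β g) : Win b α' β' g := by
  intro i i' i1 i2 i3 i4
  exact h i i' i1 i2 (by omega) (by omega)

lemma lev_down (g : List Bool) (i : ℕ) : lev g i ≤ lev g (i + 1) + 2 := by
  rcases cl_cases (D := up) upd g i with h2 | h2
  · rcases step_pos (D := up) upd h2 with ⟨a1, a2⟩ | a2
    · have a2' : lev g (i + 1) = lev g i + 2 := a2
      omega
    · have a2' : lev g (i + 1) = lev g i - 1 := a2
      omega
  · rcases step_neg (D := up) upd h2 with ⟨a1, a2⟩ | a2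
    · have a2' : lev g (i + 1) = lev g i - 2 := a2
      omega
    · have a2' : lev g (i + 1) = lev g i + 1 := a2
      omega

/-- a bridge without backtracks of the scale b in the window [α, β] has a cut at the row a, or a short zig-zag over the
row a -/
theorem cut_or_zig {b h a α β : ℕ} {g : List Bool} (hb : 1 ≤ b) (hg : g ∈ Brd h) (hc : Win b α β g) (ha : 1 ≤ a)
    (hah : a < h) (hα : α = 0 ∨ α + 2 ^ b ≤ a) (hβ : a ≤ β) (hαβ : α < β) :
    (∃ t1 ∈ Brd a, ∃ t2 ∈ Brd (h - a), Win b 0 (β - a) t2 ∧ g = t1 ++ t2) ∨
    ∃ (u d w : ℕ) (G1 D G3 : List Bool), G1 ∈ Brd u ∧ D ∈ Brd d ∧ G3 ∈ Brd w ∧ Win b 0 (β - (u - d)) G3 ∧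
      unf [G1, D, G3] = g ∧ LFold G1 D ∧ LFold D G3 ∧ a ≤ u ∧ u ≤ a + d ∧ 1 ≤ d ∧ d < 2 ^ b ∧ h + d = u + w ∧ α ≤ u - d := by
  have hR := RR_ge hb
  have hpb : 1 ≤ 2 ^ b := Nat.one_le_two_pow
  have hαa : α ≤ a := by
    rcases hα with h | h <;> omega
  obtain ⟨t1, t2, t3, t4⟩ := mem_Brd.1 hg
  have hSA : g ∈ SA := ⟨fun _ _ _ => Set.mem_univ _, t2⟩
  have ha' : (1 : ℤ) ≤ a := by exact_mod_cast ha
  have hah' : (a : ℤ) < h := by exact_mod_cast hah
  obtain ⟨i, i1, i2, i3⟩ := exists_last (P := fun i => lev g i ≤ 3 * a) g.length (by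
    show lev g 0 ≤ 3 * a
    rw [lev_zero]
    omega)
  have i4 : i < g.length := by
    rcases Nat.lt_or_ge i g.length with h' | h'
    · exact h'
    · exfalso
      have : i = g.length := by omega
      rw [this, t4] at i2
      omega
  have i5 : ∀ k, i < k → k ≤ g.length → 3 * (a : ℤ) < lev g k := fun k k1 k2 => not_le.1 (i3 k k1 k2)
  -- the vertex i is a foot
  have hmod := lev_mod g i
  have hmod' := lev_mod g (i + 1)
  have hfoot : lev g i = 3 * a ∧ dx up g i = up := by
    have h1 := i5 (i + 1) (by omega) (by omega)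
    rcases cl_cases (D := up) upd g i with h2 | h2
    · rcases step_pos (D := up) upd h2 with ⟨a1, a2⟩ | a2
      · have a2' : lev g (i + 1) = lev g i + 2 := a2
        refine ⟨?_, a1⟩
        by_cases hev : Even i
        · rw [if_pos hev] at hmod
          omega
        · rw [if_neg hev] at hmod
          rw [if_pos (Nat.even_add_one.2 hev)] at hmod'
          omega
      · have a2' : lev g (i + 1) = lev g i - 1 := a2
        omega
    · rcases step_neg (D := up) upd h2 with ⟨a1, a2⟩ | a2
      · have a2' : lev g (i + 1) = lev g i - 2 := a2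
        omega
      · have a2' : lev g (i + 1) = lev g i + 1 := a2
        exfalso
        by_cases hev : Even i
        · rw [if_pos hev] at hmod
          rw [if_neg (by rw [Nat.even_add_one]; simpa using hev)] at hmod'
          omega
        · rw [if_neg hev] at hmod
          rw [if_pos (Nat.even_add_one.2 hev)] at hmod'
          omega
  obtain ⟨f1, f2⟩ := hfoot
  have i6 : 1 ≤ i := by
    by_contra hcon
    have : i = 0 := by omega
    rw [this, lev_zero] at f1
    omega
  obtain ⟨i', rfl⟩ : ∃ i', i = i' + 1 := ⟨i - 1, by omega⟩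
  have f3 := pre_foot f2
  obtain ⟨p, -, p2, p3, p4⟩ := exists_last_max (lev g) (Nat.zero_le (i' + 1))
  rcases Nat.lt_or_ge p (i' + 1) with hp | hp
  swap
  · -- a cut
    left
    have hpi : p = i' + 1 := by omega
    rw [hpi] at p3
    have hcut : Cut g a := (cut_iff hg).2 ⟨i' + 1, by omega, f1, f2, fun k hk => by rw [← f1]; exact p3 k (Nat.zero_le _) hk, i5⟩
    obtain ⟨s, u, b', s1, u1, hsu⟩ := hcut
    have hs3 := (mem_Brd.1 s1).2.2.1
    have hs4 := (mem_Brd.1 s1).2.2.2
    have hb' : b' = h - a := by
      have := Brd_append s1 u1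
      rw [← hsu] at this
      have := Brd_height this hg
      omega
    rw [hb'] at u1
    refine ⟨s, s1, u, u1, ?_, hsu⟩
    intro j j' j1 j2 j3 j4
    have h0 := (lev_range u1 j2).1
    have h1 := hc (s.length + j) (s.length + j') (by omega) (by rw [hsu, List.length_append]; omega)
    rw [hsu, lev_cat hs3, lev_cat hs3, hs4] at h1
    have h2 := h1 (by omega) (by omega)
    omega
  · -- a zig-zag
    right
    have p5 : 3 * (a : ℤ) < lev g p := by
      have := p4 (i' + 1) hp le_rfl
      omega
    have p6 : p < i' := by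
      rcases Nat.lt_or_ge p i' with h' | h'
      · exact h'
      · exfalso
        have : p = i' := by omega
        rw [this] at p5
        omega
    have p7 : 1 ≤ p := by
      by_contra hcon
      have : p = 0 := by omega
      rw [this, lev_zero] at p5
      omega
    obtain ⟨e, rfl⟩ : ∃ e, p = e + 1 := ⟨p - 1, by omega⟩
    -- the bottom fold
    obtain ⟨q, q1, q2, q3, q4⟩ := exists_last_max (fun k => -lev g k) (a := e + 1) (n := g.length) (by omega)
    have q5 : lev g q < 3 * a := by
      have := q3 i' (by omega) (by omega)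
      omega
    have q6 : q < i' + 1 := by
      by_contra hcon
      rcases Nat.lt_or_ge (i' + 1) q with h' | h'
      · have := i5 q h' q2
        omega
      · have : q = i' + 1 := by omega
        rw [this] at q5
        omega
    have q7 : e + 1 < q := by
      rcases Nat.lt_or_ge (e + 1) q with h' | h'
      · exact h'
      · exfalso
        have : q = e + 1 := by omega
        rw [this] at q5
        omega
    -- the bottom fold lies in the window
    have q0 : 3 * (α : ℤ) ≤ lev g q := by
      rcases hα with rfl | hα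
      · have := (lev_range hg q2).1
        omega
      · by_contra hcon
        have hcon' : lev g q < 3 * (α : ℤ) := not_le.1 hcon
        have hα' : (α : ℤ) + 2 ^ b ≤ a := by exact_mod_cast hα
        obtain ⟨r, r1, r2, r3⟩ := exists_last (P := fun r => 3 * (α : ℤ) ≤ lev g (e + 1 + r)) (q - (e + 1)) (by
          show 3 * (α : ℤ) ≤ lev g (e + 1)
          have : (0 : ℤ) ≤ 2 ^ b := by positivity
          omega)
        have r4 : r < q - (e + 1) := by
          rcases Nat.lt_or_ge r (q - (e + 1)) with h' | h'
          · exact h'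
          · exfalso
            have h3 : e + 1 + r = q := by omega
            rw [h3] at r2
            omega
        have r5 := r3 (r + 1) (by omega) (by omega)
        rw [not_le] at r5
        have r6 := lev_down g (e + 1 + r)
        have r7 : lev g (e + 1 + r + 1) < 3 * (α : ℤ) := r5
        have r8 := hc (e + 1) (e + 1 + r) (by omega) (by omega) r2 (by omega)
        unfold RR at r8
        omega
    -- the first leaf
    obtain ⟨c, M, hM1, hM, hsplit, hB, hlen, hvx, hvq, -, -, hH⟩ := fold_step (q := g) (e := e + 1) (by omega) (by omega)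
      t2 (fun j j1 j2 => ⟨(lev_range hg (by omega)).2.2 j1, p3 j (Nat.zero_le _) (by omega)⟩)
      (p4 (e + 1 + 1) (by omega) (by omega)) (p4 (e + 1 + 2) (by omega) (by omega))
    have hlG : lst (g.take (e + 1 - 1) ++ [!c]) = !c := lst_append _ _
    -- the second leaf
    have hx : ∀ l, xD (-up) g l = -lev g l := by
      intro l
      unfold xD lev
      rw [ip_neg_right]
    have q8 : lev g (q + 1) > lev g q := by
      have := q4 (q + 1) (by omega) (by omega)
      omega
    have q9 : lev g (q + 2) > lev g q := by
      have := q4 (q + 2) (by omega) (by omega)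
      omega
    have hgap : lev g q + 4 ≤ lev g (e + 1) := by
      rw [hM] at p5 ⊢
      omega
    obtain ⟨c', d, r1, r2, r3, r4, r5, r6, r7, r8, r9, r10, r11, r12⟩ := leaf_core (D := -up) (dirs_neg upd) hSA (e := e)
      (e' := q) (by omega) (by omega)
      (by
        rw [hx, hx]
        have := p3 e (Nat.zero_le _) (by omega)
        omega)
      (fun k k1 k2 => by
        rw [hx, hx, hx]
        have h1 := p4 k k1 (by omega)
        have h2 := q3 k (by omega) (by omega)
        constructor <;> omega)
      (by
        rw [hx, hx]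
        omega)
      (by
        rw [hx, hx]
        omega)
      (by
        rw [hx, hx]
        omega)
    obtain ⟨D, hD⟩ : ∃ D, D = lw g (e + 1) q := ⟨_, rfl⟩
    rw [← hD] at r6 r7 r9 r10 r11 r12
    rw [hx, hx] at r5
    -- the third leaf
    obtain ⟨a', rfl⟩ : ∃ a', q = a' + 1 := ⟨q - 1, by omega⟩
    obtain ⟨w, w1, w2, w3, w4⟩ := last_leaf' hg (a := a') (by omega)
      (by
        have := q3 a' (by omega) (by omega)
        omega)
      (fun k k1 k2 => by
        have := q4 k k1 k2
        omega)
    have hd2 : d < 2 ^ b := by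
      have h1 := hc (e + 1) (a' + 1) (by omega) (by omega) q0 (by omega)
      have h6 : ((2 ^ b : ℕ) : ℤ) = 2 ^ b := by push_cast; rfl
      unfold RR at h1
      omega
    refine ⟨M, d, w, g.take (e + 1 - 1) ++ [!c], D, g.drop (a' + 2), hB, r6, w1, ?_, ?_, ?_, ?_, ?_, ?_, r3, hd2, ?_, ?_⟩
    · intro j j' j1 j2 j3 j4
      rw [w4] at j3 j4
      rw [w4, w4]
      rw [List.length_drop] at j2
      have h0 := q4 (a' + 2) (by omega) (by omega)
      have h5 : lev g (a' + 1) < lev g (a' + 2) := by omega
      have hw3 : dx up g (a' + 1 + 1) = up := w3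
      have h6 := pre_foot hw3
      have h1 := hc (a' + 2 + j) (a' + 2 + j') (by omega) (by omega) (by omega) (by
        have e1 : lev g (a' + 2) = lev g (a' + 1) + 1 := h6
        omega)
      omega
    · have hsp : g.drop (e + 1 + 1) = D.dropLast ++ (!lst D) :: (!lst D) :: g.drop (a' + 1 + 1) := by
        have hl : (g.take (e + 2)).length = e + 2 := by
          rw [List.length_take]
          omega
        conv_lhs => rw [r10]
        rw [List.drop_append_of_le_length (by omega), List.drop_of_length_le (by omega), List.nil_append]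
      show (g.take (e + 1 - 1) ++ [!c]).dropLast ++ (!lst (g.take (e + 1 - 1) ++ [!c])) ::
        (!lst (g.take (e + 1 - 1) ++ [!c])) :: (D.dropLast ++ (!lst D) :: (!lst D) :: g.drop (a' + 2)) = g
      rw [hlG, Bool.not_not, List.dropLast_concat, ← hsp, ← hsplit]
    · show Hang _ (lst _) D
      rw [hlG]
      apply hH
      intro k hk
      refine ⟨by omega, ?_⟩
      rw [r9 k hk, ← hvq]
    · exact r12 _ fun k hk => by
        rw [List.length_drop] at hk
        exact ⟨by omega, rfl⟩
    · have : (a : ℤ) ≤ M := by omega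
      exact_mod_cast this
    · have : (M : ℤ) ≤ a + d := by omega
      exact_mod_cast this
    · omega
    · omega

end NTm

end HexObs
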