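import Pool.Agent.NT.VNorm
import Pool.Agent.SDN.CleanFin

/-!
NT (natural time), module 2: the tall bridges without small backtracks in a window of rows have small norm at the coarse scale.
-/

set_option autoImplicit false

namespace HexObs

namespace NTm

open Finset TS SDN SDN.CN

open scoped ENNReal

/-- bridges without backtracks of the scale k + 5 in the window of the rows z 2 ^ kc, ..., (z + 3) 2 ^ kc -/
def GW (k kc N z : ℕ) : Set (List Bool) :=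
  {g | ∃ h, (z + 19) * 2 ^ kc ≤ h ∧ h ≤ N ∧ g ∈ Brd h ∧ Win (k + 5) (z * 2 ^ kc) ((z + 3) * 2 ^ kc) g}

/-- the first step -/
lemma stp_GW {k s kc N n z : ℕ} (hk : k + 5 ≤ kc) (hn : n * 2 ^ (k + s) ≤ 2 ^ kc) :
    Stp k ((z + 1) * 2 ^ kc) ((z + 2) * 2 ^ kc) (2 ^ (kc + 4)) (GW k kc N z) (BrR ((z + 1) * 2 ^ kc) ((z + 3) * 2 ^ kc))
      (VW k s (2 ^ (kc + 4)) N n) := by
  obtain ⟨c, hc⟩ : ∃ c, c = 2 ^ kc := ⟨_, rfl⟩
  have hc5 : 2 ^ (k + 5) ≤ c := by
    rw [hc]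
    exact Nat.pow_le_pow_right (by norm_num) hk
  have hp5 : 1 ≤ 2 ^ (k + 5) := Nat.one_le_two_pow
  have e16 : 2 ^ (kc + 4) = 16 * c := by
    rw [hc, pow_add]
    ring
  have z1 : (z + 1) * c = z * c + c := by ring
  have z2 : (z + 2) * c = z * c + 2 * c := by ring
  have z3 : (z + 3) * c = z * c + 3 * c := by ring
  have z19 : (z + 19) * c = z * c + 19 * c := by ring
  rw [e16]
  rw [← hc] at hn ⊢
  refine ⟨?_, ?_, ?_, VW_HB le_rfl, by omega⟩
  · rintro g ⟨h, h1, h2, hg, hw⟩ a ha1 ha2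
    rw [← hc] at h1 hw
    rcases cut_or_zig (b := k + 5) (by omega) hg hw (by omega : 1 ≤ a) (by omega : a < h) (Or.inr (by omega)) (by omega)
      (by omega) with ⟨t1, ht1, t2, ht2, ht2c, rfl⟩ |
        ⟨u, d, w, G1, D, G3, hG1, hD, hG3, hG3c, hunf, f1, f2, i1, i2, i3, i4, i5, -⟩
    · left
      refine ⟨t1, ht1, ⟨a, by omega, by omega, ht1⟩, t2, ⟨h - a, by omega, by omega, ht2, ?_⟩, rfl⟩
      exact Win_mono le_rfl (by omega) ht2c
    · right
      refine ⟨G1, D, G3, ⟨u, by omega, by omega, hG1⟩, ⟨d, i3, i4, hD⟩, ⟨w, by omega, by omega, hG3, ?_⟩, hunf, f1, f2,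
        ?_, ?_⟩
      · exact Win_mono le_rfl (by omega) hG3c
      · rw [hgt_eq hG1]
        exact i1
      · rw [hgt_eq hG1, hgt_eq hD]
        exact i2
  · rintro g ⟨h, h1, h2, hg, -⟩
    rw [← hc] at h1
    exact ⟨h, by omega, hg⟩
  · rintro g ⟨u, u1, u2, u3⟩
    exact ⟨u, by omega, u3⟩

/-- the norm of one window -/
theorem norm_GW : ∃ (K : ℝ) (s : ℕ), 1 ≤ K ∧ 6 ≤ s ∧ ∀ (kc J n k z : ℕ) (Φ : List Bool → ℝ≥0∞), HerD (2 ^ (kc + 4)) Φ →
    k + 5 ≤ kc → n * 2 ^ (k + s) ≤ 2 ^ kc → k + s ≤ kc → 2 ≤ J → 15 ≤ z →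
    xT (2 ^ (kc + 4)) kc (vA (2 ^ (kc + 4)) (GW k kc (2 ^ (kc + J)) z) Φ) ≤
      ENNReal.ofReal (K * 4 ^ J / 4 ^ n) * xT (2 ^ (kc + 4)) kc Φ ∧
    Rec8.sw (GW k kc (2 ^ (kc + J)) z) Φ ≤ ENNReal.ofReal (K * 4 ^ J / 4 ^ n * Ub kc) * xT (2 ^ (kc + 4)) kc Φ := by
  obtain ⟨C, δ, hInp⟩ := inp_exists
  obtain ⟨K0, hK0, htot⟩ := totH hInp
  obtain ⟨K1, hK1, htwo⟩ := two_scale
  obtain ⟨K2, hK2, hnA⟩ := nA hInp
  obtain ⟨s, hs, hnum⟩ := link_num (K0 + K1) K2 (by linarith) hK2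
  refine ⟨K0 + K1, s, by linarith, hs, ?_⟩
  intro kc J n k z Φ hΦ hk hn hks hJ hz
  obtain ⟨N, hN⟩ : ∃ N, N = 2 ^ (kc + J) := ⟨_, rfl⟩
  obtain ⟨D, hD⟩ : ∃ D, D = 2 ^ (kc + 4) := ⟨_, rfl⟩
  obtain ⟨c, hc⟩ : ∃ c, c = 2 ^ kc := ⟨_, rfl⟩
  have hD16 : D = 16 * c := by
    rw [hD, hc, pow_add]
    ring
  have hc1 : 1 ≤ c := by
    rw [hc]
    exact Nat.one_le_two_pow
  rw [← hN, ← hD]
  rw [← hD] at hΦ
  rcases Nat.lt_or_ge N ((z + 19) * c) with hzN | hzN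
  · -- the set is empty
    have h0 : GW k kc N z = ∅ := by
      ext g
      constructor
      · rintro ⟨h, h1, h2, -⟩
        rw [← hc] at h1
        omega
      · intro h
        exact h.elim
    have h1 : ∀ t, vA D (GW k kc N z) Φ t = 0 := by
      intro t
      unfold vA
      rw [Rec8.sw_ind, ENNReal.tsum_eq_zero]
      intro g
      rw [if_neg]
      rintro ⟨h, -⟩
      rw [h0] at h
      exact h
    constructor
    · refine xT_le fun b I _ _ => ?_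
      simp only [h1]
      rw [Rec8.sw_zero]
      exact zero_le
    · rw [h0, Rec8.sw_ind]
      simp
  -- numbers
  have z19 : (z + 19) * c = z * c + 19 * c := by ring
  have z1 : (z + 1) * c = z * c + c := by ring
  have z3 : (z + 3) * c = z * c + 3 * c := by ring
  have hzc : 15 * c ≤ z * c := Nat.mul_le_mul_right _ hz
  have hUk := Ub_pos kc
  have hUN : 0 < UU N := Num2Aux.UU_pos _
  have hnA' : ∀ (i : ℕ) (Ψ : List Bool → ℝ≥0∞), Hered Ψ → xT (2 ^ (i + 4)) i (vA (2 ^ (i + 4)) (BrR (2 ^ (i + 4)) (2 ^ (i + 4 + 1))) Ψ) ≤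
      ENNReal.ofReal (32 * K2) * xT (2 ^ (i + 4)) i Ψ := by
    intro i Ψ hΨ
    have h1 := hnA (2 ^ (i + 4)) (2 ^ (i + 4 + 1)) i LFold 32 Ψ hΨ RNb_LFold le_rfl (by norm_num) (by
      have h2 := UU_ratio_up i 5
      have e : (32 : ℝ) = 2 ^ 5 := by norm_num
      rw [e]
      exact h2)
    rw [mul_comm K2 32] at h1
    exact h1
  have hlk : 0 ≤ lk k K2 := lk_nonneg k hK2
  have hnum1 : (K0 + K1) * UU (4 * 2 ^ (k + s)) * (64 * lk k K2) ≤ 2 ^ (k + s) := by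
    refine le_trans ?_ (hnum k)
    have hU4 : 0 < UU (4 * 2 ^ (k + s)) := Num2Aux.UU_pos _
    apply mul_le_mul_of_nonneg_left _ (by positivity)
    show 64 * lk k K2 ≤ 84 * lk k K2
    linarith
  have hPV := PV_all hK0 hK1 hK2 htot htwo hnA' (k := k) (s := s) (E := D) (N := N) (D := D) (kc := kc) hs (by rw [hD])
    (by rw [hD]; exact Nat.pow_le_pow_right (by norm_num) (by omega)) le_rfl (by omega) hnum1 hΦ
    (M := 64 * ((K0 + K1) * UU N)) le_rfl n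
  have hstp := stp_GW (s := s) (N := N) (z := z) hk hn
  rw [← hD, ← hc] at hstp
  obtain ⟨W, hW⟩ : ∃ W, W = VW k s D N n := ⟨_, rfl⟩
  obtain ⟨X, hX⟩ : ∃ X, X = BrR ((z + 1) * c) ((z + 3) * c) := ⟨_, rfl⟩
  rw [← hW, ← hX] at hstp
  obtain ⟨m, hm⟩ : ∃ m, m = 64 * ((K0 + K1) * UU N) / 4 ^ n := ⟨_, rfl⟩
  have hm0 : 0 ≤ m := by rw [hm]; positivity
  have hcard : (((z + 2) * c - (z + 1) * c : ℕ) : ℝ≥0∞) = 2 ^ kc := by
    have : (z + 2) * c - (z + 1) * c = 2 ^ kc := by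
      have z2 : (z + 2) * c = z * c + 2 * c := by ring
      omega
    rw [this]
    push_cast
    rfl
  have ih1 : ∀ i, i ≤ k → xT (2 ^ (i + 4)) i (vA (2 ^ (i + 4)) W Φ) ≤ ENNReal.ofReal (m / Ub i) * xT D kc Φ := by
    intro i hi
    rw [hW, hm]
    exact hPV.near i hi
  have ih2 : Rec8.sw W Φ ≤ ENNReal.ofReal m * xT D kc Φ := by
    rw [hW, hm]
    exact hPV.free
  have hK : 0 ≤ (K0 + K1) * UU N := by positivity
  have hi4 : ∀ i, i ≤ k → 2 ^ (i + 4) ≤ D := fun i hi => by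
    rw [hD]
    exact Nat.pow_le_pow_right (by norm_num) (by omega)
  have hU3 : UU ((z + 3) * c) ≤ UU N := UU_mono (by omega)
  have hU30 : 0 < UU ((z + 3) * c) := Num2Aux.UU_pos _
  -- the final number
  have hfin : (K0 + K1) * UU N * lk k K2 * m ≤ 2 ^ kc * ((K0 + K1) * 4 ^ J / 4 ^ n * Ub kc) := by
    obtain ⟨q, hq⟩ : ∃ q, kc + J = k + s + 2 + q := ⟨kc + J - (k + s + 2), by omega⟩
    have h1 : UU N ≤ 2 ^ q * UU (4 * 2 ^ (k + s)) := by
      have h2 := UU_ratio_up (k + s + 2) q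
      have e : 4 * 2 ^ (k + s) = 2 ^ (k + s + 2) := by
        rw [pow_add _ (k + s) 2]
        ring
      rw [e, hN, hq]
      exact h2
    have h2 : UU N ≤ 2 ^ J * Ub kc := by
      rw [hN]
      exact UU_ratio_up kc J
    have h3 : (K0 + K1) * UU N * (64 * lk k K2) ≤ 2 ^ q * 2 ^ (k + s) := by
      calc (K0 + K1) * UU N * (64 * lk k K2) ≤ (K0 + K1) * (2 ^ q * UU (4 * 2 ^ (k + s))) * (64 * lk k K2) := by gcongr
        _ = 2 ^ q * ((K0 + K1) * UU (4 * 2 ^ (k + s)) * (64 * lk k K2)) := by ring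
        _ ≤ _ := by gcongr
    have h4 : (2 : ℝ) ^ q * 2 ^ (k + s) ≤ 2 ^ kc * 2 ^ J := by
      rw [← pow_add, ← pow_add, hq]
      exact pow_le_pow_right₀ (by norm_num) (by omega)
    calc (K0 + K1) * UU N * lk k K2 * m = ((K0 + K1) * UU N * (64 * lk k K2)) * ((K0 + K1) * UU N / 4 ^ n) := by
          rw [hm]
          ring
      _ ≤ (2 ^ kc * 2 ^ J) * ((K0 + K1) * (2 ^ J * Ub kc) / 4 ^ n) := by
          refine mul_le_mul (h3.trans h4) ?_ (by positivity) (by positivity)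
          gcongr
      _ = _ := by
          have e : (4 : ℝ) ^ J = 2 ^ J * 2 ^ J := by
            rw [← mul_pow]
            norm_num
          rw [e]
          ring
  have hc0 : (2 : ℝ≥0∞) ^ kc ≠ 0 := by positivity
  have hct : (2 : ℝ≥0∞) ^ kc ≠ ⊤ := ENNReal.pow_ne_top (by norm_num)
  constructor
  · have hstep : ∀ t, 2 ^ kc * vA D (GW k kc N z) Φ t ≤
        vA D X (fun _ => 257 * Rec8.sw W Φ) t + ∑ j ∈ Ico 4 (k + 5), 2 ^ (j + 1) * vA D X (ZZ j W Φ) t := by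
      intro t
      have h0 := step_avg hstp hΦ (fun g => RT D LFold t g)
        (fun x y ⟨Z, z1, z2, z3⟩ => ⟨Z, z1, z2, LFold_pre z3⟩)
        (fun x y z hx ⟨Z, z1, z2, z3⟩ => ⟨Z, z1, z2, LFold_fst hx z3⟩)
      rw [hcard] at h0
      exact h0
    have h1 : 2 ^ kc * xT D kc (vA D (GW k kc N z) Φ) ≤
        xT D kc (vA D X (fun _ => 257 * Rec8.sw W Φ)) +
        ∑ j ∈ Ico 4 (k + 5), 2 ^ (j + 1) * xT D kc (vA D X (ZZ j W Φ)) := by
      have h2 : vA D (GW k kc N z) Φ = fun t => (2 ^ kc)⁻¹ * (2 ^ kc * vA D (GW k kc N z) Φ t) := by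
        funext t
        rw [← mul_assoc, ENNReal.inv_mul_cancel hc0 hct, one_mul]
      have h3 : xT D kc (vA D (GW k kc N z) Φ) ≤ (2 ^ kc)⁻¹ *
          xT D kc (fun t => 2 ^ kc * vA D (GW k kc N z) Φ t) := by
        conv_lhs => rw [h2]
        exact xT_smul _ _ _ _
      calc 2 ^ kc * xT D kc (vA D (GW k kc N z) Φ) ≤
            2 ^ kc * ((2 ^ kc)⁻¹ * xT D kc (fun t => 2 ^ kc * vA D (GW k kc N z) Φ t)) := by
            gcongr
        _ = xT D kc (fun t => 2 ^ kc * vA D (GW k kc N z) Φ t) := by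
            rw [← mul_assoc, ENNReal.mul_inv_cancel hc0 hct, one_mul]
        _ ≤ _ := by
            refine (xT_mono hstep).trans ((xT_add _ _ _ _).trans (add_le_add le_rfl ?_))
            refine (xT_sum _ _ _ _).trans (Finset.sum_le_sum fun j _ => ?_)
            exact xT_smul _ _ _ _
    apply le_of_mul (k := kc) (s := 0)
    refine h1.trans ?_
    have h5 := link (k := k) (W := W) (Φ := Φ) (x := xT D kc Φ) (m := m) (K1 := (K0 + K1) * UU N) (K2 := K2)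
      (κ := 1 / Ub kc) hm0 hK hK2 (by positivity) ih1 ih2 hnA'
      (X := xT D kc (vA D X (fun _ => 257 * Rec8.sw W Φ)))
      (Z := fun j => xT D kc (vA D X (ZZ j W Φ))) ?_ ?_
    · refine h5.trans (fin_link ?_)
      have h6 : (K0 + K1) * UU N * lk k K2 * (m * (1 / Ub kc)) = (K0 + K1) * UU N * lk k K2 * m / Ub kc := by ring
      rw [h6, div_le_iff₀ hUk]
      refine hfin.trans (le_of_eq ?_)
      rw [add_zero]
      ring
    · rw [hX]
      refine (htwo D kc D kc ((z + 1) * c) ((z + 3) * c) _ (fun _ _ _ => le_rfl) (by rw [hD]) (by rw [hD])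
        (by omega) (by omega) (by omega)).trans ?_
      refine mul_le_mul' (ENNReal.ofReal_le_ofReal ?_) (xT_const _ _ _)
      rw [mul_div_assoc', mul_one_div]
      apply div_le_div_of_nonneg_right _ hUk.le
      exact mul_le_mul (by linarith) hU3 hU30.le (by positivity)
    · intro j hj
      rw [hX]
      refine (htwo D kc (2 ^ (j + 4)) j ((z + 1) * c) ((z + 3) * c) _ (hered_vA _ _ _) (by rw [hD]) le_rfl
        (by omega) (by have := hi4 j hj; omega) (by omega)).trans ?_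
      refine mul_le_mul_left (ENNReal.ofReal_le_ofReal ?_) _
      rw [mul_div_assoc', mul_one_div]
      apply div_le_div_of_nonneg_right _ hUk.le
      exact mul_le_mul (by linarith) hU3 hU30.le (by positivity)
  · have h1 := step_avg hstp hΦ (fun _ => True) (fun _ _ _ => trivial) (fun _ _ _ _ _ => trivial)
    rw [hcard] at h1
    apply le_of_mul (k := kc) (s := 0)
    have e1 : Rec8.sw {g | g ∈ GW k kc N z ∧ True} Φ = Rec8.sw (GW k kc N z) Φ := by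
      congr 1
      ext g
      simp
    rw [e1] at h1
    refine h1.trans ?_
    have h5 := link (k := k) (W := W) (Φ := Φ) (x := xT D kc Φ) (m := m) (K1 := (K0 + K1) * UU N) (K2 := K2)
      (κ := 1) hm0 hK hK2 (by norm_num) ih1 ih2 hnA'
      (X := Rec8.sw {x | x ∈ X ∧ True} (fun _ => 257 * Rec8.sw W Φ))
      (Z := fun j => Rec8.sw {x | x ∈ X ∧ True} (ZZ j W Φ)) ?_ ?_
    · refine h5.trans (fin_link ?_)
      rw [mul_one, add_zero]
      exact hfin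
    · refine (Rec8.sw_mono (B := BrR D N) (Ψ := fun _ => 257 * Rec8.sw W Φ) (fun x hx => by
        obtain ⟨hx1, -⟩ := hx
        rw [hX] at hx1
        obtain ⟨u, u1, u2, u3⟩ := hx1
        exact ⟨u, by omega, by omega, u3⟩) fun _ _ => le_rfl).trans ?_
      refine (htot D N kc _ (fun _ _ _ => le_rfl) (by rw [hD])).trans ?_
      refine mul_le_mul' (ENNReal.ofReal_le_ofReal ?_) (xT_const _ _ _)
      rw [mul_one]
      exact mul_le_mul_of_nonneg_right (by linarith) hUN.le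
    · intro j hj
      have hj2 := hi4 j hj
      refine (Rec8.sw_mono (B := BrR (2 ^ (j + 4)) N) (Ψ := ZZ (j + 4) W Φ) (fun x hx => by
        obtain ⟨hx1, -⟩ := hx
        rw [hX] at hx1
        obtain ⟨u, u1, u2, u3⟩ := hx1
        exact ⟨u, by omega, by omega, u3⟩) fun _ _ => le_rfl).trans ?_
      refine (htot (2 ^ (j + 4)) N j _ (hered_vA _ _ _) le_rfl).trans ?_
      refine mul_le_mul_left (ENNReal.ofReal_le_ofReal ?_) _
      rw [mul_one]
      exact mul_le_mul_of_nonneg_right (by linarith) hUN.le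

/-- tall bridges without backtracks of the scale k + 5 in some window -/
def GU (k kc N : ℕ) : Set (List Bool) := {g | ∃ z, 15 ≤ z ∧ g ∈ GW k kc N z}

lemma GU_sw {k kc J : ℕ} (Q : List Bool → Prop) (Φ : List Bool → ℝ≥0∞) :
    Rec8.sw {g | g ∈ GU k kc (2 ^ (kc + J)) ∧ Q g} Φ ≤
      ∑ z ∈ (range (2 ^ J)).filter (fun z => 15 ≤ z), Rec8.sw {g | g ∈ GW k kc (2 ^ (kc + J)) z ∧ Q g} Φ := by
  classical
  have e : ∀ z ∈ (range (2 ^ J)).filter (fun z => 15 ≤ z), Rec8.sw {g | g ∈ GW k kc (2 ^ (kc + J)) z ∧ Q g} Φ =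
      ∑' g : List Bool, (if g ∈ GW k kc (2 ^ (kc + J)) z ∧ Q g then wE g * Φ g else 0) := by
    intro z _
    rw [Rec8.sw_ind]
    refine tsum_congr fun g => ?_
    by_cases hg : g ∈ GW k kc (2 ^ (kc + J)) z ∧ Q g
    · rw [if_pos hg, if_pos (show g ∈ {g | g ∈ GW k kc (2 ^ (kc + J)) z ∧ Q g} from hg)]
    · rw [if_neg hg, if_neg (show ¬ g ∈ {g | g ∈ GW k kc (2 ^ (kc + J)) z ∧ Q g} from hg)]
  rw [Finset.sum_congr rfl e, ← Summable.tsum_finsetSum (fun _ _ => ENNReal.summable), Rec8.sw_ind]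
  refine ENNReal.tsum_le_tsum fun g => ?_
  by_cases hg : g ∈ {g | g ∈ GU k kc (2 ^ (kc + J)) ∧ Q g}
  · rw [if_pos hg]
    obtain ⟨⟨z, z1, hz⟩, hq⟩ := hg
    have hz2 : z < 2 ^ J := by
      obtain ⟨h, h1, h2, -⟩ := hz
      have h3 : (z + 19) * 2 ^ kc ≤ 2 ^ J * 2 ^ kc := by
        rw [← pow_add, add_comm J kc]
        omega
      have h4 := Nat.le_of_mul_le_mul_right h3 (by positivity)
      omega
    refine le_trans ?_ (Finset.single_le_sum (f := fun z => (if g ∈ GW k kc (2 ^ (kc + J)) z ∧ Q g then wE g * Φ g else 0))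
      (fun _ _ => zero_le) (Finset.mem_filter.2 ⟨Finset.mem_range.2 hz2, z1⟩))
    rw [if_pos ⟨hz, hq⟩]
  · rw [if_neg hg]
    exact zero_le

/-- the norm of all windows -/
theorem norm_GU : ∃ (K : ℝ) (s : ℕ), 1 ≤ K ∧ 6 ≤ s ∧ ∀ (kc J n k : ℕ) (Φ : List Bool → ℝ≥0∞), HerD (2 ^ (kc + 4)) Φ →
    k + 5 ≤ kc → n * 2 ^ (k + s) ≤ 2 ^ kc → k + s ≤ kc → 2 ≤ J →
    xT (2 ^ (kc + 4)) kc (vA (2 ^ (kc + 4)) (GU k kc (2 ^ (kc + J))) Φ) ≤
      ENNReal.ofReal (K * 8 ^ J / 4 ^ n) * xT (2 ^ (kc + 4)) kc Φ ∧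
    Rec8.sw (GU k kc (2 ^ (kc + J))) Φ ≤ ENNReal.ofReal (K * 8 ^ J / 4 ^ n * Ub kc) * xT (2 ^ (kc + 4)) kc Φ := by
  obtain ⟨K, s, hK, hs, h⟩ := norm_GW
  refine ⟨K, s, hK, hs, ?_⟩
  intro kc J n k Φ hΦ h1 h2 h3 h4
  have hU := Ub_pos kc
  have hcard : (((range (2 ^ J)).filter (fun z => 15 ≤ z)).card : ℝ) ≤ 2 ^ J := by
    have := Finset.card_filter_le (range (2 ^ J)) (fun z => 15 ≤ z)
    rw [Finset.card_range] at this
    exact_mod_cast this
  have h8 : (8 : ℝ) ^ J = 2 ^ J * 4 ^ J := by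
    rw [← mul_pow]
    norm_num
  constructor
  · have hstep : ∀ t, vA (2 ^ (kc + 4)) (GU k kc (2 ^ (kc + J))) Φ t ≤
        ∑ z ∈ (range (2 ^ J)).filter (fun z => 15 ≤ z), vA (2 ^ (kc + 4)) (GW k kc (2 ^ (kc + J)) z) Φ t := fun t =>
      GU_sw _ Φ
    refine (xT_mono hstep).trans ((xT_sum _ _ _ _).trans ?_)
    calc ∑ z ∈ (range (2 ^ J)).filter (fun z => 15 ≤ z), xT (2 ^ (kc + 4)) kc (fun t => vA (2 ^ (kc + 4)) (GW k kc (2 ^ (kc + J)) z) Φ t)
        ≤ ∑ z ∈ (range (2 ^ J)).filter (fun z => 15 ≤ z), ENNReal.ofReal (K * 4 ^ J / 4 ^ n) * xT (2 ^ (kc + 4)) kc Φ := by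
          refine Finset.sum_le_sum fun z hz => ?_
          exact (h kc J n k z Φ hΦ h1 h2 h3 h4 (Finset.mem_filter.1 hz).2).1
      _ = ENNReal.ofReal ((((range (2 ^ J)).filter (fun z => 15 ≤ z)).card : ℝ) * (K * 4 ^ J / 4 ^ n)) *
          xT (2 ^ (kc + 4)) kc Φ := by
          rw [Finset.sum_const, nsmul_eq_mul, ENNReal.ofReal_mul (Nat.cast_nonneg _), ENNReal.ofReal_natCast, mul_assoc]
      _ ≤ _ := by
          refine mul_le_mul_left (ENNReal.ofReal_le_ofReal ?_) _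
          rw [h8]
          calc (((range (2 ^ J)).filter (fun z => 15 ≤ z)).card : ℝ) * (K * 4 ^ J / 4 ^ n) ≤
                2 ^ J * (K * 4 ^ J / 4 ^ n) := by gcongr
            _ = _ := by ring
  · have e1 : Rec8.sw (GU k kc (2 ^ (kc + J))) Φ = Rec8.sw {g | g ∈ GU k kc (2 ^ (kc + J)) ∧ True} Φ := by
      congr 1
      ext g
      simp
    have e2 : ∀ z, Rec8.sw {g | g ∈ GW k kc (2 ^ (kc + J)) z ∧ True} Φ = Rec8.sw (GW k kc (2 ^ (kc + J)) z) Φ := by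
      intro z
      congr 1
      ext g
      simp
    rw [e1]
    refine (GU_sw _ Φ).trans ?_
    simp only [e2]
    calc ∑ z ∈ (range (2 ^ J)).filter (fun z => 15 ≤ z), Rec8.sw (GW k kc (2 ^ (kc + J)) z) Φ
        ≤ ∑ z ∈ (range (2 ^ J)).filter (fun z => 15 ≤ z), ENNReal.ofReal (K * 4 ^ J / 4 ^ n * Ub kc) * xT (2 ^ (kc + 4)) kc Φ := by
          refine Finset.sum_le_sum fun z hz => ?_
          exact (h kc J n k z Φ hΦ h1 h2 h3 h4 (Finset.mem_filter.1 hz).2).2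
      _ = ENNReal.ofReal ((((range (2 ^ J)).filter (fun z => 15 ≤ z)).card : ℝ) * (K * 4 ^ J / 4 ^ n * Ub kc)) *
          xT (2 ^ (kc + 4)) kc Φ := by
          rw [Finset.sum_const, nsmul_eq_mul, ENNReal.ofReal_mul (Nat.cast_nonneg _), ENNReal.ofReal_natCast, mul_assoc]
      _ ≤ _ := by
          refine mul_le_mul_left (ENNReal.ofReal_le_ofReal ?_) _
          rw [h8]
          calc (((range (2 ^ J)).filter (fun z => 15 ≤ z)).card : ℝ) * (K * 4 ^ J / 4 ^ n * Ub kc) ≤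
                2 ^ J * (K * 4 ^ J / 4 ^ n * Ub kc) := by gcongr
            _ = _ := by ring

end NTm

end HexObs
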