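import Pool.Agent.NT.Rep
import Pool.Agent.NT.Zig

/-!
NT (natural time), module 3: a large displacement of a bridge contains a full leaf of one of two scales, or it lies in a
leaf without small backtracks in a window.
-/

set_option autoImplicit false

namespace HexObs

namespace NTm

open Finset TS SDN

variable {b m u T : ℕ} {t : List Bool} {e : ℕ → ℕ}

lemma ee_zero (m n : ℕ) (e : ℕ → ℕ) : ee m n e 0 = 0 := rfl

lemma ee_last {m n : ℕ} {e : ℕ → ℕ} (hm : 1 ≤ m) : ee m n e m = n := by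
  unfold ee
  rw [if_neg (by omega), if_pos rfl]

lemma st_ge (e : ℕ → ℕ) (m n l : ℕ) (hl : l < m) : ee m n e l ≤ st e l ∧ st e l ≤ ee m n e l + 1 := by
  unfold ee st
  split_ifs <;> omega

/-- a time interval contains a full leaf, or it has at most one fold -/
lemma split_one (h' : Lf false b t m u (ee m t.length e)) (hm : 1 ≤ m) {i j : ℕ} (hij : i ≤ j) (hj : j ≤ t.length) :
    (∃ l, l < m ∧ i ≤ ee m t.length e l ∧ ee m t.length e (l + 1) ≤ j) ∨
    ∃ r, i ≤ r ∧ r ≤ j ∧ (∃ l, l < m ∧ ee m t.length e l ≤ i ∧ r ≤ ee m t.length e (l + 1)) ∧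
      ∃ l, l < m ∧ ee m t.length e l ≤ r ∧ j ≤ ee m t.length e (l + 1) := by
  classical
  set f := ee m t.length e with hf
  have hfm : f m = t.length := ee_last hm
  have hP : ∃ l, i < f (l + 1) ∨ l + 1 = m := ⟨m - 1, Or.inr (by omega)⟩
  obtain ⟨l, hl, hmin⟩ : ∃ l, (i < f (l + 1) ∨ l + 1 = m) ∧ ∀ l', l' < l → ¬ (i < f (l' + 1) ∨ l' + 1 = m) :=
    ⟨Nat.find hP, Nat.find_spec hP, fun l' h => Nat.find_min hP h⟩
  have hlm : l < m := by
    rcases hl with hl | hl
    · by_contra hc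
      have h1 := hmin (m - 1) (by omega)
      exact h1 (Or.inr (by omega))
    · omega
  have hli : f l ≤ i := by
    rcases Nat.eq_zero_or_pos l with h0 | h0
    · rw [h0]
      show 0 ≤ i
      omega
    · have h1 := hmin (l - 1) (by omega)
      rw [show l - 1 + 1 = l by omega] at h1
      by_contra hc
      exact h1 (Or.inl (by omega))
  rcases Nat.lt_or_ge (f (l + 1)) j with h1 | h1
  · have hl1 : l + 1 < m := by
      by_contra hc
      have : l + 1 = m := by omega
      rw [this, hfm] at h1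
      omega
    have hi1 : i ≤ f (l + 1) := by
      rcases hl with hl | hl
      · exact hl.le
      · omega
    rcases Nat.lt_or_ge (f (l + 1 + 1)) j with h2 | h2
    · exact Or.inl ⟨l + 1, hl1, hi1, h2.le⟩
    · exact Or.inr ⟨f (l + 1), hi1, h1.le, ⟨l, hlm, hli, le_rfl⟩, l + 1, hl1, le_rfl, h2⟩
  · exact Or.inr ⟨j, hij, le_rfl, ⟨l, hlm, hli, h1⟩, l, hlm, hli.trans hij, h1⟩

/-- the same with a displacement -/
lemma split_disp (h' : Lf false b t m u (ee m t.length e)) (hm : 1 ≤ m) {i j : ℕ} (hij : i ≤ j) (hj : j ≤ t.length)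
    {Y : ℤ} (hY : 2 * Y ≤ |lev t j - lev t i|) :
    (∃ l, l < m ∧ i ≤ ee m t.length e l ∧ ee m t.length e (l + 1) ≤ j) ∨
    ∃ i' j', i ≤ i' ∧ i' ≤ j' ∧ j' ≤ j ∧ Y ≤ |lev t j' - lev t i'| ∧
      ∃ l, l < m ∧ ee m t.length e l ≤ i' ∧ j' ≤ ee m t.length e (l + 1) := by
  rcases split_one h' hm hij hj with h1 | ⟨r, r1, r2, ⟨l, l1, l2, l3⟩, l', l1', l2', l3'⟩
  · exact Or.inl h1
  · right
    have h3 : |lev t j - lev t i| ≤ |lev t j - lev t r| + |lev t r - lev t i| := by
      have h4 : lev t j - lev t i = (lev t j - lev t r) + (lev t r - lev t i) := by ring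
      rw [h4]
      exact abs_add_le _ _
    rcases le_or_gt Y |lev t r - lev t i| with h4 | h4
    · exact ⟨i, r, le_rfl, r1, r2, h4, l, l1, l2, l3⟩
    · exact ⟨r, j, r1, r2, le_rfl, by omega, l', l1', l2', l3'⟩

lemma no_leaf {R : ℤ} {f : ℕ → ℤ} {n u : ℕ} {e : ℕ → ℕ} (h : Hyst f n R 0 u e) {i j : ℕ} (hi : i ≤ n) (hj : j ≤ n) :
    |f j - f i| ≤ 2 * R := by
  have h1 := h.start
  have h2 := h.fin
  have hle := h.le
  have hR : 0 ≤ R := by
    have := h1 (e 0) (e 0) le_rfl le_rfl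
    omega
  rw [abs_le]
  rcases Nat.le_total i (e 0) with a1 | a1 <;> rcases Nat.le_total j (e 0) with a2 | a2
  · have b1 := h1 i j a1 a2
    have b2 := h1 j i a2 a1
    constructor <;> omega
  · have b1 := h1 i (e 0) a1 le_rfl
    have b2 := h1 (e 0) i le_rfl a1
    have b3 := h2 j (e 0) a2 hj le_rfl hle
    have b4 := h2 (e 0) j le_rfl hle a2 hj
    constructor <;> omega
  · have b1 := h1 j (e 0) a2 le_rfl
    have b2 := h1 (e 0) j le_rfl a2
    have b3 := h2 i (e 0) a1 hi le_rfl hle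
    have b4 := h2 (e 0) i le_rfl hle a1 hi
    constructor <;> omega
  · have b1 := h2 i j a1 hi a2 hj
    have b2 := h2 j i a2 hj a1 hi
    constructor <;> omega

lemma sg_abs {k : ℕ} {x R Y : ℤ} (h1 : Y ≤ |x|) (h2 : - Tight.sg k x < R) (h3 : R ≤ Y) : Y ≤ Tight.sg k x := by
  unfold Tight.sg at h2 ⊢
  split_ifs at h2 ⊢
  · rcases le_or_gt 0 x with h | h
    · rw [abs_of_nonneg h] at h1
      omega
    · rw [abs_of_neg h] at h1
      omega
  · rcases le_or_gt 0 x with h | h
    · rw [abs_of_nonneg h] at h1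
      omega
    · rw [abs_of_neg h] at h1
      omega

/-- a crossing without small backtracks of a bridge without large backtracks gives a window -/
lemma window {kc k h : ℕ} {g : List Bool} (hg : g ∈ Brd h) (hc : g ∈ CL (kc + 5)) {p p' : ℕ} (hp : p ≤ p')
    (hp' : p' ≤ g.length) (hd : 204 * (2 : ℤ) ^ kc ≤ lev g p' - lev g p)
    (hs : ∀ i i', p ≤ i → i ≤ i' → i' ≤ p' → lev g i - lev g i' < RR (k + 5)) :
    ∃ z, 15 ≤ z ∧ (z + 19) * 2 ^ kc ≤ h ∧ Win (k + 5) (z * 2 ^ kc) ((z + 3) * 2 ^ kc) g := by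
  obtain ⟨c, hcdef⟩ : ∃ c : ℕ, c = 2 ^ kc := ⟨_, rfl⟩
  have hc1 : 1 ≤ c := by
    rw [hcdef]
    exact Nat.one_le_two_pow
  have hcz : (2 : ℤ) ^ kc = c := by
    rw [hcdef]
    push_cast
    rfl
  have hR : RR (kc + 5) = 96 * c - 2 := by
    unfold RR
    rw [pow_add, hcz]
    ring
  rw [hcz] at hd
  rw [← hcdef]
  have hy0 := (lev_range hg (i := p) (by omega)).1
  have hyh := (lev_range hg (i := p') hp').2.1
  obtain ⟨y, hy⟩ : ∃ y : ℕ, lev g p = y := ⟨(lev g p).toNat, by omega⟩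
  obtain ⟨z, hz⟩ : ∃ z : ℕ, z = (y + 96 * c) / (3 * c) + 1 := ⟨_, rfl⟩
  have hz1 : y + 96 * c < 3 * (z * c) := by
    have h1 := Nat.lt_div_mul_add (a := y + 96 * c) (b := 3 * c) (by omega)
    have h2 : 3 * (z * c) = (y + 96 * c) / (3 * c) * (3 * c) + 3 * c := by
      rw [hz]
      ring
    omega
  have hz2 : 3 * (z * c) ≤ y + 96 * c + 3 * c := by
    have h1 := Nat.div_mul_le_self (y + 96 * c) (3 * c)
    have h2 : 3 * (z * c) = (y + 96 * c) / (3 * c) * (3 * c) + 3 * c := by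
      rw [hz]
      ring
    omega
  have hz3 : (z + 3) * c = z * c + 3 * c := by ring
  have hz4 : (z + 19) * c = z * c + 19 * c := by ring
  refine ⟨z, ?_, ?_, ?_⟩
  · by_contra hcon
    have h1 : z ≤ 14 := by omega
    have h2 : z * c ≤ 14 * c := Nat.mul_le_mul_right _ h1
    omega
  · rw [hz4]
    have h1 : (3 * (z * c + 19 * c) : ℤ) ≤ 3 * h := by
      have h2 : (3 * (z * c) : ℤ) ≤ y + 96 * c + 3 * c := by exact_mod_cast hz2
      omega
    have h2 : ((z * c + 19 * c : ℕ) : ℤ) ≤ h := by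
      push_cast
      omega
    exact_mod_cast h2
  · intro i i' i1 i2 i3 i4
    have a1 : (3 * (z * c) : ℤ) > y + 96 * c := by exact_mod_cast hz1
    have a2 : (3 * (z * c) : ℤ) ≤ y + 96 * c + 3 * c := by exact_mod_cast hz2
    push_cast at i3 i4
    have i4' : lev g i' ≤ 3 * (z * c) + 9 * c := by
      refine i4.trans (le_of_eq ?_)
      ring
    have hpi : p ≤ i' := by
      by_contra hcon
      have := hc i' p (by omega) (by omega)
      rw [hR] at this
      omega
    have hpi' : i' ≤ p' := by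
      by_contra hcon
      have := hc p' i' (by omega) i2
      rw [hR] at this
      omega
    rcases Nat.lt_or_ge i p with h3 | h3
    · have h4 := hc i p h3.le (by omega)
      rw [hR] at h4
      have h5 : 0 ≤ (2 : ℤ) ^ (k + 5) := by positivity
      have h6 : (1 : ℤ) ≤ (2 : ℤ) ^ (k + 5) := one_le_pow₀ (by norm_num)
      unfold RR
      omega
    · exact hs i i' h3 i1 hpi'

/-- THE GEOMETRY: a large displacement -/
theorem geo {kc k : ℕ} (hk : k ≤ kc) (ht : t ∈ Brd T) (h : Lf false (kc + 5) t m u e) {m1 u1 : ℕ} {e1 : ℕ → ℕ}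
    (h1 : Lf false (k + 5) t m1 u1 e1) {i j : ℕ} (hij : i ≤ j) (hj : j ≤ t.length)
    (hd : 824 * (2 : ℤ) ^ kc ≤ |lev t j - lev t i|) :
    (∃ l, l < m ∧ i ≤ ee m t.length e l ∧ ee m t.length e (l + 1) ≤ j) ∨
    (∃ l, l < m1 ∧ i ≤ ee m1 t.length e1 l ∧ ee m1 t.length e1 (l + 1) ≤ j) ∨
    ∃ l, l < m ∧ ∀ g, IsLf t m e l g → ∀ h, g ∈ Brd h → ∃ z, 15 ≤ z ∧ (z + 19) * 2 ^ kc ≤ h ∧
      Win (k + 5) (z * 2 ^ kc) ((z + 3) * 2 ^ kc) g := by
  have hc1 : (1 : ℤ) ≤ 2 ^ kc := one_le_pow₀ (by norm_num)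
  have hR : RR (kc + 5) = 96 * 2 ^ kc - 2 := by
    unfold RR
    rw [pow_add]
    ring
  have hR1 : RR (k + 5) ≤ RR (kc + 5) := by
    unfold RR
    have : (2 : ℤ) ^ (k + 5) ≤ 2 ^ (kc + 5) := pow_le_pow_right₀ (by norm_num) (by omega)
    omega
  have hm : 1 ≤ m := by
    by_contra hcon
    have h0 : m = 0 := by omega
    subst h0
    have h3 := no_leaf h (i := i) (j := j) (by omega) hj
    simp only [lvl_false] at h3
    omega
  have hm1 : 1 ≤ m1 := by
    by_contra hcon
    have h0 : m1 = 0 := by omega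
    subst h0
    have h3 := no_leaf h1 (i := i) (j := j) (by omega) hj
    simp only [lvl_false] at h3
    omega
  obtain ⟨hu, hmo, h'⟩ := bridge_lf ht (by omega) h hm
  obtain ⟨hu1, hmo1, h1'⟩ := bridge_lf ht (by omega) h1 hm1
  rcases split_disp h' hm hij hj (Y := 412 * 2 ^ kc) (by omega) with hA | ⟨i2, j2, a1, a2, a3, a4, l, l1, l2, l3⟩
  · exact Or.inl hA
  rcases split_disp h1' hm1 a2 (by omega) (Y := 206 * 2 ^ kc) (by omega) with hB | ⟨i3, j3, b1, b2, b3, b4, l', l1', l2', l3'⟩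
  · right
    left
    obtain ⟨l', c1, c2, c3⟩ := hB
    exact ⟨l', c1, by omega, by omega⟩
  right
  right
  refine ⟨l, l1, fun g hg hh hgh => ?_⟩
  have hcl := isLf_cl ht (by omega) h l1 hg
  obtain ⟨s1, s2⟩ := st_ge e m t.length l l1
  have hlen := hg.len
  -- the two directions agree
  have hul : Even (u + l) ↔ Even (l + 1) := by
    rw [Nat.even_add, Nat.even_add_one]
    tauto
  have hul' : Even (u1 + l') ↔ Even (l' + 1) := by
    rw [Nat.even_add, Nat.even_add_one]
    tauto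
  have c1 := h'.small l l1 i3 j3 (by omega) b2 (by omega)
  have c2 := h1'.small l' l1' i3 j3 l2' b2 l3'
  rw [lvl_false, lvl_false, sg_par hul, sg_par hul] at c1
  rw [lvl_false, lvl_false, sg_par hul', sg_par hul'] at c2
  have d1 : 206 * 2 ^ kc ≤ Tight.sg (l + 1) (lev t j3 - lev t i3) := sg_abs b4 (R := RR (kc + 5)) (by
    rw [sg_sub]
    omega) (by omega)
  have d2 : 206 * 2 ^ kc ≤ Tight.sg (l' + 1) (lev t j3 - lev t i3) := sg_abs b4 (R := RR (kc + 5)) (by
    rw [sg_sub]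
    omega) (by omega)
  have hpar : Even (l + 1) ↔ Even (l' + 1) := by
    unfold Tight.sg at d1 d2
    by_cases x1 : Even (l + 1) <;> by_cases x2 : Even (l' + 1)
    · exact ⟨fun _ => x2, fun _ => x1⟩
    · exfalso
      rw [if_pos x1] at d1
      rw [if_neg x2] at d2
      omega
    · exfalso
      rw [if_neg x1] at d1
      rw [if_pos x2] at d2
      omega
    · exact ⟨fun h => absurd h x1, fun h => absurd h x2⟩
  have hij3 : i3 < j3 := by
    rcases Nat.lt_or_ge i3 j3 with h | h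
    · exact h
    · exfalso
      have : i3 = j3 := by omega
      rw [this, sub_self, abs_zero] at b4
      omega
  obtain ⟨i4, hi4⟩ : ∃ i4, i4 = max i3 (st e l) := ⟨_, rfl⟩
  have hi4a : i3 ≤ i4 ∧ st e l ≤ i4 ∧ i4 ≤ i3 + 1 := by
    rw [hi4]
    refine ⟨le_max_left _ _, le_max_right _ _, ?_⟩
    rw [max_le_iff]
    omega
  have hlev4 : |lev t i4 - lev t i3| ≤ 2 := by
    have h5 : i4 = i3 ∨ i4 = i3 + 1 := by omega
    rcases h5 with h5 | h5
    · rw [h5, sub_self, abs_zero]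
      norm_num
    · rw [h5, abs_le]
      have h6 := lev_down t i3
      have h7 : lev t (i3 + 1) ≤ lev t i3 + 2 := xD_step_le (D := up) upd t i3
      constructor <;> omega
  refine window hgh hcl (p := i4 - st e l) (p' := j3 - st e l) (by omega) (by omega) ?_ ?_
  · rw [hg.lv _ (by omega), hg.lv _ (by omega), show st e l + (j3 - st e l) = j3 by omega,
      show st e l + (i4 - st e l) = i4 by omega, ← sg_sub]
    have h5 : lev t j3 - lev t (st e l) - (lev t i4 - lev t (st e l)) = (lev t j3 - lev t i3) - (lev t i4 - lev t i3) := by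
      ring
    rw [h5, sg_sub]
    have h6 : Tight.sg (l + 1) (lev t i4 - lev t i3) ≤ 2 := by
      rw [abs_le] at hlev4
      unfold Tight.sg
      split_ifs <;> omega
    omega
  · intro x x' x1 x2 x3
    rw [hg.lv _ (by omega), hg.lv _ (by omega), ← sg_sub]
    have h5 : lev t (st e l + x) - lev t (st e l) - (lev t (st e l + x') - lev t (st e l)) =
        lev t (st e l + x) - lev t (st e l + x') := by ring
    rw [h5, sg_par hpar, sg_sub]
    have c3 := h1'.small l' l1' (st e l + x) (st e l + x') (by omega) (by omega) (by omega)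
    rw [lvl_false, lvl_false, sg_par hul', sg_par hul'] at c3
    exact c3

end NTm

end HexObs
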