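import Pool.Agent.NT.Chain
import Pool.Agent.T2.ANormT

/-!
NT (natural time), module 4: the leaves with few letters have small norm.
-/

set_option autoImplicit false

namespace HexObs

namespace NTm

open Finset TS SDN SDN.CN

open scoped ENNReal

/-- total weight of the short leaves -/
theorem totS {C δ : ℝ} (h : Inp C δ) : ∃ K : ℝ, 1 ≤ K ∧ ∀ (D N k : ℕ) (lam d : ℝ) (Φ : List Bool → ℝ≥0∞), Hered Φ → 2 ^ (k + 4) ≤ D →
    T2.Short N lam d → 0 ≤ d →
    Rec8.sw {g | g ∈ BrR D N ∧ (g.length : ℝ) < lam} Φ ≤ ENNReal.ofReal (K * (d * UU N)) * xT D k Φ := by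
  classical
  obtain ⟨K, hK, he⟩ := endsH h
  refine ⟨K, hK, fun D N k lam d Φ hΦ hD hS hd => ?_⟩
  have hD2 : 2 ^ (k + 1) ≤ D := (Nat.pow_le_pow_right (by norm_num) (by omega)).trans hD
  have hUN : 0 < UU N := Num2Aux.UU_pos _
  obtain ⟨G, hG⟩ : ∃ G : List Bool → ℝ≥0∞, G = fun g => if (g.length : ℝ) < lam then Φ g else 0 := ⟨_, rfl⟩
  have e1 : Rec8.sw {g | g ∈ BrR D N ∧ (g.length : ℝ) < lam} Φ = Rec8.sw (BrR D N) G := by
    rw [Rec8.sw_ind, Rec8.sw_ind]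
    refine tsum_congr fun g => ?_
    have hGg : G g = if (g.length : ℝ) < lam then Φ g else 0 := by rw [hG]
    rw [hGg]
    by_cases h1 : g ∈ BrR D N
    · by_cases h2 : (g.length : ℝ) < lam
      · rw [if_pos (show g ∈ {g | g ∈ BrR D N ∧ (g.length : ℝ) < lam} from ⟨h1, h2⟩), if_pos h1, if_pos h2]
      · rw [if_neg (fun h3 : g ∈ {g | g ∈ BrR D N ∧ (g.length : ℝ) < lam} => h2 h3.2), if_pos h1, if_neg h2, mul_zero]
    · rw [if_neg (fun h3 : g ∈ {g | g ∈ BrR D N ∧ (g.length : ℝ) < lam} => h1 h3.1), if_neg h1]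
  have hgf : gf {Z : List Bool | (∃ h, h ≤ N ∧ Z ∈ Brd h) ∧ (Z.length : ℝ) < lam} ≤ ENNReal.ofReal (d * UU N) := by
    refine le_trans ?_ hS
    have hsub : {Z : List Bool | (∃ h, h ≤ N ∧ Z ∈ Brd h) ∧ (Z.length : ℝ) < lam} ⊆
        ⋃ h ∈ range (N + 1), {Z | Z ∈ Brd h ∧ (Z.length : ℝ) < lam} := by
      rintro Z ⟨⟨h, h1, h2⟩, h3⟩
      rw [Set.mem_iUnion₂]
      exact ⟨h, Finset.mem_range.2 (by omega), h2, h3⟩
    exact (gf_mono hsub).trans (ENNReal.tsum_biUnion_le (fun t => wE t) (range (N + 1)) _)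
  have hpt : ∀ m r : ℕ, Rec8.sw {Z | ∃ h, h ≤ N ∧ Z ∈ Brd h} (fun Z => Rec8.sw (Irr r) (fun P =>
      Rec8.sw {M | M ∈ Brd m ∧ Z ++ (P ++ M) ∈ BrR D N} (fun M => G (Z ++ (P ++ M))))) ≤
      ENNReal.ofReal (d * UU N) * Rec8.sw (Irr r) (fun P => Rec8.sw (Brd m) (fun M => Φ (P ++ M))) := by
    intro m r
    calc Rec8.sw {Z | ∃ h, h ≤ N ∧ Z ∈ Brd h} (fun Z => Rec8.sw (Irr r) (fun P =>
        Rec8.sw {M | M ∈ Brd m ∧ Z ++ (P ++ M) ∈ BrR D N} (fun M => G (Z ++ (P ++ M)))))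
        ≤ Rec8.sw {Z | ∃ h, h ≤ N ∧ Z ∈ Brd h} (fun Z => (if (Z.length : ℝ) < lam then 1 else 0) * Rec8.sw (Irr r) (fun P =>
          Rec8.sw (Brd m) (fun M => Φ (P ++ M)))) := by
          refine Rec8.sw_mono' fun Z hZ => ?_
          split_ifs with hz
          · rw [one_mul]
            refine Rec8.sw_mono' fun P _ => ?_
            refine Rec8.sw_mono (fun M hM => hM.1) fun M hM => ?_
            obtain ⟨h0, -, hZh⟩ := hZ
            rw [hG]
            show (if ((Z ++ (P ++ M)).length : ℝ) < lam then Φ (Z ++ (P ++ M)) else 0) ≤ _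
            split_ifs
            · exact hΦ Z ⟨h0, hZh⟩ _
            · exact zero_le
          · rw [zero_mul]
            refine le_of_eq ?_
            have h0 : ∀ P M : List Bool, G (Z ++ (P ++ M)) = 0 := by
              intro P M
              rw [hG]
              show (if ((Z ++ (P ++ M)).length : ℝ) < lam then Φ (Z ++ (P ++ M)) else 0) = 0
              rw [if_neg]
              intro h1
              apply hz
              rw [List.length_append] at h1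
              push_cast at h1
              have : (0 : ℝ) ≤ ((P ++ M).length : ℝ) := Nat.cast_nonneg _
              linarith
            simp only [h0]
            simp only [Rec8.sw_zero]
      _ = gf {Z : List Bool | (∃ h, h ≤ N ∧ Z ∈ Brd h) ∧ (Z.length : ℝ) < lam} *
          Rec8.sw (Irr r) (fun P => Rec8.sw (Brd m) (fun M => Φ (P ++ M))) := by
          generalize Rec8.sw (Irr r) (fun P => Rec8.sw (Brd m) (fun M => Φ (P ++ M))) = y
          rw [← NX_const, Rec8.sw_ind, Rec8.sw_ind]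
          refine tsum_congr fun Z => ?_
          by_cases h1 : Z ∈ {Z | ∃ h, h ≤ N ∧ Z ∈ Brd h}
          · by_cases h2 : (Z.length : ℝ) < lam
            · rw [if_pos h1, if_pos h2, if_pos (show Z ∈ {Z : List Bool | (∃ h, h ≤ N ∧ Z ∈ Brd h) ∧ (Z.length : ℝ) < lam} from
                ⟨h1, h2⟩), one_mul]
            · rw [if_pos h1, if_neg h2, zero_mul, mul_zero, if_neg]
              exact fun h3 => h2 h3.2
          · rw [if_neg h1, if_neg]
            exact fun h3 => h1 h3.1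
      _ ≤ _ := mul_le_mul_left hgf _
  rw [e1]
  calc Rec8.sw (BrR D N) G ≤ _ := endR hD2 G
    _ ≤ ∑' m : ℕ, ∑' r : ℕ, mu k m r * (ENNReal.ofReal (d * UU N) *
        Rec8.sw (Irr r) (fun P => Rec8.sw (Brd m) (fun M => Φ (P ++ M)))) :=
        ENNReal.tsum_le_tsum fun m => ENNReal.tsum_le_tsum fun r => mul_le_mul_right (hpt m r) _
    _ = ENNReal.ofReal (d * UU N) * ∑' m : ℕ, ∑' r : ℕ, mu k m r *
        Rec8.sw (Irr r) (fun P => Rec8.sw (Brd m) (fun M => Φ (P ++ M))) := by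
        simp only [← ENNReal.tsum_mul_left]
        exact tsum_congr fun m => tsum_congr fun r => mul_left_comm _ _ _
    _ ≤ ENNReal.ofReal (d * UU N) * (ENNReal.ofReal K * xT D k Φ) := mul_le_mul_right (he D k Φ hD) _
    _ = ENNReal.ofReal (K * (d * UU N)) * xT D k Φ := by
        rw [ENNReal.ofReal_mul (p := K) (by linarith)]
        ring

/-- the class of the short leaves -/
def SL (kc J : ℕ) (lam : ℝ) : Set (List Bool) := {g | g ∈ BrR (2 ^ (kc + 4)) (2 ^ (kc + J)) ∧ (g.length : ℝ) < lam}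

theorem sm_short (J : ℕ) {δ : ℝ} (hδ : 0 < δ) : ∃ (d : ℝ) (k0 : ℕ), 0 < d ∧ ∀ (kc : ℕ) (lam : ℝ), k0 ≤ kc →
    T2.Short (2 ^ (kc + J)) lam d → Sm kc (SL kc J lam) δ := by
  classical
  obtain ⟨C0, δ0, hI⟩ := inp_exists
  obtain ⟨K, c, hK, hc, hx⟩ := x_fillE hI
  obtain ⟨K', hK', hT⟩ := totS hI
  have h2J : (1 : ℝ) ≤ 2 ^ J := one_le_pow₀ (by norm_num)
  -- the number J'
  obtain ⟨J', hJ3, hJ'⟩ : ∃ J' : ℕ, 3 ≤ J' ∧ K * 2 ^ J * (2 : ℝ) ^ (-(c * (J' : ℝ))) ≤ δ / 2 := by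
    have hx1 : (2 : ℝ) ^ (-c) < 1 := Real.rpow_lt_one_of_one_lt_of_neg (by norm_num) (by linarith)
    obtain ⟨n, hn⟩ := exists_pow_lt_of_lt_one (show 0 < δ / (2 * (K * 2 ^ J)) by positivity) hx1
    refine ⟨max n 3, le_max_right _ _, ?_⟩
    have h1 : (2 : ℝ) ^ (-(c * ((max n 3 : ℕ) : ℝ))) = ((2 : ℝ) ^ (-c)) ^ (max n 3) := by
      rw [← Real.rpow_natCast, ← Real.rpow_mul (by norm_num)]
      congr 1
      ring
    have h2 : ((2 : ℝ) ^ (-c)) ^ (max n 3) ≤ ((2 : ℝ) ^ (-c)) ^ n :=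
      pow_le_pow_of_le_one (by positivity) hx1.le (le_max_left _ _)
    rw [h1]
    calc K * 2 ^ J * ((2 : ℝ) ^ (-c)) ^ (max n 3) ≤ K * 2 ^ J * (δ / (2 * (K * 2 ^ J))) := by
          have := h2.trans hn.le
          gcongr
      _ = δ / 2 := by
          field_simp
  obtain ⟨d, hd⟩ : ∃ d : ℝ, d = min (δ / (2 * (K * 2 ^ J * 4 ^ J' * 2 ^ J))) (δ / (K' * 2 ^ J)) := ⟨_, rfl⟩
  have hd0 : 0 < d := by
    rw [hd]
    positivity
  have hd1 : K * 2 ^ J * (4 ^ J' * (d * 2 ^ J)) ≤ δ / 2 := by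
    have h1 : d ≤ δ / (2 * (K * 2 ^ J * 4 ^ J' * 2 ^ J)) := by
      rw [hd]
      exact min_le_left _ _
    calc K * 2 ^ J * (4 ^ J' * (d * 2 ^ J)) ≤ K * 2 ^ J * (4 ^ J' * (δ / (2 * (K * 2 ^ J * 4 ^ J' * 2 ^ J)) * 2 ^ J)) := by
          gcongr
      _ = δ / 2 := by
          field_simp
  have hd2 : K' * (d * 2 ^ J) ≤ δ := by
    have h1 : d ≤ δ / (K' * 2 ^ J) := by
      rw [hd]
      exact min_le_right _ _
    calc K' * (d * 2 ^ J) ≤ K' * (δ / (K' * 2 ^ J) * 2 ^ J) := by gcongr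
      _ = δ := by
          field_simp
  refine ⟨d, J' + 5, hd0, ?_⟩
  intro kc lam hkc hS
  have hU := Ub_pos kc
  have hUN : UU (2 ^ (kc + J)) ≤ 2 ^ J * Ub kc := UU_ratio_up kc J
  constructor
  · intro Φ hΦ
    have h1 : EZ (2 ^ (kc + 4)) (2 ^ (kc + J)) kc {g | (g.length : ℝ) < lam} (d * 2 ^ J * Ub kc) := by
      refine T2.EZ_mono (T2.EZ_short hS) ?_
      calc d * UU (2 ^ (kc + J)) ≤ d * (2 ^ J * Ub kc) := by gcongr
        _ = _ := by ring
    have h2 := hx (2 ^ (kc + 4)) (2 ^ (kc + J)) kc kc (kc - J') {g | (g.length : ℝ) < lam} LFold (2 ^ J) (d * 2 ^ J) Φ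
      hΦ.her RNb_LFold le_rfl (by omega) le_rfl h2J hUN (by positivity) h1
    have h3 : ∀ t, vA (2 ^ (kc + 4)) (SL kc J lam) Φ t ≤ tF (2 ^ (kc + 4)) (2 ^ (kc + J)) {g | (g.length : ℝ) < lam} LFold Φ t := by
      intro t
      unfold vA tF
      exact Rec8.sw_mono (B := {g' | g' ∈ BrR (2 ^ (kc + 4)) (2 ^ (kc + J)) ∧ g' ∈ {g : List Bool | (g.length : ℝ) < lam} ∧
        RT (2 ^ (kc + 4)) LFold t g'}) (fun g hg => ⟨hg.1.1, hg.1.2, hg.2⟩) fun _ _ => le_rfl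
    refine (xT_mono h3).trans (h2.trans (mul_le_mul_left (ENNReal.ofReal_le_ofReal ?_) _))
    have e1 : kc - kc = 0 := Nat.sub_self kc
    have e2 : kc - (kc - J') = J' := by omega
    have e3 : (kc : ℝ) - ((kc - J' : ℕ) : ℝ) = J' := by
      rw [Nat.cast_sub (by omega)]
      ring
    rw [e1, e2, e3, pow_zero, one_mul, mul_add]
    linarith
  · intro Φ hΦ
    refine (hT (2 ^ (kc + 4)) (2 ^ (kc + J)) kc lam d Φ hΦ.her le_rfl hS hd0.le).trans
      (mul_le_mul_left (ENNReal.ofReal_le_ofReal ?_) _)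
    calc K' * (d * UU (2 ^ (kc + J))) ≤ K' * (d * (2 ^ J * Ub kc)) := by gcongr
      _ = K' * (d * 2 ^ J) * Ub kc := by ring
      _ ≤ δ * Ub kc := by gcongr

end NTm

end HexObs
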