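import Pool.Agent.NT.Event
import Pool.Agent.NT.Short
import Pool.Agent.NT.GNorm
import Pool.Agent.NT.Geo
import Pool.Agent.SDN.TubeFin

/-!
NT (natural time), module 5: a bridge of the box has no large displacement in a short time, with an exception of small weight.
-/

set_option autoImplicit false

namespace HexObs

namespace NTm

open Finset TS SDN SDN.CN

open scoped ENNReal

/-- the weight of all bridges with less than lam letters is at most x -/
def AS (lam x : ℝ) : Prop :=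
  ∀ N : ℕ, ∑ h ∈ Finset.range (N + 1), gf {Z | Z ∈ Brd h ∧ (Z.length : ℝ) < lam} ≤ ENNReal.ofReal x

lemma AS_short {lam x d : ℝ} (h : AS lam x) {N : ℕ} (hx : x ≤ d * UU N) : T2.Short N lam d :=
  (h N).trans (ENNReal.ofReal_le_ofReal hx)

/-- bridges of the box with a displacement of at least 824 2 ^ kc levels in the direction false in a time less than lam -/
def DF (kc J : ℕ) (lam : ℝ) : Set (List Bool) :=
  {t | t ∈ BL (kc + J) ∧ ∃ i j : ℕ, i ≤ j ∧ j ≤ t.length ∧ ((j : ℝ) - i < lam) ∧ 824 * (2 : ℤ) ^ kc ≤ |lev t j - lev t i|}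

lemma row_top {T L : ℕ} {t : List Bool} (ht : t ∈ Brd T) (h : t ∈ WL L) : T ≤ 2 ^ L := by
  have h1 := h.2 t.length le_rfl false
  have h2 : row false (vx oo up t t.length) = T := by
    unfold row
    have h3 : lvl false (vx oo up t t.length) = 3 * T := (mem_Brd.1 ht).2.2.2
    rw [h3]
    omega
  rw [h2] at h1
  have h4 : ((T : ℕ) : ℤ) ≤ 2 ^ L := (le_abs_self _).trans h1
  exact_mod_cast h4

/-- the chain of a bridge of the box -/
lemma rep_box {kc J T m u : ℕ} {t : List Bool} {e : ℕ → ℕ} (ht : t ∈ Brd T) (hw : t ∈ WL (kc + J))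
    (h : Lf false (kc + 5) t m u e) (hm : 1 ≤ m) :
    ∃ gs : List (List Bool), gs.length = m ∧ unf gs = t ∧ gs.IsChain LFold ∧
      (∀ g ∈ gs, g ∈ BrR (2 ^ (kc + 4)) (2 ^ (kc + J))) ∧ ∀ l, l < m → ∃ g ∈ gs, IsLf t m e l g := by
  obtain ⟨gs, h1, h2, h3, h4, h5, h6⟩ := bridge_rep ht (by omega) h hm
  refine ⟨gs, h1, h2, h3, fun g hg => ?_, h5⟩
  obtain ⟨k, k1, k2⟩ := h4 g hg
  obtain ⟨l, l1, l2⟩ := h6 g hg
  have h7 := isLf_le ht (by omega) h l1 l2 k1
  have h8 := row_top ht hw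
  refine ⟨k, ?_, by omega, k1⟩
  have e1 : 2 ^ (kc + 5) = 2 * 2 ^ (kc + 4) := by rw [← pow_succ']
  have e2 : 1 ≤ 2 ^ (kc + 4) := Nat.one_le_two_pow
  omega

theorem disp_false (J : ℕ) (hJ : 6 ≤ J) {ε : ℝ} (hε : 0 < ε) : ∃ (d : ℝ) (k0 : ℕ), 0 < d ∧ ∀ (kc : ℕ) (lam : ℝ), k0 ≤ kc →
    AS lam (d * Ub kc) → gf (DF kc J lam) ≤ ENNReal.ofReal (ε * Ub (kc + J)) := by
  obtain ⟨K, s, hK, hs, hG⟩ := norm_GU
  obtain ⟨δ0, k00, hδ0, hev0⟩ := event J hJ (show 0 < ε / 3 by positivity)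
  obtain ⟨n, hn⟩ : ∃ n : ℕ, K * 8 ^ J / 4 ^ n ≤ δ0 := by
    obtain ⟨n, hn⟩ := exists_pow_lt_of_lt_one (show 0 < δ0 / (K * 8 ^ J) by positivity) (show (1 / 4 : ℝ) < 1 by norm_num)
    refine ⟨n, ?_⟩
    calc K * 8 ^ J / 4 ^ n = K * 8 ^ J * (1 / 4) ^ n := by
          rw [one_div, inv_pow]
          rfl
      _ ≤ K * 8 ^ J * (δ0 / (K * 8 ^ J)) := by gcongr
      _ = δ0 := by
          field_simp
  obtain ⟨j1, hj1⟩ : ∃ j1, j1 = s + n + 5 := ⟨_, rfl⟩
  obtain ⟨δ1, k01, hδ1, hev1⟩ := event (J + j1) (by omega) (show 0 < ε / 3 by positivity)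
  obtain ⟨d0, k02, hd0, hsh0⟩ := sm_short J hδ0
  obtain ⟨d1, k03, hd1, hsh1⟩ := sm_short (J + j1) hδ1
  refine ⟨min d0 d1, k00 + k01 + k02 + k03 + j1, lt_min hd0 hd1, ?_⟩
  intro kc lam hkc hAS
  obtain ⟨k, hk⟩ : ∃ k, kc = k + j1 := ⟨kc - j1, by omega⟩
  have hU := Ub_pos kc
  have hN : Ub kc ≤ UU (2 ^ (kc + J)) := UU_mono (Nat.pow_le_pow_right (by norm_num) (by omega))
  have hS0 : Sm kc (SL kc J lam) δ0 := by
    refine hsh0 kc lam (by omega) (AS_short hAS ?_)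
    calc min d0 d1 * Ub kc ≤ d0 * Ub kc := by
          gcongr
          exact min_le_left _ _
      _ ≤ _ := by gcongr
  have hS1 : Sm k (SL k (J + j1) lam) δ1 := by
    refine hsh1 k lam (by omega) (AS_short hAS ?_)
    rw [show k + (J + j1) = kc + J by omega]
    calc min d0 d1 * Ub kc ≤ d1 * Ub kc := by
          gcongr
          exact min_le_right _ _
      _ ≤ _ := by gcongr
  have hnk : n * 2 ^ (k + s) ≤ 2 ^ kc := by
    calc n * 2 ^ (k + s) ≤ 2 ^ n * 2 ^ (k + s) := Nat.mul_le_mul_right _ Nat.lt_two_pow_self.le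
      _ = 2 ^ (n + (k + s)) := by rw [← pow_add]
      _ ≤ 2 ^ kc := Nat.pow_le_pow_right (by norm_num) (by omega)
  have hSG : Sm kc (GU k kc (2 ^ (kc + J))) δ0 := by
    refine Sm_le hn ?_
    exact ⟨fun Φ hΦ => (hG kc J n k Φ hΦ (by omega) hnk (by omega) (by omega)).1,
      fun Φ hΦ => (hG kc J n k Φ hΦ (by omega) hnk (by omega) (by omega)).2⟩
  have e0 := hev0 kc (SL kc J lam) (by omega) hS0
  have e2 := hev0 kc (GU k kc (2 ^ (kc + J))) (by omega) hSG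
  have e1 := hev1 k (SL k (J + j1) lam) (by omega) hS1
  rw [show k + (J + j1) = kc + J by omega] at e1
  have hsub : DF kc J lam ⊆ (EV kc J (SL kc J lam) ∪ EV k (J + j1) (SL k (J + j1) lam)) ∪ EV kc J (GU k kc (2 ^ (kc + J))) := by
    rintro t ⟨⟨⟨T, hT⟩, hw⟩, i, j, hij, hj, hlam, hd⟩
    obtain ⟨m, u, e, h⟩ := lf_exists false (kc + 5) t
    obtain ⟨m1, u1, e1, h1⟩ := lf_exists false (k + 5) t
    have ht : t ∈ BL (kc + J) := ⟨⟨T, hT⟩, hw⟩
    have hw' : t ∈ WL (k + (J + j1)) := by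
      rw [show k + (J + j1) = kc + J by omega]
      exact hw
    have hlen : ∀ a b : ℕ, i ≤ a → b ≤ j → ∀ g : List Bool, g.length + a ≤ b → (g.length : ℝ) < lam := by
      intro a b ha hb g hg
      have : (g.length : ℝ) + i ≤ j := by
        exact_mod_cast (by omega : g.length + i ≤ j)
      linarith
    rcases geo (show k ≤ kc by omega) hT h h1 hij hj hd with ⟨l, l1, l2, l3⟩ | ⟨l, l1, l2, l3⟩ | ⟨l, l1, l2⟩
    · left; left
      obtain ⟨gs, a1, a2, a3, a4, a5⟩ := rep_box hT hw h (by omega)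
      obtain ⟨g, hg, hgl⟩ := a5 l l1
      refine ⟨ht, m, u, e, gs, h, a1, a2, a3, a4, g, hg, a4 g hg, ?_⟩
      have b1 := hgl.len
      have b2 := (st_ge e m t.length l l1).1
      exact hlen _ _ l2 l3 g (by omega)
    · left; right
      obtain ⟨gs, a1, a2, a3, a4, a5⟩ := rep_box hT hw' h1 (by omega)
      obtain ⟨g, hg, hgl⟩ := a5 l l1
      refine ⟨⟨⟨T, hT⟩, hw'⟩, m1, u1, e1, gs, h1, a1, a2, a3, a4, g, hg, a4 g hg, ?_⟩
      have b1 := hgl.len
      have b2 := (st_ge e1 m1 t.length l l1).1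
      exact hlen _ _ l2 l3 g (by omega)
    · right
      obtain ⟨gs, a1, a2, a3, a4, a5⟩ := rep_box hT hw h (by omega)
      obtain ⟨g, hg, hgl⟩ := a5 l l1
      obtain ⟨hh, b1, b2, b3⟩ := a4 g hg
      obtain ⟨z, z1, z2, z3⟩ := l2 g hgl hh b3
      exact ⟨ht, m, u, e, gs, h, a1, a2, a3, a4, g, hg, z, z1, hh, z2, b2, b3, z3⟩
  refine (gf_mono hsub).trans ((gf_union_le _ _).trans ((add_le_add ((gf_union_le _ _).trans (add_le_add e0 e1)) e2).trans ?_))
  have hUL := Ub_pos (kc + J)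
  rw [← ENNReal.ofReal_add (by positivity) (by positivity), ← ENNReal.ofReal_add (by positivity) (by positivity)]
  apply ENNReal.ofReal_le_ofReal
  linarith

/-- bridges of the box with a displacement of at least 824 2 ^ kc levels in a time less than lam -/
def DT (kc J : ℕ) (lam : ℝ) : Set (List Bool) :=
  {t | t ∈ BL (kc + J) ∧ ∃ (dir : Bool) (i j : ℕ), i ≤ j ∧ j ≤ t.length ∧ ((j : ℝ) - i < lam) ∧
    824 * (2 : ℤ) ^ kc ≤ |lvl dir (vx oo up t j) - lvl dir (vx oo up t i)|}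

theorem disp (J : ℕ) (hJ : 6 ≤ J) {ε : ℝ} (hε : 0 < ε) : ∃ (d : ℝ) (k0 : ℕ), 0 < d ∧ ∀ (kc : ℕ) (lam : ℝ), k0 ≤ kc →
    AS lam (d * Ub kc) → gf (DT kc J lam) ≤ ENNReal.ofReal (ε * Ub (kc + J)) := by
  obtain ⟨C0, C, hC0, hC, htube⟩ := tube_emb
  obtain ⟨d0, k00, hd0, h0⟩ := disp_false J hJ (show 0 < ε / 2 by positivity)
  obtain ⟨E, hE⟩ : ∃ E : ℝ, E = Real.exp (C * (2 : ℝ) ^ (1 : ℝ)) := ⟨_, rfl⟩
  have hE0 : 0 < E := by rw [hE]; positivity
  obtain ⟨d1, k01, hd1, h1⟩ := disp_false (J + C0) (by omega) (show 0 < ε / (2 * E * 2 ^ C0) by positivity)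
  refine ⟨min d0 d1, k00 + k01 + C0, lt_min hd0 hd1, ?_⟩
  intro kc lam hkc hAS
  have hU := Ub_pos kc
  have hUL := Ub_pos (kc + J)
  have a0 : AS lam (d0 * Ub kc) := fun N => (hAS N).trans (ENNReal.ofReal_le_ofReal (by
    gcongr
    exact min_le_left _ _))
  have a1 : AS lam (d1 * Ub kc) := fun N => (hAS N).trans (ENNReal.ofReal_le_ofReal (by
    gcongr
    exact min_le_right _ _))
  have e0 := h0 kc lam (by omega) a0
  have e1 := h1 kc lam (by omega) a1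
  obtain ⟨G, hG⟩ : ∃ G : Set (List Bool), G = {t | t ∈ BL (kc + J) ∧ ∃ i j : ℕ, i ≤ j ∧ j ≤ t.length ∧
      ((j : ℝ) - i < lam) ∧ 824 * (2 : ℤ) ^ kc ≤ |lvl true (vx oo up t j) - lvl true (vx oo up t i)|} := ⟨_, rfl⟩
  obtain ⟨G', hG1, hG2⟩ := htube (kc + J) (kc + J + 2) G (by omega) le_rfl (fun t ht => by
    rw [hG] at ht
    exact ht.1)
  have hsubG : G' ⊆ DF kc (J + C0) lam := by
    intro w hw
    obtain ⟨hwB, t, ht, a, hemb, -⟩ := hG2 w hw
    rw [hG] at ht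
    obtain ⟨htB, i, j, hij, hj, hl, hd⟩ := ht
    obtain ⟨c, hc⟩ := hemb.rel
    refine ⟨by rw [← add_assoc]; exact hwB, a + i, a + j, by omega, by have := hemb.le; omega, ?_, ?_⟩
    · push_cast
      linarith
    · rw [← lvl_false, ← lvl_false, hc i (by omega), hc j hj]
      have e : c - lvl true (vx oo up t j) - (c - lvl true (vx oo up t i)) =
          -(lvl true (vx oo up t j) - lvl true (vx oo up t i)) := by ring
      rw [e, abs_neg]
      exact hd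
  have hGle : gf G ≤ ENNReal.ofReal (ε / 2 * Ub (kc + J)) := by
    refine hG1.trans ((mul_le_mul_right ((gf_mono hsubG).trans e1) _).trans ?_)
    rw [← ENNReal.ofReal_mul (by positivity)]
    apply ENNReal.ofReal_le_ofReal
    have e2 : ((kc + J : ℕ) : ℝ) + 3 - ((kc + J + 2 : ℕ) : ℝ) = 1 := by
      push_cast
      ring
    rw [e2, ← hE]
    have e3 : Ub (kc + (J + C0)) ≤ 2 ^ C0 * Ub (kc + J) := by
      have := UU_ratio_up (kc + J) C0
      rw [add_assoc] at this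
      exact this
    calc E * (ε / (2 * E * 2 ^ C0) * Ub (kc + (J + C0))) ≤ E * (ε / (2 * E * 2 ^ C0) * (2 ^ C0 * Ub (kc + J))) := by
          gcongr
      _ = ε / 2 * Ub (kc + J) := by
          field_simp
  have hsub : DT kc J lam ⊆ DF kc J lam ∪ G := by
    rintro t ⟨ht, dir, i, j, hij, hj, hl, hd⟩
    cases dir with
    | false => exact Or.inl ⟨ht, i, j, hij, hj, hl, hd⟩
    | true =>
      right
      rw [hG]
      exact ⟨ht, i, j, hij, hj, hl, hd⟩
  refine (gf_mono hsub).trans ((gf_union_le _ _).trans ((add_le_add e0 hGle).trans ?_))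
  rw [← ENNReal.ofReal_add (by positivity) (by positivity)]
  apply ENNReal.ofReal_le_ofReal
  linarith

end NTm

end HexObs
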