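import Pool.Agent.NT.Step
import Pool.Agent.SDN.CleanChain

/-!
NT (natural time), module 4: chains of leaves with at least one leaf in a class of small norm.
-/

set_option autoImplicit false

namespace HexObs

namespace NTm

open Finset TS SDN SDN.CN

open scoped ENNReal

/-- a class of leaves of small norm at the scale kc + 5 -/
structure Sm (kc : ℕ) (S : Set (List Bool)) (δ : ℝ) : Prop where
  near : ∀ Φ : List Bool → ℝ≥0∞, HerD (2 ^ (kc + 4)) Φ → xT (2 ^ (kc + 4)) kc (vA (2 ^ (kc + 4)) S Φ) ≤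
    ENNReal.ofReal δ * xT (2 ^ (kc + 4)) kc Φ
  free : ∀ Φ : List Bool → ℝ≥0∞, HerD (2 ^ (kc + 4)) Φ → Rec8.sw S Φ ≤ ENNReal.ofReal (δ * Ub kc) * xT (2 ^ (kc + 4)) kc Φ

lemma Sm_mono {kc : ℕ} {S S' : Set (List Bool)} {δ : ℝ} (h : S' ⊆ S) (hS : Sm kc S δ) : Sm kc S' δ := by
  refine ⟨fun Φ hΦ => (xT_mono fun t => ?_).trans (hS.near Φ hΦ), fun Φ hΦ =>
    (Rec8.sw_mono h fun _ _ => le_rfl).trans (hS.free Φ hΦ)⟩
  exact Rec8.sw_mono (fun g hg => ⟨h hg.1, hg.2⟩) fun _ _ => le_rfl

lemma Sm_le {kc : ℕ} {S : Set (List Bool)} {δ δ' : ℝ} (h : δ ≤ δ') (hS : Sm kc S δ) : Sm kc S δ' := by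
  have hU := (Ub_pos kc).le
  refine ⟨fun Φ hΦ => (hS.near Φ hΦ).trans (mul_le_mul_left (ENNReal.ofReal_le_ofReal h) _), fun Φ hΦ =>
    (hS.free Φ hΦ).trans (mul_le_mul_left (ENNReal.ofReal_le_ofReal (mul_le_mul_of_nonneg_right h hU)) _)⟩

lemma herD_vA {D : ℕ} (hD : 1 ≤ D) (W : Set (List Bool)) (Φ : List Bool → ℝ≥0∞) : HerD D (vA D W Φ) :=
  ⟨hered_vA D W Φ, fun _ _ ht _ => CCh.vA_suf hD W Φ ht⟩

/-- bound of the continuations with n leaves -/
noncomputable def AA (D N : ℕ) : ℕ → List Bool → ℝ≥0∞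
  | 0 => fun _ => 1
  | n + 1 => vA D (BrR D N) (AA D N n)

/-- bound of the continuations with n leaves, one of them in S -/
noncomputable def SS (D N : ℕ) (S : Set (List Bool)) : ℕ → List Bool → ℝ≥0∞
  | 0 => fun _ => 0
  | n + 1 => fun t => vA D S (AA D N n) t + vA D (BrR D N) (SS D N S n) t

lemma herD_AA {D : ℕ} (hD : 1 ≤ D) (N n : ℕ) : HerD D (AA D N n) := by
  cases n with
  | zero => exact ⟨fun _ _ _ => le_rfl, fun _ _ _ _ => le_rfl⟩
  | succ n => exact herD_vA hD _ _

lemma herD_SS {D : ℕ} (hD : 1 ≤ D) (N : ℕ) (S : Set (List Bool)) (n : ℕ) : HerD D (SS D N S n) := by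
  cases n with
  | zero => exact ⟨fun _ _ _ => le_rfl, fun _ _ _ _ => le_rfl⟩
  | succ n =>
    exact ⟨fun s hs t => add_le_add ((herD_vA hD S _).her s hs t) ((herD_vA hD _ _).her s hs t),
      fun s t h1 h2 => add_le_add ((herD_vA hD S _).suf s t h1 h2) ((herD_vA hD _ _).suf s t h1 h2)⟩

lemma xT_AA {kc N : ℕ} {Q : ℝ} (hQ : 1 ≤ Q) (h : ∀ Φ : List Bool → ℝ≥0∞, Hered Φ → xT (2 ^ (kc + 4)) kc (vA (2 ^ (kc + 4)) (BrR (2 ^ (kc + 4)) N) Φ) ≤
    ENNReal.ofReal Q * xT (2 ^ (kc + 4)) kc Φ) (n : ℕ) :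
    xT (2 ^ (kc + 4)) kc (AA (2 ^ (kc + 4)) N n) ≤ ENNReal.ofReal (2 * Q ^ n) := by
  induction n with
  | zero =>
    refine (xT_one _ _).trans ?_
    rw [pow_zero, mul_one, ENNReal.ofReal_ofNat]
  | succ n ih =>
    refine (h _ (herD_AA Nat.one_le_two_pow N n).her).trans ((mul_le_mul_right ih _).trans ?_)
    rw [← ENNReal.ofReal_mul (by linarith)]
    apply ENNReal.ofReal_le_ofReal
    rw [pow_succ]
    linarith

lemma xT_SS {kc N : ℕ} {S : Set (List Bool)} {Q δ : ℝ} (hQ : 1 ≤ Q) (hδ : 0 ≤ δ) (h : ∀ Φ : List Bool → ℝ≥0∞, Hered Φ → xT (2 ^ (kc + 4)) kc (vA (2 ^ (kc + 4)) (BrR (2 ^ (kc + 4)) N) Φ) ≤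
    ENNReal.ofReal Q * xT (2 ^ (kc + 4)) kc Φ) (hS : Sm kc S δ) (n : ℕ) :
    xT (2 ^ (kc + 4)) kc (SS (2 ^ (kc + 4)) N S n) ≤ ENNReal.ofReal (n * (2 * (δ * Q ^ n))) := by
  have hQ0 : 0 ≤ Q := by linarith
  induction n with
  | zero =>
    refine xT_le fun b I _ _ => ?_
    show Rec8.sw (Fld.BrB b) (fun M => (0 : ℝ≥0∞)) ≤ _
    rw [Rec8.sw_zero]
    exact zero_le
  | succ n ih =>
    refine (xT_add _ _ _ _).trans ?_
    have h1 := (hS.near _ (herD_AA Nat.one_le_two_pow N n)).trans (mul_le_mul_right (xT_AA hQ h n) _)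
    have h2 := (h _ (herD_SS Nat.one_le_two_pow N S n).her).trans (mul_le_mul_right ih _)
    refine (add_le_add h1 h2).trans ?_
    rw [← ENNReal.ofReal_mul hδ, ← ENNReal.ofReal_mul (by linarith), ← ENNReal.ofReal_add (by positivity) (by positivity)]
    apply ENNReal.ofReal_le_ofReal
    have h3 : Q ^ n ≤ Q ^ (n + 1) := pow_le_pow_right₀ hQ (Nat.le_succ n)
    push_cast
    calc δ * (2 * Q ^ n) + Q * (↑n * (2 * (δ * Q ^ n))) = 2 * (δ * Q ^ n) + n * (2 * (δ * Q ^ (n + 1))) := by ring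
      _ ≤ 2 * (δ * Q ^ (n + 1)) + n * (2 * (δ * Q ^ (n + 1))) := by gcongr
      _ = _ := by ring

open Classical in
/-- chains behind the leaf g -/
noncomputable def TA (D N n : ℕ) (g : List Bool) : ℝ≥0∞ :=
  ∑' gs : List (List Bool), if gs.length = n ∧ (g :: gs).IsChain LFold ∧ ∀ u ∈ gs, u ∈ BrR D N then SDN.wl gs else 0

open Classical in
/-- chains behind the leaf g with a leaf in S -/
noncomputable def TSs (D N : ℕ) (S : Set (List Bool)) (n : ℕ) (g : List Bool) : ℝ≥0∞ :=
  ∑' gs : List (List Bool), if gs.length = n ∧ (g :: gs).IsChain LFold ∧ (∀ u ∈ gs, u ∈ BrR D N) ∧ (∃ u ∈ gs, u ∈ S)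
    then SDN.wl gs else 0

lemma wl_cons (g : List Bool) (gs : List (List Bool)) : SDN.wl (g :: gs) = wE g * SDN.wl gs := by
  unfold SDN.wl
  rw [List.map_cons, List.prod_cons]

lemma wl_nil : SDN.wl [] = 1 := rfl

lemma TA_le (D N n : ℕ) : ∀ g ∈ HB D, TA D N n g ≤ AA D N n g := by
  classical
  induction n with
  | zero =>
    intro g _
    unfold TA
    rw [tsum_eq_single []]
    · split_ifs
      · rw [wl_nil]
        exact le_rfl
      · exact zero_le
    · intro gs hgs
      rw [if_neg]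
      rintro ⟨h, -⟩
      exact hgs (List.length_eq_zero_iff.1 h)
  | succ n ih =>
    intro g hg
    unfold TA
    refine (CCh.tsum_list _ ?_).trans ?_
    · rw [if_neg]
      rintro ⟨h, -⟩
      simp at h
    · show _ ≤ Rec8.sw {g' | g' ∈ BrR D N ∧ RT D LFold g g'} (AA D N n)
      rw [Rec8.sw_ind]
      refine ENNReal.tsum_le_tsum fun g' => ?_
      by_cases h2 : g' ∈ BrR D N ∧ LFold g g'
      · have h3 : g' ∈ {g' | g' ∈ BrR D N ∧ RT D LFold g g'} := ⟨h2.1, RT_of hg h2.2⟩
        rw [if_pos h3]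
        have hg' : g' ∈ HB D := by
          obtain ⟨h, a1, a2, a3⟩ := h2.1
          exact ⟨h, a1, a3⟩
        refine le_trans ?_ (mul_le_mul_right (ih g' hg') _)
        unfold TA
        rw [← ENNReal.tsum_mul_left]
        refine ENNReal.tsum_le_tsum fun gs => ?_
        by_cases h5 : (g' :: gs).length = n + 1 ∧ (g :: g' :: gs).IsChain LFold ∧ ∀ u ∈ g' :: gs, u ∈ BrR D N
        · rw [if_pos h5, if_pos, wl_cons]
          refine ⟨?_, ?_, ?_⟩
          · have := h5.1
            rw [List.length_cons] at this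
            omega
          · exact (List.isChain_cons_cons.1 h5.2.1).2
          · exact fun u hu => h5.2.2 u (List.mem_cons_of_mem _ hu)
        · rw [if_neg h5]
          exact zero_le
      · have h3 : ∀ gs : List (List Bool), (if (g' :: gs).length = n + 1 ∧ (g :: g' :: gs).IsChain LFold ∧
            ∀ u ∈ g' :: gs, u ∈ BrR D N then SDN.wl (g' :: gs) else 0) = 0 := by
          intro gs
          rw [if_neg]
          rintro ⟨-, h4, h5⟩
          exact h2 ⟨h5 g' List.mem_cons_self, (List.isChain_cons_cons.1 h4).1⟩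
        rw [tsum_congr h3, tsum_zero]
        exact zero_le

lemma TSs_le (D N : ℕ) (S : Set (List Bool)) (n : ℕ) : ∀ g ∈ HB D, TSs D N S n g ≤ SS D N S n g := by
  classical
  induction n with
  | zero =>
    intro g _
    unfold TSs
    rw [tsum_eq_single []]
    · rw [if_neg]
      · exact zero_le
      · rintro ⟨-, -, -, u, hu, -⟩
        simp at hu
    · intro gs hgs
      rw [if_neg]
      rintro ⟨h, -⟩
      exact hgs (List.length_eq_zero_iff.1 h)
  | succ n ih =>
    intro g hg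
    unfold TSs
    refine (CCh.tsum_list _ ?_).trans ?_
    · rw [if_neg]
      rintro ⟨h, -⟩
      simp at h
    · show _ ≤ Rec8.sw {g' | g' ∈ S ∧ RT D LFold g g'} (AA D N n) +
        Rec8.sw {g' | g' ∈ BrR D N ∧ RT D LFold g g'} (SS D N S n)
      rw [Rec8.sw_ind, Rec8.sw_ind, ← ENNReal.tsum_add]
      refine ENNReal.tsum_le_tsum fun g' => ?_
      by_cases h2 : g' ∈ BrR D N ∧ LFold g g'
      · have h3 : g' ∈ {g' | g' ∈ BrR D N ∧ RT D LFold g g'} := ⟨h2.1, RT_of hg h2.2⟩
        have hg' : g' ∈ HB D := by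
          obtain ⟨h, a1, a2, a3⟩ := h2.1
          exact ⟨h, a1, a3⟩
        by_cases hS : g' ∈ S
        · refine le_trans ?_ le_self_add
          rw [if_pos (show g' ∈ {g' | g' ∈ S ∧ RT D LFold g g'} from ⟨hS, RT_of hg h2.2⟩)]
          refine le_trans ?_ (mul_le_mul_right (TA_le D N n g' hg') _)
          unfold TA
          rw [← ENNReal.tsum_mul_left]
          refine ENNReal.tsum_le_tsum fun gs => ?_
          split_ifs with h5 h6
          · rw [wl_cons]
          · exfalso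
            apply h6
            refine ⟨?_, ?_, ?_⟩
            · have := h5.1
              rw [List.length_cons] at this
              omega
            · exact (List.isChain_cons_cons.1 h5.2.1).2
            · exact fun u hu => h5.2.2.1 u (List.mem_cons_of_mem _ hu)
          · exact zero_le
          · exact zero_le
        · refine le_trans ?_ le_add_self
          rw [if_pos h3]
          refine le_trans ?_ (mul_le_mul_right (ih g' hg') _)
          unfold TSs
          rw [← ENNReal.tsum_mul_left]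
          refine ENNReal.tsum_le_tsum fun gs => ?_
          split_ifs with h5 h6
          · rw [wl_cons]
          · exfalso
            apply h6
            refine ⟨?_, ?_, ?_, ?_⟩
            · have := h5.1
              rw [List.length_cons] at this
              omega
            · exact (List.isChain_cons_cons.1 h5.2.1).2
            · exact fun u hu => h5.2.2.1 u (List.mem_cons_of_mem _ hu)
            · obtain ⟨u, hu, huS⟩ := h5.2.2.2
              rw [List.mem_cons] at hu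
              rcases hu with rfl | hu
              · exact absurd huS hS
              · exact ⟨u, hu, huS⟩
          · exact zero_le
          · exact zero_le
      · have h3 : ∀ gs : List (List Bool), (if (g' :: gs).length = n + 1 ∧ (g :: g' :: gs).IsChain LFold ∧
            (∀ u ∈ g' :: gs, u ∈ BrR D N) ∧ (∃ u ∈ g' :: gs, u ∈ S) then SDN.wl (g' :: gs) else 0) = 0 := by
          intro gs
          rw [if_neg]
          rintro ⟨-, h4, h5, -⟩
          exact h2 ⟨h5 g' List.mem_cons_self, (List.isChain_cons_cons.1 h4).1⟩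
        rw [tsum_congr h3, tsum_zero]
        exact zero_le

/-- words of the chains of m leaves with a leaf in S -/
def CE (D N m : ℕ) (S : Set (List Bool)) : Set (List Bool) :=
  {t | ∃ gs : List (List Bool), gs.length = m ∧ unf gs = t ∧ gs.IsChain LFold ∧ (∀ g ∈ gs, g ∈ BrR D N) ∧ ∃ g ∈ gs, g ∈ S}

lemma wE_unf {us : List (List Bool)} (hne : ∀ g ∈ us, g ≠ []) (hus : us ≠ []) : wE (unf us) ≤ SDN.wl us := by
  have hl := unf_length hne hus
  have hx1 : ENNReal.ofReal xc ≤ 1 := by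
    rw [← ENNReal.ofReal_one]
    exact ENNReal.ofReal_le_ofReal xc_bounds.2
  have h1 : SDN.wl us = ENNReal.ofReal xc ^ (us.map List.length).sum := by
    clear hl hne hus
    induction us with
    | nil => simp [SDN.wl]
    | cons g us ih =>
      rw [wl_cons, ih, List.map_cons, List.sum_cons, pow_add, wE_eq_pow]
  rw [h1, wE_eq_pow]
  apply pow_le_pow_of_le_one zero_le hx1
  have : 1 ≤ us.length := List.length_pos_iff.2 hus
  omega

lemma gf_CE_le {D N n : ℕ} (hD : 1 ≤ D) (S : Set (List Bool)) : gf (CE D N (n + 1) S) ≤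
    Rec8.sw S (AA D N n) + Rec8.sw (BrR D N) (SS D N S n) := by
  classical
  have h1 : gf (CE D N (n + 1) S) ≤ ∑' gs : List (List Bool), (if gs.length = n + 1 ∧ gs.IsChain LFold ∧
      (∀ g ∈ gs, g ∈ BrR D N) ∧ (∃ g ∈ gs, g ∈ S) then SDN.wl gs else 0) := by
    rw [← Rec8.sw_one]
    refine Rec8.sw_cover _ _ _ (fun gs : List (List Bool) => unf gs) ?_
    rintro t ⟨gs, a1, a2, a3, a4, a5⟩
    refine ⟨gs, a2, ?_⟩
    rw [if_pos ⟨a1, a3, a4, a5⟩, mul_one, ← a2]
    refine wE_unf (fun g hg => ?_) ?_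
    · obtain ⟨h, b1, b2, b3⟩ := a4 g hg
      exact Brd_ne_nil b3 (by omega)
    · rintro rfl
      simp at a1
  refine h1.trans ((CCh.tsum_list _ ?_).trans ?_)
  · rw [if_neg]
    rintro ⟨h, -⟩
    simp at h
  · rw [Rec8.sw_ind, Rec8.sw_ind, ← ENNReal.tsum_add]
    refine ENNReal.tsum_le_tsum fun g' => ?_
    by_cases h2 : g' ∈ BrR D N
    · have hg' : g' ∈ HB D := by
        obtain ⟨h, a1, a2, a3⟩ := h2
        exact ⟨h, a1, a3⟩
      by_cases hS : g' ∈ S
      · refine le_trans ?_ le_self_add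
        rw [if_pos hS]
        refine le_trans ?_ (mul_le_mul_right (TA_le D N n g' hg') _)
        unfold TA
        rw [← ENNReal.tsum_mul_left]
        refine ENNReal.tsum_le_tsum fun gs => ?_
        split_ifs with h5 h6
        · rw [wl_cons]
        · exfalso
          apply h6
          refine ⟨?_, h5.2.1, ?_⟩
          · have := h5.1
            rw [List.length_cons] at this
            omega
          · exact fun u hu => h5.2.2.1 u (List.mem_cons_of_mem _ hu)
        · exact zero_le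
        · exact zero_le
      · refine le_trans ?_ le_add_self
        rw [if_pos h2]
        refine le_trans ?_ (mul_le_mul_right (TSs_le D N S n g' hg') _)
        unfold TSs
        rw [← ENNReal.tsum_mul_left]
        refine ENNReal.tsum_le_tsum fun gs => ?_
        split_ifs with h5 h6
        · rw [wl_cons]
        · exfalso
          apply h6
          refine ⟨?_, h5.2.1, ?_, ?_⟩
          · have := h5.1
            rw [List.length_cons] at this
            omega
          · exact fun u hu => h5.2.2.1 u (List.mem_cons_of_mem _ hu)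
          · obtain ⟨u, hu, huS⟩ := h5.2.2.2
            rw [List.mem_cons] at hu
            rcases hu with rfl | hu
            · exact absurd huS hS
            · exact ⟨u, hu, huS⟩
        · exact zero_le
        · exact zero_le
    · have h3 : ∀ gs : List (List Bool), (if (g' :: gs).length = n + 1 ∧ (g' :: gs).IsChain LFold ∧
          (∀ u ∈ g' :: gs, u ∈ BrR D N) ∧ (∃ u ∈ g' :: gs, u ∈ S) then SDN.wl (g' :: gs) else 0) = 0 := by
        intro gs
        rw [if_neg]
        rintro ⟨-, -, h5, -⟩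
        exact h2 (h5 g' List.mem_cons_self)
      rw [tsum_congr h3, tsum_zero]
      exact zero_le

/-- chains with a leaf in a class of small norm -/
theorem chain_sm : ∃ K : ℝ, 1 ≤ K ∧ ∀ (kc J n : ℕ) (S : Set (List Bool)) (δ : ℝ), 4 ≤ J → 0 ≤ δ → Sm kc S δ →
    gf (CE (2 ^ (kc + 4)) (2 ^ (kc + J)) n S) ≤ ENNReal.ofReal (δ * (K * 2 ^ J) ^ (n + 1) * Ub kc) := by
  obtain ⟨C, δ0, hInp⟩ := inp_exists
  obtain ⟨K0, hK0, htot⟩ := totH hInp
  obtain ⟨K1, hK1, htwo⟩ := two_scale
  refine ⟨4 * (K0 + K1), by linarith, ?_⟩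
  intro kc J n S δ hJ hδ hS
  have hU := Ub_pos kc
  have hUN : UU (2 ^ (kc + J)) ≤ 2 ^ J * Ub kc := UU_ratio_up kc J
  have h2J : (1 : ℝ) ≤ 2 ^ J := one_le_pow₀ (by norm_num)
  cases n with
  | zero =>
    have h0 : CE (2 ^ (kc + 4)) (2 ^ (kc + J)) 0 S = ∅ := by
      ext t
      constructor
      · rintro ⟨gs, a1, -, -, -, g, hg, -⟩
        rw [List.length_eq_zero_iff.1 a1] at hg
        simp at hg
      · intro h
        exact h.elim
    rw [h0, ← Rec8.sw_one, Rec8.sw_ind]
    simp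
  | succ n =>
    obtain ⟨Q, hQ⟩ : ∃ Q : ℝ, Q = K1 * 2 ^ J := ⟨_, rfl⟩
    have hQ1 : 1 ≤ Q := by
      rw [hQ]
      nlinarith
    have hQ0 : 0 ≤ Q := by linarith
    have hA : ∀ Φ : List Bool → ℝ≥0∞, Hered Φ → xT (2 ^ (kc + 4)) kc (vA (2 ^ (kc + 4)) (BrR (2 ^ (kc + 4)) (2 ^ (kc + J))) Φ) ≤
        ENNReal.ofReal Q * xT (2 ^ (kc + 4)) kc Φ := by
      intro Φ hΦ
      refine (htwo (2 ^ (kc + 4)) kc (2 ^ (kc + 4)) kc (2 ^ (kc + 4)) (2 ^ (kc + J)) Φ hΦ le_rfl le_rfl le_rfl le_rfl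
        (Nat.pow_le_pow_right (by norm_num) (by omega))).trans (mul_le_mul_left (ENNReal.ofReal_le_ofReal ?_) _)
      rw [hQ]
      gcongr
      rw [div_le_iff₀ hU]
      exact hUN
    refine (gf_CE_le Nat.one_le_two_pow S).trans ?_
    have h1 := (hS.free _ (herD_AA Nat.one_le_two_pow (2 ^ (kc + J)) n)).trans (mul_le_mul_right (xT_AA hQ1 hA n) _)
    have h2 := (htot (2 ^ (kc + 4)) (2 ^ (kc + J)) kc _ (herD_SS Nat.one_le_two_pow (2 ^ (kc + J)) S n).her le_rfl).trans
      (mul_le_mul_right (xT_SS hQ1 hδ hA hS n) _)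
    refine (add_le_add h1 h2).trans ?_
    have hUN0 : 0 < UU (2 ^ (kc + J)) := Num2Aux.UU_pos _
    rw [← ENNReal.ofReal_mul (by positivity), ← ENNReal.ofReal_mul (by positivity),
      ← ENNReal.ofReal_add (by positivity) (by positivity)]
    apply ENNReal.ofReal_le_ofReal
    have hn : (n : ℝ) + 1 ≤ 2 ^ n := by
      have : n + 1 ≤ 2 ^ n := Nat.lt_two_pow_self
      exact_mod_cast this
    have hn0 : (0 : ℝ) ≤ n := Nat.cast_nonneg n
    obtain ⟨P, hP⟩ : ∃ P : ℝ, P = (K0 + K1) * 2 ^ J := ⟨_, rfl⟩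
    have hQP : Q ≤ P := by
      rw [hQ, hP]
      gcongr
      linarith
    have hP1 : 1 ≤ P := hQ1.trans hQP
    have hKP : K0 * 2 ^ J ≤ P := by
      rw [hP]
      gcongr
      linarith
    have e1 : (4 * (K0 + K1) * 2 ^ J) ^ (n + 1 + 1) = 4 ^ (n + 2) * P ^ (n + 2) := by
      rw [hP, ← mul_pow]
      congr 1
      ring
    rw [e1]
    have hQn : Q ^ n ≤ P ^ n := pow_le_pow_left₀ hQ0 hQP n
    have h4n : (n : ℝ) + 1 ≤ 4 ^ n := hn.trans (pow_le_pow_left₀ (by norm_num) (by norm_num) n)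
    calc δ * Ub kc * (2 * Q ^ n) + K0 * UU (2 ^ (kc + J)) * (n * (2 * (δ * Q ^ n))) ≤
          δ * Ub kc * (2 * P ^ n) + K0 * (2 ^ J * Ub kc) * (n * (2 * (δ * P ^ n))) := by gcongr
      _ = 2 * δ * Ub kc * P ^ n * (1 + K0 * 2 ^ J * n) := by ring
      _ ≤ 2 * δ * Ub kc * P ^ n * (P + P * n) := by gcongr
      _ = 2 * δ * Ub kc * P ^ (n + 1) * (n + 1) := by ring
      _ ≤ 2 * δ * Ub kc * P ^ (n + 2) * 4 ^ n := by
          have h5 : P ^ (n + 1) ≤ P ^ (n + 2) := pow_le_pow_right₀ hP1 (by omega)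
          gcongr
      _ ≤ δ * (4 ^ (n + 2) * P ^ (n + 2)) * Ub kc := by
          rw [pow_add 4 n 2]
          have h6 : 0 ≤ δ * Ub kc * P ^ (n + 2) * 4 ^ n := by positivity
          nlinarith

end NTm

end HexObs
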