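import Pool.Agent.SDN.BridgeChain
import Pool.Agent.SDN.Dim1Defs

/-!
NT (natural time), module 3: the chain of the leaves of a bridge with the times of the leaves.
-/

set_option autoImplicit false

namespace HexObs

namespace NTm

open Finset TS SDN

variable {b m u T : ℕ} {t : List Bool} {e : ℕ → ℕ}

/-- first time of the leaf number l -/
def st (e : ℕ → ℕ) (l : ℕ) : ℕ := if l = 0 then 0 else e l + 1

/-- g is the word of the leaf number l of t -/
structure IsLf (t : List Bool) (m : ℕ) (e : ℕ → ℕ) (l : ℕ) (g : List Bool) : Prop where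
  len : st e l + g.length = ee m t.length e (l + 1)
  lv : ∀ i, i ≤ g.length → lev g i = Tight.sg (l + 1) (lev t (st e l + i) - lev t (st e l))

lemma sg_sub (k : ℕ) (x y : ℤ) : Tight.sg k (x - y) = Tight.sg k x - Tight.sg k y := by
  unfold Tight.sg
  split_ifs <;> ring

lemma sg_par {k k' : ℕ} (h : Even k ↔ Even k') (x : ℤ) : Tight.sg k x = Tight.sg k' x := by
  unfold Tight.sg
  by_cases hk : Even k
  · rw [if_pos hk, if_pos (h.1 hk)]
  · rw [if_neg hk, if_neg (fun h' => hk (h.2 h'))]

/-- an interior leaf -/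
lemma isLf_mid (ht : t ∈ Brd T) (hb : 1 ≤ b) (h : Lf false b t m u e) {l : ℕ} (h1 : 1 ≤ l) (h2 : l + 2 ≤ m) :
    IsLf t m e l (lw t (e l) (e (l + 1))) := by
  obtain ⟨hu, hm2, h'⟩ := bridge_lf ht hb h (by omega)
  have htSA : t ∈ SA := ⟨fun _ _ _ => Set.mem_univ _, (mem_Brd.1 ht).2.1⟩
  obtain ⟨c, c1, c2, c3, c4, c5⟩ := lw_frame htSA hb h h1 h2
  have e1 : st e l = e l + 1 := if_neg (by omega)
  have e2 : ee m t.length e (l + 1) = e (l + 1) := by
    unfold ee
    rw [if_neg (by omega), if_neg (by omega)]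
  refine ⟨by rw [e1, e2]; omega, ?_⟩
  intro i hi
  rw [e1]
  have h3 := c5 i hi
  have hc : nrm c = 1 := mem_dirs.1 c1
  have h4 : lev (lw t (e l) (e (l + 1))) i = ip (mulE c (vx oo up (lw t (e l) (e (l + 1))) i)) (mulE c up) := by
    rw [ip_mulE, hc, one_mul]
    rfl
  have h5 : mulE c (vx oo up (lw t (e l) (e (l + 1))) i) = vx oo up t (e l + 1 + i) - vx oo up t (e l + 1) := by
    rw [h3]
    abel
  rw [h4, h5, c2]
  have hul : Even (u + l) ↔ Even (l + 1) := by
    rw [Nat.even_add, Nat.even_add_one]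
    tauto
  have e3 : hd false = up := rfl
  unfold Tight.sg
  by_cases hl : Even (u + l)
  · rw [if_pos hl, if_pos (hul.1 hl), e3, ip_neg_right]
    unfold lev
    rw [sub_eq_add_neg, ip_add_left, ip_neg_left]
    ring
  · rw [if_neg hl, if_neg (fun h' => hl (hul.2 h')), e3]
    unfold lev
    rw [sub_eq_add_neg, ip_add_left, ip_neg_left]
    ring

/-- the direction behind the last bottom fold -/
lemma last_dx (ht : t ∈ Brd T) (hb : 1 ≤ b) (h : Lf false b t (m + 1) u e) (hm : 1 ≤ m) :
    dx up t (e m + 1) = up ∧ e m + 1 < t.length := by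
  have hR := RR_ge hb
  obtain ⟨hu, hm2, h'⟩ := bridge_lf ht hb h (by omega)
  obtain ⟨t1, t2, t3, t4⟩ := mem_Brd.1 ht
  have vm : ee (m + 1) t.length e (m + 1) = t.length := by
    unfold ee
    rw [if_neg (by omega), if_pos rfl]
  have vj : ∀ j, 1 ≤ j → j ≤ m → ee (m + 1) t.length e j = e j := by
    intro j j1 j2
    unfold ee
    rw [if_neg (by omega), if_neg (by omega)]
  have hum : ¬ Even (u + m) := by
    have hm3 : Even m := by
      rw [Nat.even_add_one, not_not] at hm2
      exact hm2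
    rw [Nat.even_add]
    tauto
  have lo := h'.lo m (by omega)
  have big := h'.big m (by omega)
  have lt := h'.lt m (by omega)
  rw [vm, vj m hm le_rfl] at lo big lt
  simp only [Tight.sg_odd hum, lvl_false] at lo big
  have m1 := h.lt (m - 1) (by omega)
  rw [show m - 1 + 1 = m by omega] at m1
  obtain ⟨a, ha⟩ : ∃ a, e m = a + 1 := ⟨e m - 1, by omega⟩
  have hi := h.hi (m - 1) (by omega) a (by omega) (by rw [show m - 1 + 1 = m by omega]; omega)
  have hum1 : Even (u + (m - 1)) := by
    by_contra hc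
    apply hc
    obtain ⟨m'', rfl⟩ : ∃ m'', m = m'' + 1 := ⟨m - 1, by omega⟩
    rw [show m'' + 1 - 1 = m'' by omega]
    rw [← add_assoc, Nat.even_add_one, not_not] at hum
    exact hum
  rw [show m - 1 + 1 = m by omega, Tight.sg_even hum1, Tight.sg_even hum1, lvl_false, lvl_false, ha] at hi
  rw [ha] at lo big lt ⊢
  have hlen : a + 3 ≤ t.length := by
    by_contra hc
    have e1 := lt
    have h3 : ∀ i, lev t (i + 1) ≤ lev t i + 2 := by
      intro i
      exact xD_step_le (D := up) upd t i
    have h4 := h3 (a + 1)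
    have e2 : t.length = a + 1 + 1 := by omega
    rw [← e2] at h4
    omega
  obtain ⟨hf, hf1⟩ := fold_dx (D := up) upd (t := t) (e := a) (by unfold xD; unfold lev at hi; omega)
    (lo (a + 2) (by omega) (by omega)) (lo (a + 3) (by omega) (by omega))
  exact ⟨hf, by omega⟩

/-- the last leaf -/
lemma isLf_last (ht : t ∈ Brd T) (hb : 1 ≤ b) (h : Lf false b t (m + 1) u e) (hm : 1 ≤ m) :
    IsLf t (m + 1) e m (t.drop (e m + 1)) := by
  obtain ⟨hf, hlt⟩ := last_dx ht hb h hm
  obtain ⟨hu, hm2, h'⟩ := bridge_lf ht hb h (by omega)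
  have e1 : st e m = e m + 1 := if_neg (by omega)
  have e2 : ee (m + 1) t.length e (m + 1) = t.length := by
    unfold ee
    rw [if_neg (by omega), if_pos rfl]
  refine ⟨by rw [e1, e2, List.length_drop]; omega, ?_⟩
  intro i hi
  rw [e1, Tight.sg_odd hm2]
  have hv : vx oo up t (e m + 1 + i) = vx oo up t (e m + 1) + vx oo up (t.drop (e m + 1)) i := by
    rw [vx_drop, hf]
    exact vx_shift _ _ _
  unfold lev
  rw [hv, ip_add_left]
  ring

/-- THE CHAIN OF A BRIDGE, with the times of the leaves -/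
theorem bridge_rep_get (ht : t ∈ Brd T) (hb : 1 ≤ b) (h : Lf false b t m u e) (hm : 1 ≤ m) :
    ∃ gs : List (List Bool), gs.length = m ∧ unf gs = t ∧ gs.IsChain LFold ∧
      (∀ g ∈ gs, ∃ k : ℕ, g ∈ Brd k ∧ 2 ^ b - 1 ≤ k) ∧ ∀ (l : ℕ) (hl : l < gs.length), IsLf t m e l gs[l] := by
  have hR := RR_ge hb
  obtain ⟨hu, hm2, h'⟩ := bridge_lf ht hb h hm
  obtain ⟨t1, t2, t3, t4⟩ := mem_Brd.1 ht
  have htSA : t ∈ SA := ⟨fun _ _ _ => Set.mem_univ _, t2⟩
  rcases Nat.lt_or_ge 1 m with h1 | h1
  swap
  · have : m = 1 := by omega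
    subst this
    have h0 : IsLf t 1 e 0 t := by
      refine ⟨?_, ?_⟩
      · show 0 + t.length = ee 1 t.length e 1
        unfold ee
        rw [if_neg (by omega), if_pos rfl, zero_add]
      · intro i hi
        show lev t i = Tight.sg 1 (lev t (0 + i) - lev t 0)
        rw [Tight.sg_one, zero_add, lev_zero, sub_zero]
    refine ⟨[t], rfl, rfl, List.isChain_singleton _, ?_, fun l hl => by
      have hl0 : l = 0 := by
        rw [List.length_singleton] at hl
        omega
      subst hl0
      exact h0⟩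
    intro g hg
    rw [List.mem_singleton] at hg
    subst hg
    refine ⟨T, ht, ?_⟩
    have h3 := h.big 0 (by omega)
    rw [add_zero, Tight.sg_odd hu, Tight.sg_odd hu, lvl_false, lvl_false] at h3
    have h4 := (lev_range ht (e_len h (k := 0 + 1) (by omega))).2.1
    have h5 := (lev_range ht (e_len h (k := 0) (by omega))).1
    have h6 : ((2 ^ b : ℕ) : ℤ) = 2 ^ b := by push_cast; rfl
    unfold RR at h3
    omega
  obtain ⟨n, rfl⟩ : ∃ n, m = n + 3 := by
    refine ⟨m - 3, ?_⟩
    have : m ≠ 2 := by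
      rintro rfl
      exact hm2 (by decide)
    omega
  -- the last leaf
  obtain ⟨kl, kl1, kl2⟩ := last_leaf ht hb h (by omega)
  obtain ⟨gl, hgl⟩ : ∃ gl, gl = t.drop (e (n + 2) + 1) := ⟨_, rfl⟩
  rw [← hgl] at kl1
  -- the tail
  have tail : ∀ d j, 1 ≤ j → j + d = n + 2 → unf (lws t e j d ++ [gl]) = t.drop (e j + 1) ∧
      (lws t e j d ++ [gl]).IsChain LFold ∧ (∀ g ∈ lws t e j d ++ [gl], ∃ k : ℕ, g ∈ Brd k ∧ 2 ^ b - 1 ≤ k) ∧
      ∃ g0 gs0, lws t e j d ++ [gl] = g0 :: gs0 ∧ (∀ k, k ≤ g0.length → e j + 1 + k ≤ t.length ∧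
        vx oo up g0 k = vx oo up (t.drop (e j + 1)) k) := by
    intro d
    induction d with
    | zero =>
      intro j j1 j2
      have hj : j = n + 2 := by omega
      subst hj
      refine ⟨hgl, List.isChain_singleton _, ?_, gl, [], rfl, ?_⟩
      · intro g hg
        have : g = gl := by simpa [lws] using hg
        rw [this]
        exact ⟨kl, kl1, kl2⟩
      · intro k hk
        rw [hgl, List.length_drop] at hk
        have h8 := h'.lt (n + 2) (by omega)
        have v1 : ee (n + 3) t.length e (n + 2 + 1) = t.length := by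
          unfold ee
          rw [if_neg (by omega), if_pos (by omega)]
        have v2 : ee (n + 3) t.length e (n + 2) = e (n + 2) := by
          unfold ee
          rw [if_neg (by omega), if_neg (by omega)]
        rw [v1, v2] at h8
        refine ⟨by omega, by rw [hgl]⟩
    | succ d ih =>
      intro j j1 j2
      obtain ⟨i1, i2, i3, g0, gs0, i4, i5⟩ := ih (j + 1) (by omega) (by omega)
      obtain ⟨_, _, _, _, _, r4, _, _, r7, _, r9, r10, _, r12⟩ := leaf_at htSA hb h j1 (by omega)
      obtain ⟨k, k1, k2, -⟩ := lw_brd htSA hb h j1 (by omega)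
      rw [lws_cons, List.cons_append, i4]
      have hej : e j + 1 ≤ t.length := by
        have := e_len h (k := j + 1) (by omega)
        omega
      have hsp : t.drop (e j + 1) = (lw t (e j) (e (j + 1))).dropLast ++ (!lst (lw t (e j) (e (j + 1)))) ::
          (!lst (lw t (e j) (e (j + 1)))) :: t.drop (e (j + 1) + 1) := by
        have hl : (t.take (e j + 1)).length = e j + 1 := by
          rw [List.length_take]
          omega
        conv_lhs => rw [r10]
        rw [List.drop_append_of_le_length (by omega), List.drop_of_length_le (by omega), List.nil_append]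
      refine ⟨?_, ?_, ?_, _, _, rfl, ?_⟩
      · show (lw t (e j) (e (j + 1))).dropLast ++ (!lst (lw t (e j) (e (j + 1)))) ::
          (!lst (lw t (e j) (e (j + 1)))) :: unf (g0 :: gs0) = _
        rw [← i4, i1, hsp]
      · rw [List.isChain_cons_cons]
        refine ⟨r12 g0 i5, ?_⟩
        rw [← i4]
        exact i2
      · intro g hg
        rw [List.mem_cons] at hg
        rcases hg with rfl | hg
        · exact ⟨k, k1, k2⟩
        · rw [← i4] at hg
          exact i3 g hg
      · intro k hk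
        have := e_len h (k := j + 1) (by omega)
        refine ⟨by omega, r9 k hk⟩
  obtain ⟨i1, i2, i3, g0, gs0, i4, i5⟩ := tail (n + 1) 1 le_rfl (by omega)
  -- the first leaf
  have v1 : ee (n + 3) t.length e 1 = e 1 := by
    unfold ee
    rw [if_neg (by omega), if_neg (by omega)]
  have v2 : ee (n + 3) t.length e 2 = e 2 := by
    unfold ee
    rw [if_neg (by omega), if_neg (by omega)]
  have v0 : ee (n + 3) t.length e 0 = 0 := rfl
  have hu1 : Even (u + 1) := Nat.even_add_one.2 hu
  have a1 := h'.lt 0 (by omega)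
  have a2 := h'.hi 0 (by omega)
  have a3 := h'.big 0 (by omega)
  have a4 := h'.lo 1 (by omega)
  have a5 := h'.big 1 (by omega)
  have a6 := h'.lt 1 (by omega)
  rw [zero_add, v0, v1] at a1 a2 a3
  rw [show (1 + 1 : ℕ) = 2 from rfl, v1, v2] at a4 a5 a6
  simp only [add_zero, Tight.sg_odd hu, lvl_false, lev_zero] at a2 a3
  simp only [Tight.sg_even hu1, lvl_false] at a4 a5
  have a7 : e 2 ≤ t.length := e_len h (by omega)
  have a8 : e 1 + 2 ≤ e 2 := by
    by_contra hc
    have h3 : ∀ i, lev t i ≤ lev t (i + 1) + 2 := fun i => lev_step_le t i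
    have h4 := h3 (e 1)
    have e2 : e 2 = e 1 + 1 := by omega
    rw [← e2] at h4
    omega
  obtain ⟨c, M, hM1, hM, hsplit, hB, hlen, hvx, hvq, -, -, hH⟩ := fold_step (q := t) (e := e 1) (by omega) (by omega)
    t2 (fun j j1 j2 => ⟨(lev_range ht (by omega)).2.2 j1, a2 j (by omega) j2⟩)
    (by have := a4 (e 1 + 1) (by omega) (by omega); omega) (by have := a4 (e 1 + 2) (by omega) (by omega); omega)
  have hlG : lst (t.take (e 1 - 1) ++ [!c]) = !c := lst_append _ _
  refine ⟨(t.take (e 1 - 1) ++ [!c]) :: (lws t e 1 (n + 1) ++ [gl]), ?_, ?_, ?_, ?_, ?_⟩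
  · rw [List.length_cons, List.length_append]
    simp [lws]
  · rw [i4]
    show (t.take (e 1 - 1) ++ [!c]).dropLast ++ (!lst (t.take (e 1 - 1) ++ [!c])) ::
      (!lst (t.take (e 1 - 1) ++ [!c])) :: unf (g0 :: gs0) = t
    rw [hlG, Bool.not_not, List.dropLast_concat, ← i4, i1, ← hsplit]
  · rw [i4, List.isChain_cons_cons]
    refine ⟨?_, by rw [← i4]; exact i2⟩
    show Hang _ (lst _) g0
    rw [hlG]
    apply hH
    intro k hk
    obtain ⟨j1, j2⟩ := i5 k hk
    refine ⟨j1, ?_⟩
    rw [j2, ← hvq]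
  · intro g hg
    rw [List.mem_cons] at hg
    rcases hg with rfl | hg
    · refine ⟨M, hB, ?_⟩
      have h6 : ((2 ^ b : ℕ) : ℤ) = 2 ^ b := by push_cast; rfl
      unfold RR at a3
      omega
    · exact i3 g hg
  · have h0 : IsLf t (n + 3) e 0 (t.take (e 1 - 1) ++ [!c]) := by
      refine ⟨?_, ?_⟩
      · show 0 + (t.take (e 1 - 1) ++ [!c]).length = ee (n + 3) t.length e 1
        rw [v1, zero_add, hlen]
      · intro i hi
        show lev (t.take (e 1 - 1) ++ [!c]) i = Tight.sg 1 (lev t (0 + i) - lev t 0)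
        rw [Tight.sg_one, zero_add, lev_zero, sub_zero]
        unfold lev
        rw [hvx i (by rw [hlen] at hi; exact hi)]
    have hlast : IsLf t (n + 3) e (n + 2) gl := by
      rw [hgl]
      exact isLf_last ht hb h (by omega)
    have hmid : ∀ l, 1 ≤ l → l < n + 2 → IsLf t (n + 3) e l (lw t (e l) (e (l + 1))) := fun l l1 l2 =>
      isLf_mid ht hb h l1 (by omega)
    intro l hl
    have hlen3 : (lws t e 1 (n + 1)).length = n + 1 := by simp [lws]
    rcases Nat.eq_zero_or_pos l with h0' | h0'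
    · subst h0'
      exact h0
    · obtain ⟨l', rfl⟩ : ∃ l', l = l' + 1 := ⟨l - 1, by omega⟩
      rw [List.getElem_cons_succ]
      rw [List.length_cons, List.length_append, hlen3, List.length_singleton] at hl
      rcases Nat.lt_or_ge l' (n + 1) with h1' | h1'
      · rw [List.getElem_append_left (by rw [hlen3]; exact h1')]
        have e3 : (lws t e 1 (n + 1))[l']'(by rw [hlen3]; exact h1') = lw t (e (1 + l')) (e (1 + l' + 1)) := by
          unfold lws
          rw [List.getElem_map, List.getElem_range]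
        rw [e3, show l' + 1 = 1 + l' by omega]
        exact hmid (1 + l') (by omega) (by omega)
      · have hl2 : l' = n + 1 := by omega
        subst hl2
        rw [List.getElem_append_right (by rw [hlen3])]
        simp only [hlen3, Nat.sub_self, List.getElem_cons_zero]
        exact hlast

theorem bridge_rep (ht : t ∈ Brd T) (hb : 1 ≤ b) (h : Lf false b t m u e) (hm : 1 ≤ m) :
    ∃ gs : List (List Bool), gs.length = m ∧ unf gs = t ∧ gs.IsChain LFold ∧
      (∀ g ∈ gs, ∃ k : ℕ, g ∈ Brd k ∧ 2 ^ b - 1 ≤ k) ∧ (∀ l, l < m → ∃ g ∈ gs, IsLf t m e l g) ∧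
      ∀ g ∈ gs, ∃ l, l < m ∧ IsLf t m e l g := by
  obtain ⟨gs, h1, h2, h3, h4, h5⟩ := bridge_rep_get ht hb h hm
  refine ⟨gs, h1, h2, h3, h4, fun l hl => ⟨gs[l]'(by omega), List.getElem_mem _, h5 l (by omega)⟩, fun g hg => ?_⟩
  obtain ⟨l, hl, rfl⟩ := List.mem_iff_getElem.1 hg
  exact ⟨l, by omega, h5 l hl⟩

/-- the levels of a leaf and its heights -/
lemma isLf_cl (ht : t ∈ Brd T) (hb : 1 ≤ b) (h : Lf false b t m u e) {l : ℕ} (hl : l < m) {g : List Bool}
    (hg : IsLf t m e l g) : g ∈ CL b := by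
  obtain ⟨hu, hm2, h'⟩ := bridge_lf ht hb h (by omega)
  intro i i' h1 h2
  have h3 := h'.small l hl (st e l + i) (st e l + i') ?_ (by omega) (by rw [← hg.len]; omega)
  · rw [hg.lv i (by omega), hg.lv i' h2, sg_sub, sg_sub]
    have hul : Even (u + l) ↔ Even (l + 1) := by
      rw [Nat.even_add, Nat.even_add_one]
      tauto
    rw [lvl_false, lvl_false, sg_par hul, sg_par hul] at h3
    omega
  · unfold ee st
    split_ifs <;> omega

lemma isLf_le (ht : t ∈ Brd T) (hb : 1 ≤ b) (h : Lf false b t m u e) {l : ℕ} (hl : l < m) {g : List Bool}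
    (hg : IsLf t m e l g) {k : ℕ} (hk : g ∈ Brd k) : k ≤ T := by
  obtain ⟨hu, hm2, h'⟩ := bridge_lf ht hb h (by omega)
  have h1 := hg.lv g.length le_rfl
  rw [(mem_Brd.1 hk).2.2.2, hg.len] at h1
  have h2 : ee m t.length e (l + 1) ≤ t.length := by
    have h3 : ∀ d, l + 1 + d ≤ m → ee m t.length e (l + 1) ≤ ee m t.length e (l + 1 + d) := by
      intro d
      induction d with
      | zero => intro _; exact le_rfl
      | succ d ih =>
        intro hd
        have a1 := ih (by omega)
        have a2 := h'.lt (l + 1 + d) (by omega)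
        rw [← add_assoc]
        omega
    have h4 := h3 (m - (l + 1)) (by omega)
    rw [show l + 1 + (m - (l + 1)) = m by omega] at h4
    exact h4.trans h'.le
  have h3 := hg.len
  have r1 := lev_range ht h2
  have r2 := lev_range ht (i := st e l) (by omega)
  have h4 : (3 * k : ℤ) ≤ 3 * T := by
    unfold Tight.sg at h1
    split_ifs at h1 <;> omega
  omega

end NTm

end HexObs
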