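import Pool.Agent.NT.Exps

/-!
NT (natural time), module ExpQ: the exponent of the quantile. Text: doc proof/NAT_TIME, section 5.
-/

set_option autoImplicit false

namespace HexObs

namespace NTm

open Finset TS SDN T2

open scoped ENNReal

/-- the mass of the bridges up to the height `N` is the sum over the long and the short ones -/
lemma mass_split (N : ℕ) (lam : ℝ) : ENNReal.ofReal (UU N) ≤
    ∑ h ∈ Finset.range (N + 1), gf {Z | Z ∈ Brd h ∧ lam ≤ (Z.length : ℝ)} +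
      ∑ h ∈ Finset.range (N + 1), gf {Z | Z ∈ Brd h ∧ (Z.length : ℝ) < lam} := by
  rw [Amp.ofReal_UU, ← Finset.sum_add_distrib]
  refine Finset.sum_le_sum fun h _ => ?_
  rw [← gf_Brd]
  refine le_trans (gf_mono ?_) (gf_union_le _ _)
  intro Z hZ
  rcases le_or_gt lam (Z.length : ℝ) with h1 | h1
  · exact Or.inl ⟨hZ, h1⟩
  · exact Or.inr ⟨hZ, h1⟩

/-- upper exponent: a length that is exceeded with more than half of the mass is at most `C N ^ (4 / 3 + e)` -/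
theorem up_of_half {e : ℝ} (he : 0 < e) : ∃ C : ℝ, 0 < C ∧ ∀ N : ℕ, 1 ≤ N → ∀ lam : ℝ,
    ENNReal.ofReal (UU N / 2) < ∑ h ∈ Finset.range (N + 1), gf {Z | Z ∈ Brd h ∧ lam ≤ (Z.length : ℝ)} →
      lam ≤ C * (N : ℝ) ^ (4 / 3 + e) := by
  obtain ⟨C, hC, h⟩ := exp_up e he
  refine ⟨C, hC, fun N hN lam hlam => ?_⟩
  by_contra hcon
  push Not at hcon
  refine absurd hlam (not_lt.2 ?_)
  have h1 := Num2Aux.UU_pos N
  calc ∑ k ∈ Finset.range (N + 1), gf {Z | Z ∈ Brd k ∧ lam ≤ (Z.length : ℝ)}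
      ≤ ∑ k ∈ Finset.range (N + 1), gf {Z | Z ∈ Brd k ∧ C * (N : ℝ) ^ (4 / 3 + e) ≤ (Z.length : ℝ)} :=
        Finset.sum_le_sum fun k _ => gf_mono fun Z hZ => ⟨hZ.1, hcon.le.trans hZ.2⟩
    _ ≤ ENNReal.ofReal (UU N / 4) := h N hN
    _ ≤ _ := ENNReal.ofReal_le_ofReal (by linarith)

/-- lower exponent: a length that is exceeded with at most half of the mass is at least `N ^ (4 / 3 - e)` -/
theorem low_of_half {e : ℝ} (he : 0 < e) : ∃ N0 : ℕ, ∀ N : ℕ, N0 ≤ N → ∀ lam : ℝ,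
    ∑ h ∈ Finset.range (N + 1), gf {Z | Z ∈ Brd h ∧ lam ≤ (Z.length : ℝ)} ≤ ENNReal.ofReal (UU N / 2) →
      (N : ℝ) ^ (4 / 3 - e) ≤ lam := by
  obtain ⟨N0, h⟩ := exp_low e he
  refine ⟨N0, fun N hN lam hlam => ?_⟩
  by_contra hcon
  push Not at hcon
  have h1 := Num2Aux.UU_pos N
  have h2 : ∑ k ∈ Finset.range (N + 1), gf {Z | Z ∈ Brd k ∧ (Z.length : ℝ) < lam} ≤ ENNReal.ofReal (UU N / 4) := by
    refine le_trans (Finset.sum_le_sum fun k _ => ?_) (h N hN)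
    refine gf_mono ?_
    rintro Z ⟨hZ, hZ2⟩
    exact ⟨hZ, lt_trans hZ2 hcon⟩
  have h3 := (mass_split N lam).trans (add_le_add hlam h2)
  rw [← ENNReal.ofReal_add (by linarith) (by linarith), ENNReal.ofReal_le_ofReal_iff (by linarith)] at h3
  linarith

/-- no length is exceeded with more than half of the mass beyond some bound -/
theorem not_half {N : ℕ} (hN : 1 ≤ N) : ∃ B : ℕ, ∀ lam : ℕ,
    ENNReal.ofReal (UU N / 2) < ∑ h ∈ Finset.range (N + 1), gf {Z | Z ∈ Brd h ∧ (lam : ℝ) ≤ (Z.length : ℝ)} →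
      lam ≤ B := by
  obtain ⟨C, hC, h⟩ := up_of_half (e := 1) one_pos
  obtain ⟨B, hB⟩ := exists_nat_ge (C * (N : ℝ) ^ ((4 : ℝ) / 3 + 1))
  exact ⟨B, fun lam hlam => by exact_mod_cast (h N hN lam hlam).trans hB⟩

end NTm

end HexObs
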