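import Pool.Agent.NT.SeqDefs
import Pool.Agent.NT.ExpQ

/-!
NT (natural time), module SeqEx: the upper quantiles of the lengths of the bridges of height at most 2 ^ k.
-/

set_option autoImplicit false

namespace HexObs

namespace NTm

open Finset TS SDN SDN.CN

open scoped ENNReal

namespace SeqA

lemma TL_anti {N : ℕ} {lam lam' : ℝ} (h : lam ≤ lam') : TL N lam' ≤ TL N lam :=
  Finset.sum_le_sum fun _ _ => gf_mono fun _ hZ => ⟨hZ.1, h.trans hZ.2⟩

/-- Markov -/
lemma TL_markov {a C θ : ℝ} (ha : 0 ≤ a) (hC : 0 ≤ C) (hM : T2.MeanLen a C) (hθ : 0 < θ) (N : ℕ) {lam : ℝ}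
    (hlam : 0 < lam) (h : C * (N : ℝ) ^ a ≤ θ * lam) : TL N lam ≤ ENNReal.ofReal (θ * UU N) := by
  have h1 : ∀ h ∈ Finset.range (N + 1), gf {Z | Z ∈ Brd h ∧ lam ≤ (Z.length : ℝ)} ≤ ENNReal.ofReal θ * BT h := by
    intro k hk
    rw [Finset.mem_range] at hk
    rcases Nat.eq_zero_or_pos k with h0 | h0
    · subst h0
      have h2 : {Z | Z ∈ Brd 0 ∧ lam ≤ (Z.length : ℝ)} = ∅ := by
        ext Z
        constructor
        · rintro ⟨hZ, hl⟩
          rw [Brd_zero] at hZ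
          have hZ' : Z = [] := hZ
          rw [hZ'] at hl
          simp only [List.length_nil, Nat.cast_zero] at hl
          linarith
        · intro h
          exact h.elim
      rw [h2]
      have : gf (∅ : Set (List Bool)) = 0 := by
        unfold gf
        exact tsum_empty
      rw [this]
      exact zero_le
    · refine (T2.AN.markov hM h0 hlam (fun Z hZ => hZ)).trans ?_
      rw [← mul_assoc, ← ENNReal.ofReal_mul (by positivity)]
      refine mul_le_mul_left (ENNReal.ofReal_le_ofReal ?_) _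
      rw [one_div, inv_mul_eq_div, div_le_iff₀ hlam]
      have h3 : (k : ℝ) ^ a ≤ (N : ℝ) ^ a := by
        apply Real.rpow_le_rpow (Nat.cast_nonneg _) _ ha
        exact_mod_cast (by omega : k ≤ N)
      have h4 : C * (k : ℝ) ^ a ≤ C * (N : ℝ) ^ a := mul_le_mul_of_nonneg_left h3 hC
      linarith
  refine (Finset.sum_le_sum h1).trans ?_
  rw [← Finset.mul_sum, ← T2.Amp.ofReal_UU, ← ENNReal.ofReal_mul hθ.le]

/-- q is the quantile at the level θ of the bridges of height at most N -/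
def Qn (θ : ℝ) (N q : ℕ) : Prop :=
  TL N ((q : ℝ) + 1) ≤ ENNReal.ofReal (θ * UU N) ∧ (1 ≤ q → ENNReal.ofReal (θ * UU N) < TL N (q : ℝ))

lemma Qn_ex {θ : ℝ} (hθ : 0 < θ) (N : ℕ) : ∃ q, Qn θ N q := by
  classical
  have hex : ∃ q : ℕ, TL N ((q : ℝ) + 1) ≤ ENNReal.ofReal (θ * UU N) := by
    obtain ⟨C, hC, hM⟩ := T2.meanLen_quarter (a := 2) (by norm_num)
    obtain ⟨q, hq⟩ := exists_nat_ge (C * (N : ℝ) ^ (2 : ℝ) / θ)
    refine ⟨q, TL_markov (by norm_num) hC hM hθ N (by positivity) ?_⟩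
    rw [div_le_iff₀ hθ] at hq
    nlinarith
  refine ⟨Nat.find hex, Nat.find_spec hex, fun h => ?_⟩
  have h1 : ¬ TL N (((Nat.find hex - 1 : ℕ) : ℝ) + 1) ≤ ENNReal.ofReal (θ * UU N) :=
    Nat.find_min hex (Nat.sub_lt h one_pos)
  have h2 : ((Nat.find hex - 1 : ℕ) : ℝ) + 1 = Nat.find hex := by
    rw [Nat.cast_sub h]
    ring
  rw [h2, not_le] at h1
  exact h1

/-- the weight of all the bridges with at most q + 1 letters -/
lemma as_q {θ : ℝ} (hθ : 0 < θ) (hθ1 : θ < 1) {N q : ℕ} (hq : Qn θ N q) : AS ((q : ℝ) + 2) (8 / (θ * xc ^ 2) * UU N) := by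
  have hx := xc_pos
  intro M
  have hU : 0 < UU N := Num2Aux.UU_pos _
  have hU1 : 0 < UU (N + 1) := Num2Aux.UU_pos _
  have hU2 : UU (N + 1) ≤ 2 * UU N := by
    unfold UU
    rw [Finset.sum_range_succ]
    have h1 : uu (N + 1) ≤ ∑ i ∈ range (N + 1), uu i := by
      have h2 : uu (N + 1) ≤ uu 0 := by
        rw [uu_zero]
        exact uu_le_one _
      refine h2.trans ?_
      exact Finset.single_le_sum (f := fun i => uu i) (fun i _ => (uu_pos i).le) (Finset.mem_range.2 (by omega))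
    linarith
  have hw : wE [true, false] = ENNReal.ofReal (xc ^ 2) := by
    rw [wE_eq_pow, ENNReal.ofReal_pow hx.le]
    rfl
  have hlow : ENNReal.ofReal (θ * UU N) < TL N (q : ℝ) := by
    rcases Nat.eq_zero_or_pos q with h | h
    · rw [h, Nat.cast_zero]
      have h1 : TL N 0 = ENNReal.ofReal (UU N) := by
        unfold TL
        rw [T2.Amp.ofReal_UU]
        refine Finset.sum_congr rfl fun h _ => ?_
        rw [← gf_Brd]
        congr 1
        ext Z
        exact ⟨fun h => h.1, fun h => ⟨h, Nat.cast_nonneg _⟩⟩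
      rw [h1]
      exact (ENNReal.ofReal_lt_ofReal_iff hU).2 (by nlinarith)
    · exact hq.2 h
  have hnt : ¬ T2.Tail (N + 1) ((q : ℝ) + 2) (θ * xc ^ 2 / 4) := by
    intro ht
    have h1 : ENNReal.ofReal (xc ^ 2) * TL N (q : ℝ) ≤ ENNReal.ofReal (θ * xc ^ 2 / 4 * UU (N + 1)) := by
      refine le_trans ?_ ht
      unfold TL
      rw [Finset.mul_sum, Finset.sum_range_succ' _ (N + 1)]
      refine le_trans (Finset.sum_le_sum fun h _ => ?_) le_self_add
      rw [mul_comm, ← hw, ← B2b_gf_singleton]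
      refine mul_le_gf (Q := {Z | Z ∈ Brd h ∧ (q : ℝ) ≤ (Z.length : ℝ)}) (R := {[true, false]}) ?_ ?_
      · rintro a ⟨ha, hl⟩ b hb
        rw [Set.mem_singleton_iff.1 hb]
        refine ⟨Brd_append ha tf_mem', ?_⟩
        rw [List.length_append]
        push_cast
        have : ((([true, false] : List Bool).length : ℕ) : ℝ) = 2 := by norm_num
        rw [this]
        linarith
      · rintro a ha b hb a' ha' b' hb' hab
        rw [Set.mem_singleton_iff.1 hb, Set.mem_singleton_iff.1 hb'] at hab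
        exact List.append_cancel_right hab
    have h2 : ENNReal.ofReal (xc ^ 2 * (θ * UU N)) < ENNReal.ofReal (xc ^ 2) * TL N (q : ℝ) := by
      rw [ENNReal.ofReal_mul (by positivity)]
      exact ENNReal.mul_lt_mul_right (by simpa using hx.ne') ENNReal.ofReal_ne_top hlow
    have h3 := h2.trans_le h1
    rw [ENNReal.ofReal_lt_ofReal_iff_of_nonneg (by positivity)] at h3
    have h4 : 0 < xc ^ 2 * θ := by positivity
    nlinarith
  refine (T2.amplify (by positivity) hnt M).trans (ENNReal.ofReal_le_ofReal ?_)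
  rw [div_div_eq_mul_div, div_mul_eq_mul_div]
  apply div_le_div_of_nonneg_right _ (by positivity)
  linarith

lemma q_up {θ a C : ℝ} (hθ : 0 < θ) (ha : 0 ≤ a) (hC : 0 ≤ C) (hM : T2.MeanLen a C) {N q : ℕ} (hq : Qn θ N q) :
    (q : ℝ) ≤ C / θ * (N : ℝ) ^ a := by
  by_contra hcon
  rw [not_le] at hcon
  have h0 : 0 ≤ C / θ * (N : ℝ) ^ a := by positivity
  have h1 : 1 ≤ q := by
    have : (0 : ℝ) < q := lt_of_le_of_lt h0 hcon
    exact_mod_cast this
  refine absurd (hq.2 h1) (not_lt.2 (TL_markov ha hC hM hθ N (lt_of_le_of_lt h0 hcon) ?_))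
  have h2 : C * (N : ℝ) ^ a = θ * (C / θ * (N : ℝ) ^ a) := by field_simp
  rw [h2]
  exact mul_le_mul_of_nonneg_left hcon.le hθ.le

lemma Seq_mono {θ θ' : ℝ} {l : ℕ → ℕ} (h : θ' ≤ θ) (hl : Seq θ' l) : Seq θ l where
  one := hl.one
  mono := hl.mono
  as := hl.as
  tail := fun k => (hl.tail k).trans (ENNReal.ofReal_le_ofReal (mul_le_mul_of_nonneg_right h (Ub_pos k).le))
  up := hl.up
  low := hl.low

end SeqA

open SeqA

/-- there are upper quantiles -/
theorem seq_exists {θ : ℝ} (h0 : 0 < θ) (h1 : θ < 1) : ∃ l : ℕ → ℕ, Seq θ l := by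
  obtain ⟨η, hη⟩ : ∃ η : ℝ, η = min θ (1 / 2) := ⟨_, rfl⟩
  have hη0 : 0 < η := by rw [hη]; exact lt_min h0 (by norm_num)
  have hη1 : η ≤ θ := by rw [hη]; exact min_le_left _ _
  have hη2 : η ≤ 1 / 2 := by rw [hη]; exact min_le_right _ _
  have hη3 : η < 1 := by linarith
  choose q hq using fun k : ℕ => Qn_ex hη0 (2 ^ k)
  refine ⟨fun k => (Finset.range (k + 1)).sup q + 1, Seq_mono hη1 ?_⟩
  have hle : ∀ k, q k ≤ (Finset.range (k + 1)).sup q := fun k =>
    Finset.le_sup (f := q) (Finset.mem_range.2 (Nat.lt_succ_self k))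
  refine ⟨fun k => Nat.le_add_left _ _, ?_, ?_, ?_, ?_, ?_⟩
  · intro a b hab
    exact Nat.add_le_add_right (Finset.sup_mono (Finset.range_mono (by omega))) 1
  · have hx := xc_pos
    refine ⟨max 1 (8 / (η * xc ^ 2)), le_max_left _ _, fun k => ?_⟩
    obtain ⟨i, hi, hs⟩ := Finset.exists_mem_eq_sup (Finset.range (k + 1)) ⟨0, by simp⟩ q
    rw [Finset.mem_range] at hi
    have h2 : ((((Finset.range (k + 1)).sup q + 1 : ℕ) : ℝ)) + 1 = (q i : ℝ) + 2 := by
      rw [hs]
      push_cast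
      ring
    rw [h2]
    refine AS_mono le_rfl ?_ (as_q hη0 hη3 (hq i))
    have h3 : UU (2 ^ i) ≤ Ub k := Num2Aux.UU_mono (Nat.pow_le_pow_right (by norm_num) (by omega))
    have h4 : 0 < UU (2 ^ i) := Num2Aux.UU_pos _
    calc 8 / (η * xc ^ 2) * UU (2 ^ i) ≤ max 1 (8 / (η * xc ^ 2)) * UU (2 ^ i) :=
          mul_le_mul_of_nonneg_right (le_max_right _ _) h4.le
      _ ≤ _ := mul_le_mul_of_nonneg_left h3 (le_trans zero_le_one (le_max_left _ _))
  · intro k
    refine (TL_anti ?_).trans (hq k).1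
    have h2 : ((q k : ℕ) : ℝ) ≤ (((Finset.range (k + 1)).sup q : ℕ) : ℝ) := by exact_mod_cast hle k
    push_cast
    linarith
  · intro e he
    obtain ⟨C, hC, hM⟩ := ExpsA.meanLen he
    refine ⟨C / η + 1, by positivity, fun k => ?_⟩
    have h2 : ∀ i, (q i : ℝ) ≤ C / η * (2 : ℝ) ^ ((4 / 3 + e) * i) := by
      intro i
      refine (q_up hη0 (by linarith) hC hM (hq i)).trans (le_of_eq ?_)
      congr 1
      push_cast
      rw [← Real.rpow_natCast, ← Real.rpow_mul (by norm_num), mul_comm]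
    obtain ⟨i, hi, hs⟩ := Finset.exists_mem_eq_sup (Finset.range (k + 1)) ⟨0, by simp⟩ q
    rw [Finset.mem_range] at hi
    rw [hs]
    push_cast
    have h3 : (2 : ℝ) ^ ((4 / 3 + e) * (i : ℝ)) ≤ (2 : ℝ) ^ ((4 / 3 + e) * (k : ℝ)) := by
      apply Real.rpow_le_rpow_of_exponent_le (by norm_num)
      have : (i : ℝ) ≤ k := by exact_mod_cast (by omega : i ≤ k)
      nlinarith
    have h4 : (1 : ℝ) ≤ (2 : ℝ) ^ ((4 / 3 + e) * (k : ℝ)) :=
      Real.one_le_rpow (by norm_num) (by positivity)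
    have h5 : 0 ≤ C / η := by positivity
    calc (q i : ℝ) + 1 ≤ C / η * (2 : ℝ) ^ ((4 / 3 + e) * (k : ℝ)) + (2 : ℝ) ^ ((4 / 3 + e) * (k : ℝ)) :=
          add_le_add ((h2 i).trans (mul_le_mul_of_nonneg_left h3 h5)) h4
      _ = _ := by ring
  · intro e he
    obtain ⟨N0, hN0⟩ := low_of_half he
    refine ⟨N0, fun k hk => ?_⟩
    have h2 := hN0 (2 ^ k) (hk.trans (Nat.lt_two_pow_self).le) ((q k : ℝ) + 1) (by
      refine (hq k).1.trans (ENNReal.ofReal_le_ofReal ?_)
      have := Num2Aux.UU_pos (2 ^ k)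
      nlinarith)
    have h3 : (2 : ℝ) ^ ((4 / 3 - e) * (k : ℝ)) = (((2 ^ k : ℕ) : ℝ)) ^ (4 / 3 - e) := by
      push_cast
      rw [← Real.rpow_natCast, ← Real.rpow_mul (by norm_num), mul_comm]
    rw [h3]
    refine h2.trans ?_
    have h4 : ((q k : ℕ) : ℝ) ≤ (((Finset.range (k + 1)).sup q : ℕ) : ℝ) := by exact_mod_cast hle k
    push_cast
    linarith

end NTm

end HexObs
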