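import Pool.Agent.NT.SeqDefsH

/-!
NT (natural time): the choice of the lengths.  A k = the lengths n at most l k for which the uniform
n-step bridges avoid all bad events; `pick`, `pickH`.
-/

set_option autoImplicit false

namespace HexObs

namespace NTm

open Finset TS SDN SDN.CN

open scoped ENNReal

namespace PickA

/-- a bridge has one height -/
lemma Brd_unique {h h' : ℕ} {t : List Bool} (h1 : t ∈ Brd h) (h2 : t ∈ Brd h') : h = h' := by
  have e1 := (mem_Brd.1 h1).2.2.2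
  have e2 := (mem_Brd.1 h2).2.2.2
  omega

lemma gf_emp : gf (∅ : Set (List Bool)) = 0 := by
  unfold gf
  exact tsum_empty

lemma gf_iUd {F : ℕ → Set (List Bool)} (h : ∀ i j, i ≠ j → Disjoint (F i) (F j)) :
    gf (⋃ n, F n) = ∑' n, gf (F n) := by
  unfold gf
  exact ENNReal.tsum_biUnion fun i _ j _ hij => h i j hij

/-- sum over the heights -/
lemma sum_Brd_le (N : ℕ) (S : Set (List Bool)) :
    ∑ h ∈ Finset.range (N + 1), gf {t | t ∈ Brd h ∧ t ∈ S} ≤ gf {t | t ∈ BU ∧ t ∈ S} := by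
  refine (ENNReal.sum_le_tsum _).trans ?_
  rw [← gf_iUd (F := fun h => {t | t ∈ Brd h ∧ t ∈ S}) fun i j hij => by
    rw [Set.disjoint_left]
    rintro t ⟨h1, -⟩ ⟨h2, -⟩
    exact hij (Brd_unique h1 h2)]
  refine gf_mono fun t ht => ?_
  obtain ⟨h, h1, h2⟩ := Set.mem_iUnion.1 ht
  exact ⟨⟨h, h1⟩, h2⟩

/-- sum over the lengths -/
lemma gf_len_sum (S : Set (List Bool)) : gf S = ∑' n : ℕ, gf {t | t ∈ S ∧ t.length = n} := by
  rw [← gf_iUd (F := fun n : ℕ => {t | t ∈ S ∧ t.length = n}) fun i j hij => by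
    rw [Set.disjoint_left]
    rintro t ⟨-, h1⟩ ⟨-, h2⟩
    exact hij (h1.symm.trans h2)]
  congr 1
  ext t
  rw [Set.mem_iUnion]
  exact ⟨fun h => ⟨t.length, h, rfl⟩, fun ⟨_, h, _⟩ => h⟩

/-- **Markov over the lengths**: the lengths at which some event is too likely have a small weight -/
lemma bad_mass {E : ℕ → Set (List Bool)} {c w : ℕ → ℝ≥0∞} {lam : ℝ} (hc : ∀ q, c q ≠ 0)
    (hc' : ∀ q, c q ≠ ⊤)
    (h : ∀ q, gf {t | t ∈ BU ∧ (t.length : ℝ) < lam ∧ t ∈ E q} ≤ c q * w q) :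
    gf {t | t ∈ BU ∧ (t.length : ℝ) < lam ∧
      ∃ q, c q * gf (BW t.length) < gf {s | s ∈ BW t.length ∧ s ∈ E q}} ≤ ∑' q, w q := by
  have key : ∀ q, gf {t | t ∈ BU ∧ (t.length : ℝ) < lam ∧
      c q * gf (BW t.length) < gf {s | s ∈ BW t.length ∧ s ∈ E q}} ≤ w q := by
    intro q
    have h1 : gf {t | t ∈ BU ∧ (t.length : ℝ) < lam ∧
        c q * gf (BW t.length) < gf {s | s ∈ BW t.length ∧ s ∈ E q}} ≤
        (c q)⁻¹ * gf {t | t ∈ BU ∧ (t.length : ℝ) < lam ∧ t ∈ E q} := by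
      rw [gf_len_sum, gf_len_sum {t | t ∈ BU ∧ (t.length : ℝ) < lam ∧ t ∈ E q},
        ← ENNReal.tsum_mul_left]
      refine ENNReal.tsum_le_tsum fun n => ?_
      by_cases hn : (n : ℝ) < lam ∧ c q * gf (BW n) < gf {s | s ∈ BW n ∧ s ∈ E q}
      · have e1 : gf {t | t ∈ {t | t ∈ BU ∧ (t.length : ℝ) < lam ∧
            c q * gf (BW t.length) < gf {s | s ∈ BW t.length ∧ s ∈ E q}} ∧ t.length = n} ≤
            gf (BW n) := gf_mono fun t ht => ⟨ht.1.1, ht.2⟩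
        have e2 : gf {s | s ∈ BW n ∧ s ∈ E q} ≤
            gf {t | t ∈ {t | t ∈ BU ∧ (t.length : ℝ) < lam ∧ t ∈ E q} ∧ t.length = n} :=
          gf_mono fun t ht => ⟨⟨ht.1.1, by rw [ht.1.2]; exact hn.1, ht.2⟩, ht.1.2⟩
        calc _ ≤ gf (BW n) := e1
          _ = (c q)⁻¹ * (c q * gf (BW n)) := by
              rw [← mul_assoc, ENNReal.inv_mul_cancel (hc q) (hc' q), one_mul]
          _ ≤ (c q)⁻¹ * gf {s | s ∈ BW n ∧ s ∈ E q} := mul_le_mul_right hn.2.le _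
          _ ≤ _ := mul_le_mul_right e2 _
      · have e1 : {t | t ∈ {t | t ∈ BU ∧ (t.length : ℝ) < lam ∧
            c q * gf (BW t.length) < gf {s | s ∈ BW t.length ∧ s ∈ E q}} ∧ t.length = n} =
            (∅ : Set (List Bool)) := by
          ext t
          constructor
          · rintro ⟨⟨-, h2, h3⟩, h4⟩
            rw [h4] at h2 h3
            exact hn ⟨h2, h3⟩
          · intro ht
            exact ht.elim
        rw [e1, gf_emp]
        exact zero_le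
    refine h1.trans ?_
    calc _ ≤ (c q)⁻¹ * (c q * w q) := mul_le_mul_right (h q) _
      _ = w q := by rw [← mul_assoc, ENNReal.inv_mul_cancel (hc q) (hc' q), one_mul]
  have hsub : {t | t ∈ BU ∧ (t.length : ℝ) < lam ∧
      ∃ q, c q * gf (BW t.length) < gf {s | s ∈ BW t.length ∧ s ∈ E q}} ⊆
      ⋃ q, {t | t ∈ BU ∧ (t.length : ℝ) < lam ∧
        c q * gf (BW t.length) < gf {s | s ∈ BW t.length ∧ s ∈ E q}} := by
    rintro t ⟨h1, h2, q, h3⟩
    exact Set.mem_iUnion.2 ⟨q, h1, h2, h3⟩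
  refine (gf_mono hsub).trans ?_
  refine le_trans ?_ (ENNReal.tsum_le_tsum key)
  unfold gf
  exact ENNReal.tsum_iUnion_le_tsum wE _

lemma gf_BW_ne {t : List Bool} (ht : t ∈ BU) : gf (BW t.length) ≠ 0 := by
  have h1 : wE t ≤ gf (BW t.length) := by
    unfold gf
    exact ENNReal.le_tsum (f := fun s : BW t.length => wE s) ⟨t, ht, rfl⟩
  exact ne_of_gt (lt_of_lt_of_le (wE_pos t) h1)

/-- geometric weights -/
lemma tsum_half (x : ℝ) (hx : 0 ≤ x) : ∑' q : ℕ, ENNReal.ofReal ((1 / 2) ^ q * x) =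
    ENNReal.ofReal (2 * x) := by
  rw [← ENNReal.ofReal_tsum_of_nonneg (fun q => by positivity)
    ((summable_geometric_of_lt_one (by norm_num) (by norm_num)).mul_right x), tsum_mul_right,
    tsum_geometric_of_lt_one (by norm_num) (by norm_num)]
  norm_num

end PickA

open PickA

open scoped Classical in
/-- the window property survives a lower cut -/
lemma Dense.cut {ε : ℝ} {G : Set ℕ} (h : Dense ε G) (L1 : ℕ) : Dense ε {k | k ∈ G ∧ L1 ≤ k} := by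
  intro δ hδ
  obtain ⟨x0, hx0⟩ := h δ hδ
  refine ⟨max x0 L1, fun x hx => (hx0 x (le_trans (le_max_left _ _) hx)).trans (le_of_eq ?_)⟩
  congr 2
  ext k
  simp only [Finset.mem_filter, Finset.mem_Icc, Set.mem_ofPred_eq]
  constructor
  · rintro ⟨hk, h2⟩
    exact ⟨hk, h2, (le_trans (le_max_right _ _) hx).trans hk.1⟩
  · rintro ⟨hk, h2, -⟩
    exact ⟨hk, h2⟩

/-- the event modu -/
def EM (r ρ : ℝ) (L lL : ℕ) : Set (List Bool) :=
  {t | ∃ (dir : Bool) (i j : ℕ), i ≤ j ∧ j ≤ t.length ∧ (j : ℝ) - i ≤ ρ * lL ∧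
    r * 2 ^ L ≤ |((lvl dir (vx oo up t j) - lvl dir (vx oo up t i) : ℤ) : ℝ)|}

/-- the event hgt -/
def EHt (κ : ℝ) (L : ℕ) : Set (List Bool) := {t | (lev t t.length : ℝ) ≤ κ * 2 ^ L}

/-- the event tail -/
def ET (i L : ℕ) : Set (List Bool) :=
  {t | ∃ dir : Bool, (2 : ℝ) ^ i * 2 ^ L ≤ |((lvl dir (vx oo up t t.length) : ℤ) : ℝ)|}

/-- the lengths which avoid the bad events -/
def AP (ρ0 : ℝ) (l : ℕ → ℕ) (E : ℕ → ℕ → Set (List Bool)) (c : ℕ → ℝ≥0∞) (c' : ℕ → ℝ≥0∞) (k : ℕ) :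
    Set ℕ :=
  {n | ρ0 * (l k : ℝ) < n ∧ n ≤ l k ∧ gf (BW n) ≠ 0 ∧
    (∀ q, gf {s | s ∈ BW n ∧ s ∈ E q k} ≤ c q * gf (BW n)) ∧
    ∀ i, gf {s | s ∈ BW n ∧ s ∈ ET i k} ≤ c' i * gf (BW n)}

/-- **The choice of the lengths**, with one more family of bad events X. -/
theorem pick_gen {ε ε' : ℝ} (h0 : 0 < ε) {l : ℕ → ℕ} {G : Set ℕ} (hl : Seq (ε / 2) l)
    (hF : Facts l G) (hD : Dense ε' G) (X : ℕ → ℕ → Set (List Bool))
    (hX : ∀ q, ∃ L0 : ℕ, ∀ L ∈ G, L0 ≤ L →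
      gf {t | t ∈ BU ∧ (t.length : ℝ) < (l L : ℝ) + 1 ∧ t ∈ X q L} ≤
        ENNReal.ofReal (ε / 96 * (1 / 4) ^ q * Ub L)) :
    ∃ (G' : Set ℕ) (A : ℕ → Set ℕ), Dense ε' G' ∧ Core ε G' A ∧ (∀ k ∈ G', ∀ n ∈ A k, n ≤ l k) ∧
      ∀ q, ∃ k0 : ℕ, ∀ k ∈ G', k0 ≤ k → ∀ n ∈ A k,
        gf {t | t ∈ BW n ∧ t ∈ X q k} ≤ ENNReal.ofReal ((1 / 2) ^ q) * gf (BW n) := by
  have hq0 : ∀ q : ℕ, 0 < ε / 96 * (1 / 4) ^ q := fun q => by positivity
  choose ρ Lm hρ hm using fun q : ℕ => hF.modu ((1 / 2) ^ q) (ε / 96 * (1 / 4) ^ q) (by positivity)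
    (hq0 q)
  choose κ Lh hκ hh using fun q : ℕ => hF.hgt (ε / 96 * (1 / 4) ^ q) (hq0 q)
  choose Lx hx using hX
  obtain ⟨ρ0, Lf, hρ0, hf⟩ := hF.few (ε / 8) (by positivity)
  obtain ⟨K, Lt, hK, ht⟩ := hF.tail
  -- the events
  set Lq : ℕ → ℕ := fun q => max (Lm q) (max (Lh q) (Lx q)) with hLq
  set E : ℕ → ℕ → Set (List Bool) := fun q L =>
    {t | Lq q ≤ L ∧ (t ∈ EM ((1 / 2) ^ q) (ρ q) L (l L) ∨ t ∈ EHt (κ q) L ∨ t ∈ X q L)} with hE
  set c : ℕ → ℝ≥0∞ := fun q => ENNReal.ofReal ((1 / 2) ^ q) with hc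
  set K' : ℝ := 32 * K / ε with hK'
  have hK'0 : 0 < K' := by positivity
  set c' : ℕ → ℝ≥0∞ := fun i => ENNReal.ofReal (K' / 32 ^ i) with hc'
  set A : ℕ → Set ℕ := fun k => AP ρ0 l E c c' k with hA
  set L1 : ℕ := max Lf Lt with hL1
  have hEmass : ∀ L ∈ G, ∀ q, gf {t | t ∈ BU ∧ (t.length : ℝ) < (l L : ℝ) + 1 ∧ t ∈ E q L} ≤
      c q * ENNReal.ofReal ((1 / 2) ^ q * (ε / 32 * Ub L)) := by
    intro L hL q
    have hU := Ub_pos L
    by_cases hq : Lq q ≤ L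
    · have a1 := hm q L hL (le_trans (le_max_left _ _) hq)
      have a2 := hh q L (le_trans ((le_max_left _ _).trans (le_max_right _ _)) hq)
      have a3 := hx q L hL (le_trans ((le_max_right _ _).trans (le_max_right _ _)) hq)
      have hsub : {t | t ∈ BU ∧ (t.length : ℝ) < (l L : ℝ) + 1 ∧ t ∈ E q L} ⊆
          {t | t ∈ BU ∧ (t.length : ℝ) < (l L : ℝ) + 1 ∧ ∃ (dir : Bool) (i j : ℕ), i ≤ j ∧
            j ≤ t.length ∧ (j : ℝ) - i ≤ ρ q * l L ∧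
            (1 / 2) ^ q * 2 ^ L ≤ |((lvl dir (vx oo up t j) - lvl dir (vx oo up t i) : ℤ) : ℝ)|} ∪
          ({t | t ∈ BU ∧ (lev t t.length : ℝ) ≤ κ q * 2 ^ L} ∪
          {t | t ∈ BU ∧ (t.length : ℝ) < (l L : ℝ) + 1 ∧ t ∈ X q L}) := by
        rintro t ⟨t1, t2, -, t3⟩
        rcases t3 with t3 | t3 | t3
        · exact Or.inl ⟨t1, t2, t3⟩
        · exact Or.inr (Or.inl ⟨t1, t3⟩)
        · exact Or.inr (Or.inr ⟨t1, t2, t3⟩)
      refine (gf_mono hsub).trans ((gf_union_le _ _).trans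
        ((add_le_add a1 ((gf_union_le _ _).trans (add_le_add a2 a3))).trans (le_of_eq ?_)))
      rw [hc, ← ENNReal.ofReal_mul (by positivity), ← ENNReal.ofReal_add (by positivity)
        (by positivity), ← ENNReal.ofReal_add (by positivity) (by positivity)]
      congr 1
      rw [show (1 / 4 : ℝ) = 1 / 2 * (1 / 2) by norm_num, mul_pow]
      ring
    · have e1 : {t | t ∈ BU ∧ (t.length : ℝ) < (l L : ℝ) + 1 ∧ t ∈ E q L} =
          (∅ : Set (List Bool)) := by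
        ext t
        exact ⟨fun h => hq h.2.2.1, fun h => h.elim⟩
      rw [e1, gf_emp]
      exact zero_le
  have hTmass : ∀ L, Lt ≤ L → ∀ i, gf {t | t ∈ BU ∧ (t.length : ℝ) < (l L : ℝ) + 1 ∧ t ∈ ET i L} ≤
      c' i * ENNReal.ofReal ((1 / 2) ^ i * (ε / 32 * Ub L)) := by
    intro L hL i
    have hU := Ub_pos L
    refine (ht L i hL).trans ?_
    rw [hc', ← ENNReal.ofReal_mul (by positivity)]
    refine ENNReal.ofReal_le_ofReal ?_
    have e1 : K' / 32 ^ i * ((1 / 2) ^ i * (ε / 32 * Ub L)) = K / 64 ^ i * Ub L := by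
      rw [hK', show (64 : ℝ) = 32 * 2 by norm_num, mul_pow, one_div, inv_pow]
      field_simp
    rw [e1]
    have e2 : (64 : ℝ) ^ i ≤ 2 ^ (12 * i) := by
      rw [pow_mul]
      exact pow_le_pow_left₀ (by norm_num) (by norm_num) i
    gcongr
  refine ⟨{k | k ∈ G ∧ L1 ≤ k}, A, hD.cut L1, ⟨?_, ?_, ?_, ?_, ?_, ?_⟩, fun k _ n hn => hn.2.1,
    fun q => ⟨Lq q, fun k _ hk n hn => ?_⟩⟩
  · -- typ
    rintro k ⟨hk, hk1⟩
    have hU := Ub_pos k
    have hR : ∑ h ∈ Finset.range (2 ^ k + 1), gf {t | t ∈ Brd h} = ENNReal.ofReal (Ub k) := by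
      rw [show Ub k = UU (2 ^ k) from rfl, T2.Amp.ofReal_UU]
      exact Finset.sum_congr rfl fun h _ => gf_Brd h
    rw [hR, ← ENNReal.ofReal_mul h0.le]
    set S : Set (List Bool) := {t | (t.length : ℝ) < (l k : ℝ) + 1 ∧ t.length ∉ A k} with hS
    have h1 : ∑ h ∈ Finset.range (2 ^ k + 1), gf {t | t ∈ Brd h ∧ t.length ∉ A k} ≤
        TL (2 ^ k) ((l k : ℝ) + 1) + gf {t | t ∈ BU ∧ t ∈ S} := by
      refine le_trans ?_ (add_le_add le_rfl (sum_Brd_le (2 ^ k) S))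
      unfold TL
      rw [← Finset.sum_add_distrib]
      refine Finset.sum_le_sum fun h _ => ?_
      refine (gf_mono fun t ht => ?_).trans (gf_union_le _ _)
      rcases le_or_gt ((l k : ℝ) + 1) (t.length : ℝ) with h2 | h2
      · exact Or.inl ⟨ht.1, h2⟩
      · exact Or.inr ⟨ht.1, h2, ht.2⟩
    have h2 : gf {t | t ∈ BU ∧ t ∈ S} ≤ gf {t | t ∈ BU ∧ (t.length : ℝ) ≤ ρ0 * l k} +
        (gf {t | t ∈ BU ∧ (t.length : ℝ) < (l k : ℝ) + 1 ∧
          ∃ q, c q * gf (BW t.length) < gf {s | s ∈ BW t.length ∧ s ∈ E q k}} +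
        gf {t | t ∈ BU ∧ (t.length : ℝ) < (l k : ℝ) + 1 ∧
          ∃ i, c' i * gf (BW t.length) < gf {s | s ∈ BW t.length ∧ s ∈ ET i k}}) := by
      refine le_trans (gf_mono ?_) ((gf_union_le _ _).trans (add_le_add le_rfl (gf_union_le _ _)))
      rintro t ⟨t1, t2, t3⟩
      by_cases b1 : (t.length : ℝ) ≤ ρ0 * l k
      · exact Or.inl ⟨t1, b1⟩
      refine Or.inr ?_
      by_contra hcon
      refine t3 ⟨not_le.1 b1, ?_, gf_BW_ne t1, ?_, ?_⟩
      · have : (t.length : ℝ) < ((l k + 1 : ℕ) : ℝ) := by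
          push_cast
          exact t2
        have := Nat.cast_lt.1 this
        omega
      · intro q
        by_contra hq
        exact hcon (Or.inl ⟨t1, t2, q, not_le.1 hq⟩)
      · intro i
        by_contra hi
        exact hcon (Or.inr ⟨t1, t2, i, not_le.1 hi⟩)
    have h3 := bad_mass (E := fun q => E q k) (c := c) (lam := (l k : ℝ) + 1)
      (w := fun q => ENNReal.ofReal ((1 / 2) ^ q * (ε / 32 * Ub k)))
      (fun q => (ENNReal.ofReal_pos.2 (by positivity)).ne') (fun q => ENNReal.ofReal_ne_top)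
      (hEmass k hk)
    have h4 := bad_mass (E := fun i => ET i k) (c := c') (lam := (l k : ℝ) + 1)
      (w := fun i => ENNReal.ofReal ((1 / 2) ^ i * (ε / 32 * Ub k)))
      (fun q => (ENNReal.ofReal_pos.2 (by positivity)).ne') (fun q => ENNReal.ofReal_ne_top)
      (hTmass k ((le_max_right _ _).trans hk1))
    rw [tsum_half _ (by positivity)] at h3 h4
    have h5 := hl.tail k
    have h6 := hf k hk ((le_max_left _ _).trans hk1)
    refine h1.trans ((add_le_add h5 (h2.trans (add_le_add h6 (add_le_add h3 h4)))).trans ?_)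
    rw [← ENNReal.ofReal_add (by positivity) (by positivity), ← ENNReal.ofReal_add (by positivity)
      (by positivity), ← ENNReal.ofReal_add (by positivity) (by positivity)]
    refine ENNReal.ofReal_le_ofReal ?_
    have : 0 < ε * Ub k := by positivity
    nlinarith
  · -- pos
    rintro k ⟨hk, hk1⟩ n hn
    refine ⟨?_, hn.2.2.1⟩
    have h1 : (0 : ℝ) < n := lt_of_le_of_lt (by positivity) hn.1
    exact_mod_cast h1
  · -- exps
    intro η hη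
    obtain ⟨C, hC, hup⟩ := hl.up (η / 2) (by positivity)
    obtain ⟨k1, hlow⟩ := hl.low (η / 2) (by positivity)
    obtain ⟨k2, hk2⟩ : ∃ k2 : ℕ, C + ρ0⁻¹ ≤ (2 : ℝ) ^ (η / 2 * (k2 : ℝ)) := by
      have h1 : 1 < (2 : ℝ) ^ (η / 2) := Real.one_lt_rpow (by norm_num) (by positivity)
      obtain ⟨j, hj⟩ := pow_unbounded_of_one_lt (C + ρ0⁻¹) h1
      refine ⟨j, hj.le.trans (le_of_eq ?_)⟩
      rw [← Real.rpow_natCast, ← Real.rpow_mul (by norm_num)]
    refine ⟨max k1 k2, ?_⟩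
    rintro k ⟨hk, hk1⟩ hk3 n hn
    have g1 : (2 : ℝ) ^ (η / 2 * (k2 : ℝ)) ≤ (2 : ℝ) ^ (η / 2 * (k : ℝ)) := by
      refine Real.rpow_le_rpow_of_exponent_le (by norm_num) ?_
      have : (k2 : ℝ) ≤ k := by exact_mod_cast (le_max_right _ _).trans hk3
      gcongr
    have g2 := hlow k ((le_max_left _ _).trans hk3)
    have g3 := hup k
    have hρi : 0 < ρ0⁻¹ := by positivity
    constructor
    · have g4 : ρ0⁻¹ ≤ (2 : ℝ) ^ (η / 2 * (k : ℝ)) := by linarith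
      have g5 : 1 ≤ ρ0 * (2 : ℝ) ^ (η / 2 * (k : ℝ)) := by
        calc (1 : ℝ) = ρ0 * ρ0⁻¹ := by field_simp
          _ ≤ _ := by gcongr
      calc (2 : ℝ) ^ ((4 / 3 - η) * k) ≤ (2 : ℝ) ^ ((4 / 3 - η) * k) *
            (ρ0 * (2 : ℝ) ^ (η / 2 * (k : ℝ))) := le_mul_of_one_le_right (by positivity) g5
        _ = ρ0 * (2 : ℝ) ^ ((4 / 3 - η / 2) * k) := by
            rw [show (4 / 3 - η / 2) * (k : ℝ) = (4 / 3 - η) * k + η / 2 * k by ring,
              Real.rpow_add (by norm_num)]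
            ring
        _ ≤ ρ0 * l k := by gcongr
        _ ≤ n := hn.1.le
    · have g4 : C ≤ (2 : ℝ) ^ (η / 2 * (k : ℝ)) := by linarith
      calc (n : ℝ) ≤ l k := by exact_mod_cast hn.2.1
        _ ≤ C * (2 : ℝ) ^ ((4 / 3 + η / 2) * k) := g3
        _ ≤ (2 : ℝ) ^ (η / 2 * (k : ℝ)) * (2 : ℝ) ^ ((4 / 3 + η / 2) * k) := by gcongr
        _ = (2 : ℝ) ^ ((4 / 3 + η) * k) := by
            rw [← Real.rpow_add (by norm_num)]
            congr 1
            ring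
  · -- modu
    intro r e hr he
    obtain ⟨q, hq⟩ := exists_pow_lt_of_lt_one (lt_min hr he) (show (1 / 2 : ℝ) < 1 by norm_num)
    refine ⟨ρ q, Lq q, hρ q, ?_⟩
    rintro k ⟨hk, hk1⟩ hk2 n hn
    have h1 := hn.2.2.2.1 q
    refine (gf_mono ?_).trans (h1.trans (mul_le_mul_left (ENNReal.ofReal_le_ofReal
      (hq.le.trans (min_le_right _ _))) _))
    rintro t ⟨t1, dir, i, j, t2, t3, t4, t5⟩
    refine ⟨t1, hk2, Or.inl ⟨dir, i, j, t2, by rw [t1.2]; exact t3, t4.trans ?_, le_trans ?_ t5⟩⟩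
    · have h2 : (n : ℝ) ≤ l k := by exact_mod_cast hn.2.1
      have h3 := hρ q
      gcongr
    · have h3 : (1 / 2 : ℝ) ^ q ≤ r := hq.le.trans (min_le_left _ _)
      gcongr
  · -- hgt
    intro e he
    obtain ⟨q, hq⟩ := exists_pow_lt_of_lt_one he (show (1 / 2 : ℝ) < 1 by norm_num)
    refine ⟨κ q, Lq q, hκ q, ?_⟩
    rintro k ⟨hk, hk1⟩ hk2 n hn
    have h1 := hn.2.2.2.1 q
    refine (gf_mono ?_).trans (h1.trans (mul_le_mul_left (ENNReal.ofReal_le_ofReal hq.le) _))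
    rintro t ⟨t1, t2⟩
    refine ⟨t1, hk2, Or.inr (Or.inl ?_)⟩
    show (lev t t.length : ℝ) ≤ κ q * 2 ^ k
    rw [t1.2]
    exact t2
  · -- tail
    refine ⟨K', hK'0, ?_⟩
    rintro k ⟨hk, hk1⟩ n hn i
    refine (gf_mono ?_).trans (hn.2.2.2.2 i)
    rintro t ⟨t1, dir, t2⟩
    refine ⟨t1, dir, ?_⟩
    rw [t1.2]
    exact t2
  · -- X
    refine (gf_mono ?_).trans (hn.2.2.2.1 q)
    rintro t ⟨t1, t2⟩
    exact ⟨t1, hk, Or.inr (Or.inr t2)⟩

/-- **The choice of the lengths, plain form.** -/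
theorem pick {ε ε' : ℝ} (h0 : 0 < ε) {l : ℕ → ℕ} {G : Set ℕ} (hl : Seq (ε / 2) l)
    (hF : Facts l G) (hD : Dense ε' G) :
    ∃ (G' : Set ℕ) (A : ℕ → Set ℕ), Dense ε' G' ∧ Core ε G' A := by
  obtain ⟨G', A, h1, h2, -, -⟩ := pick_gen h0 hl hF hD (fun _ _ => ∅) fun q => ⟨0, fun L _ _ => by
    have e1 : {t | t ∈ BU ∧ (t.length : ℝ) < (l L : ℝ) + 1 ∧ t ∈ (∅ : Set (List Bool))} =
        (∅ : Set (List Bool)) := by
      ext t
      exact ⟨fun h => h.2.2, fun h => h.elim⟩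
    rw [e1, gf_emp]
    exact zero_le⟩
  exact ⟨G', A, h1, h2⟩

/-- **The choice of the lengths, Hoelder form.** -/
theorem pickH {ε ε' a : ℝ} (h0 : 0 < ε) (ha : 0 < a) {l : ℕ → ℕ} {G : Set ℕ} (hl : Seq (ε / 2) l)
    (hF : Facts l G) (hH : FactH a l G) (hD : Dense ε' G) :
    ∃ (G' : Set ℕ) (A : ℕ → Set ℕ), Dense ε' G' ∧ Core ε G' A ∧ HCore a G' A := by
  choose M Lx hM hx using fun q : ℕ => hH (ε / 96 * (1 / 4) ^ q) (by positivity)
  obtain ⟨G', A, h1, h2, h3, h4⟩ := pick_gen h0 hl hF hD (fun q L =>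
    {t | ∃ (dir : Bool) (i j : ℕ), i < j ∧ j ≤ t.length ∧ M q * 2 ^ L * (((j : ℝ) - i) / l L) ^ a ≤
      |((lvl dir (vx oo up t j) - lvl dir (vx oo up t i) : ℤ) : ℝ)|})
    fun q => ⟨Lx q, fun L hL hLx => hx q L hL hLx⟩
  refine ⟨G', A, h1, h2, fun e he => ?_⟩
  obtain ⟨q, hq⟩ := exists_pow_lt_of_lt_one he (show (1 / 2 : ℝ) < 1 by norm_num)
  obtain ⟨k0, hk0⟩ := h4 q
  refine ⟨M q, k0, hM q, fun k hk hkk n hn => ?_⟩
  refine (gf_mono ?_).trans ((hk0 k hk hkk n hn).trans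
    (mul_le_mul_left (ENNReal.ofReal_le_ofReal hq.le) _))
  rintro t ⟨t1, dir, i, j, t2, t3, t4⟩
  refine ⟨t1, dir, i, j, t2, by rw [t1.2]; exact t3, le_trans ?_ t4⟩
  have hn1 := (h2.pos k hk n hn).1
  have hn2 := h3 k hk n hn
  have e1 : (0 : ℝ) ≤ (j : ℝ) - i := by
    have : (i : ℝ) ≤ j := by exact_mod_cast t2.le
    linarith
  have e2 : (0 : ℝ) < n := by exact_mod_cast hn1
  have e3 : (n : ℝ) ≤ l k := by exact_mod_cast hn2
  have hMq := hM q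
  gcongr

end NTm

end HexObs
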