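import Pool.Agent.NT.OutDefs
import Pool.Agent.T2.Amplify
import Pool.Agent.T2.Mean
import Pool.Agent.T2.ANorm

/-!
NT (natural time), module 6: the median of the lengths of the bridges of height at most N.
-/

set_option autoImplicit false

namespace HexObs

namespace NTm

open Finset TS SDN SDN.CN

open scoped ENNReal

/-- weight of the bridges of height at most N with at least lam letters -/
noncomputable def TL (N : ℕ) (lam : ℝ) : ℝ≥0∞ :=
  ∑ h ∈ Finset.range (N + 1), gf {Z | Z ∈ Brd h ∧ lam ≤ (Z.length : ℝ)}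

/-- weight of the bridges of height at most N with less than lam letters -/
noncomputable def TS' (N : ℕ) (lam : ℝ) : ℝ≥0∞ :=
  ∑ h ∈ Finset.range (N + 1), gf {Z | Z ∈ Brd h ∧ (Z.length : ℝ) < lam}

lemma TL_TS (N : ℕ) (lam : ℝ) : ENNReal.ofReal (UU N) ≤ TL N lam + TS' N lam := by
  rw [T2.Amp.ofReal_UU]
  unfold TL TS'
  rw [← Finset.sum_add_distrib]
  refine Finset.sum_le_sum fun h _ => ?_
  rw [← gf_Brd]
  refine (gf_mono fun Z hZ => ?_).trans (gf_union_le _ _)
  rcases le_or_gt lam (Z.length : ℝ) with h1 | h1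
  · exact Or.inl ⟨hZ, h1⟩
  · exact Or.inr ⟨hZ, h1⟩

lemma TL_small (N : ℕ) : ∃ lam : ℕ, TL N ((lam : ℝ) + 1) ≤ ENNReal.ofReal (UU N / 2) := by
  obtain ⟨C, hC, hM⟩ := T2.meanLen_quarter (a := 2) (by norm_num)
  obtain ⟨lam, hlam⟩ := exists_nat_ge (2 * (C * (N : ℝ) ^ (2 : ℝ)))
  have hU : 0 < UU N := Num2Aux.UU_pos _
  have hl0 : (0 : ℝ) < (lam : ℝ) + 1 := by positivity
  refine ⟨lam, ?_⟩
  have h1 : ∀ h ∈ Finset.range (N + 1), gf {Z | Z ∈ Brd h ∧ (lam : ℝ) + 1 ≤ (Z.length : ℝ)} ≤ ENNReal.ofReal (1 / 2) * BT h := by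
    intro h hh
    rw [Finset.mem_range] at hh
    rcases Nat.eq_zero_or_pos h with h0 | h0
    · subst h0
      have h2 : {Z | Z ∈ Brd 0 ∧ (lam : ℝ) + 1 ≤ (Z.length : ℝ)} = ∅ := by
        ext Z
        constructor
        · rintro ⟨hZ, hl⟩
          rw [Brd_zero] at hZ
          have hZ' : Z = [] := hZ
          rw [hZ'] at hl
          simp only [List.length_nil, Nat.cast_zero] at hl
          linarith
        · intro h
          exact h.elim
      rw [h2]
      have : gf (∅ : Set (List Bool)) = 0 := by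
        unfold gf
        exact tsum_empty
      rw [this]
      exact zero_le
    · refine (T2.AN.markov hM h0 hl0 (fun Z hZ => hZ)).trans ?_
      rw [← mul_assoc, ← ENNReal.ofReal_mul (by positivity)]
      refine mul_le_mul_left (ENNReal.ofReal_le_ofReal ?_) _
      rw [one_div, inv_mul_eq_div, div_le_iff₀ hl0]
      have h3 : (h : ℝ) ^ (2 : ℝ) ≤ (N : ℝ) ^ (2 : ℝ) := by
        apply Real.rpow_le_rpow (Nat.cast_nonneg _) _ (by norm_num)
        exact_mod_cast (by omega : h ≤ N)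
      have h4 : C * (h : ℝ) ^ (2 : ℝ) ≤ C * (N : ℝ) ^ (2 : ℝ) := mul_le_mul_of_nonneg_left h3 hC
      linarith
  refine (Finset.sum_le_sum h1).trans ?_
  rw [← Finset.mul_sum, ← T2.Amp.ofReal_UU, ← ENNReal.ofReal_mul (by norm_num)]
  apply ENNReal.ofReal_le_ofReal
  linarith

open Classical in
/-- the median length of the bridges of height at most N -/
noncomputable def ell (N : ℕ) : ℕ := Nat.find (TL_small N)

lemma ell_up (N : ℕ) : TL N ((ell N : ℝ) + 1) ≤ ENNReal.ofReal (UU N / 2) := by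
  classical
  exact Nat.find_spec (TL_small N)

/-- at least half of the weight has at most ell N letters -/
lemma ell_half (N : ℕ) : ENNReal.ofReal (UU N / 2) ≤ TS' N ((ell N : ℝ) + 1) := by
  have h1 := TL_TS N ((ell N : ℝ) + 1)
  have h2 := ell_up N
  have hU : 0 < UU N := Num2Aux.UU_pos _
  have h3 : ENNReal.ofReal (UU N / 2) + ENNReal.ofReal (UU N / 2) ≤ ENNReal.ofReal (UU N / 2) + TS' N ((ell N : ℝ) + 1) := by
    rw [← ENNReal.ofReal_add (by positivity) (by positivity), add_halves]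
    exact h1.trans (add_le_add h2 le_rfl)
  exact (ENNReal.add_le_add_iff_left ENNReal.ofReal_ne_top).1 h3

/-- more than half of the weight has at least ell N letters -/
lemma ell_low (N : ℕ) : ENNReal.ofReal (UU N / 2) < TL N (ell N : ℝ) := by
  classical
  have hU : 0 < UU N := Num2Aux.UU_pos _
  rcases Nat.eq_zero_or_pos (ell N) with h | h
  · rw [h, Nat.cast_zero]
    have h1 : TL N 0 = ENNReal.ofReal (UU N) := by
      unfold TL
      rw [T2.Amp.ofReal_UU]
      refine Finset.sum_congr rfl fun h _ => ?_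
      rw [← gf_Brd]
      congr 1
      ext Z
      exact ⟨fun h => h.1, fun h => ⟨h, Nat.cast_nonneg _⟩⟩
    rw [h1]
    exact (ENNReal.ofReal_lt_ofReal_iff hU).2 (by linarith)
  · have h1 : ¬ TL N (((ell N - 1 : ℕ) : ℝ) + 1) ≤ ENNReal.ofReal (UU N / 2) := Nat.find_min (TL_small N) (by
      show ell N - 1 < ell N
      omega)
    have h2 : ((ell N - 1 : ℕ) : ℝ) + 1 = ell N := by
      rw [Nat.cast_sub h]
      ring
    rw [h2, not_le] at h1
    exact h1

lemma tf_mem' : [true, false] ∈ Brd 1 := by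
  have := step_mem_Brd false
  simpa using this

/-- the weight of all the bridges with at most ell N letters -/
theorem as_ell : ∃ C0 : ℝ, 1 ≤ C0 ∧ ∀ N : ℕ, 1 ≤ N → AS ((ell N : ℝ) + 1) (C0 * UU N) := by
  have hx := xc_pos
  have hx1 := xc_bounds.2
  refine ⟨16 / xc ^ 2, ?_, ?_⟩
  · rw [le_div_iff₀ (by positivity)]
    nlinarith
  intro N hN M
  have hU : 0 < UU N := Num2Aux.UU_pos _
  have hU1 : 0 < UU (N + 1) := Num2Aux.UU_pos _
  have hU2 : UU (N + 1) ≤ 2 * UU N := by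
    unfold UU
    rw [Finset.sum_range_succ]
    have h1 : uu (N + 1) ≤ ∑ i ∈ range (N + 1), uu i := by
      have h2 : uu (N + 1) ≤ uu 0 := by
        rw [uu_zero]
        exact uu_le_one _
      refine h2.trans ?_
      exact Finset.single_le_sum (f := fun i => uu i) (fun i _ => (uu_pos i).le) (Finset.mem_range.2 (by omega))
    linarith
  have hw : wE [true, false] = ENNReal.ofReal (xc ^ 2) := by
    rw [wE_eq_pow, ENNReal.ofReal_pow hx.le]
    rfl
  -- not a tail at the level ell N + 1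
  have hnt : ¬ T2.Tail (N + 1) ((ell N : ℝ) + 1) (xc ^ 2 / 4) := by
    intro ht
    have h1 : ENNReal.ofReal (xc ^ 2) * TL N (ell N : ℝ) ≤ ENNReal.ofReal (xc ^ 2 / 4 * UU (N + 1)) := by
      refine le_trans ?_ ht
      unfold TL
      rw [Finset.mul_sum, Finset.sum_range_succ' _ (N + 1)]
      refine le_trans (Finset.sum_le_sum fun h _ => ?_) le_self_add
      rw [mul_comm, ← hw, ← B2b_gf_singleton]
      refine mul_le_gf (Q := {Z | Z ∈ Brd h ∧ (ell N : ℝ) ≤ (Z.length : ℝ)}) (R := {[true, false]}) ?_ ?_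
      · rintro a ⟨ha, hl⟩ b hb
        rw [Set.mem_singleton_iff.1 hb]
        refine ⟨Brd_append ha tf_mem', ?_⟩
        rw [List.length_append]
        push_cast
        have : ((([true, false] : List Bool).length : ℕ) : ℝ) = 2 := by norm_num
        rw [this]
        linarith
      · rintro a ha b hb a' ha' b' hb' hab
        rw [Set.mem_singleton_iff.1 hb, Set.mem_singleton_iff.1 hb'] at hab
        exact List.append_cancel_right hab
    have h2 : ENNReal.ofReal (xc ^ 2 * (UU N / 2)) < ENNReal.ofReal (xc ^ 2) * TL N (ell N : ℝ) := by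
      rw [ENNReal.ofReal_mul (by positivity)]
      exact ENNReal.mul_lt_mul_right (by simpa using hx.ne') ENNReal.ofReal_ne_top (ell_low N)
    have h3 := h2.trans_le h1
    rw [ENNReal.ofReal_lt_ofReal_iff_of_nonneg (by positivity)] at h3
    have h4 : 0 < xc ^ 2 := by positivity
    nlinarith
  refine (T2.amplify (by positivity) hnt M).trans (ENNReal.ofReal_le_ofReal ?_)
  rw [div_div_eq_mul_div, div_mul_eq_mul_div]
  apply div_le_div_of_nonneg_right _ (by positivity)
  linarith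

lemma AS_mono {lam lam' x x' : ℝ} (hl : lam' ≤ lam) (hx : x ≤ x') (h : AS lam x) : AS lam' x' := by
  intro N
  refine le_trans (Finset.sum_le_sum fun k _ => ?_) ((h N).trans (ENNReal.ofReal_le_ofReal hx))
  exact gf_mono fun Z hZ => ⟨hZ.1, lt_of_lt_of_le hZ.2 hl⟩

/-- for every d there is j: the length ell (2 ^ (k - j)) is short at the scale k -/
theorem as_small {d : ℝ} (hd : 0 < d) : ∃ j : ℕ, ∀ k : ℕ, j ≤ k → AS ((ell (2 ^ (k - j)) : ℝ) + 1) (d * Ub k) := by
  obtain ⟨C0, hC0, h⟩ := as_ell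
  have hκ := kap0_pos
  obtain ⟨j, hj⟩ : ∃ j : ℕ, 2 * C0 / d ≤ (2 : ℝ) ^ (kap0 * (j : ℝ)) := by
    have h1 : 1 < (2 : ℝ) ^ kap0 := Real.one_lt_rpow (by norm_num) hκ
    obtain ⟨j, hj⟩ := pow_unbounded_of_one_lt (2 * C0 / d) h1
    refine ⟨j, hj.le.trans (le_of_eq ?_)⟩
    rw [← Real.rpow_natCast, ← Real.rpow_mul (by norm_num)]
  refine ⟨j, fun k hk => AS_mono le_rfl ?_ (h (2 ^ (k - j)) Nat.one_le_two_pow)⟩
  have h1 := Ub_growth (show k - j ≤ k by omega)
  rw [Nat.cast_sub hk, show (k : ℝ) - (k - j) = j by ring] at h1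
  have hU := Ub_pos (k - j)
  have h2 : (2 : ℝ) * C0 ≤ d * (2 : ℝ) ^ (kap0 * (j : ℝ)) := by
    rw [div_le_iff₀ hd] at hj
    linarith
  show C0 * Ub (k - j) ≤ d * Ub k
  have h3 : 2 * C0 * Ub (k - j) ≤ d * (2 * Ub k) := by
    calc 2 * C0 * Ub (k - j) ≤ d * (2 : ℝ) ^ (kap0 * (j : ℝ)) * Ub (k - j) := by gcongr
      _ = d * (Ub (k - j) * (2 : ℝ) ^ (kap0 * (j : ℝ))) := by ring
      _ ≤ _ := by gcongr
  linarith

/-- no macroscopic displacement in the time ell (2 ^ (kc - j)) -/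
theorem disp_ell (J : ℕ) (hJ : 6 ≤ J) {ε : ℝ} (hε : 0 < ε) : ∃ j k0 : ℕ, ∀ kc : ℕ, k0 ≤ kc → j ≤ kc →
    gf (DT kc J ((ell (2 ^ (kc - j)) : ℝ) + 1)) ≤ ENNReal.ofReal (ε * Ub (kc + J)) := by
  obtain ⟨d, k0, hd, h⟩ := disp J hJ hε
  obtain ⟨j, hj⟩ := as_small hd
  exact ⟨j, k0, fun kc h1 h2 => h kc _ h1 (hj kc h2)⟩

end NTm

end HexObs
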