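import Pool.Agent.NT.Disp
import Pool.Agent.NUCR.Target
import Pool.Agent.T2.MainUp

/-!
NT (natural time), module Exps: the exponents of the numbers of letters of the critical bridges.
Text: doc proof/NAT_TIME, section 5.
-/

set_option autoImplicit false

namespace HexObs

namespace NTm

open Finset TS SDN T2

open scoped ENNReal

namespace ExpsA

lemma meanLen {e : ℝ} (he : 0 < e) : ∃ C : ℝ, 0 ≤ C ∧ MeanLen (4 / 3 + e) C :=
  Pool.Agent.NUF.meanLen_of_ZZ (Pool.Agent.NUF.zzUp_of (NUI.numUp_of_target NUCR.target)) (by linarith)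

lemma expUp {β : ℝ} (hβ : β < 4 / 3) : ExpUp β :=
  T2.exp_up (τ1 := 1 / 3) (by norm_num) (fun _ _ hτ hττ hε hε1 =>
    pow_up (by norm_num) (Pool.Agent.NUF.longWalks_third NUCR.nfLow) hτ hττ hε hε1) (by linarith)

lemma brd_SA {h : ℕ} {t : List Bool} (ht : t ∈ Brd h) : t ∈ SA :=
  ⟨fun _ _ _ => Set.mem_univ _, (mem_Brd.1 ht).2.1⟩

lemma brd_ext {h q : ℕ} {t : List Bool} (ht : t ∈ Brd h) (hq : 2 ^ q ≤ h) : Ext q t := by
  refine ⟨t.length, le_rfl, false, ?_⟩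
  have h2 : row false (vx oo up t t.length) = h := by
    unfold row
    have h3 : lvl false (vx oo up t t.length) = 3 * h := (mem_Brd.1 ht).2.2.2
    rw [h3]
    omega
  rw [h2, abs_of_nonneg (by positivity)]
  exact_mod_cast hq

lemma small_exp {c K : ℝ} (hc : 0 < c) (hK : 0 < K) :
    ∀ᶠ N : ℕ in Filter.atTop, ((N : ℝ) + 1) * Real.exp (-((N : ℝ) / K) ^ c) ≤ 1 / 8 := by
  have h1 : Filter.Tendsto (fun N : ℕ => ((N : ℝ) / K) ^ c) Filter.atTop Filter.atTop :=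
    (tendsto_rpow_atTop hc).comp (tendsto_natCast_atTop_atTop.atTop_div_const hK)
  have h2 : Filter.Tendsto (fun y : ℝ => K * (y ^ (1 / c) * Real.exp (-1 * y)) + Real.exp (-y)) Filter.atTop
      (nhds (K * 0 + 0)) :=
    ((tendsto_rpow_mul_exp_neg_mul_atTop_nhds_zero (1 / c) 1 one_pos).const_mul K).add
      Real.tendsto_exp_neg_atTop_nhds_zero
  have h3 := h2.comp h1
  rw [mul_zero, add_zero] at h3
  have h4 := h3.eventually (ge_mem_nhds (show (0 : ℝ) < 1 / 8 by norm_num))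
  filter_upwards [h4] with N hN
  refine le_trans (le_of_eq ?_) hN
  have e1 : (((N : ℝ) / K) ^ c) ^ (1 / c) = (N : ℝ) / K := by
    rw [← Real.rpow_mul (by positivity), mul_one_div_cancel hc.ne', Real.rpow_one]
  simp only [Function.comp]
  rw [e1, neg_one_mul]
  field_simp

end ExpsA

open ExpsA

/-- the bridges with more than N ^ (4 / 3 + e) letters have at most a quarter of the mass -/
theorem exp_up : ∀ e : ℝ, 0 < e → ∃ C : ℝ, 0 < C ∧ ∀ N : ℕ, 1 ≤ N →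
    ∑ h ∈ Finset.range (N + 1), gf {Z | Z ∈ Brd h ∧ C * (N : ℝ) ^ (4 / 3 + e) ≤ (Z.length : ℝ)} ≤
      ENNReal.ofReal (UU N / 4) := by
  intro e he
  obtain ⟨C0, hC0, h⟩ := meanLen he
  refine ⟨4 * C0 + 1, by linarith, fun N hN => ?_⟩
  have hN1 : (1 : ℝ) ≤ N := by exact_mod_cast hN
  have hN0 : (0 : ℝ) < N := by linarith
  obtain ⟨P, hP⟩ : ∃ P : ℝ, P = (N : ℝ) ^ (4 / 3 + e) := ⟨_, rfl⟩
  have hP0 : 0 < P := by rw [hP]; positivity
  have hlam : 0 < (4 * C0 + 1) * P := by positivity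
  rw [← hP]
  have key : ∀ k ∈ Finset.range (N + 1), gf {Z | Z ∈ Brd k ∧ (4 * C0 + 1) * P ≤ (Z.length : ℝ)} ≤
      ENNReal.ofReal (1 / 4) * BT k := by
    intro k hk
    rw [Finset.mem_range] at hk
    rcases Nat.eq_zero_or_pos k with rfl | hk0
    · have h0 : {Z : List Bool | Z ∈ Brd 0 ∧ (4 * C0 + 1) * P ≤ (Z.length : ℝ)} = ∅ := by
        ext Z
        constructor
        · rintro ⟨hZ, hZ2⟩
          rw [Brd_zero, Set.mem_singleton_iff] at hZ
          rw [hZ, List.length_nil, Nat.cast_zero] at hZ2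
          exact absurd hZ2 (not_le.2 hlam)
        · intro hZ
          exact absurd hZ (Set.notMem_empty _)
      rw [h0, CB.gf_empty]
      exact bot_le
    · have h1 := AN.markov h hk0 hlam (A := {Z | Z ∈ Brd k ∧ (4 * C0 + 1) * P ≤ (Z.length : ℝ)}) (fun Z hZ => hZ)
      refine h1.trans ?_
      rw [← mul_assoc, ← ENNReal.ofReal_mul (by positivity)]
      gcongr
      have h2 : (k : ℝ) ^ (4 / 3 + e) ≤ P := by
        rw [hP]
        exact Real.rpow_le_rpow (Nat.cast_nonneg _) (by exact_mod_cast (by omega : k ≤ N)) (by linarith)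
      rw [one_div, inv_mul_eq_div, div_le_iff₀ hlam]
      have h3 := mul_le_mul_of_nonneg_left h2 hC0
      nlinarith
  calc ∑ k ∈ Finset.range (N + 1), gf {Z | Z ∈ Brd k ∧ (4 * C0 + 1) * P ≤ (Z.length : ℝ)}
      ≤ ∑ k ∈ Finset.range (N + 1), ENNReal.ofReal (1 / 4) * BT k := Finset.sum_le_sum key
    _ = ENNReal.ofReal (1 / 4) * ENNReal.ofReal (UU N) := by rw [← Finset.mul_sum, ← Amp.ofReal_UU]
    _ = ENNReal.ofReal (UU N / 4) := by
        rw [← ENNReal.ofReal_mul (by norm_num)]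
        congr 1
        ring

/-- the bridges with less than N ^ (4 / 3 - e) letters have at most a quarter of the mass -/
theorem exp_low : ∀ e : ℝ, 0 < e → ∃ N0 : ℕ, ∀ N : ℕ, N0 ≤ N →
    ∑ h ∈ Finset.range (N + 1), gf {Z | Z ∈ Brd h ∧ (Z.length : ℝ) < (N : ℝ) ^ (4 / 3 - e)} ≤
      ENNReal.ofReal (UU N / 4) := by
  intro e he
  obtain ⟨β, hβ⟩ : ∃ β : ℝ, β = max (4 / 3 - e / 2) 1 := ⟨_, rfl⟩
  have hβ1 : 1 ≤ β := by rw [hβ]; exact le_max_right _ _
  have hβ2 : β < 4 / 3 := by rw [hβ]; exact max_lt (by linarith) (by norm_num)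
  have hβ3 : 4 / 3 - e < β := by
    rw [hβ]
    exact lt_of_lt_of_le (by linarith) (le_max_left _ _)
  obtain ⟨c, L0, hc, hE⟩ := expUp hβ2
  have hCW := CW_pos
  obtain ⟨θ, hθ⟩ : ∃ θ : ℝ, θ = 1 / (6 + CW) := ⟨_, rfl⟩
  have hθ0 : 0 < θ := by rw [hθ]; positivity
  obtain ⟨m, hm⟩ := exists_nat_ge (4 / θ)
  have hmθ : 4 ≤ (m : ℝ) * θ := by rwa [div_le_iff₀ hθ0] at hm
  obtain ⟨K, hK⟩ : ∃ K : ℝ, K = 2 ^ (m + 1) := ⟨_, rfl⟩
  have hK0 : 0 < K := by rw [hK]; positivity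
  have hc' : 0 < c := hc
  have f1 : ∀ᶠ N : ℕ in Filter.atTop, K ^ β ≤ (N : ℝ) ^ (β - (4 / 3 - e)) :=
    ((tendsto_rpow_atTop (by linarith)).comp tendsto_natCast_atTop_atTop).eventually_ge_atTop _
  have f2 := small_exp hc' hK0
  obtain ⟨N1, hN1⟩ := Filter.eventually_atTop.1 (f1.and f2)
  refine ⟨N1 + 2 ^ m * (2 ^ (L0 + 1)) + 1, fun N hN => ?_⟩
  obtain ⟨g1, g2⟩ := hN1 N (by omega)
  have hNR : (1 : ℝ) ≤ N := by exact_mod_cast (by omega : 1 ≤ N)
  have hN0 : (0 : ℝ) < N := by linarith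
  -- the height s
  obtain ⟨s, hs⟩ : ∃ s : ℕ, s = N / 2 ^ m := ⟨_, rfl⟩
  have hs1 : s * 2 ^ m ≤ N := by rw [hs]; exact Nat.div_mul_le_self _ _
  have hs2 : N < 2 ^ m * (s + 1) := by rw [hs]; exact Nat.lt_mul_div_succ N (by positivity)
  have hs3 : 2 ^ (L0 + 1) ≤ s := by
    rw [hs, Nat.le_div_iff_mul_le (by positivity), mul_comm]
    omega
  have hs4 : 1 ≤ s := le_trans Nat.one_le_two_pow hs3
  have hsN : s ≤ N := le_trans (Nat.le_mul_of_pos_right _ (by positivity)) hs1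
  have hs0 : (0 : ℝ) < s := by exact_mod_cast hs4
  -- the scale q
  obtain ⟨q, hq⟩ : ∃ q : ℕ, q = Nat.log 2 (s + 1) := ⟨_, rfl⟩
  have hq1 : 2 ^ q ≤ s + 1 := by rw [hq]; exact Nat.pow_log_le_self 2 (by omega)
  have hq2 : s + 1 < 2 ^ (q + 1) := by rw [hq]; exact Nat.lt_pow_succ_log_self (by norm_num) _
  have hq3 : L0 ≤ q := by
    by_contra hcon
    push Not at hcon
    have h1 : 2 ^ (q + 1) ≤ 2 ^ (L0 + 1) := Nat.pow_le_pow_right (by norm_num) (by omega)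
    omega
  have hq4 : (N : ℝ) / K ≤ 2 ^ q := by
    rw [div_le_iff₀ hK0, hK]
    have h1 : N < 2 ^ m * 2 ^ (q + 1) := lt_of_lt_of_le hs2 (Nat.mul_le_mul_left _ hq2.le)
    have h2 : (N : ℝ) ≤ 2 ^ m * 2 ^ (q + 1) := by exact_mod_cast h1.le
    calc (N : ℝ) ≤ 2 ^ m * 2 ^ (q + 1) := h2
      _ = 2 ^ q * 2 ^ (m + 1) := by ring
  -- the length
  have hlen : (N : ℝ) ^ (4 / 3 - e) ≤ (2 : ℝ) ^ (β * q) := by
    have h1 : (2 : ℝ) ^ (β * q) = ((2 : ℝ) ^ q) ^ β := by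
      rw [mul_comm, Real.rpow_mul (by norm_num), Real.rpow_natCast]
    rw [h1]
    have h2 : ((N : ℝ) / K) ^ β ≤ ((2 : ℝ) ^ q) ^ β := Real.rpow_le_rpow (by positivity) hq4 (by linarith)
    refine le_trans ?_ h2
    rw [Real.div_rpow hN0.le hK0.le, le_div_iff₀ (by positivity)]
    calc (N : ℝ) ^ (4 / 3 - e) * K ^ β ≤ (N : ℝ) ^ (4 / 3 - e) * (N : ℝ) ^ (β - (4 / 3 - e)) :=
          mul_le_mul_of_nonneg_left g1 (by positivity)
      _ = (N : ℝ) ^ β := by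
          rw [← Real.rpow_add hN0]
          congr 1
          ring
  -- the mass below s
  have hU : UU s ≤ UU N / 8 := by
    have h1 := UU_growth hs4 hsN
    rw [← hθ] at h1
    have h2 : (16 : ℝ) ≤ ((N : ℝ) / s) ^ θ := by
      have h3 : (2 : ℝ) ^ m ≤ (N : ℝ) / s := by
        rw [le_div_iff₀ hs0, mul_comm]
        exact_mod_cast hs1
      calc (16 : ℝ) = (2 : ℝ) ^ (4 : ℝ) := by norm_num
        _ ≤ (2 : ℝ) ^ ((m : ℝ) * θ) := Real.rpow_le_rpow_of_exponent_le (by norm_num) hmθ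
        _ = ((2 : ℝ) ^ m) ^ θ := by rw [Real.rpow_mul (by norm_num), Real.rpow_natCast]
        _ ≤ _ := Real.rpow_le_rpow (by positivity) h3 hθ0.le
    have h4 := mul_le_mul_of_nonneg_left h2 (Num2Aux.UU_pos s).le
    linarith
  have hUN : 1 ≤ UU N := by
    rw [Num2Aux.UU_eq]
    have : 0 ≤ ∑ t ∈ Finset.Icc 1 N, bT t := Finset.sum_nonneg fun t _ => bT_nonneg t
    linarith
  -- every term
  have hterm : ∀ k ∈ Finset.range (N + 1), gf {Z | Z ∈ Brd k ∧ (Z.length : ℝ) < (N : ℝ) ^ (4 / 3 - e)} ≤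
      (if k ≤ s then BT k else 0) + ENNReal.ofReal (Real.exp (-((N : ℝ) / K) ^ c)) := by
    intro k _
    by_cases hk : k ≤ s
    · rw [if_pos hk]
      refine le_trans ?_ le_self_add
      rw [← gf_Brd]
      exact gf_mono fun Z hZ => hZ.1
    · rw [if_neg hk, zero_add]
      have h1 : {Z | Z ∈ Brd k ∧ (Z.length : ℝ) < (N : ℝ) ^ (4 / 3 - e)} ⊆
          {t | t ∈ SA ∧ Ext q t ∧ (t.length : ℝ) ≤ (2 : ℝ) ^ (β * q)} := by
        rintro Z ⟨hZ, hZ2⟩
        exact ⟨brd_SA hZ, brd_ext hZ (by omega), hZ2.le.trans hlen⟩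
      refine (gf_mono h1).trans ((hE q hq3).trans (ENNReal.ofReal_le_ofReal ?_))
      rw [Real.exp_le_exp, neg_le_neg_iff]
      have h2 : (2 : ℝ) ^ (c * q) = ((2 : ℝ) ^ q) ^ c := by
        rw [mul_comm, Real.rpow_mul (by norm_num), Real.rpow_natCast]
      rw [h2]
      exact Real.rpow_le_rpow (by positivity) hq4 hc'.le
  refine (Finset.sum_le_sum hterm).trans ?_
  rw [Finset.sum_add_distrib]
  have h1 : ∑ k ∈ Finset.range (N + 1), (if k ≤ s then BT k else 0) ≤ ENNReal.ofReal (UU N / 8) := by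
    refine le_trans (le_of_eq ?_) (ENNReal.ofReal_le_ofReal hU)
    rw [Amp.ofReal_UU, ← Finset.sum_filter]
    refine Finset.sum_congr ?_ fun _ _ => rfl
    ext k
    rw [Finset.mem_filter, Finset.mem_range, Finset.mem_range]
    omega
  have h2 : ∑ _k ∈ Finset.range (N + 1), ENNReal.ofReal (Real.exp (-((N : ℝ) / K) ^ c)) ≤
      ENNReal.ofReal (UU N / 8) := by
    rw [Finset.sum_const, Finset.card_range, nsmul_eq_mul, ← ENNReal.ofReal_natCast,
      ← ENNReal.ofReal_mul (by positivity)]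
    refine ENNReal.ofReal_le_ofReal ?_
    push_cast
    linarith
  refine (add_le_add h1 h2).trans (le_of_eq ?_)
  rw [← ENNReal.ofReal_add (by linarith) (by linarith)]
  congr 1
  ring

end NTm

end HexObs
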