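import Pool.Agent.NT.FactsG
import Pool.Agent.NT.ResDefsM

/-!
NT (natural time): the dictionary for the critical weights.
-/

set_option autoImplicit false

namespace NTF

open Finset

open HexObs hiding pos

open HexObs.SDN HexObs.NTm

open Pool.Agent.NT.ResNat

open scoped ENNReal Classical

lemma fug_eq : fug = HexObs.xc := by
  unfold fug HexObs.xc
  rw [Real.cos_pi_div_eight, one_div]
  congr 1
  ring

lemma gf_ind (S : Set (List Bool)) : gf S = ∑' t : List Bool, (if t ∈ S then wE t else 0) := by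
  unfold gf
  rw [tsum_subtype S (fun t => wE t)]
  exact tsum_congr fun t => by rw [Set.indicator_apply]

lemma gf_lengths (S : Set (List Bool)) : gf S = ∑' n : ℕ, gf {t | t ∈ S ∧ t.length = n} := by
  simp only [gf_ind, Set.mem_ofPred_eq]
  rw [ENNReal.tsum_comm]
  refine tsum_congr fun t => ?_
  by_cases ht : t ∈ S
  · rw [if_pos ht, tsum_eq_single t.length]
    · rw [if_pos ⟨ht, rfl⟩]
    · intro n hn
      rw [if_neg]
      exact fun h => hn h.2.symm
  · rw [if_neg ht]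
    symm
    rw [ENNReal.tsum_eq_zero]
    intro n
    rw [if_neg]
    exact fun h => ht h.1

/-- the bridges with a height at most 2 ^ k and with a length in B -/
def HL (k : ℕ) (B : Set ℕ) : Set (List Bool) := {t | (∃ h, h ≤ 2 ^ k ∧ t ∈ Brd h) ∧ t.length ∈ B}

/-- **the dictionary for the critical weights** -/
theorem mass_eq (k : ℕ) (B : Set ℕ) : mass k B = gf (HL k B) := by
  rw [gf_lengths]
  unfold mass
  refine tsum_congr fun n => ?_
  by_cases hn : Even n ∧ n ∈ B
  · rw [if_pos hn, gf_card (n := n) (fun t ht => ht.2), fug_eq]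
    congr 2
    rw [card_eq hn.1]
    congr 1
    ext t
    constructor
    · rintro ⟨⟨⟨h, hh⟩, hl⟩, h2⟩
      rw [re_sw n t n le_rfl] at h2
      refine ⟨⟨⟨h, ?_, hh⟩, ?_⟩, hl⟩
      · have h3 := (mem_Brd.1 hh).2.2.2
        rw [hl] at h3
        rw [h3] at h2
        push_cast at h2
        have h4 : (h : ℝ) ≤ 2 ^ k := by linarith
        exact_mod_cast h4
      · show t.length ∈ B
        rw [hl]
        exact hn.2
    · rintro ⟨⟨⟨h, hk, hh⟩, -⟩, hl⟩
      refine ⟨⟨⟨h, hh⟩, hl⟩, ?_⟩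
      rw [re_sw n t n le_rfl]
      have h3 := (mem_Brd.1 hh).2.2.2
      rw [hl] at h3
      rw [h3]
      have h4 : (h : ℝ) ≤ 2 ^ k := by exact_mod_cast hk
      push_cast
      linarith
  · rw [if_neg hn]
    have : {t | t ∈ HL k B ∧ t.length = n} = ∅ := by
      rw [Set.eq_empty_iff_forall_notMem]
      rintro t ⟨⟨⟨h, -, hh⟩, hB⟩, hl⟩
      apply hn
      refine ⟨even_of_mem ⟨⟨h, hh⟩, hl⟩, ?_⟩
      rw [← hl]
      exact hB
    rw [this, gf_emp]

lemma mass_mono {k : ℕ} {B B' : Set ℕ} (h : B ⊆ B') : mass k B ≤ mass k B' := by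
  rw [mass_eq, mass_eq]
  exact gf_mono fun t ht => ⟨ht.1, h ht.2⟩

/-- the weight of the lengths outside of A -/
lemma mass_compl_le (k : ℕ) (A : Set ℕ) : mass k {n | n ∉ A} ≤ ∑ h ∈ Finset.range (2 ^ k + 1), gf {t | t ∈ Brd h ∧ t.length ∉ A} := by
  rw [mass_eq]
  have h1 : HL k {n | n ∉ A} ⊆ ⋃ h ∈ Finset.range (2 ^ k + 1), {t | t ∈ Brd h ∧ t.length ∉ A} := by
    rintro t ⟨⟨h, hk, hh⟩, hA⟩
    rw [Set.mem_iUnion₂]
    exact ⟨h, Finset.mem_range.2 (by omega), hh, hA⟩
  refine (gf_mono h1).trans ?_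
  exact ENNReal.tsum_biUnion_le (fun t => wE t) (Finset.range (2 ^ k + 1)) (fun h => {t | t ∈ Brd h ∧ t.length ∉ A})

/-- the total weight -/
lemma mass_univ_ge (k : ℕ) : ∑ h ∈ Finset.range (2 ^ k + 1), gf {t | t ∈ Brd h} ≤ mass k Set.univ := by
  rw [mass_eq]
  have e : ∀ h, gf {t | t ∈ Brd h} = ∑' t : List Bool, (if t ∈ Brd h then wE t else 0) := fun h => gf_ind _
  rw [Finset.sum_congr rfl fun h _ => e h, ← Summable.tsum_finsetSum (fun _ _ => ENNReal.summable), gf_ind]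
  refine ENNReal.tsum_le_tsum fun t => ?_
  by_cases ht : ∃ h, h ≤ 2 ^ k ∧ t ∈ Brd h
  · obtain ⟨h, hk, hh⟩ := ht
    rw [if_pos (show t ∈ HL k Set.univ from ⟨⟨h, hk, hh⟩, trivial⟩), Finset.sum_eq_single h]
    · rw [if_pos hh]
    · intro h' _ hne
      rw [if_neg]
      intro hh'
      apply hne
      have h1 := (mem_Brd.1 hh).2.2.2
      have h2 := (mem_Brd.1 hh').2.2.2
      omega
    · intro hcon
      exact absurd (Finset.mem_range.2 (by omega)) hcon
  · rw [Finset.sum_eq_zero]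
    · exact zero_le
    · intro h hh
      rw [Finset.mem_range] at hh
      rw [if_neg]
      exact fun h' => ht ⟨h, by omega, h'⟩

/-- **typical lengths** -/
theorem mass_typ {ε : ℝ} {G : Set ℕ} {A : ℕ → Set ℕ} (hC : Core ε G A) {k : ℕ} (hk : k ∈ G) {B : Set ℕ} (hB : ∀ n ∈ A k, n ∈ B) :
    mass k {n | n ∉ B} ≤ ENNReal.ofReal ε * mass k Set.univ := by
  have h0 : mass k {n | n ∉ B} ≤ mass k {n | n ∉ A k} := mass_mono (fun n (hn : n ∉ B) (h : n ∈ A k) => hn (hB n h))
  refine h0.trans ((mass_compl_le k (A k)).trans ((hC.typ k hk).trans ?_))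
  exact mul_le_mul_right (mass_univ_ge k) _

end NTF
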