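import Pool.Agent.NT.Law

/-!
NT (natural time): subsequences and properties of the limits.
-/

set_option autoImplicit false

namespace NTF

open Finset MeasureTheory Filter Topology

open Pool.Agent.NT.ResNat

open scoped ENNReal Classical

/-! ### General facts -/

theorem open_le {μ : ℕ → ProbabilityMeasure C(unitInterval, ℂ)} {ν : ProbabilityMeasure C(unitInterval, ℂ)}
    (h : Tendsto μ atTop (𝓝 ν)) {U : Set C(unitInterval, ℂ)} (hU : IsOpen U) {ε : ℝ≥0∞}
    (hμ : ∀ᶠ k in atTop, (μ k : Measure C(unitInterval, ℂ)) U ≤ ε) : (ν : Measure C(unitInterval, ℂ)) U ≤ ε := by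
  refine (ProbabilityMeasure.le_liminf_measure_open_of_tendsto h hU).trans ?_
  exact liminf_le_of_frequently_le' hμ.frequently

lemma cont_eval (u : unitInterval) : Continuous fun γ : C(unitInterval, ℂ) => γ u :=
  ContinuousEvalConst.continuous_eval_const u

/-- the truncated square of the end -/
noncomputable def tr (M : ℝ) (γ : C(unitInterval, ℂ)) : ℝ := min (‖γ 1‖ ^ 2) M

lemma tr_cont (M : ℝ) : Continuous (tr M) := ((cont_eval 1).norm.pow 2).min continuous_const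

lemma tr_nonneg {M : ℝ} (hM : 0 ≤ M) (γ : C(unitInterval, ℂ)) : 0 ≤ tr M γ := le_min (by positivity) hM

lemma tr_le (M : ℝ) (γ : C(unitInterval, ℂ)) : tr M γ ≤ ‖γ 1‖ ^ 2 := min_le_left _ _

lemma tr_ge {M : ℝ} (hM : 0 < M) (γ : C(unitInterval, ℂ)) : ‖γ 1‖ ^ 2 - ‖γ 1‖ ^ 4 / M ≤ tr M γ := by
  unfold tr
  have h4 : ‖γ 1‖ ^ 4 = (‖γ 1‖ ^ 2) ^ 2 := by ring
  rw [h4]
  have hx : 0 ≤ ‖γ 1‖ ^ 2 := by positivity
  generalize ‖γ 1‖ ^ 2 = x at *
  have h5 : 0 ≤ x ^ 2 / M := by positivity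
  rcases le_total x M with h | h
  · rw [min_eq_left h]
    linarith
  · rw [min_eq_right h]
    have h6 : x ≤ x ^ 2 / M := by
      rw [le_div_iff₀ hM]
      nlinarith
    linarith

/-- the truncated square as a bounded continuous function -/
noncomputable def trB (M : ℝ) (hM : 0 ≤ M) : BoundedContinuousFunction C(unitInterval, ℂ) ℝ :=
  BoundedContinuousFunction.ofNormedAddCommGroup (tr M) (tr_cont M) M fun γ => by
    rw [Real.norm_of_nonneg (tr_nonneg hM γ)]
    exact min_le_right _ _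

/-- **the second moment in the limit** -/
theorem second_of {ν : Measure C(unitInterval, ℂ)} [IsProbabilityMeasure ν] {C : ℝ}
    (h : ∀ M : ℝ, 0 < M → 1 - C / M ≤ ∫ γ, tr M γ ∂ν ∧ ∫ γ, tr M γ ∂ν ≤ 1) : ∫ γ, ‖γ 1‖ ^ 2 ∂ν = 1 := by
  have hint : ∀ M : ℝ, 0 ≤ M → Integrable (tr M) ν := fun M hM => (trB M hM).integrable ν
  have hm : ∀ M : ℝ, Measurable fun γ => ENNReal.ofReal (tr M γ) := fun M => (tr_cont M).measurable.ennreal_ofReal
  have h1 : ∫⁻ γ, ENNReal.ofReal (‖γ 1‖ ^ 2) ∂ν ≤ 1 := by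
    have e : ∀ γ : C(unitInterval, ℂ), ENNReal.ofReal (‖γ 1‖ ^ 2) = ⨆ m : ℕ, ENNReal.ofReal (tr m γ) := by
      intro γ
      apply le_antisymm
      · refine le_iSup_of_le ⌈‖γ 1‖ ^ 2⌉₊ (ENNReal.ofReal_le_ofReal ?_)
        exact le_min le_rfl (Nat.le_ceil _)
      · exact iSup_le fun m => ENNReal.ofReal_le_ofReal (tr_le _ _)
    rw [lintegral_congr e, lintegral_iSup (fun m => hm m)]
    · apply iSup_le
      intro m
      rw [← ofReal_integral_eq_lintegral_ofReal (hint m (Nat.cast_nonneg m))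
        (Eventually.of_forall fun γ => tr_nonneg (Nat.cast_nonneg m) γ)]
      rcases Nat.eq_zero_or_pos m with rfl | hm0
      · have e0 : ∀ γ, tr ((0 : ℕ) : ℝ) γ = 0 := fun γ => by
          unfold tr
          rw [Nat.cast_zero, min_eq_right (by positivity)]
        rw [integral_congr_ae (Eventually.of_forall e0)]
        simp
      · rw [← ENNReal.ofReal_one]
        exact ENNReal.ofReal_le_ofReal (h m (by exact_mod_cast hm0)).2
    · intro m m' hmm γ
      apply ENNReal.ofReal_le_ofReal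
      exact min_le_min le_rfl (by exact_mod_cast hmm)
  have hcm : Continuous fun γ : C(unitInterval, ℂ) => ‖γ 1‖ ^ 2 := (cont_eval 1).norm.pow 2
  have hI : Integrable (fun γ : C(unitInterval, ℂ) => ‖γ 1‖ ^ 2) ν := by
    refine ⟨hcm.aestronglyMeasurable, ?_⟩
    rw [hasFiniteIntegral_iff_ofReal (Eventually.of_forall fun γ => by positivity)]
    exact h1.trans_lt ENNReal.one_lt_top
  apply le_antisymm
  · rw [← ofReal_integral_eq_lintegral_ofReal hI (Eventually.of_forall fun γ => by positivity), ← ENNReal.ofReal_one] at h1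
    exact (ENNReal.ofReal_le_ofReal_iff zero_le_one).1 h1
  · have h2 : ∀ M : ℝ, 0 < M → 1 - C / M ≤ ∫ γ, ‖γ 1‖ ^ 2 ∂ν := fun M hM =>
      (h M hM).1.trans (integral_mono (hint M hM.le) hI fun γ => tr_le M γ)
    have h3 : Tendsto (fun M : ℝ => 1 - C / M) atTop (𝓝 (1 - 0)) :=
      tendsto_const_nhds.sub (tendsto_const_nhds.div_atTop tendsto_id)
    rw [sub_zero] at h3
    exact le_of_tendsto h3 (by filter_upwards [eventually_gt_atTop 0] with M hM using h2 M hM)

/-! ### The walks -/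

section

variable {n : ℕ}

lemma size_pos_of (hn : 1 ≤ n) (hne : (bridges n).Nonempty) : 0 < size n := by
  have h1 := size_sq hne
  obtain ⟨s, hs⟩ := hne
  have h2 : 0 < ‖pos s n‖ ^ 2 := by
    have h3 := ((mem_bridges.1 hs).2 n hn le_rfl).1
    have h4 : pos s n ≠ 0 := by
      intro h5
      rw [h5, Complex.zero_re] at h3
      exact lt_irrefl _ h3
    positivity
  have h3 : 0 < ∑ s ∈ bridges n, ‖pos s n‖ ^ 2 :=
    h2.trans_le (single_le_sum (f := fun s => ‖pos s n‖ ^ 2) (fun _ _ => by positivity) hs)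
  rw [← h1] at h3
  rcases (size_nonneg n).lt_or_eq with h | h
  · exact h
  · rw [← h] at h3
    simp at h3

lemma tr_law_le (hn : 1 ≤ n) (hne : (bridges n).Nonempty) (M : ℝ) : ∫ γ, tr M γ ∂(law n) ≤ 1 := by
  have hs := size_pos_of hn hne
  have hc : (0 : ℝ) < ((bridges n).card : ℝ) := by exact_mod_cast hne.card_pos
  rw [integral_law, div_le_one hc]
  have h1 := size_sq hne
  calc ∑ s ∈ bridges n, tr M (curve s) ≤ ∑ s ∈ bridges n, ‖pos s n‖ ^ 2 / size n ^ 2 := by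
        apply sum_le_sum
        intro s _
        refine (tr_le _ _).trans (le_of_eq ?_)
        rw [curve_one, norm_div, Complex.norm_of_nonneg hs.le, div_pow]
    _ = (size n ^ 2 * ((bridges n).card : ℝ)) / size n ^ 2 := by rw [← sum_div, h1]
    _ = _ := by field_simp

lemma tr_law_ge (hn : 1 ≤ n) (hne : (bridges n).Nonempty) {M : ℝ} (hM : 0 < M) {C : ℝ}
    (h4 : ∑ s ∈ bridges n, ‖pos s n‖ ^ 4 ≤ C * size n ^ 4 * ((bridges n).card : ℝ)) :
    1 - C / M ≤ ∫ γ, tr M γ ∂(law n) := by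
  have hs := size_pos_of hn hne
  have hc : (0 : ℝ) < ((bridges n).card : ℝ) := by exact_mod_cast hne.card_pos
  rw [integral_law, le_div_iff₀ hc]
  have h1 := size_sq hne
  have h2 : ∑ s ∈ bridges n, (‖pos s n‖ ^ 2 / size n ^ 2 - ‖pos s n‖ ^ 4 / size n ^ 4 / M) ≤
      ∑ s ∈ bridges n, tr M (curve s) := by
    apply sum_le_sum
    intro s _
    refine le_trans (le_of_eq ?_) (tr_ge hM _)
    rw [curve_one, norm_div, Complex.norm_of_nonneg hs.le, div_pow, div_pow]
  refine le_trans ?_ h2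
  rw [sum_sub_distrib, ← sum_div, ← h1, ← sum_div, ← sum_div]
  have h5 : (size n ^ 2 * ((bridges n).card : ℝ)) / size n ^ 2 = ((bridges n).card : ℝ) := by field_simp
  have h6 : (∑ s ∈ bridges n, ‖pos s n‖ ^ 4) / size n ^ 4 ≤ C * ((bridges n).card : ℝ) := by
    rw [div_le_iff₀ (by positivity)]
    linarith
  have h7 : (∑ s ∈ bridges n, ‖pos s n‖ ^ 4) / size n ^ 4 / M ≤ C * ((bridges n).card : ℝ) / M :=
    div_le_div_of_nonneg_right h6 hM.le
  rw [h5]
  have h8 : (1 - C / M) * ((bridges n).card : ℝ) = ((bridges n).card : ℝ) - C * ((bridges n).card : ℝ) / M := by ring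
  linarith

/-- the curve stays between its ends -/
lemma curve_re (hn : 1 ≤ n) {s : Fin n → Fin 3} (hs : s ∈ bridges n) (u : unitInterval) :
    0 ≤ (curve s u).re ∧ (curve s u).re ≤ (curve s 1).re := by
  have h1 : ∀ k, k ≤ n → 0 ≤ (pos s k).re ∧ (pos s k).re ≤ (pos s n).re := by
    intro k hk
    rcases Nat.eq_zero_or_pos k with rfl | hk0
    · rw [pos_zero, Complex.zero_re]
      exact ⟨le_rfl, ((mem_bridges.1 hs).2 n hn le_rfl).1.le⟩
    · exact ⟨((mem_bridges.1 hs).2 k hk0 hk).1.le, ((mem_bridges.1 hs).2 k hk0 hk).2⟩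
  obtain ⟨i, a, hi, a0, a1, -, -, e⟩ := curve_apply hn s u
  rw [e, curve_one, Complex.div_ofReal_re, Complex.div_ofReal_re, Complex.add_re, Complex.re_ofReal_mul,
    Complex.re_ofReal_mul]
  obtain ⟨b1, b2⟩ := h1 i hi.le
  obtain ⟨c1, c2⟩ := h1 (i + 1) hi
  have d1 : 0 ≤ (1 - a) * (pos s i).re := mul_nonneg (by linarith) b1
  have d2 : 0 ≤ a * (pos s (i + 1)).re := mul_nonneg a0 c1
  have d3 : (1 - a) * (pos s i).re ≤ (1 - a) * (pos s n).re := mul_le_mul_of_nonneg_left b2 (by linarith)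
  have d4 : a * (pos s (i + 1)).re ≤ a * (pos s n).re := mul_le_mul_of_nonneg_left c2 a0
  exact ⟨div_nonneg (by linarith) (size_nonneg n), div_le_div_of_nonneg_right (by linarith) (size_nonneg n)⟩

end

/-! ### Limits -/

/-- the law as a probability measure -/
noncomputable def PM (n : ℕ) (hne : (bridges n).Nonempty) : ProbabilityMeasure C(unitInterval, ℂ) :=
  ⟨law n, law_prob hne⟩

section

variable {A : Set ℕ} (hA : Facts A)

include hA

lemma lawTo_iff {φ : ℕ → ℕ} (hφ : ∀ k, φ k ∈ A) (ν : ProbabilityMeasure C(unitInterval, ℂ)) :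
    LawTo φ (ν : Measure C(unitInterval, ℂ)) ↔
      Tendsto (fun k => PM (φ k) (hA.one _ (hφ k)).2) atTop (𝓝 ν) := by
  rw [ProbabilityMeasure.tendsto_iff_forall_integral_tendsto]
  exact Iff.rfl

theorem subseq {φ : ℕ → ℕ} (hφA : ∀ k, φ k ∈ A) : ∃ ψ : ℕ → ℕ, StrictMono ψ ∧
    ∃ ν : Measure C(unitInterval, ℂ), IsProbabilityMeasure ν ∧ LawTo (fun k => φ (ψ k)) ν := by
  have ht : IsTightMeasureSet {((ρ : ProbabilityMeasure C(unitInterval, ℂ)) : Measure C(unitInterval, ℂ)) |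
      ρ ∈ Set.range fun k => PM (φ k) (hA.one _ (hφA k)).2} := by
    refine (tight hA).subset ?_
    rintro _ ⟨ρ, ⟨k, rfl⟩, rfl⟩
    exact ⟨φ k, hφA k, rfl⟩
  have hc := isCompact_closure_of_isTightMeasureSet ht
  obtain ⟨ν, -, ψ, hψ, hlim⟩ := hc.tendsto_subseq (x := fun k => PM (φ k) (hA.one _ (hφA k)).2)
    (fun k => subset_closure ⟨k, rfl⟩)
  exact ⟨ψ, hψ, ν, inferInstance, (lawTo_iff hA (fun k => hφA (ψ k)) ν).2 hlim⟩

theorem limit_props {φ : ℕ → ℕ} (hφ : Tendsto φ atTop atTop) (hφA : ∀ k, φ k ∈ A)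
    {ν : Measure C(unitInterval, ℂ)} (hν : IsProbabilityMeasure ν) (hlim : LawTo φ ν) :
    (∀ᵐ γ : C(unitInterval, ℂ) ∂ν, γ 0 = 0 ∧ (∀ u, 0 ≤ (γ u).re ∧ (γ u).re ≤ (γ 1).re) ∧ 0 < (γ 1).re) ∧
      ∫ γ : C(unitInterval, ℂ), ‖γ 1‖ ^ 2 ∂ν = 1 := by
  have hlim2 := (lawTo_iff hA hφA ⟨ν, hν⟩).1 hlim
  have hge : ∀ n0 : ℕ, ∀ᶠ k in atTop, n0 ≤ φ k := fun n0 => hφ.eventually_ge_atTop n0
  constructor
  · have c1 : IsClosed {γ : C(unitInterval, ℂ) | γ 0 = 0 ∧ ∀ u, 0 ≤ (γ u).re ∧ (γ u).re ≤ (γ 1).re} := by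
      refine IsClosed.inter (isClosed_eq (cont_eval 0) continuous_const) ?_
      have e : {γ : C(unitInterval, ℂ) | ∀ u, 0 ≤ (γ u).re ∧ (γ u).re ≤ (γ 1).re} =
          ⋂ u : unitInterval, ({γ | 0 ≤ (γ u).re} ∩ {γ | (γ u).re ≤ (γ 1).re}) := by
        ext γ
        simp only [Set.mem_iInter, Set.mem_inter_iff, Set.mem_ofPred_eq]
      show IsClosed {γ : C(unitInterval, ℂ) | ∀ u, 0 ≤ (γ u).re ∧ (γ u).re ≤ (γ 1).re}
      rw [e]
      exact isClosed_iInter fun u => (isClosed_le continuous_const (Complex.continuous_re.comp (cont_eval u))).inter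
        (isClosed_le (Complex.continuous_re.comp (cont_eval u)) (Complex.continuous_re.comp (cont_eval 1)))
    have h1 : ν {γ : C(unitInterval, ℂ) | γ 0 = 0 ∧ ∀ u, 0 ≤ (γ u).re ∧ (γ u).re ≤ (γ 1).re}ᶜ ≤ 0 := by
      refine open_le hlim2 c1.isOpen_compl (Eventually.of_forall fun k => le_of_eq ?_)
      refine law_zero fun s hs h => h ⟨curve_zero s, fun u => curve_re (hA.one _ (hφA k)).1 hs u⟩
    have h2 : ν {γ : C(unitInterval, ℂ) | ¬ 0 < (γ 1).re} = 0 := by
      refine le_antisymm (ENNReal.le_of_forall_pos_le_add ?_) zero_le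
      intro ε hε _
      rw [zero_add]
      obtain ⟨κ, n0, hκ, h3⟩ := hA.low ε (by exact_mod_cast hε)
      have hU : IsOpen {γ : C(unitInterval, ℂ) | (γ 1).re < κ} :=
        isOpen_lt (Complex.continuous_re.comp (cont_eval 1)) continuous_const
      have h4 : ν {γ : C(unitInterval, ℂ) | (γ 1).re < κ} ≤ ENNReal.ofReal ε := by
        refine open_le hlim2 hU ?_
        filter_upwards [hge n0] with k hk
        obtain ⟨hn1, hne⟩ := hA.one _ (hφA k)
        refine law_le hne (by positivity) (le_trans ?_ (h3 _ (hφA k) hk))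
        have hsub : ((bridges (φ k)).filter fun s => curve s ∈ {γ : C(unitInterval, ℂ) | (γ 1).re < κ}) ⊆
            (bridges (φ k)).filter fun s => (pos s (φ k)).re ≤ κ * size (φ k) := by
          intro s hs
          rw [Finset.mem_filter] at hs ⊢
          refine ⟨hs.1, ?_⟩
          have h5 : (curve s 1).re < κ := hs.2
          rw [curve_one, Complex.div_ofReal_re, div_lt_iff₀ (size_pos_of hn1 hne)] at h5
          exact h5.le
        exact_mod_cast Finset.card_le_card hsub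
      rw [ENNReal.ofReal_coe_nnreal] at h4
      refine (measure_mono ?_).trans h4
      intro γ hγ
      exact (not_lt.1 hγ).trans_lt hκ
    have h3 : ∀ᵐ γ : C(unitInterval, ℂ) ∂ν, γ 0 = 0 ∧ ∀ u, 0 ≤ (γ u).re ∧ (γ u).re ≤ (γ 1).re :=
      le_antisymm h1 zero_le
    have h4 : ∀ᵐ γ : C(unitInterval, ℂ) ∂ν, 0 < (γ 1).re := h2
    filter_upwards [h3, h4] with γ a b
    exact ⟨a.1, a.2, b⟩
  · obtain ⟨C, n0, hC, h4⟩ := hA.four
    apply second_of (C := C)
    intro M hM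
    have h1 : Tendsto (fun k => ∫ γ, tr M γ ∂(law (φ k))) atTop (𝓝 (∫ γ, tr M γ ∂ν)) := hlim (trB M hM.le)
    constructor
    · refine ge_of_tendsto h1 ?_
      filter_upwards [hge n0] with k hk
      exact tr_law_ge (hA.one _ (hφA k)).1 (hA.one _ (hφA k)).2 hM (h4 _ (hφA k) hk)
    · exact le_of_tendsto h1 (Eventually.of_forall fun k => tr_law_le (hA.one _ (hφA k)).1 (hA.one _ (hφA k)).2 M)

end

end NTF
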