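import Pool.Agent.NT.TallC
import Pool.Agent.NT.Quant
import Pool.Agent.NT.Geo

/-!
NT (natural time), module 4c: the weight of the tall bridges with few letters decays exponentially in the height.
-/

set_option autoImplicit false

namespace HexObs

namespace NTm

open Finset TS SDN SDN.CN

open scoped ENNReal

/-- the class of the words with less than lam letters -/
def SHO (lam : ℝ) : Set (List Bool) := {g | (g.length : ℝ) < lam}

/-- the norm of the short leaves, all heights -/
theorem smA_short : ∃ (d : ℝ) (s k0 : ℕ), 0 < d ∧ 6 ≤ s ∧ ∀ (kc : ℕ) (lam : ℝ), k0 ≤ kc → AS lam (d * Ub kc) →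
    ∃ ν : ℕ → ℝ≥0∞, TV.SmA (SHO lam) kc s ν := by
  obtain ⟨K, s, hK, hs, hcn⟩ := clean_norm
  -- the classes of the large heights
  obtain ⟨n0, hn0⟩ : ∃ n0 : ℕ, 4 * K * (1 / 2) ^ n0 ≤ 1 / 8 := by
    obtain ⟨n0, hn0⟩ := exists_pow_lt_of_lt_one (show 0 < 1 / (32 * K) by positivity) (show (1 / 2 : ℝ) < 1 by norm_num)
    refine ⟨n0, ?_⟩
    calc 4 * K * (1 / 2) ^ n0 ≤ 4 * K * (1 / (32 * K)) := by gcongr
      _ = 1 / 8 := by
          field_simp
          norm_num
  obtain ⟨δ, hδ⟩ : ∃ δ : ℝ, δ = 1 / (8 * (n0 + 1) * 2 ^ n0) := ⟨_, rfl⟩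
  have hδ0 : 0 < δ := by rw [hδ]; positivity
  obtain ⟨J, hJ⟩ : ∃ J, J = s + n0 := ⟨_, rfl⟩
  obtain ⟨d, k0, hd, hsm⟩ := sm_short J hδ0
  refine ⟨d, s, k0, hd, hs, fun kc lam hkc hAS => ?_⟩
  have hU := Ub_pos kc
  have hS : Sm kc (SL kc J lam) δ := by
    refine hsm kc lam hkc (AS_short hAS ?_)
    have hN : Ub kc ≤ UU (2 ^ (kc + J)) := UU_mono (Nat.pow_le_pow_right (by norm_num) (by omega))
    gcongr
  refine ⟨fun j => if j < n0 then ENNReal.ofReal δ else ENNReal.ofReal (K / 4 ^ j), ?_, ?_, ?_⟩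
  · intro j Φ hΦ
    by_cases hj : j < n0
    · rw [if_pos hj]
      refine (xT_mono fun t => ?_).trans (hS.near Φ hΦ)
      unfold vA
      refine Rec8.sw_mono ?_ fun _ _ => le_rfl
      rintro g ⟨⟨⟨⟨-, h, h1, h2, h3⟩, h', h4, h5⟩, h6⟩, h7⟩
      have e : h' = h := Brd_height h5 h3
      refine ⟨⟨⟨h, by omega, ?_, h3⟩, h6⟩, h7⟩
      have h8 : (j + 1) * 2 ^ (kc + s) ≤ 2 ^ n0 * 2 ^ (kc + s) := Nat.mul_le_mul_right _ (by
        have := Nat.lt_two_pow_self (n := n0)
        omega)
      rw [← pow_add] at h8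
      rw [hJ]
      rw [show kc + (s + n0) = n0 + (kc + s) by omega]
      omega
    · rw [if_neg hj]
      refine (xT_mono fun t => ?_).trans (hcn kc j Φ hΦ).1
      unfold vA
      exact Rec8.sw_mono (fun g hg => ⟨hg.1.1, hg.2⟩) fun _ _ => le_rfl
  · intro j Φ hΦ
    by_cases hj : j < n0
    · rw [if_pos hj]
      refine (Rec8.sw_mono (B := SL kc J lam) (Ψ := Φ) ?_ fun _ _ => le_rfl).trans ((hS.free Φ hΦ).trans (le_of_eq ?_))
      · rintro g ⟨⟨⟨-, h, h1, h2, h3⟩, h', h4, h5⟩, h6⟩
        have e : h' = h := Brd_height h5 h3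
        refine ⟨⟨h, by omega, ?_, h3⟩, h6⟩
        have h8 : (j + 1) * 2 ^ (kc + s) ≤ 2 ^ n0 * 2 ^ (kc + s) := Nat.mul_le_mul_right _ (by
          have := Nat.lt_two_pow_self (n := n0)
          omega)
        rw [← pow_add] at h8
        rw [hJ]
        rw [show kc + (s + n0) = n0 + (kc + s) by omega]
        omega
      · rw [ENNReal.ofReal_mul hδ0.le]
    · rw [if_neg hj]
      refine (Rec8.sw_mono (B := CK (kc + 5) (kc + s) j ∩ HB (2 ^ (kc + 4))) (Ψ := Φ) (fun g hg => hg.1) fun _ _ => le_rfl).trans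
        ((hcn kc j Φ hΦ).2.trans (le_of_eq ?_))
      rw [← ENNReal.ofReal_mul (by positivity)]
      congr 2
      ring
  · -- the sum
    have e2 : ∀ j : ℕ, (2 : ℝ≥0∞) ^ (j + 1) = ENNReal.ofReal (2 ^ (j + 1)) := by
      intro j
      rw [ENNReal.ofReal_pow (by norm_num)]
      congr 1
      norm_num
    have h1 : ∀ j : ℕ, (2 : ℝ≥0∞) ^ (j + 1) * (if j < n0 then ENNReal.ofReal δ else ENNReal.ofReal (K / 4 ^ j)) ≤
        (if j < n0 then ENNReal.ofReal (2 ^ n0 * δ) else 0) + ENNReal.ofReal (if j < n0 then 0 else 2 * K * (1 / 2) ^ j) := by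
      intro j
      rw [e2]
      split_ifs with hj
      · rw [← ENNReal.ofReal_mul (by positivity)]
        refine le_trans (ENNReal.ofReal_le_ofReal ?_) le_self_add
        apply mul_le_mul_of_nonneg_right _ hδ0.le
        exact pow_le_pow_right₀ (by norm_num) (by omega)
      · rw [← ENNReal.ofReal_mul (by positivity), zero_add]
        apply ENNReal.ofReal_le_ofReal
        apply le_of_eq
        have e4 : (4 : ℝ) ^ j = 2 ^ j * 2 ^ j := by
          rw [← mul_pow]
          norm_num
        rw [e4, one_div, inv_pow, pow_succ]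
        field_simp
    refine (ENNReal.tsum_le_tsum h1).trans ?_
    rw [ENNReal.tsum_add]
    have h2 : ∑' j : ℕ, (if j < n0 then ENNReal.ofReal (2 ^ n0 * δ) else 0) ≤ ENNReal.ofReal (1 / 8) := by
      rw [tsum_eq_sum (s := range n0) (fun j hj => by
        rw [Finset.mem_range] at hj
        rw [if_neg hj])]
      have h3 : ∑ j ∈ range n0, (if j < n0 then ENNReal.ofReal (2 ^ n0 * δ) else 0) = n0 * ENNReal.ofReal (2 ^ n0 * δ) := by
        rw [Finset.sum_congr rfl (g := fun _ => ENNReal.ofReal (2 ^ n0 * δ)) (fun j hj => by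
          rw [Finset.mem_range] at hj
          rw [if_pos hj]), Finset.sum_const, Finset.card_range, nsmul_eq_mul]
      rw [h3, ← ENNReal.ofReal_natCast, ← ENNReal.ofReal_mul (by positivity)]
      apply ENNReal.ofReal_le_ofReal
      rw [hδ]
      rw [show (n0 : ℝ) * (2 ^ n0 * (1 / (8 * (n0 + 1) * 2 ^ n0))) = (n0 / (n0 + 1)) / 8 by field_simp]
      have h4 : (n0 : ℝ) / (n0 + 1) ≤ 1 := by
        rw [div_le_one (by positivity)]
        linarith
      linarith
    have h5 : ∑' j : ℕ, ENNReal.ofReal (if j < n0 then 0 else 2 * K * (1 / 2) ^ j) ≤ ENNReal.ofReal (1 / 8) := by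
      have hsum : Summable (fun j : ℕ => 2 * K * (1 / 2 : ℝ) ^ (j + n0)) := by
        have := (summable_geometric_of_lt_one (r := (1 / 2 : ℝ)) (by norm_num) (by norm_num)).mul_left (2 * K * (1 / 2) ^ n0)
        refine this.congr fun j => ?_
        rw [pow_add]
        ring
      obtain ⟨f, hf⟩ : ∃ f : ℕ → ℝ≥0∞, f = fun j => ENNReal.ofReal (if j < n0 then 0 else 2 * K * (1 / 2) ^ j) := ⟨_, rfl⟩
      have hf1 : ∀ j, j < n0 → f j = 0 := fun j hj => by
        rw [hf]
        show ENNReal.ofReal (if j < n0 then 0 else 2 * K * (1 / 2) ^ j) = 0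
        rw [if_pos hj, ENNReal.ofReal_zero]
      have hf2 : ∀ j, f (j + n0) = ENNReal.ofReal (2 * K * (1 / 2 : ℝ) ^ (j + n0)) := fun j => by
        rw [hf]
        show ENNReal.ofReal (if j + n0 < n0 then 0 else 2 * K * (1 / 2) ^ (j + n0)) = _
        rw [if_neg (by omega)]
      have h6 : ∑' j : ℕ, f j = ∑' j : ℕ, ENNReal.ofReal (2 * K * (1 / 2 : ℝ) ^ (j + n0)) := by
        have h8 := Summable.sum_add_tsum_nat_add' (f := f) (k := n0) ENNReal.summable
        rw [← h8, Finset.sum_eq_zero (fun j hj => hf1 j (Finset.mem_range.1 hj)), zero_add]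
        exact tsum_congr hf2
      rw [← hf]
      rw [h6, ← ENNReal.ofReal_tsum_of_nonneg (fun j => by positivity) hsum]
      apply ENNReal.ofReal_le_ofReal
      have h7 : ∀ j : ℕ, 2 * K * (1 / 2 : ℝ) ^ (j + n0) = (2 * K * (1 / 2) ^ n0) * (1 / 2) ^ j := by
        intro j
        rw [pow_add]
        ring
      rw [tsum_congr h7, tsum_mul_left, tsum_geometric_two]
      linarith
    refine (add_le_add h2 h5).trans ?_
    rw [← ENNReal.ofReal_add (by norm_num) (by norm_num)]
    apply ENNReal.ofReal_le_ofReal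
    norm_num

variable {b m u T : ℕ} {t : List Bool} {e : ℕ → ℕ}

/-- the heights of the leaves cover the height of the bridge -/
lemma hgt_sum (ht : t ∈ Brd T) (hm : 1 ≤ m) {gs : List (List Bool)}
    (hlen : gs.length = m) (hbr : ∀ g ∈ gs, ∃ k : ℕ, g ∈ Brd k)
    (hget : ∀ (l : ℕ) (hl : l < gs.length), IsLf t m e l gs[l]) : T ≤ (gs.map fun g => hgt g + 1).sum := by
  have key : ∀ l, l ≤ m → lev t (ee m t.length e l) ≤ 3 * (((gs.take l).map fun g => hgt g + 1).sum : ℕ) := by
    intro l
    induction l with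
    | zero =>
      intro _
      rw [ee_zero, lev_zero]
      positivity
    | succ l ih =>
      intro hl
      have hl' : l < gs.length := by omega
      have ih' := ih (by omega)
      have h1 := hget l hl'
      have h2 := h1.lv gs[l].length le_rfl
      obtain ⟨k, hk⟩ := hbr gs[l] (List.getElem_mem _)
      rw [(mem_Brd.1 hk).2.2.2, h1.len] at h2
      have h3 : lev t (ee m t.length e (l + 1)) ≤ lev t (st e l) + 3 * k := by
        unfold Tight.sg at h2
        split_ifs at h2 <;> omega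
      have h4 : lev t (st e l) ≤ lev t (ee m t.length e l) + 2 := by
        obtain ⟨h5, h6⟩ := st_ge e m t.length l (by omega)
        have h7 : st e l = ee m t.length e l ∨ st e l = ee m t.length e l + 1 := by omega
        rcases h7 with h7 | h7
        · rw [h7]
          omega
        · rw [h7]
          exact xD_step_le (D := up) upd t _
      have h8 : ((gs.take (l + 1)).map fun g => hgt g + 1).sum = ((gs.take l).map fun g => hgt g + 1).sum + (k + 1) := by
        rw [List.take_add_one, List.map_append, List.sum_append, List.getElem?_eq_getElem hl']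
        simp only [Option.toList_some, List.map_cons, List.map_nil, List.sum_cons, List.sum_nil, add_zero]
        rw [hgt_eq hk]
      rw [h8]
      push_cast at ih' ⊢
      omega
  have h1 := key m le_rfl
  rw [ee_last hm, (mem_Brd.1 ht).2.2.2, List.take_of_length_le (by omega)] at h1
  have h2 : (3 * T : ℤ) ≤ 3 * (((gs.map fun g => hgt g + 1).sum : ℕ) : ℤ) := h1
  omega

/-- tall bridges with less than lam letters -/
def TB (K H : ℕ) (lam : ℝ) : Set (List Bool) := {t | ∃ T, H * 2 ^ K ≤ T ∧ t ∈ Brd T ∧ (t.length : ℝ) < lam}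

theorem tallV : ∃ (d : ℝ) (s k0 : ℕ), 0 < d ∧ ∀ (kc : ℕ) (lam : ℝ), k0 ≤ kc → AS lam (d * Ub kc) → ∀ H : ℕ, 1 ≤ H →
    gf (TB (kc + s) H lam) ≤ ENNReal.ofReal (Ub kc / 2 ^ H) := by
  classical
  obtain ⟨d, s, k0, hd, hs, hsm⟩ := smA_short
  refine ⟨d, s, k0, hd, fun kc lam hkc hAS H hH => ?_⟩
  obtain ⟨ν, hν⟩ := hsm kc lam hkc hAS
  have hU := Ub_pos kc
  have hpk : 1 ≤ 2 ^ kc := Nat.one_le_two_pow
  have hcov : gf (TB (kc + s) H lam) ≤ ∑' gs : List (List Bool), ∑' n : ℕ, (if gs.length = n + 1 ∧ gs.IsChain LFold ∧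
      (∀ u ∈ gs, u ∈ TV.Sa (SHO lam) kc) ∧ H ≤ (gs.map fun g => hgt g / 2 ^ (kc + s) + 1).sum then SDN.wl gs else 0) := by
    rw [← Rec8.sw_one]
    refine Rec8.sw_cover _ _ _ (fun gs : List (List Bool) => unf gs) ?_
    rintro t ⟨T, hT, ht, hl⟩
    obtain ⟨m, u, e, h⟩ := lf_exists false (kc + 5) t
    have hTbig : 2 ^ (kc + 6) ≤ T := by
      have h1 : 2 ^ (kc + 6) ≤ 2 ^ (kc + s) := Nat.pow_le_pow_right (by norm_num) (by omega)
      have h2 : 1 * 2 ^ (kc + s) ≤ H * 2 ^ (kc + s) := Nat.mul_le_mul_right _ hH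
      omega
    have hm : 1 ≤ m := by
      by_contra hcon
      have h0 : m = 0 := by omega
      subst h0
      have h3 := no_leaf h (i := 0) (j := t.length) (by omega) le_rfl
      simp only [lvl_false] at h3
      rw [(mem_Brd.1 ht).2.2.2, lev_zero, sub_zero, abs_of_nonneg (by positivity)] at h3
      unfold RR at h3
      have h4 : (2 : ℤ) ^ (kc + 6) = 2 * 2 ^ (kc + 5) := by ring
      have h5 : ((2 ^ (kc + 6) : ℕ) : ℤ) ≤ T := by exact_mod_cast hTbig
      push_cast at h5
      omega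
    obtain ⟨gs, h1, h2, h3, h4, h5⟩ := bridge_rep_get ht (by omega) h hm
    refine ⟨gs, h2, ?_⟩
    rw [mul_one]
    refine le_trans ?_ (ENNReal.le_tsum (m - 1))
    have hbr : ∀ g ∈ gs, ∃ k : ℕ, g ∈ Brd k := fun g hg => by
      obtain ⟨k, hk, -⟩ := h4 g hg
      exact ⟨k, hk⟩
    have hsum := hgt_sum ht hm h1 hbr h5
    rw [if_pos]
    · rw [← h2]
      refine wE_unf (fun g hg => ?_) ?_
      · obtain ⟨k, b1, b2⟩ := h4 g hg
        refine Brd_ne_nil b1 ?_
        have : 2 ≤ 2 ^ (kc + 5) := by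
          calc 2 = 2 ^ 1 := by norm_num
            _ ≤ 2 ^ (kc + 5) := Nat.pow_le_pow_right (by norm_num) (by omega)
        omega
      · rintro rfl
        simp at h1
        omega
    · refine ⟨by omega, h3, ?_, ?_⟩
      · intro g hg
        obtain ⟨l, hl', rfl⟩ := List.mem_iff_getElem.1 hg
        have hlf := h5 l hl'
        obtain ⟨k, b1, b2⟩ := h4 _ hg
        refine ⟨⟨isLf_cl ht (by omega) h (by omega) hlf, k, ?_, b1⟩, ?_⟩
        · have : 2 ^ (kc + 5) = 2 * 2 ^ (kc + 4) := by rw [← pow_succ']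
          have : 1 ≤ 2 ^ (kc + 4) := Nat.one_le_two_pow
          omega
        · show ((gs[l].length : ℕ) : ℝ) < lam
          have c1 := hlf.len
          have c2 : ee m t.length e (l + 1) ≤ t.length := by
            obtain ⟨hu, hm2, h'⟩ := bridge_lf ht (by omega) h hm
            have h3 : ∀ d, l + 1 + d ≤ m → ee m t.length e (l + 1) ≤ ee m t.length e (l + 1 + d) := by
              intro d
              induction d with
              | zero => intro _; exact le_rfl
              | succ d ih =>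
                intro hd
                have a1 := ih (by omega)
                have a2 := h'.lt (l + 1 + d) (by omega)
                rw [← add_assoc]
                omega
            have h4 := h3 (m - (l + 1)) (by omega)
            rw [show l + 1 + (m - (l + 1)) = m by omega] at h4
            exact h4.trans h'.le
          have c3 : (gs[l].length : ℝ) ≤ t.length := by exact_mod_cast (by omega : gs[l].length ≤ t.length)
          linarith
      · -- the heights in units
        have hq : ∀ ls : List (List Bool), (ls.map fun g => hgt g + 1).sum ≤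
            (ls.map fun g => hgt g / 2 ^ (kc + s) + 1).sum * 2 ^ (kc + s) := by
          intro ls
          induction ls with
          | nil => simp
          | cons g ls ih =>
            rw [List.map_cons, List.sum_cons, List.map_cons, List.sum_cons, add_mul]
            have h6 := Nat.lt_mul_div_succ (hgt g) (show 0 < 2 ^ (kc + s) by positivity)
            have h7 : 2 ^ (kc + s) * (hgt g / 2 ^ (kc + s) + 1) = (hgt g / 2 ^ (kc + s) + 1) * 2 ^ (kc + s) := mul_comm _ _
            omega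
        have h6 := hq gs
        have h7 : H * 2 ^ (kc + s) ≤ (gs.map fun g => hgt g / 2 ^ (kc + s) + 1).sum * 2 ^ (kc + s) := by omega
        exact Nat.le_of_mul_le_mul_right h7 (by positivity)
  refine hcov.trans ?_
  rw [ENNReal.tsum_comm]
  refine (ENNReal.tsum_le_tsum fun n => TV.chain_V hν n H).trans ?_
  have hsum : Summable (fun n : ℕ => Ub kc * ((1 / 2) * (1 / 4 : ℝ) ^ n) / 2 ^ H) := by
    have := (summable_geometric_of_lt_one (r := (1 / 4 : ℝ)) (by norm_num) (by norm_num)).mul_left (Ub kc / 2 / 2 ^ H)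
    refine this.congr fun n => ?_
    ring
  rw [← ENNReal.ofReal_tsum_of_nonneg (fun n => by positivity) hsum]
  apply ENNReal.ofReal_le_ofReal
  have h7 : ∀ n : ℕ, Ub kc * ((1 / 2) * (1 / 4 : ℝ) ^ n) / 2 ^ H = (Ub kc / 2 / 2 ^ H) * (1 / 4) ^ n := fun n => by ring
  rw [tsum_congr h7, tsum_mul_left, tsum_geometric_of_lt_one (by norm_num) (by norm_num)]
  have h8 : 0 ≤ Ub kc / 2 ^ H := by positivity
  have h9 : Ub kc / 2 / 2 ^ H = (Ub kc / 2 ^ H) / 2 := by ring
  rw [h9]
  have h10 : (1 - 1 / 4 : ℝ)⁻¹ = 4 / 3 := by norm_num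
  rw [h10]
  linarith

end NTm

end HexObs
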