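import Pool.Agent.NT.Far
import Pool.Agent.NT.SeqDefs

/-!
NT (natural time): the facts few, hgt, tail for the bridges with at most l L letters.
-/

set_option autoImplicit false

namespace HexObs

namespace NTm

open Finset TS SDN SDN.CN

open scoped ENNReal

/-- the ratio of the values of the renewal function -/
lemma Ub_small {x : ℝ} (hx : 0 < x) : ∃ j : ℕ, ∀ k : ℕ, j ≤ k → Ub (k - j) ≤ x * Ub k := by
  have hκ := kap0_pos
  obtain ⟨j, hj⟩ : ∃ j : ℕ, 2 / x ≤ (2 : ℝ) ^ (kap0 * (j : ℝ)) := by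
    have h1 : 1 < (2 : ℝ) ^ kap0 := Real.one_lt_rpow (by norm_num) hκ
    obtain ⟨j, hj⟩ := pow_unbounded_of_one_lt (2 / x) h1
    refine ⟨j, hj.le.trans (le_of_eq ?_)⟩
    rw [← Real.rpow_natCast, ← Real.rpow_mul (by norm_num)]
  refine ⟨j, fun k hk => ?_⟩
  have h1 := Ub_growth (show k - j ≤ k by omega)
  rw [Nat.cast_sub hk, show (k : ℝ) - (k - j) = j by ring] at h1
  have hU := Ub_pos (k - j)
  have h2 : (2 : ℝ) ≤ x * (2 : ℝ) ^ (kap0 * (j : ℝ)) := by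
    rw [div_le_iff₀ hx] at hj
    linarith
  have h3 : 2 * Ub (k - j) ≤ x * (2 * Ub k) := by
    calc 2 * Ub (k - j) ≤ x * (2 : ℝ) ^ (kap0 * (j : ℝ)) * Ub (k - j) := by gcongr
      _ = x * (Ub (k - j) * (2 : ℝ) ^ (kap0 * (j : ℝ))) := by ring
      _ ≤ _ := by gcongr
  linarith

theorem facts_few {θ : ℝ} {l : ℕ → ℕ} {G : Set ℕ} (hl : Seq θ l) (hG : Good l G) : ∀ ε : ℝ, 0 < ε → ∃ (ρ : ℝ) (L0 : ℕ), 0 < ρ ∧
    ∀ L ∈ G, L0 ≤ L → gf {t | t ∈ BU ∧ (t.length : ℝ) ≤ ρ * l L} ≤ ENNReal.ofReal (ε * Ub L) := by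
  obtain ⟨c, hc, hgood⟩ := hG
  intro ε hε
  obtain ⟨j, hj⟩ := seq_small hl hε
  refine ⟨c j, j, hc j, fun L hL hjL => ?_⟩
  refine (gf_mono ?_).trans (AS_total (hj L hjL))
  rintro t ⟨h1, h2⟩
  have h3 := hgood L hL j hjL
  exact ⟨h1, by linarith⟩

/-- the low bridges -/
lemma low_mass (N : ℕ) : gf {t | ∃ h, h ≤ N ∧ t ∈ Brd h} ≤ ENNReal.ofReal (UU N) := by
  rw [T2.Amp.ofReal_UU]
  have hsub : {t | ∃ h, h ≤ N ∧ t ∈ Brd h} ⊆ ⋃ h ∈ Finset.range (N + 1), Brd h := by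
    rintro t ⟨h, h1, h2⟩
    rw [Set.mem_iUnion₂]
    exact ⟨h, Finset.mem_range.2 (by omega), h2⟩
  refine (gf_mono hsub).trans ((ENNReal.tsum_biUnion_le (fun t => wE t) (Finset.range (N + 1)) (fun h => Brd h)).trans (le_of_eq ?_))
  exact Finset.sum_congr rfl fun i _ => gf_Brd i

theorem facts_hgt : ∀ ε : ℝ, 0 < ε → ∃ (κ : ℝ) (L0 : ℕ), 0 < κ ∧ ∀ L : ℕ, L0 ≤ L →
    gf {t | t ∈ BU ∧ (lev t t.length : ℝ) ≤ κ * 2 ^ L} ≤ ENNReal.ofReal (ε * Ub L) := by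
  intro ε hε
  obtain ⟨j, hj⟩ := Ub_small hε
  refine ⟨1 / 2 ^ j, j, by positivity, fun L hL => ?_⟩
  refine (gf_mono ?_).trans ((low_mass (2 ^ (L - j))).trans (ENNReal.ofReal_le_ofReal (hj L hL)))
  rintro t ⟨⟨h, h1⟩, h2⟩
  refine ⟨h, ?_, h1⟩
  rw [(mem_Brd.1 h1).2.2.2] at h2
  have e1 : (1 : ℝ) / 2 ^ j * 2 ^ L = 2 ^ (L - j) := by
    have e2 : (2 : ℝ) ^ L = 2 ^ (L - j) * 2 ^ j := by
      rw [← pow_add]
      congr 1
      omega
    rw [e2]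
    field_simp
  rw [e1] at h2
  push_cast at h2
  have h3 : (h : ℝ) ≤ ((2 ^ (L - j) : ℕ) : ℝ) := by
    push_cast
    have : (0 : ℝ) ≤ h := Nat.cast_nonneg h
    linarith
  exact_mod_cast h3

theorem facts_tail {θ : ℝ} {l : ℕ → ℕ} (hl : Seq θ l) : ∃ (K : ℝ) (L0 : ℕ), 0 < K ∧ ∀ L i : ℕ, L0 ≤ L →
    gf {t | t ∈ BU ∧ (t.length : ℝ) < (l L : ℝ) + 1 ∧
      ∃ dir : Bool, (2 : ℝ) ^ i * 2 ^ L ≤ |((lvl dir (vx oo up t t.length) : ℤ) : ℝ)|} ≤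
      ENNReal.ofReal (K / 2 ^ (12 * i) * Ub L) := by
  obtain ⟨C0, hC0, hAS⟩ := hl.as
  obtain ⟨K, k0, hK, hfar⟩ := far_seq hl
  refine ⟨C0 * 2 ^ 24 + K * 2 ^ 40, k0 + 2, by positivity, fun L i hL => ?_⟩
  have hU := Ub_pos L
  rcases Nat.lt_or_ge i 2 with hi | hi
  · refine (gf_mono (Q := {t | t ∈ BU ∧ (t.length : ℝ) < (l L : ℝ) + 1}) fun t ht => ⟨ht.1, ht.2.1⟩).trans ((AS_total (hAS L)).trans (ENNReal.ofReal_le_ofReal ?_))
    have h1 : (2 : ℝ) ^ (12 * i) ≤ 2 ^ 24 := pow_le_pow_right₀ (by norm_num) (by omega)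
    have h2 : C0 ≤ (C0 * 2 ^ 24 + K * 2 ^ 40) / 2 ^ (12 * i) := by
      rw [le_div_iff₀ (by positivity)]
      have h3 : C0 * 2 ^ (12 * i) ≤ C0 * 2 ^ 24 := by gcongr
      have h4 : 0 ≤ K * 2 ^ 40 := by positivity
      linarith
    gcongr
  · refine (gf_mono (Q := {t | t ∈ BU ∧ (t.length : ℝ) < (l L : ℝ) + 1 ∧ t ∉ BL (L + (i - 2))}) ?_).trans
      ((hfar L (i - 2) (by omega)).trans (ENNReal.ofReal_le_ofReal ?_))
    · rintro t ⟨h1, h2, dir, h3⟩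
      refine ⟨h1, h2, fun hb => ?_⟩
      have h4 := hb.2.2 t.length le_rfl dir
      have h5 : |lvl dir (vx oo up t t.length)| ≤ 3 * 2 ^ (L + (i - 2)) + 2 := by
        unfold row at h4
        rw [abs_le] at h4 ⊢
        constructor <;> omega
      have h6 : (2 : ℤ) ^ i * 2 ^ L = 4 * 2 ^ (L + (i - 2)) := by
        have e : (4 : ℤ) = 2 ^ 2 := rfl
        rw [e, ← pow_add, ← pow_add]
        congr 1
        omega
      have h7 : (2 : ℤ) ^ i * 2 ^ L ≤ |lvl dir (vx oo up t t.length)| := by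
        exact_mod_cast h3
      have h8 : (4 : ℤ) ≤ 2 ^ (L + (i - 2)) := by
        calc (4 : ℤ) = 2 ^ 2 := by norm_num
          _ ≤ 2 ^ (L + (i - 2)) := pow_le_pow_right₀ (by norm_num) (by omega)
      omega
    · have h1 : (2 : ℝ) ^ (12 * i) ≤ 2 ^ 40 * 2 ^ (20 * (i - 2)) := by
        rw [← pow_add]
        exact pow_le_pow_right₀ (by norm_num) (by omega)
      have h2 : K / 2 ^ (20 * (i - 2)) ≤ (C0 * 2 ^ 24 + K * 2 ^ 40) / 2 ^ (12 * i) := by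
        rw [div_le_div_iff₀ (by positivity) (by positivity)]
        calc K * 2 ^ (12 * i) ≤ K * (2 ^ 40 * 2 ^ (20 * (i - 2))) := by gcongr
          _ = (K * 2 ^ 40) * 2 ^ (20 * (i - 2)) := by ring
          _ ≤ _ := by
              have : 0 ≤ C0 * 2 ^ 24 := by positivity
              gcongr
              linarith
      gcongr

end NTm

end HexObs
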