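import Pool.Agent.NT.TallT
import Pool.Agent.NT.Far
import Pool.Agent.NT.FactA

/-!
NT (natural time), module 5b: the sequence l grows at least like 2 ^ k at all scales.
-/

set_option autoImplicit false

namespace HexObs

namespace NTm

open Finset TS SDN SDN.CN

open scoped ENNReal

lemma sum_brd_le {F : Finset ℕ} {P : ℕ → List Bool → Prop} {S : Set (List Bool)} (h : ∀ n Z, Z ∈ Brd n → P n Z → Z ∈ S) :
    ∑ n ∈ F, gf {Z | Z ∈ Brd n ∧ P n Z} ≤ gf S := by
  classical
  have e1 : ∀ n, gf {Z | Z ∈ Brd n ∧ P n Z} = ∑' Z : List Bool, (if Z ∈ Brd n ∧ P n Z then wE Z else 0) := by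
    intro n
    rw [← Rec8.sw_one, Rec8.sw_ind]
    refine tsum_congr fun Z => ?_
    by_cases hZ : Z ∈ Brd n ∧ P n Z
    · rw [if_pos hZ, if_pos (show Z ∈ {Z | Z ∈ Brd n ∧ P n Z} from hZ), mul_one]
    · rw [if_neg hZ, if_neg (show ¬ Z ∈ {Z | Z ∈ Brd n ∧ P n Z} from hZ)]
  rw [Finset.sum_congr rfl (fun n _ => e1 n), ← Summable.tsum_finsetSum (fun _ _ => ENNReal.summable), ← Rec8.sw_one (A := S),
    Rec8.sw_ind]
  refine ENNReal.tsum_le_tsum fun Z => ?_
  by_cases hZ : ∃ n0, Z ∈ Brd n0 ∧ P n0 Z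
  · obtain ⟨n0, h1, h2⟩ := hZ
    rw [if_pos (h n0 Z h1 h2), mul_one]
    refine (Finset.sum_le_sum (g := fun n => if n = n0 then wE Z else 0) fun n _ => ?_).trans ?_
    · by_cases hn : n = n0
      · rw [if_pos hn]
        split_ifs
        · exact le_rfl
        · exact zero_le
      · rw [if_neg hn, if_neg]
        rintro ⟨h3, -⟩
        exact hn (Brd_height h3 h1)
    · rw [Finset.sum_ite_eq']
      split_ifs
      · exact le_rfl
      · exact zero_le
  · refine (le_of_eq (Finset.sum_eq_zero fun n _ => ?_)).trans zero_le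
    rw [if_neg]
    exact fun h3 => hZ ⟨n, h3⟩

theorem seq_grow {θ : ℝ} {l : ℕ → ℕ} (hl : Seq θ l) (h0 : 0 < θ) (h1 : θ < 1) : ∃ b : ℝ, 0 < b ∧ ∃ k0 : ℕ, ∀ k j : ℕ, k0 ≤ k →
    b * (2 : ℝ) ^ j * l k ≤ l (k + j) := by
  obtain ⟨d, b, s, k0, hd, hb, htall⟩ := tallT
  obtain ⟨j1, hj1⟩ := seq_small hl hd
  obtain ⟨η, hη⟩ : ∃ η : ℝ, η = (1 - θ) / 4 := ⟨_, rfl⟩
  have hη0 : 0 < η := by rw [hη]; linarith
  obtain ⟨a, ha⟩ := Ub_small hη0
  obtain ⟨n, hn⟩ := exists_pow_lt_of_lt_one hη0 (show (1 / 2 : ℝ) < 1 by norm_num)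
  obtain ⟨j2, hj2⟩ : ∃ j2, j2 = a + j1 + s + 1 := ⟨_, rfl⟩
  obtain ⟨j3, hj3⟩ : ∃ j3, j3 = j2 + n := ⟨_, rfl⟩
  have hbR : (1 : ℝ) ≤ b := by exact_mod_cast hb
  refine ⟨1 / (2 * b * 2 ^ j3), by positivity, k0, fun k j hk => ?_⟩
  have hlk1 : (1 : ℝ) ≤ l k := by exact_mod_cast hl.one k
  have hlL1 : (1 : ℝ) ≤ l (k + j) := by exact_mod_cast hl.one (k + j)
  have hmono : (l k : ℝ) ≤ l (k + j) := by exact_mod_cast hl.mono (Nat.le_add_right k j)
  rcases Nat.lt_or_ge j j3 with hj | hj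
  · have h2 : (2 : ℝ) ^ j ≤ 2 ^ j3 := pow_le_pow_right₀ (by norm_num) hj.le
    calc 1 / (2 * b * 2 ^ j3) * (2 : ℝ) ^ j * l k ≤ 1 / (2 * b * 2 ^ j3) * (2 : ℝ) ^ j3 * l k := by gcongr
      _ = 1 / (2 * b) * l k := by
          field_simp
      _ ≤ 1 * l k := by
          apply mul_le_mul_of_nonneg_right _ (by linarith)
          rw [div_le_one (by positivity)]
          linarith
      _ ≤ _ := by
          rw [one_mul]
          exact hmono
  · obtain ⟨H, hH⟩ : ∃ H, H = 2 ^ (j - j2) := ⟨_, rfl⟩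
    have hH1 : 1 ≤ H := by rw [hH]; exact Nat.one_le_two_pow
    obtain ⟨lam, hlam⟩ : ∃ lam : ℝ, lam = (l k : ℝ) + 1 := ⟨_, rfl⟩
    have hlam0 : 0 < lam := by rw [hlam]; linarith
    have hAS : AS lam (d * Ub (k + j1)) := by
      have := hj1 (k + j1) (by omega)
      rw [Nat.add_sub_cancel] at this
      rw [hlam]
      exact this
    have ht := htall (k + j1) lam (by omega) hlam0 hAS H hH1
    have hU := Ub_pos (k + j)
    have hU' := Ub_pos (k + j - a)
    -- few letters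
    have hfew : ∑ h ∈ range (2 ^ (k + j) + 1), gf {Z | Z ∈ Brd h ∧ b * (Z.length : ℝ) ≤ H * lam} ≤
        ENNReal.ofReal (2 * η * Ub (k + j)) := by
      have h3 : ∀ h ∈ range (2 ^ (k + j) + 1), gf {Z | Z ∈ Brd h ∧ b * (Z.length : ℝ) ≤ H * lam} ≤
          (if h ≤ 2 ^ (k + j - a) then BT h else 0) +
            gf {Z | Z ∈ Brd h ∧ 2 ^ (k + j - a) < h ∧ b * (Z.length : ℝ) ≤ H * lam} := by
        intro h _
        by_cases hh : h ≤ 2 ^ (k + j - a)
        · rw [if_pos hh, ← gf_Brd]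
          exact (gf_mono fun Z hZ => hZ.1).trans le_self_add
        · rw [if_neg hh, zero_add]
          exact gf_mono fun Z hZ => ⟨hZ.1, by omega, hZ.2⟩
      refine (Finset.sum_le_sum h3).trans ?_
      rw [Finset.sum_add_distrib]
      have h4 : ∑ h ∈ range (2 ^ (k + j) + 1), (if h ≤ 2 ^ (k + j - a) then BT h else 0) ≤ ENNReal.ofReal (η * Ub (k + j)) := by
        refine le_trans ?_ (ENNReal.ofReal_le_ofReal (ha (k + j) (by omega)))
        unfold Ub
        rw [T2.Amp.ofReal_UU, ← Finset.sum_filter]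
        apply Finset.sum_le_sum_of_subset
        intro h hh
        rw [Finset.mem_filter] at hh
        exact Finset.mem_range.2 (by omega)
      have h5 : ∑ h ∈ range (2 ^ (k + j) + 1), gf {Z | Z ∈ Brd h ∧ 2 ^ (k + j - a) < h ∧ b * (Z.length : ℝ) ≤ H * lam} ≤
          ENNReal.ofReal (η * Ub (k + j)) := by
        have h6 : ∑ h ∈ range (2 ^ (k + j) + 1), gf {Z | Z ∈ Brd h ∧ 2 ^ (k + j - a) < h ∧ b * (Z.length : ℝ) ≤ H * lam} ≤
            gf (TT (k + j1 + s) H b lam) := by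
          refine sum_brd_le (P := fun h Z => 2 ^ (k + j - a) < h ∧ b * (Z.length : ℝ) ≤ H * lam) ?_
          rintro h Z hZ ⟨h7, h8⟩
          refine ⟨h, ?_, hZ, h8⟩
          have h9 : 2 * H * 2 ^ (k + j1 + s) = 2 ^ (k + j - a) := by
            rw [hH, ← pow_succ', ← pow_add]
            congr 1
            omega
          omega
        refine h6.trans (ht.trans (ENNReal.ofReal_le_ofReal ?_))
        have h70 := Ub_pos (k + j1)
        have h7 : Ub (k + j1) ≤ Ub (k + j) := UU_mono (Nat.pow_le_pow_right (by norm_num) (by omega))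
        have h8 : (1 : ℝ) / 2 ^ H ≤ η := by
          have h9 : (1 : ℝ) / 2 ^ H = (1 / 2) ^ H := by
            rw [one_div, one_div, inv_pow]
          rw [h9]
          refine le_trans ?_ hn.le
          apply pow_le_pow_of_le_one (by norm_num) (by norm_num)
          rw [hH]
          have : j - j2 < 2 ^ (j - j2) := Nat.lt_two_pow_self
          omega
        calc Ub (k + j1) / 2 ^ H = 1 / 2 ^ H * Ub (k + j1) := by ring
          _ ≤ η * Ub (k + j) := by gcongr
      refine (add_le_add h4 h5).trans (le_of_eq ?_)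
      rw [← ENNReal.ofReal_add (by positivity) (by positivity)]
      congr 1
      ring
    -- many letters
    by_contra hcon
    push Not at hcon
    have hkey : (l (k + j) : ℝ) + 1 ≤ H * lam / b := by
      have h3 : (H : ℝ) * l k ≤ H * lam := by
        rw [hlam]
        have : (0 : ℝ) ≤ H := by positivity
        nlinarith
      have h4 : (2 : ℝ) ^ j = 2 ^ j2 * H := by
        rw [hH]
        push_cast
        rw [← pow_add]
        congr 1
        omega
      have h5 : 1 / (2 * b * 2 ^ j3) * (2 : ℝ) ^ j * l k ≤ H * l k / (2 * b) := by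
        rw [h4, hj3, pow_add]
        have h6 : (1 : ℝ) ≤ 2 ^ n := one_le_pow₀ (by norm_num)
        have h7 : 1 / (2 * (b : ℝ) * (2 ^ j2 * 2 ^ n)) * (2 ^ j2 * H) * l k = (H * l k / (2 * b)) / 2 ^ n := by
          field_simp
        rw [h7]
        exact div_le_self (by positivity) h6
      have h6 : (l (k + j) : ℝ) + 1 ≤ 2 * l (k + j) := by linarith
      have h7 : (H : ℝ) * l k / (2 * b) * 2 = H * l k / b := by
        field_simp
      calc (l (k + j) : ℝ) + 1 ≤ 2 * l (k + j) := h6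
        _ ≤ H * l k / (2 * b) * 2 := by linarith
        _ = H * l k / b := h7
        _ ≤ H * lam / b := by gcongr
    have htail := hl.tail (k + j)
    have htot := TL_TS (2 ^ (k + j)) (H * lam / b)
    have hTL : TL (2 ^ (k + j)) (H * lam / b) ≤ ENNReal.ofReal (θ * Ub (k + j)) := by
      refine le_trans ?_ htail
      unfold TL
      exact Finset.sum_le_sum fun h _ => gf_mono fun Z hZ => ⟨hZ.1, hkey.trans hZ.2⟩
    have hTS : TS' (2 ^ (k + j)) (H * lam / b) ≤ ENNReal.ofReal (2 * η * Ub (k + j)) := by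
      refine le_trans ?_ hfew
      unfold TS'
      refine Finset.sum_le_sum fun h _ => gf_mono fun Z hZ => ⟨hZ.1, ?_⟩
      have h3 := hZ.2
      rw [lt_div_iff₀ (by positivity)] at h3
      linarith
    have h3 := htot.trans (add_le_add hTL hTS)
    rw [← ENNReal.ofReal_add (by positivity) (by positivity)] at h3
    have h4 : UU (2 ^ (k + j)) ≤ θ * Ub (k + j) + 2 * η * Ub (k + j) := by
      rwa [ENNReal.ofReal_le_ofReal_iff (by positivity)] at h3
    have h5 : UU (2 ^ (k + j)) = Ub (k + j) := rfl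
    rw [h5, hη] at h4
    nlinarith

end NTm

end HexObs
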