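import Pool.Agent.NT.SeqDefs

/-!
NT (natural time), module DenseG: the good scales (weak running minima of `log₂ l(k) - C k`) have a proportion of at
least `1 - ε` in every large window `[x, (1 + δ) x]`. Text: doc proof/NAT_TIME, section 6.
-/

set_option autoImplicit false

namespace HexObs

namespace NTm

open Finset TS SDN SDN.CN

open scoped ENNReal Classical

/-- the number of the weak running minima of a sequence whose steps are at least `-C` -/
lemma run_min (g : ℕ → ℝ) (C : ℝ) (hC : 0 ≤ C) (hstep : ∀ L, g L - C ≤ g (L + 1)) :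
    ∃ m : ℕ → ℝ, (∀ L, ∀ x, x ≤ L → m L ≤ g x) ∧ (∀ L, ∃ x, x ≤ L ∧ m L = g x) ∧ ∀ a b, a ≤ b →
      m a - m b ≤ C * (((Finset.Ioc a b).filter (fun L => ∀ j, j ≤ L → g L ≤ g (L - j))).card : ℝ) := by
  obtain ⟨m, hm0, hm1⟩ : ∃ m : ℕ → ℝ, m 0 = g 0 ∧ ∀ L, m (L + 1) = min (m L) (g (L + 1)) :=
    ⟨fun L => Nat.rec (g 0) (fun L r => min r (g (L + 1))) L, rfl, fun L => rfl⟩
  have hA : ∀ L, ∀ x, x ≤ L → m L ≤ g x := by
    intro L
    induction L with
    | zero =>
      intro x hx
      have : x = 0 := by omega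
      rw [this, hm0]
    | succ L ih =>
      intro x hx
      rw [hm1]
      rcases Nat.lt_or_ge L x with h | h
      · have : x = L + 1 := by omega
        rw [this]
        exact min_le_right _ _
      · exact (min_le_left _ _).trans (ih x h)
  refine ⟨m, hA, ?_, ?_⟩
  · intro L
    induction L with
    | zero => exact ⟨0, le_rfl, hm0⟩
    | succ L ih =>
      obtain ⟨x, hx, hx'⟩ := ih
      rw [hm1]
      rcases le_total (m L) (g (L + 1)) with h | h
      · exact ⟨x, by omega, by rw [min_eq_left h, hx']⟩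
      · exact ⟨L + 1, le_rfl, by rw [min_eq_right h]⟩
  · intro a b hab
    induction b, hab using Nat.le_induction with
    | base => simp
    | succ b hab ih =>
      have e1 : Finset.Ioc a (b + 1) = insert (b + 1) (Finset.Ioc a b) := by
        ext x
        simp only [Finset.mem_Ioc, Finset.mem_insert]
        omega
      rw [e1, Finset.filter_insert]
      split_ifs with hg
      · rw [Finset.card_insert_of_notMem (by
          intro h
          have := (Finset.mem_Ioc.1 (Finset.mem_filter.1 h).1).2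
          omega)]
        push_cast
        have h1 : m b - C ≤ m (b + 1) := by
          rw [hm1]
          refine le_min (by linarith) ?_
          have := hA b b le_rfl
          linarith [hstep b]
        linarith
      · have h1 : m (b + 1) = m b := by
          rw [hm1]
          refine min_eq_left ?_
          by_contra hcon
          push Not at hcon
          refine hg fun j hj => ?_
          rcases Nat.eq_zero_or_pos j with h | h
          · rw [h, Nat.sub_zero]
          · exact hcon.le.trans (hA b _ (by omega))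
        rw [h1]
        exact ih

theorem good_dense {θ : ℝ} {l : ℕ → ℕ} (hl : Seq θ l) {ε : ℝ} (hε : 0 < ε) : ∃ G : Set ℕ, Good l G ∧ Dense ε G := by
  obtain ⟨C, hC⟩ : ∃ C : ℕ, max 2 (8 / (3 * ε)) ≤ (C : ℝ) := exists_nat_ge _
  have hC2 : (2 : ℝ) ≤ C := (le_max_left _ _).trans hC
  have hCε : 8 / (3 * ε) ≤ (C : ℝ) := (le_max_right _ _).trans hC
  have hC0 : (0 : ℝ) < C := by linarith
  have hCe : 4 / 3 / (C : ℝ) ≤ ε / 2 := by
    rw [div_le_iff₀ (by positivity)] at hCε
    rw [div_le_iff₀ hC0]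
    linarith
  have hl1 : ∀ k, (1 : ℝ) ≤ l k := fun k => by exact_mod_cast hl.one k
  have hl0 : ∀ k, (0 : ℝ) < l k := fun k => lt_of_lt_of_le one_pos (hl1 k)
  obtain ⟨g, hg⟩ : ∃ g : ℕ → ℝ, ∀ L, g L = Real.logb 2 (l L) - C * L := ⟨_, fun _ => rfl⟩
  have hstep : ∀ L, g L - C ≤ g (L + 1) := by
    intro L
    rw [hg, hg]
    have h1 : Real.logb 2 (l L) ≤ Real.logb 2 (l (L + 1)) :=
      Real.logb_le_logb_of_le (by norm_num) (hl0 L) (by exact_mod_cast hl.mono (Nat.le_succ L))
    push_cast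
    linarith
  obtain ⟨m, hm1, hm2, hm3⟩ := run_min g C hC0.le hstep
  obtain ⟨G, hG⟩ : ∃ G : Set ℕ, ∀ L, L ∈ G ↔ ∀ j, j ≤ L → g L ≤ g (L - j) := ⟨{L | _}, fun L => Iff.rfl⟩
  refine ⟨G, ⟨fun j => ((2 : ℝ) ^ (C * j))⁻¹, fun j => by positivity, ?_⟩, ?_⟩
  · intro L hL j hj
    have h1 := (hG L).1 hL j hj
    rw [hg, hg, Nat.cast_sub hj] at h1
    have h2 : Real.logb 2 (l L) ≤ Real.logb 2 ((2 : ℝ) ^ (C * j) * l (L - j)) := by
      rw [Real.logb_mul (by positivity) (hl0 _).ne', Real.logb_pow, Real.logb_self_eq_one (by norm_num)]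
      push_cast
      linarith
    have h3 : (l L : ℝ) ≤ (2 : ℝ) ^ (C * j) * l (L - j) :=
      (Real.logb_le_logb (by norm_num) (hl0 L) (mul_pos (by positivity) (hl0 _))).1 h2
    rw [inv_mul_le_iff₀ (by positivity)]
    exact h3
  · intro δ hδ
    obtain ⟨e, he⟩ : ∃ e : ℝ, e = min (1 / 3) (ε * δ * C / (4 * (2 + δ))) := ⟨_, rfl⟩
    have he0 : 0 < e := by rw [he]; exact lt_min (by norm_num) (by positivity)
    have he1 : e ≤ 1 / 3 := by rw [he]; exact min_le_left _ _
    have he2 : e * (2 + δ) ≤ C * (ε * δ / 4) := by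
      have : e ≤ ε * δ * C / (4 * (2 + δ)) := by rw [he]; exact min_le_right _ _
      rw [le_div_iff₀ (by positivity)] at this
      linarith
    obtain ⟨K, hK, hup⟩ := hl.up e he0
    obtain ⟨k0, hlow⟩ := hl.low e he0
    have hup' : ∀ k, Real.logb 2 (l k) ≤ Real.logb 2 K + (4 / 3 + e) * k := by
      intro k
      have h1 := Real.logb_le_logb_of_le (b := 2) (by norm_num) (hl0 k) (hup k)
      rwa [Real.logb_mul hK.ne' (by positivity), Real.logb_rpow (by norm_num) (by norm_num)] at h1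
    have hlow' : ∀ k : ℕ, (4 / 3 - e) * k - 4 / 3 * k0 ≤ Real.logb 2 (l k) := by
      intro k
      rcases le_or_gt k0 k with h | h
      · have h1 := Real.logb_le_logb_of_le (b := 2) (by norm_num) (by positivity) (hlow k h)
        rw [Real.logb_rpow (by norm_num) (by norm_num)] at h1
        have h2 : (0 : ℝ) ≤ 4 / 3 * k0 := by positivity
        linarith
      · have h1 : 0 ≤ Real.logb 2 (l k) := Real.logb_nonneg (by norm_num) (hl1 k)
        have h2 : (k : ℝ) ≤ k0 := by exact_mod_cast h.le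
        have h3 : 0 ≤ e * (k : ℝ) := by positivity
        linarith
    obtain ⟨B, hB⟩ : ∃ B : ℝ, B = C + 4 / 3 * k0 + Real.logb 2 K := ⟨_, rfl⟩
    obtain ⟨x0, hx0⟩ : ∃ x0 : ℕ, 4 * B / (C * ε * δ) ≤ x0 := exists_nat_ge _
    refine ⟨x0, fun x hx => ?_⟩
    obtain ⟨b, hb⟩ : ∃ b : ℕ, b = ⌊(1 + δ) * (x : ℝ)⌋₊ := ⟨_, rfl⟩
    have hxR : (0 : ℝ) ≤ x := Nat.cast_nonneg _
    have hb1 : (b : ℝ) ≤ (1 + δ) * x := by rw [hb]; exact Nat.floor_le (by positivity)
    have hb2 : (1 + δ) * (x : ℝ) < b + 1 := by rw [hb]; exact Nat.lt_floor_add_one _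
    have hxb : x ≤ b := by
      rw [hb]
      refine Nat.le_floor ?_
      nlinarith
    rw [← hb]
    have h1 := hm3 x b hxb
    have h2 : (((Finset.Ioc x b).filter (fun L => ∀ j, j ≤ L → g L ≤ g (L - j))).card : ℝ) ≤
        (((Finset.Icc x b).filter (fun k => k ∈ G)).card : ℝ) := by
      refine Nat.cast_le.2 (Finset.card_le_card fun k hk => ?_)
      have h3 := Finset.mem_filter.1 hk
      exact Finset.mem_filter.2 ⟨Finset.Ioc_subset_Icc_self h3.1, (hG k).2 h3.2⟩
    refine le_trans ?_ h2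
    -- the lower bound for the drop
    have h3 : m b ≤ Real.logb 2 K + (4 / 3 + e) * b - C * b := by
      refine (hm1 b b le_rfl).trans ?_
      rw [hg]
      linarith [hup' b]
    have h4 : (4 / 3 - e) * x - 4 / 3 * k0 - C * x ≤ m x := by
      obtain ⟨y, hy1, hy2⟩ := hm2 x
      rw [hy2, hg]
      have h5 := hlow' y
      have h6 : (y : ℝ) ≤ x := by exact_mod_cast hy1
      have h7 : (C - (4 / 3 - e)) * (y : ℝ) ≤ (C - (4 / 3 - e)) * x :=
        mul_le_mul_of_nonneg_left h6 (by linarith)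
      linarith
    have h5 : (C - 4 / 3) * ((b : ℝ) - x) - e * (x + b) - (4 / 3 * k0 + Real.logb 2 K) ≤ m x - m b := by
      have : (C - 4 / 3) * ((b : ℝ) - x) - e * (x + b) - (4 / 3 * k0 + Real.logb 2 K) =
        ((4 / 3 - e) * x - 4 / 3 * k0 - C * x) - (Real.logb 2 K + (4 / 3 + e) * b - C * b) := by ring
      rw [this]
      linarith
    have h6 : (C - 4 / 3) * (δ * x - 1) ≤ (C - 4 / 3) * ((b : ℝ) - x) :=
      mul_le_mul_of_nonneg_left (by linarith) (by linarith)
    have h7 : e * (x + b) ≤ C * (ε * δ / 4) * x := by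
      calc e * (x + b) ≤ e * ((2 + δ) * x) := mul_le_mul_of_nonneg_left (by linarith) he0.le
        _ = e * (2 + δ) * x := by ring
        _ ≤ C * (ε * δ / 4) * x := mul_le_mul_of_nonneg_right he2 hxR
    have h8 : B ≤ C * (ε * δ / 4) * x := by
      have h9 : 4 * B / (C * ε * δ) ≤ (x : ℝ) := hx0.trans (by exact_mod_cast hx)
      rw [div_le_iff₀ (by positivity)] at h9
      linarith
    have h10 : 4 / 3 * (δ * x) ≤ C * (ε / 2) * (δ * x) := by
      refine mul_le_mul_of_nonneg_right ?_ (by positivity)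
      rw [div_le_iff₀ hC0] at hCe
      linarith
    refine le_of_mul_le_mul_left (le_trans ?_ (h5.trans h1)) hC0
    nlinarith

end NTm

end HexObs
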