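import Pool.Agent.NT.SeqDefsH
import Pool.Agent.NT.DenseG

/-!
NT (natural time), module DenseH: the good scales with the exponent `c > 4 / 3` have a proportion of at least
`1 - (4 / 3) / c - e` in every large window `[x, (1 + δ) x]`. Text: doc proof/NAT_TIME, section 6.
-/

set_option autoImplicit false

namespace HexObs

namespace NTm

open Finset TS SDN SDN.CN

open scoped ENNReal Classical

theorem dense_GC {θ : ℝ} {l : ℕ → ℕ} (hl : Seq θ l) {c e : ℝ} (hc : 4 / 3 < c) (he : 0 < e) :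
    Dense (4 / 3 / c + e) (GC c l) := by
  have hc0 : (0 : ℝ) < c := by linarith
  have hl1 : ∀ k, (1 : ℝ) ≤ l k := fun k => by exact_mod_cast hl.one k
  have hl0 : ∀ k, (0 : ℝ) < l k := fun k => lt_of_lt_of_le one_pos (hl1 k)
  obtain ⟨g, hg⟩ : ∃ g : ℕ → ℝ, ∀ L, g L = Real.logb 2 (l L) - c * L := ⟨_, fun _ => rfl⟩
  have hstep : ∀ L, g L - c ≤ g (L + 1) := by
    intro L
    rw [hg, hg]
    have h1 : Real.logb 2 (l L) ≤ Real.logb 2 (l (L + 1)) :=
      Real.logb_le_logb_of_le (by norm_num) (hl0 L) (by exact_mod_cast hl.mono (Nat.le_succ L))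
    push_cast
    linarith
  have hGC : ∀ L, (∀ j, j ≤ L → g L ≤ g (L - j)) → L ∈ GC c l := by
    intro L hL j hj
    have h1 := hL j hj
    rw [hg, hg, Nat.cast_sub hj] at h1
    have h2 : Real.logb 2 (l L) ≤ Real.logb 2 ((2 : ℝ) ^ (c * (j : ℝ)) * l (L - j)) := by
      rw [Real.logb_mul (by positivity) (hl0 _).ne', Real.logb_rpow (by norm_num) (by norm_num)]
      linarith
    exact (Real.logb_le_logb (by norm_num) (hl0 L) (mul_pos (by positivity) (hl0 _))).1 h2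
  obtain ⟨m, hm1, hm2, hm3⟩ := run_min g c hc0.le hstep
  intro δ hδ
  obtain ⟨r, hr⟩ : ∃ r : ℝ, r = min (1 / 3) (c * e * δ / (2 * (2 + δ))) := ⟨_, rfl⟩
  have hr0 : 0 < r := by rw [hr]; exact lt_min (by norm_num) (by positivity)
  have hr1 : r ≤ 1 / 3 := by rw [hr]; exact min_le_left _ _
  have hr2 : r * (2 + δ) ≤ c * e * δ / 2 := by
    have : r ≤ c * e * δ / (2 * (2 + δ)) := by rw [hr]; exact min_le_right _ _
    rw [le_div_iff₀ (by positivity)] at this
    linarith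
  obtain ⟨K, hK, hup⟩ := hl.up r hr0
  obtain ⟨k0, hlow⟩ := hl.low r hr0
  have hup' : ∀ k, Real.logb 2 (l k) ≤ Real.logb 2 K + (4 / 3 + r) * k := by
    intro k
    have h1 := Real.logb_le_logb_of_le (b := 2) (by norm_num) (hl0 k) (hup k)
    rwa [Real.logb_mul hK.ne' (by positivity), Real.logb_rpow (by norm_num) (by norm_num)] at h1
  have hlow' : ∀ k : ℕ, (4 / 3 - r) * k - 4 / 3 * k0 ≤ Real.logb 2 (l k) := by
    intro k
    rcases le_or_gt k0 k with h | h
    · have h1 := Real.logb_le_logb_of_le (b := 2) (by norm_num) (by positivity) (hlow k h)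
      rw [Real.logb_rpow (by norm_num) (by norm_num)] at h1
      have h2 : (0 : ℝ) ≤ 4 / 3 * k0 := by positivity
      linarith
    · have h1 : 0 ≤ Real.logb 2 (l k) := Real.logb_nonneg (by norm_num) (hl1 k)
      have h2 : (k : ℝ) ≤ k0 := by exact_mod_cast h.le
      have h3 : 0 ≤ r * (k : ℝ) := by positivity
      linarith
  obtain ⟨B, hB⟩ : ∃ B : ℝ, B = c + 4 / 3 * k0 + Real.logb 2 K := ⟨_, rfl⟩
  obtain ⟨x0, hx0⟩ : ∃ x0 : ℕ, 2 * B / (c * e * δ) ≤ x0 := exists_nat_ge _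
  refine ⟨x0, fun x hx => ?_⟩
  obtain ⟨b, hb⟩ : ∃ b : ℕ, b = ⌊(1 + δ) * (x : ℝ)⌋₊ := ⟨_, rfl⟩
  have hxR : (0 : ℝ) ≤ x := Nat.cast_nonneg _
  have hb1 : (b : ℝ) ≤ (1 + δ) * x := by rw [hb]; exact Nat.floor_le (by positivity)
  have hb2 : (1 + δ) * (x : ℝ) < b + 1 := by rw [hb]; exact Nat.lt_floor_add_one _
  have hxb : x ≤ b := by
    rw [hb]
    refine Nat.le_floor ?_
    nlinarith
  rw [← hb]
  have h1 := hm3 x b hxb
  have h2 : (((Finset.Ioc x b).filter (fun L => ∀ j, j ≤ L → g L ≤ g (L - j))).card : ℝ) ≤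
      (((Finset.Icc x b).filter (fun k => k ∈ GC c l)).card : ℝ) := by
    refine Nat.cast_le.2 (Finset.card_le_card fun k hk => ?_)
    have h3 := Finset.mem_filter.1 hk
    exact Finset.mem_filter.2 ⟨Finset.Ioc_subset_Icc_self h3.1, hGC k h3.2⟩
  refine le_trans ?_ h2
  -- the lower bound for the drop
  have h3 : m b ≤ Real.logb 2 K + (4 / 3 + r) * b - c * b := by
    refine (hm1 b b le_rfl).trans ?_
    rw [hg]
    linarith [hup' b]
  have h4 : (4 / 3 - r) * x - 4 / 3 * k0 - c * x ≤ m x := by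
    obtain ⟨y, hy1, hy2⟩ := hm2 x
    rw [hy2, hg]
    have h5 := hlow' y
    have h6 : (y : ℝ) ≤ x := by exact_mod_cast hy1
    have h7 : (c - (4 / 3 - r)) * (y : ℝ) ≤ (c - (4 / 3 - r)) * x :=
      mul_le_mul_of_nonneg_left h6 (by linarith)
    linarith
  have h5 : (c - 4 / 3) * ((b : ℝ) - x) - r * (x + b) - (4 / 3 * k0 + Real.logb 2 K) ≤ m x - m b := by
    have : (c - 4 / 3) * ((b : ℝ) - x) - r * (x + b) - (4 / 3 * k0 + Real.logb 2 K) =
      ((4 / 3 - r) * x - 4 / 3 * k0 - c * x) - (Real.logb 2 K + (4 / 3 + r) * b - c * b) := by ring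
    rw [this]
    linarith
  have h6 : (c - 4 / 3) * (δ * x - 1) ≤ (c - 4 / 3) * ((b : ℝ) - x) :=
    mul_le_mul_of_nonneg_left (by linarith) (by linarith)
  have h7 : r * (x + b) ≤ c * e * δ / 2 * x := by
    calc r * (x + b) ≤ r * ((2 + δ) * x) := mul_le_mul_of_nonneg_left (by linarith) hr0.le
      _ = r * (2 + δ) * x := by ring
      _ ≤ c * e * δ / 2 * x := mul_le_mul_of_nonneg_right hr2 hxR
  have h8 : B ≤ c * e * δ / 2 * x := by
    have h9 : 2 * B / (c * e * δ) ≤ (x : ℝ) := hx0.trans (by exact_mod_cast hx)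
    rw [div_le_iff₀ (by positivity)] at h9
    linarith
  refine le_of_mul_le_mul_left (le_trans ?_ (h5.trans h1)) hc0
  have e1 : c * ((1 - (4 / 3 / c + e)) * (δ * x)) = (c - 4 / 3) * (δ * x) - c * e * δ * x := by
    field_simp
    ring
  rw [e1]
  linarith

end NTm

end HexObs
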