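import Pool.Agent.NT.Far

/-!
NT (natural time), module 6b: no macroscopic displacement in a short time at the good scales.
-/

set_option autoImplicit false

namespace HexObs

namespace NTm

open Finset TS SDN SDN.CN

open scoped ENNReal

theorem facts_modu {θ : ℝ} {l : ℕ → ℕ} {G : Set ℕ} (hl : Seq θ l) (hG : Good l G) (r ε : ℝ) (hr : 0 < r) (hε : 0 < ε) :
    ∃ (ρ : ℝ) (L0 : ℕ), 0 < ρ ∧ ∀ L ∈ G, L0 ≤ L →
    gf {t | t ∈ BU ∧ (t.length : ℝ) < (l L : ℝ) + 1 ∧ ∃ (dir : Bool) (i j : ℕ), i ≤ j ∧ j ≤ t.length ∧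
      (j : ℝ) - i ≤ ρ * l L ∧ r * 2 ^ L ≤ |((lvl dir (vx oo up t j) - lvl dir (vx oo up t i) : ℤ) : ℝ)|} ≤
      ENNReal.ofReal (ε * Ub L) := by
  obtain ⟨K, k0, hK, hfar⟩ := far_seq hl
  obtain ⟨c, hc, hgood⟩ := hG
  -- the box
  obtain ⟨i0, hi0⟩ : ∃ i0 : ℕ, K / 2 ^ (20 * i0) ≤ ε / 2 := by
    obtain ⟨n, hn⟩ := exists_pow_lt_of_lt_one (show 0 < ε / (2 * K) by positivity) (show (1 / 2 : ℝ) < 1 by norm_num)
    refine ⟨n, ?_⟩
    have h1 : (1 / 2 : ℝ) ^ (20 * n) ≤ (1 / 2) ^ n := pow_le_pow_of_le_one (by norm_num) (by norm_num) (by omega)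
    calc K / 2 ^ (20 * n) = K * (1 / 2) ^ (20 * n) := by
          rw [one_div, inv_pow]
          rfl
      _ ≤ K * (ε / (2 * K)) := by
          have := h1.trans hn.le
          gcongr
      _ = ε / 2 := by
          field_simp
  -- the scale of the displacement
  obtain ⟨a, ha⟩ : ∃ a : ℕ, 824 / 2 ^ a ≤ r := by
    obtain ⟨n, hn⟩ := exists_pow_lt_of_lt_one (show 0 < r / 824 by positivity) (show (1 / 2 : ℝ) < 1 by norm_num)
    refine ⟨n, ?_⟩
    calc (824 : ℝ) / 2 ^ n = 824 * (1 / 2) ^ n := by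
          rw [one_div, inv_pow]
          rfl
      _ ≤ 824 * (r / 824) := by
          have := hn.le
          gcongr
      _ = r := by
          field_simp
  obtain ⟨a', ha'⟩ : ∃ a', a' = a + 6 := ⟨_, rfl⟩
  have har : 824 / 2 ^ a' ≤ r := by
    refine le_trans ?_ ha
    rw [ha']
    apply div_le_div_of_nonneg_left (by norm_num) (by positivity)
    exact pow_le_pow_right₀ (by norm_num) (by omega)
  obtain ⟨d, k1, hd, hdisp⟩ := disp (a' + i0) (by omega) (show 0 < ε / (2 * 2 ^ i0) by positivity)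
  obtain ⟨j1, hj1⟩ := seq_small hl hd
  refine ⟨c (a' + j1), k0 + k1 + a' + j1, hc _, fun L hLG hL => ?_⟩
  obtain ⟨kc, hkc⟩ : ∃ kc, kc = L - a' := ⟨_, rfl⟩
  have hAS := hj1 kc (by omega)
  have h1 := hdisp kc _ (by omega) hAS
  have h2 := hfar L i0 (by omega)
  have hU := Ub_pos L
  have hsub : {t | t ∈ BU ∧ (t.length : ℝ) < (l L : ℝ) + 1 ∧ ∃ (dir : Bool) (i j : ℕ), i ≤ j ∧ j ≤ t.length ∧
      (j : ℝ) - i ≤ c (a' + j1) * l L ∧ r * 2 ^ L ≤ |((lvl dir (vx oo up t j) - lvl dir (vx oo up t i) : ℤ) : ℝ)|} ⊆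
      DT kc (a' + i0) ((l (kc - j1) : ℝ) + 1) ∪ {t | t ∈ BU ∧ (t.length : ℝ) < (l L : ℝ) + 1 ∧ t ∉ BL (L + i0)} := by
    rintro t ⟨ht, hlt, dir, i, j, hij, hj, hlen, hdis⟩
    by_cases hb : t ∈ BL (L + i0)
    · left
      refine ⟨?_, dir, i, j, hij, hj, ?_, ?_⟩
      · rw [show kc + (a' + i0) = L + i0 by omega]
        exact hb
      · have h3 := hgood L hLG (a' + j1) (by omega)
        rw [show L - (a' + j1) = kc - j1 by omega] at h3
        linarith
      · have h4 : (824 : ℝ) * 2 ^ kc ≤ r * 2 ^ L := by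
          have h5 : (2 : ℝ) ^ L = 2 ^ a' * 2 ^ kc := by
            rw [← pow_add]
            congr 1
            omega
          rw [h5]
          have h6 : (824 : ℝ) ≤ r * 2 ^ a' := by
            rw [div_le_iff₀ (by positivity)] at har
            exact har
          calc (824 : ℝ) * 2 ^ kc ≤ (r * 2 ^ a') * 2 ^ kc := by gcongr
            _ = _ := by ring
        have h7 := h4.trans hdis
        have h8 : ((824 * (2 : ℤ) ^ kc : ℤ) : ℝ) ≤ ((|lvl dir (vx oo up t j) - lvl dir (vx oo up t i)| : ℤ) : ℝ) := by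
          push_cast
          push_cast at h7
          exact h7
        exact_mod_cast h8
    · right
      exact ⟨ht, hlt, hb⟩
  refine (gf_mono hsub).trans ((gf_union_le _ _).trans ((add_le_add h1 h2).trans ?_))
  have hUL := Ub_pos (kc + (a' + i0))
  rw [← ENNReal.ofReal_add (by positivity) (by positivity)]
  apply ENNReal.ofReal_le_ofReal
  have e1 : Ub (kc + (a' + i0)) ≤ 2 ^ i0 * Ub L := by
    rw [show kc + (a' + i0) = L + i0 by omega]
    exact UU_ratio_up L i0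
  have e2 : ε / (2 * 2 ^ i0) * Ub (kc + (a' + i0)) ≤ ε / 2 * Ub L := by
    calc ε / (2 * 2 ^ i0) * Ub (kc + (a' + i0)) ≤ ε / (2 * 2 ^ i0) * (2 ^ i0 * Ub L) := by gcongr
      _ = ε / 2 * Ub L := by
          field_simp
  have e3 : K / 2 ^ (20 * i0) * Ub L ≤ ε / 2 * Ub L := by gcongr
  linarith

end NTm

end HexObs
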