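import Pool.Agent.NT.FactA
import Pool.Agent.NT.FactB
import Pool.Agent.NT.FactHA
import Pool.Agent.NT.DenseH

/-!
NT (natural time): assembly of the output of the part with the critical weights.
-/

set_option autoImplicit false

namespace HexObs

namespace NTm

open Finset TS SDN SDN.CN

open scoped ENNReal Classical

lemma Dense_mono {ε ε' : ℝ} {G : Set ℕ} (h : ε ≤ ε') (hG : Dense ε G) : Dense ε' G := by
  intro δ hδ
  obtain ⟨x0, hx0⟩ := hG δ hδ
  refine ⟨x0, fun x hx => le_trans ?_ (hx0 x hx)⟩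
  have h1 : 0 ≤ δ * (x : ℝ) := by positivity
  nlinarith

theorem facts_of {θ : ℝ} {l : ℕ → ℕ} {G : Set ℕ} (hl : Seq θ l) (hG : Good l G) : Facts l G where
  modu := facts_modu hl hG
  few := facts_few hl hG
  hgt := facts_hgt
  tail := facts_tail hl

/-- the choice of the exponent -/
lemma exists_c {a ε : ℝ} (ha : 0 < a) (ha1 : a < 3 / 4) (hε : 0 < ε) : ∃ c : ℝ, 4 / 3 < c ∧ a * c < 1 ∧
    4 / 3 / c + ε / 2 ≤ 4 / 3 * a + ε := by
  obtain ⟨b, hb⟩ : ∃ b : ℝ, b = min (a + 3 * ε / 8) ((a + 3 / 4) / 2) := ⟨_, rfl⟩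
  have hb1 : a < b := by
    rw [hb]
    apply lt_min
    · linarith
    · linarith
  have hb2 : b < 3 / 4 := by
    rw [hb]
    refine lt_of_le_of_lt (min_le_right _ _) ?_
    linarith
  have hb3 : b ≤ a + 3 * ε / 8 := by
    rw [hb]
    exact min_le_left _ _
  have hb0 : 0 < b := by linarith
  refine ⟨1 / b, ?_, ?_, ?_⟩
  · rw [lt_div_iff₀ hb0]
    linarith
  · rw [mul_one_div, div_lt_one hb0]
    exact hb1
  · rw [div_div_eq_mul_div, div_one]
    linarith

end NTm

end HexObs
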