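import Pool.Agent.NT.SeqDefsH
import Pool.Agent.NT.DenseG

/-!
NT (natural time), module DenseS: the density of the good scales for a sequence that grows at least by a constant times
`2 ^ j` in `j` scales. Text: doc proof/NAT_TIME, section 6.
-/

set_option autoImplicit false

namespace HexObs

namespace NTm

open Finset TS SDN SDN.CN

open scoped ENNReal Classical

/-- the good scales with the exponent c and the constant K -/
def GCK (K c : ℝ) (l : ℕ → ℕ) : Set ℕ := {L | ∀ j : ℕ, j ≤ L → (l L : ℝ) ≤ K * (2 : ℝ) ^ (c * j) * l (L - j)}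

/-- density of the weak running minima of `f L - c L` if f has the slope `4 / 3` and steps at least s -/
lemma dense_abs {f : ℕ → ℝ} {s c e : ℝ} (hs : s < c) (hc : 4 / 3 < c) (hstep : ∀ L, f L + s ≤ f (L + 1))
    (hup : ∀ r : ℝ, 0 < r → ∃ B : ℝ, ∀ L : ℕ, f L ≤ (4 / 3 + r) * L + B)
    (hlow : ∀ r : ℝ, 0 < r → r ≤ 1 / 3 → ∃ B : ℝ, ∀ L : ℕ, (4 / 3 - r) * L - B ≤ f L) (he : 0 < e) {δ : ℝ}
    (hδ : 0 < δ) : ∃ x0 : ℕ, ∀ x : ℕ, x0 ≤ x →
      ((c - 4 / 3) / (c - s) - e) * (δ * x) ≤ (((Finset.Ioc x ⌊(1 + δ) * (x : ℝ)⌋₊).filter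
        (fun L => ∀ j, j ≤ L → f L - c * L ≤ f (L - j) - c * ((L - j : ℕ) : ℝ))).card : ℝ) := by
  have hcs : 0 < c - s := by linarith
  obtain ⟨g, hg⟩ : ∃ g : ℕ → ℝ, ∀ L, g L = f L - c * L := ⟨_, fun _ => rfl⟩
  have hstep' : ∀ L, g L - (c - s) ≤ g (L + 1) := by
    intro L
    rw [hg, hg]
    have h1 := hstep L
    push_cast
    linarith
  obtain ⟨m, hm1, hm2, hm3⟩ := run_min g (c - s) hcs.le hstep'
  obtain ⟨r, hr⟩ : ∃ r : ℝ, r = min (1 / 3) ((c - s) * e * δ / (2 * (2 + δ))) := ⟨_, rfl⟩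
  have hr0 : 0 < r := by rw [hr]; exact lt_min (by norm_num) (by positivity)
  have hr1 : r ≤ 1 / 3 := by rw [hr]; exact min_le_left _ _
  have hr2 : r * (2 + δ) ≤ (c - s) * e * δ / 2 := by
    have : r ≤ (c - s) * e * δ / (2 * (2 + δ)) := by rw [hr]; exact min_le_right _ _
    rw [le_div_iff₀ (by positivity)] at this
    linarith
  obtain ⟨B1, hB1⟩ := hup r hr0
  obtain ⟨B2, hB2⟩ := hlow r hr0 hr1
  obtain ⟨x0, hx0⟩ : ∃ x0 : ℕ, 2 * (c + B1 + B2) / ((c - s) * e * δ) ≤ x0 := exists_nat_ge _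
  refine ⟨x0, fun x hx => ?_⟩
  obtain ⟨b, hb⟩ : ∃ b : ℕ, b = ⌊(1 + δ) * (x : ℝ)⌋₊ := ⟨_, rfl⟩
  have hxR : (0 : ℝ) ≤ x := Nat.cast_nonneg _
  have hb1 : (b : ℝ) ≤ (1 + δ) * x := by rw [hb]; exact Nat.floor_le (by positivity)
  have hb2 : (1 + δ) * (x : ℝ) < b + 1 := by rw [hb]; exact Nat.lt_floor_add_one _
  have hxb : x ≤ b := by
    rw [hb]
    refine Nat.le_floor ?_
    nlinarith
  rw [← hb]
  have h1 := hm3 x b hxb
  have h2 : (((Finset.Ioc x b).filter (fun L => ∀ j, j ≤ L → g L ≤ g (L - j))).card : ℝ) ≤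
      (((Finset.Ioc x b).filter (fun L => ∀ j, j ≤ L → f L - c * L ≤ f (L - j) - c * ((L - j : ℕ) : ℝ))).card : ℝ) := by
    refine Nat.cast_le.2 (Finset.card_le_card fun k hk => ?_)
    have h3 := Finset.mem_filter.1 hk
    refine Finset.mem_filter.2 ⟨h3.1, fun j hj => ?_⟩
    have h4 := h3.2 j hj
    rw [hg, hg] at h4
    exact h4
  refine le_trans ?_ h2
  have h3 : m b ≤ (4 / 3 + r) * b + B1 - c * b := by
    refine (hm1 b b le_rfl).trans ?_
    rw [hg]
    linarith [hB1 b]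
  have h4 : (4 / 3 - r) * x - B2 - c * x ≤ m x := by
    obtain ⟨y, hy1, hy2⟩ := hm2 x
    rw [hy2, hg]
    have h5 := hB2 y
    have h6 : (y : ℝ) ≤ x := by exact_mod_cast hy1
    have h7 : (c - (4 / 3 - r)) * (y : ℝ) ≤ (c - (4 / 3 - r)) * x :=
      mul_le_mul_of_nonneg_left h6 (by linarith)
    linarith
  have h5 : (c - 4 / 3) * ((b : ℝ) - x) - r * (x + b) - (B1 + B2) ≤ m x - m b := by
    have : (c - 4 / 3) * ((b : ℝ) - x) - r * (x + b) - (B1 + B2) =
      ((4 / 3 - r) * x - B2 - c * x) - ((4 / 3 + r) * b + B1 - c * b) := by ring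
    rw [this]
    linarith
  have h6 : (c - 4 / 3) * (δ * x - 1) ≤ (c - 4 / 3) * ((b : ℝ) - x) :=
    mul_le_mul_of_nonneg_left (by linarith) (by linarith)
  have h7 : r * (x + b) ≤ (c - s) * e * δ / 2 * x := by
    calc r * (x + b) ≤ r * ((2 + δ) * x) := mul_le_mul_of_nonneg_left (by linarith) hr0.le
      _ = r * (2 + δ) * x := by ring
      _ ≤ (c - s) * e * δ / 2 * x := mul_le_mul_of_nonneg_right hr2 hxR
  have h8 : c + B1 + B2 ≤ (c - s) * e * δ / 2 * x := by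
    have h9 : 2 * (c + B1 + B2) / ((c - s) * e * δ) ≤ (x : ℝ) := hx0.trans (by exact_mod_cast hx)
    rw [div_le_iff₀ (by positivity)] at h9
    linarith
  refine le_of_mul_le_mul_left (le_trans ?_ (h5.trans h1)) hcs
  have e1 : (c - s) * (((c - 4 / 3) / (c - s) - e) * (δ * x)) = (c - 4 / 3) * (δ * x) - (c - s) * e * δ * x := by
    field_simp
  rw [e1]
  linarith

theorem dense_GCK {θ : ℝ} {l : ℕ → ℕ} (hl : Seq θ l)
    (hgrow : ∃ b : ℝ, 0 < b ∧ ∃ k0 : ℕ, ∀ k j : ℕ, k0 ≤ k → b * (2 : ℝ) ^ j * l k ≤ l (k + j)) {c e : ℝ}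
    (hc : 4 / 3 < c) (he : 0 < e) : ∃ K : ℝ, 1 ≤ K ∧ Dense (1 - (c - 4 / 3) / (c - 1) + e) (GCK K c l) := by
  obtain ⟨b, hb, k0, hgrow⟩ := hgrow
  have hc0 : (0 : ℝ) < c := by linarith
  have hl1 : ∀ k, (1 : ℝ) ≤ l k := fun k => by exact_mod_cast hl.one k
  have hl0 : ∀ k, (0 : ℝ) < l k := fun k => lt_of_lt_of_le one_pos (hl1 k)
  have hlog0 : ∀ k, 0 ≤ Real.logb 2 (l k) := fun k => Real.logb_nonneg (by norm_num) (hl1 k)
  obtain ⟨K0, hK0⟩ : ∃ K0 : ℝ, K0 = |Real.logb 2 b| := ⟨_, rfl⟩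
  have hK00 : 0 ≤ K0 := by rw [hK0]; exact abs_nonneg _
  -- h k = log₂ l(max k k0) - max k k0
  obtain ⟨h, hh⟩ : ∃ h : ℕ → ℝ, ∀ k, h k = Real.logb 2 (l (max k k0)) - ((max k k0 : ℕ) : ℝ) := ⟨_, fun _ => rfl⟩
  have hmono : ∀ k L, k ≤ L → h k - K0 ≤ h L := by
    intro k L hkL
    obtain ⟨j, hj⟩ : ∃ j, max L k0 = max k k0 + j := ⟨max L k0 - max k k0, by omega⟩
    rw [hh, hh, hj]
    have h1 := hgrow (max k k0) j (le_max_right _ _)
    have h2 := Real.logb_le_logb_of_le (b := 2) (by norm_num) (mul_pos (mul_pos hb (by positivity)) (hl0 _)) h1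
    rw [Real.logb_mul (by positivity) (hl0 _).ne', Real.logb_mul hb.ne' (by positivity), Real.logb_pow,
      Real.logb_self_eq_one (by norm_num)] at h2
    have h3 : -K0 ≤ Real.logb 2 b := by rw [hK0]; exact neg_abs_le _
    push_cast
    linarith
  -- the running maximum
  obtain ⟨hb', hb0, hb1⟩ : ∃ H : ℕ → ℝ, H 0 = h 0 ∧ ∀ L, H (L + 1) = max (H L) (h (L + 1)) :=
    ⟨fun L => Nat.rec (h 0) (fun L r => max r (h (L + 1))) L, rfl, fun L => rfl⟩
  have m1 : ∀ L, h L ≤ hb' L := by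
    intro L
    rcases L with _ | L
    · rw [hb0]
    · rw [hb1]
      exact le_max_right _ _
  have m2 : ∀ L, ∃ k, k ≤ L ∧ hb' L = h k := by
    intro L
    induction L with
    | zero => exact ⟨0, le_rfl, hb0⟩
    | succ L ih =>
      obtain ⟨k, hk, hk'⟩ := ih
      rw [hb1]
      rcases le_total (hb' L) (h (L + 1)) with h1 | h1
      · exact ⟨L + 1, le_rfl, by rw [max_eq_right h1]⟩
      · exact ⟨k, by omega, by rw [max_eq_left h1, hk']⟩
  have m3 : ∀ L, hb' L ≤ h L + K0 := by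
    intro L
    obtain ⟨k, hk, hk'⟩ := m2 L
    rw [hk']
    linarith [hmono k L hk]
  have m4 : ∀ L, hb' L ≤ hb' (L + 1) := fun L => by rw [hb1]; exact le_max_left _ _
  obtain ⟨f, hf⟩ : ∃ f : ℕ → ℝ, ∀ L, f L = L + hb' L := ⟨_, fun _ => rfl⟩
  have hstep : ∀ L, f L + 1 ≤ f (L + 1) := by
    intro L
    rw [hf, hf]
    push_cast
    linarith [m4 L]
  -- f against log₂ l
  have f1 : ∀ L, f L ≤ Real.logb 2 (l L) + (K0 + Real.logb 2 (l k0)) := by
    intro L
    rw [hf]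
    have h1 := m3 L
    rw [hh] at h1
    rcases le_or_gt k0 L with h2 | h2
    · rw [max_eq_left h2] at h1
      linarith [hlog0 k0]
    · rw [max_eq_right h2.le] at h1
      have h3 : (L : ℝ) ≤ k0 := by exact_mod_cast h2.le
      linarith [hlog0 L]
  have f2 : ∀ L, k0 ≤ L → Real.logb 2 (l L) ≤ f L := by
    intro L hL
    rw [hf]
    have h1 := m1 L
    rw [hh, max_eq_left hL] at h1
    linarith
  have f3 : ∀ L : ℕ, (L : ℝ) - k0 ≤ f L := by
    intro L
    rw [hf]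
    rcases le_or_gt k0 L with h2 | h2
    · have h1 := m1 k0
      have h3 : hb' k0 ≤ hb' L := by
        obtain ⟨j, rfl⟩ := Nat.exists_eq_add_of_le h2
        clear h2
        induction j with
        | zero => exact le_rfl
        | succ j ih => exact ih.trans (m4 _)
      rw [hh, max_self] at h1
      linarith [hlog0 k0]
    · have h1 := m1 L
      rw [hh, max_eq_right h2.le] at h1
      linarith [hlog0 k0]
  obtain ⟨K, hK⟩ : ∃ K : ℝ, K = (2 : ℝ) ^ (K0 + Real.logb 2 (l k0)) := ⟨_, rfl⟩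
  have hK1 : 1 ≤ K := by
    rw [hK]
    exact Real.one_le_rpow (by norm_num) (by linarith [hlog0 k0])
  have hKl : (l k0 : ℝ) ≤ K := by
    rw [hK, Real.rpow_add (by norm_num), Real.rpow_logb (by norm_num) (by norm_num) (hl0 k0)]
    have : (1 : ℝ) ≤ (2 : ℝ) ^ K0 := Real.one_le_rpow (by norm_num) hK00
    nlinarith [hl0 k0]
  refine ⟨K, hK1, ?_⟩
  have hgood : ∀ L, (∀ j, j ≤ L → f L - c * L ≤ f (L - j) - c * ((L - j : ℕ) : ℝ)) → L ∈ GCK K c l := by
    intro L hL j hj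
    rcases lt_or_ge L k0 with h2 | h2
    · have h3 : (l L : ℝ) ≤ l k0 := by exact_mod_cast hl.mono h2.le
      have h4 : (1 : ℝ) ≤ (2 : ℝ) ^ (c * (j : ℝ)) := Real.one_le_rpow (by norm_num) (by positivity)
      calc (l L : ℝ) ≤ K := h3.trans hKl
        _ ≤ K * (2 : ℝ) ^ (c * (j : ℝ)) := le_mul_of_one_le_right (by linarith) h4
        _ ≤ K * (2 : ℝ) ^ (c * (j : ℝ)) * l (L - j) := le_mul_of_one_le_right (by positivity) (hl1 _)
    · have h3 := hL j hj
      rw [Nat.cast_sub hj] at h3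
      have h4 : Real.logb 2 (l L) ≤ Real.logb 2 (K * (2 : ℝ) ^ (c * (j : ℝ)) * l (L - j)) := by
        rw [Real.logb_mul (by positivity) (hl0 _).ne', Real.logb_mul (by positivity) (by positivity),
          Real.logb_rpow (by norm_num) (by norm_num), hK, Real.logb_rpow (by norm_num) (by norm_num)]
        linarith [f1 (L - j), f2 L h2]
      refine (Real.logb_le_logb (by norm_num) (hl0 L) (mul_pos (by positivity) (hl0 _))).1 h4
  intro δ hδ
  obtain ⟨x0, hx0⟩ := dense_abs (f := f) (s := 1) (c := c) (e := e) (by linarith) hc hstep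
    (by
      intro r hr
      obtain ⟨C, hC, hup⟩ := hl.up r hr
      refine ⟨Real.logb 2 C + (K0 + Real.logb 2 (l k0)), fun L => ?_⟩
      have h1 := Real.logb_le_logb_of_le (b := 2) (by norm_num) (hl0 L) (hup L)
      rw [Real.logb_mul hC.ne' (by positivity), Real.logb_rpow (by norm_num) (by norm_num)] at h1
      linarith [f1 L])
    (by
      intro r hr hr1
      obtain ⟨k1, hlow⟩ := hl.low r hr
      refine ⟨4 / 3 * k1 + 4 / 3 * k0, fun L => ?_⟩
      have hLR : (0 : ℝ) ≤ L := Nat.cast_nonneg _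
      have hk1 : (0 : ℝ) ≤ k1 := Nat.cast_nonneg _
      have hk0 : (0 : ℝ) ≤ k0 := Nat.cast_nonneg _
      have h5 : 0 ≤ r * (L : ℝ) := by positivity
      rcases le_or_gt (max k0 k1) L with h2 | h2
      · have h1 := Real.logb_le_logb_of_le (b := 2) (by norm_num) (by positivity) (hlow L ((le_max_right _ _).trans h2))
        rw [Real.logb_rpow (by norm_num) (by norm_num)] at h1
        linarith [f2 L ((le_max_left _ _).trans h2)]
      · have h3 := f3 L
        have h4 : (L : ℝ) ≤ max (k0 : ℝ) k1 := by exact_mod_cast h2.le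
        have h6 : max (k0 : ℝ) k1 ≤ k0 + k1 := max_le (by linarith) (by linarith)
        linarith) he hδ
  refine ⟨x0, fun x hx => ?_⟩
  refine le_trans (le_of_eq ?_) ((hx0 x hx).trans ?_)
  · ring
  · refine Nat.cast_le.2 (Finset.card_le_card fun k hk => ?_)
    have h3 := Finset.mem_filter.1 hk
    exact Finset.mem_filter.2 ⟨Finset.Ioc_subset_Icc_self h3.1, hgood k h3.2⟩

end NTm

end HexObs
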