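import Pool.Agent.NT.MassD

/-!
NT (natural time): the parts of the final statements that concern the scales.
-/

set_option autoImplicit false

namespace NTF

open Finset

open HexObs hiding pos

open HexObs.SDN HexObs.NTm

open Pool.Agent.NT.ResNat

open scoped ENNReal Classical

lemma gf_Brd_ne_top (h : ℕ) : gf {t | t ∈ Brd h} ≠ ⊤ := by
  have e : gf {t | t ∈ Brd h} = gf (Brd h) := rfl
  rw [e, NO_gf]
  exact ENNReal.ofReal_ne_top

lemma mass_univ_ne_top (k : ℕ) : mass k Set.univ ≠ ⊤ := by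
  have h1 : mass k Set.univ ≤ mass k {n | n ∉ (∅ : Set ℕ)} := mass_mono fun n _ (h : n ∈ (∅ : Set ℕ)) => h
  have h2 := mass_compl_le k ∅
  refine ne_top_of_le_ne_top ?_ (h1.trans h2)
  rw [ENNReal.sum_ne_top]
  intro h _
  exact ne_top_of_le_ne_top (gf_Brd_ne_top h) (gf_mono fun t ht => ht.1)

lemma bridges_zero : bridges 0 = Finset.univ := by
  ext s
  simp only [Finset.mem_univ, iff_true]
  rw [mem_bridges]
  refine ⟨?_, fun k h1 h2 => by omega⟩
  intro j k hj hk _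
  omega

lemma mass_univ_ne_zero (k : ℕ) : mass k Set.univ ≠ 0 := by
  have h1 : (1 : ℝ≥0∞) ≤ mass k Set.univ := by
    unfold mass
    refine le_trans ?_ (ENNReal.le_tsum 0)
    rw [if_pos ⟨⟨0, rfl⟩, Set.mem_univ _⟩, pow_zero, ENNReal.ofReal_one, mul_one, bridges_zero]
    have h2 : ((Finset.univ : Finset (Fin 0 → Fin 3)).filter fun s => (Pool.Agent.NT.ResNat.pos s 0).re ≤ 3 / 2 * 2 ^ k) =
        Finset.univ := by
      apply Finset.filter_true_of_mem
      intro s _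
      rw [pos_zero, Complex.zero_re]
      positivity
    rw [h2]
    simp
  intro h
  rw [h] at h1
  exact absurd h1 (by simp)

/-- lengths exist at the good scales -/
lemma core_nonempty {ε : ℝ} {G : Set ℕ} {A : ℕ → Set ℕ} (hC : Core ε G A) (hε1 : ε < 1) {k : ℕ} (hk : k ∈ G) : ∃ n, n ∈ A k := by
  by_contra hcon
  push Not at hcon
  have h1 := mass_typ hC hk (B := ∅) (fun n hn => absurd hn (hcon n))
  have h2 : mass k Set.univ ≤ mass k {n | n ∉ (∅ : Set ℕ)} := mass_mono fun n _ (h : n ∈ (∅ : Set ℕ)) => h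
  have h3 := h2.trans h1
  have h4 := mass_univ_ne_zero k
  have h5 := mass_univ_ne_top k
  have h6 : ENNReal.ofReal ε * mass k Set.univ < 1 * mass k Set.univ := by
    rw [ENNReal.mul_lt_mul_iff_left h4 h5]
    rw [← ENNReal.ofReal_one]
    exact (ENNReal.ofReal_lt_ofReal_iff one_pos).2 hε1
  rw [one_mul] at h6
  exact absurd h3 (not_le.2 h6)

/-- a good scale in a large window -/
lemma dense_exists {e : ℝ} {G : Set ℕ} (hD : Dense e G) (he : e < 1) {δ : ℝ} (hδ : 0 < δ) : ∃ x0 : ℕ, ∀ x : ℕ, x0 ≤ x →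
    ∃ k ∈ G, x ≤ k ∧ (k : ℝ) ≤ (1 + δ) * x := by
  obtain ⟨x0, hx0⟩ := hD δ hδ
  refine ⟨max x0 1, fun x hx => ?_⟩
  have h1 := hx0 x (le_of_max_le_left hx)
  have hx1 : (1 : ℝ) ≤ x := by exact_mod_cast le_of_max_le_right hx
  have h2 : 0 < (1 - e) * (δ * x) := by
    have : 0 < 1 - e := by linarith
    positivity
  have h3 : 0 < ((Finset.Icc x ⌊(1 + δ) * (x : ℝ)⌋₊).filter (fun k => k ∈ G)).card := by
    have := lt_of_lt_of_le h2 h1
    exact_mod_cast this
  obtain ⟨k, hk⟩ := Finset.card_pos.1 h3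
  rw [Finset.mem_filter, Finset.mem_Icc] at hk
  exact ⟨k, hk.2, hk.1.1, (Nat.le_floor_iff (by positivity)).1 hk.1.2⟩

/-- **the lengths are dense in the logarithmic scale** -/
theorem lengths_dense {e ε : ℝ} {G : Set ℕ} {A : ℕ → Set ℕ} (hD : Dense e G) (he : e < 1) (hC : Core ε G A) (hε1 : ε < 1)
    (k2 : ℕ) : ∀ δ : ℝ, 0 < δ → ∃ x₀ : ℝ, ∀ x : ℝ, x₀ ≤ x → ∃ n ∈ AU G A k2, x ≤ n ∧ (n : ℝ) ≤ x ^ (1 + δ) := by
  intro δ hδ
  obtain ⟨d, hd⟩ : ∃ d : ℝ, d = min δ 1 := ⟨_, rfl⟩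
  have hd0 : 0 < d := by
    rw [hd]
    positivity
  have hd1 : d ≤ 1 := by
    rw [hd]
    exact min_le_right _ _
  have hdδ : d ≤ δ := by
    rw [hd]
    exact min_le_left _ _
  obtain ⟨k0, hk0⟩ := hC.exps (d / 12) (by positivity)
  obtain ⟨y0, hy0⟩ := dense_exists hD he (δ := d / 4) (by positivity)
  refine ⟨2 ^ (4 / d + 4 * (y0 + k0 + k2)), fun x hx => ?_⟩
  have h2 : (1 : ℝ) < 2 := by norm_num
  have hx1 : (1 : ℝ) ≤ x := le_trans (Real.one_le_rpow (by norm_num) (by positivity)) hx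
  obtain ⟨L, hL⟩ : ∃ L : ℝ, L = Real.logb 2 x := ⟨_, rfl⟩
  have hxL : (2 : ℝ) ^ L = x := by
    rw [hL]
    exact Real.rpow_logb (by norm_num) (by norm_num) (by linarith)
  have hLx : 4 / d + 4 * (y0 + k0 + k2) ≤ L := by
    rw [← hxL] at hx
    exact (Real.rpow_le_rpow_left_iff h2).1 hx
  have hL1 : 4 / d ≤ L := by
    have : (0 : ℝ) ≤ 4 * (y0 + k0 + k2) := by positivity
    linarith
  have hL0 : 0 < L := lt_of_lt_of_le (by positivity) hL1
  have hLd : 4 ≤ d * L := by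
    rw [div_le_iff₀ hd0] at hL1
    linarith
  have hLy : 4 * ((y0 : ℝ) + k0 + k2) ≤ L := by
    have : 0 < 4 / d := by positivity
    linarith
  obtain ⟨y, hy⟩ : ∃ y : ℕ, y = ⌈L / (4 / 3 - d / 12)⌉₊ := ⟨_, rfl⟩
  have hden : 0 < 4 / 3 - d / 12 := by linarith
  have hy1 : L / (4 / 3 - d / 12) ≤ y := by
    rw [hy]
    exact Nat.le_ceil _
  have hy2 : (y : ℝ) ≤ L / (4 / 3 - d / 12) + 1 := by
    rw [hy]
    exact (Nat.ceil_lt_add_one (by positivity)).le
  have hy3 : L ≤ (4 / 3 - d / 12) * y := by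
    rw [div_le_iff₀ hden] at hy1
    linarith
  have hy4 : (y0 : ℝ) + k0 + k2 ≤ y := by
    have : (y : ℝ) * (4 / 3 - d / 12) ≤ y * (4 / 3) := by
      apply mul_le_mul_of_nonneg_left _ (Nat.cast_nonneg y)
      linarith
    linarith
  have hy5 : y0 + k0 + k2 ≤ y := by exact_mod_cast hy4
  obtain ⟨k, hk, hyk, hky⟩ := hy0 y (by omega)
  obtain ⟨n, hn⟩ := core_nonempty hC hε1 hk
  obtain ⟨h3, h4⟩ := hk0 k hk (by omega) n hn
  refine ⟨n, ⟨k, hk, by omega, hn⟩, ?_, ?_⟩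
  · rw [← hxL]
    refine (Real.rpow_le_rpow_of_exponent_le h2.le ?_).trans h3
    refine hy3.trans (mul_le_mul_of_nonneg_left ?_ hden.le)
    exact_mod_cast hyk
  · refine h4.trans ?_
    rw [← hxL, ← Real.rpow_mul (by norm_num)]
    apply Real.rpow_le_rpow_of_exponent_le h2.le
    have h5 : (4 / 3 + d / 12) * (k : ℝ) ≤ (4 / 3 + d / 12) * ((1 + d / 4) * (L / (4 / 3 - d / 12) + 1)) := by
      apply mul_le_mul_of_nonneg_left _ (by positivity)
      exact hky.trans (mul_le_mul_of_nonneg_left hy2 (by positivity))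
    have h6 : L * (1 + d) ≤ L * (1 + δ) := mul_le_mul_of_nonneg_left (by linarith) hL0.le
    have h7 : (4 / 3 + d / 12) * ((1 + d / 4) * (L / (4 / 3 - d / 12))) ≤ L * (1 + d / 2) := by
      have e1 : (4 / 3 + d / 12) * ((1 + d / 4) * (L / (4 / 3 - d / 12))) =
        (4 / 3 + d / 12) * (1 + d / 4) / (4 / 3 - d / 12) * L := by
        field_simp
      rw [e1, mul_comm L]
      apply mul_le_mul_of_nonneg_right _ hL0.le
      rw [div_le_iff₀ hden]
      nlinarith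
    have h8 : (4 / 3 + d / 12) * (1 + d / 4) ≤ 2 := by nlinarith
    nlinarith

end NTF
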