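import Pool.Agent.NT.SeqDefs

/-!
NT (natural time): the definitions of the interface between the modules, Hoelder form.
-/

set_option autoImplicit false

namespace HexObs

namespace NTm

open Finset TS SDN SDN.CN

open scoped ENNReal Classical

/-- the good scales with the exponent c -/
def GC (c : ℝ) (l : ℕ → ℕ) : Set ℕ := {L | ∀ j : ℕ, j ≤ L → (l L : ℝ) ≤ (2 : ℝ) ^ (c * j) * l (L - j)}

lemma good_GC (c : ℝ) (l : ℕ → ℕ) : Good l (GC c l) := by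
  refine ⟨fun j => (2 : ℝ) ^ (-(c * (j : ℝ))), fun j => by positivity, fun L hL j hj => ?_⟩
  have h := hL j hj
  calc (2 : ℝ) ^ (-(c * (j : ℝ))) * (l L : ℝ) ≤ (2 : ℝ) ^ (-(c * (j : ℝ))) * ((2 : ℝ) ^ (c * (j : ℝ)) * l (L - j)) := by gcongr
    _ = l (L - j) := by
        rw [← mul_assoc, ← Real.rpow_add (by norm_num), neg_add_cancel, Real.rpow_zero, one_mul]

/-- the Hoelder modulus of the bridges with at most l L letters at the scales of G (critical weights) -/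
def FactH (a : ℝ) (l : ℕ → ℕ) (G : Set ℕ) : Prop := ∀ e : ℝ, 0 < e → ∃ (M : ℝ) (L0 : ℕ), 0 < M ∧ ∀ L ∈ G, L0 ≤ L →
  gf {t | t ∈ BU ∧ (t.length : ℝ) < (l L : ℝ) + 1 ∧ ∃ (dir : Bool) (i j : ℕ), i < j ∧ j ≤ t.length ∧
    M * 2 ^ L * (((j : ℝ) - i) / l L) ^ a ≤ |((lvl dir (vx oo up t j) - lvl dir (vx oo up t i) : ℤ) : ℝ)|} ≤
    ENNReal.ofReal (e * Ub L)

/-- the Hoelder modulus of the uniform n-step bridges, n in A k, k in G -/
def HCore (a : ℝ) (G : Set ℕ) (A : ℕ → Set ℕ) : Prop := ∀ e : ℝ, 0 < e → ∃ (M : ℝ) (k0 : ℕ), 0 < M ∧ ∀ k ∈ G, k0 ≤ k →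
  ∀ n ∈ A k, gf {t | t ∈ BW n ∧ ∃ (dir : Bool) (i j : ℕ), i < j ∧ j ≤ n ∧
    M * 2 ^ k * (((j : ℝ) - i) / n) ^ a ≤ |((lvl dir (vx oo up t j) - lvl dir (vx oo up t i) : ℤ) : ℝ)|} ≤
    ENNReal.ofReal e * gf (BW n)

/-- the output of the part with the critical weights, Hoelder form -/
def OutH : Prop := ∀ a ε : ℝ, 0 < a → a < 3 / 4 → 0 < ε → ε < 1 → ∃ (G : Set ℕ) (A : ℕ → Set ℕ),
  Dense (4 / 3 * a + ε) G ∧ Core ε G A ∧ HCore a G A

end NTm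

end HexObs
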