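import Pool.Agent.NT.FactsG
import Pool.Agent.NT.LimN

/-!
NT (natural time): Hoelder continuity of every order less than 3 / 4, for the laws and in the limit.
-/

set_option autoImplicit false

namespace NTF

open Finset MeasureTheory Filter Topology

open Pool.Agent.NT.ResNat

open scoped ENNReal Classical

/-- Hoelder continuity, real form -/
def Hd (M a : ℝ) (f : C(unitInterval, ℂ)) : Prop := ∀ u v : unitInterval, dist (f u) (f v) ≤ M * dist u v ^ a

lemma Hd.mono {M M' a : ℝ} {f : C(unitInterval, ℂ)} (h : Hd M a f) (hM : M ≤ M') : Hd M' a f := fun u v =>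
  (h u v).trans (mul_le_mul_of_nonneg_right hM (by positivity))

lemma dist_le_one (u v : unitInterval) : dist u v ≤ 1 := by
  rw [Subtype.dist_eq, Real.dist_eq, abs_le]
  have h1 := u.2.1
  have h2 := u.2.2
  have h3 := v.2.1
  have h4 := v.2.2
  constructor <;> linarith

lemma Hd_iff {M a : NNReal} {f : C(unitInterval, ℂ)} : HolderWith M a f ↔ Hd M a f := by
  constructor
  · intro h u v
    exact h.dist_le u v
  · intro h u v
    rw [edist_dist, edist_dist, ENNReal.ofReal_rpow_of_nonneg dist_nonneg (NNReal.coe_nonneg a)]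
    calc ENNReal.ofReal (dist (f u) (f v)) ≤ ENNReal.ofReal (M * dist u v ^ (a : ℝ)) := ENNReal.ofReal_le_ofReal (h u v)
      _ = M * ENNReal.ofReal (dist u v ^ (a : ℝ)) := by
          rw [ENNReal.ofReal_mul (NNReal.coe_nonneg M), ENNReal.ofReal_coe_nnreal]

lemma holder_anti {M a b : NNReal} (hab : b ≤ a) {f : C(unitInterval, ℂ)} (h : HolderWith M a f) : HolderWith M b f := by
  rw [Hd_iff] at h ⊢
  intro u v
  refine (h u v).trans (mul_le_mul_of_nonneg_left ?_ M.2)
  have hab' : (b : ℝ) ≤ a := hab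
  rcases (dist_nonneg (x := u) (y := v)).lt_or_eq with h1 | h1
  · exact Real.rpow_le_rpow_of_exponent_ge h1 (dist_le_one u v) hab'
  · rw [← h1]
    rcases eq_or_ne (a : ℝ) 0 with ha | ha
    · have hb : (b : ℝ) = 0 := le_antisymm (hab'.trans ha.le) b.2
      rw [ha, hb]
    · rw [Real.zero_rpow ha]
      positivity

/-- the polygonal curve through Hoelder points -/
lemma curve_hold {n : ℕ} (hn : 1 ≤ n) {s : Fin n → Fin 3} {M a : ℝ} (hM : 0 ≤ M) (ha : 0 < a) (ha1 : a ≤ 1)
    (h : ∀ i j : ℕ, i < j → j ≤ n → ‖pos s j - pos s i‖ ≤ M * size n * (((j : ℝ) - i) / n) ^ a) :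
    Hd (3 * M) a (curve s) := by
  have hn0 : (0 : ℝ) < n := by exact_mod_cast hn
  -- the points
  obtain ⟨z, hz⟩ : ∃ z : ℕ → ℂ, z = fun k => pos s k / size n := ⟨_, rfl⟩
  have hzd : ∀ i j : ℕ, i < j → j ≤ n → ‖z j - z i‖ ≤ M * (((j : ℝ) - i) / n) ^ a := by
    intro i j hij hj
    rw [hz]
    simp only
    rw [← sub_div, norm_div, Complex.norm_of_nonneg (size_nonneg n)]
    have h1 : (0 : ℝ) ≤ (j : ℝ) - i := by
      have : (i : ℝ) ≤ j := by exact_mod_cast hij.le
      linarith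
    refine div_le_of_le_mul₀ (size_nonneg n) (by positivity) ((h i j hij hj).trans (le_of_eq ?_))
    ring
  -- one edge
  have hedge : ∀ i, i < n → ∀ x : ℝ, 0 ≤ x → x ≤ 1 → ‖((x : ℝ) : ℂ) * (z (i + 1) - z i)‖ ≤ M * (x / n) ^ a := by
    intro i hi x hx0 hx1
    rw [norm_mul, Complex.norm_of_nonneg hx0]
    have h1 := hzd i (i + 1) (Nat.lt_succ_self i) hi
    have e : (((i + 1 : ℕ) : ℝ) - i) = 1 := by
      push_cast
      ring
    rw [e] at h1
    have h2 : x ≤ x ^ a := by
      rcases hx0.lt_or_eq with h3 | h3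
      · calc x = x ^ (1 : ℝ) := (Real.rpow_one x).symm
          _ ≤ x ^ a := Real.rpow_le_rpow_of_exponent_ge h3 hx1 ha1
      · rw [← h3, Real.zero_rpow ha.ne']
    calc x * ‖z (i + 1) - z i‖ ≤ x ^ a * (M * (1 / n) ^ a) := mul_le_mul h2 h1 (norm_nonneg _) (by positivity)
      _ = M * (x / n) ^ a := by
          rw [show x / n = x * (1 / n) by ring, Real.mul_rpow hx0 (by positivity)]
          ring
  have key : ∀ u v : unitInterval, (u : ℝ) ≤ v → ‖curve s v - curve s u‖ ≤ 3 * M * ((v : ℝ) - u) ^ a := by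
    intro u v huv
    obtain ⟨i, x, hi, x0, x1, i1, i2, e1⟩ := curve_apply hn s u
    obtain ⟨j, y, hj, y0, y1, j1, j2, e2⟩ := curve_apply hn s v
    obtain ⟨i, hi, i1, i2⟩ := Tight.th2_idx hn u
    obtain ⟨j, hj, j1, j2⟩ := Tight.th2_idx hn v
    have f1 := Tight.poly_apply (z := z) hi i1 i2
    have f2 := Tight.poly_apply (z := z) hj j1 j2
    rw [hz, ← curve_eq, ← hz] at f1 f2
    have huvn : (u : ℝ) * n ≤ v * n := mul_le_mul_of_nonneg_right huv hn0.le
    have hd0 : 0 ≤ (v : ℝ) - u := by linarith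
    rcases lt_trichotomy i j with hij | hij | hij
    · have hij' : ((i + 1 : ℕ) : ℝ) ≤ j := by exact_mod_cast hij
      push_cast at hij'
      -- three pieces
      have g1 : ‖curve s v - z j‖ ≤ M * ((v : ℝ) - u) ^ a := by
        rw [f2, add_sub_cancel_left]
        refine (hedge j hj _ (by linarith) (by linarith)).trans (mul_le_mul_of_nonneg_left ?_ hM)
        refine Real.rpow_le_rpow (div_nonneg (by linarith) hn0.le) ?_ ha.le
        rw [div_le_iff₀ hn0]
        linarith
      have g2 : ‖z (i + 1) - curve s u‖ ≤ M * ((v : ℝ) - u) ^ a := by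
        have e3 : z (i + 1) - curve s u = ((1 - ((u : ℝ) * n - i) : ℝ) : ℂ) * (z (i + 1) - z i) := by
          rw [f1]
          push_cast
          ring
        rw [e3]
        refine (hedge i hi _ (by linarith) (by linarith)).trans (mul_le_mul_of_nonneg_left ?_ hM)
        refine Real.rpow_le_rpow (div_nonneg (by linarith) hn0.le) ?_ ha.le
        rw [div_le_iff₀ hn0]
        linarith
      have g3 : ‖z j - z (i + 1)‖ ≤ M * ((v : ℝ) - u) ^ a := by
        rcases Nat.lt_or_ge (i + 1) j with h5 | h5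
        · refine (hzd (i + 1) j h5 hj.le).trans (mul_le_mul_of_nonneg_left ?_ hM)
          push_cast
          refine Real.rpow_le_rpow (div_nonneg (by linarith) hn0.le) ?_ ha.le
          rw [div_le_iff₀ hn0]
          linarith
        · have : j = i + 1 := by omega
          rw [this, sub_self, norm_zero]
          positivity
      have e4 : curve s v - curve s u = (curve s v - z j) + (z j - z (i + 1)) + (z (i + 1) - curve s u) := by ring
      rw [e4]
      refine (norm_add₃_le).trans ?_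
      linarith
    · have e3 : curve s v - curve s u = (((v : ℝ) * n - u * n : ℝ) : ℂ) * (z (i + 1) - z i) := by
        rw [f1, f2, hij]
        push_cast
        ring
      rw [e3]
      refine (hedge i hi _ (by linarith) (by rw [hij] at i1; linarith)).trans ?_
      have e4 : ((v : ℝ) * n - u * n) / n = v - u := by field_simp
      rw [e4]
      have : 0 ≤ ((v : ℝ) - u) ^ a := by positivity
      nlinarith
    · -- then u n = v n
      have hij' : ((j + 1 : ℕ) : ℝ) ≤ i := by exact_mod_cast hij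
      push_cast at hij'
      have h5 : (u : ℝ) * n = v * n := by linarith
      have h6 : (u : ℝ) = v := mul_right_cancel₀ hn0.ne' h5
      have h7 : u = v := Subtype.ext h6
      rw [h7, sub_self, sub_self, norm_zero, Real.zero_rpow ha.ne', mul_zero]
  intro u v
  rw [Subtype.dist_eq, Real.dist_eq]
  rcases le_total (u : ℝ) v with h1 | h1
  · rw [dist_comm, dist_eq_norm, abs_sub_comm, abs_of_nonneg (by linarith)]
    exact key u v h1
  · rw [dist_eq_norm, abs_of_nonneg (by linarith)]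
    exact key v u h1

/-- every polygonal curve is Hoelder -/
lemma exists_hold {n : ℕ} (hn : 1 ≤ n) (hne : (bridges n).Nonempty) (s : Fin n → Fin 3) {a : ℝ} (ha : 0 < a) (ha1 : a ≤ 1) :
    ∃ M : ℝ, 0 ≤ M ∧ Hd M a (curve s) := by
  have hn0 : (0 : ℝ) < n := by exact_mod_cast hn
  have hs := size_pos_of hn hne
  obtain ⟨B, hB⟩ : ∃ B : ℝ, B = ∑ p ∈ range (n + 1) ×ˢ range (n + 1), ‖pos s p.2 - pos s p.1‖ := ⟨_, rfl⟩
  have hB0 : 0 ≤ B := by
    rw [hB]
    exact sum_nonneg fun _ _ => norm_nonneg _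
  refine ⟨3 * (B * (n : ℝ) ^ a / size n), by positivity, curve_hold hn (by positivity) ha ha1 ?_⟩
  intro i j hij hj
  have h1 : ‖pos s j - pos s i‖ ≤ B := by
    rw [hB]
    exact single_le_sum (f := fun p : ℕ × ℕ => ‖pos s p.2 - pos s p.1‖) (fun _ _ => norm_nonneg _)
      (show (i, j) ∈ range (n + 1) ×ˢ range (n + 1) by
        rw [Finset.mem_product, Finset.mem_range, Finset.mem_range]
        exact ⟨by omega, by omega⟩)
  have h2 : (1 : ℝ) ≤ (j : ℝ) - i := by
    have : ((i + 1 : ℕ) : ℝ) ≤ j := by exact_mod_cast hij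
    push_cast at this
    linarith
  have h3 : (1 / n : ℝ) ^ a ≤ (((j : ℝ) - i) / n) ^ a :=
    Real.rpow_le_rpow (by positivity) (div_le_div_of_nonneg_right h2 hn0.le) ha.le
  have h4 : (n : ℝ) ^ a * (1 / n : ℝ) ^ a = 1 := by
    rw [← Real.mul_rpow hn0.le (by positivity), mul_one_div_cancel hn0.ne', Real.one_rpow]
  calc ‖pos s j - pos s i‖ ≤ B := h1
    _ = B * ((n : ℝ) ^ a * (1 / n : ℝ) ^ a) := by rw [h4, mul_one]
    _ = B * (n : ℝ) ^ a / size n * size n * (1 / n : ℝ) ^ a := by field_simp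
    _ ≤ _ := mul_le_mul_of_nonneg_left h3 (by positivity)

/-- **uniform Hoelder bounds for the laws** -/
theorem law_holder {A : Set ℕ} (hA : Facts A) {a : NNReal} (hH : HoldA a A) (ha : 0 < a) (ha1 : (a : ℝ) ≤ 1) {ε : ℝ}
    (hε : 0 < ε) : ∃ M : NNReal, ∀ n ∈ A, law n {γ : C(unitInterval, ℂ) | ¬ HolderWith M a γ} ≤ ENNReal.ofReal ε := by
  have ha' : (0 : ℝ) < a := ha
  obtain ⟨M, n0, hM, h1⟩ := hH ε hε
  -- the small n
  have h2 : ∀ n : ℕ, ∃ Mn : ℝ, 0 ≤ Mn ∧ (n ∈ A → ∀ s ∈ bridges n, Hd Mn a (curve s)) := by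
    intro n
    by_cases hn : n ∈ A
    · obtain ⟨hn1, hne⟩ := hA.one n hn
      choose f hf0 hf using fun s : Fin n → Fin 3 => exists_hold hn1 hne s ha' ha1
      refine ⟨∑ s ∈ bridges n, f s, sum_nonneg fun s _ => hf0 s, fun _ s hs => (hf s).mono ?_⟩
      exact single_le_sum (f := f) (fun s _ => hf0 s) hs
    · exact ⟨0, le_rfl, fun h => absurd h hn⟩
  choose g hg0 hg using h2
  obtain ⟨B, hB⟩ : ∃ B : ℝ, B = ∑ n ∈ range n0, g n := ⟨_, rfl⟩
  have hB0 : 0 ≤ B := by
    rw [hB]
    exact sum_nonneg fun _ _ => hg0 _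
  refine ⟨(3 * M + B).toNNReal, fun n hn => ?_⟩
  have hc : (((3 * M + B).toNNReal : NNReal) : ℝ) = 3 * M + B := Real.coe_toNNReal _ (by positivity)
  obtain ⟨hn1, hne⟩ := hA.one n hn
  rcases lt_or_ge n n0 with h3 | h3
  · rw [law_zero]
    · exact zero_le
    · intro s hs h4
      apply h4
      rw [Hd_iff, hc]
      refine (hg n hn s hs).mono ?_
      have : g n ≤ B := by
        rw [hB]
        exact single_le_sum (f := g) (fun n _ => hg0 n) (Finset.mem_range.2 h3)
      linarith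
  · refine law_le hne hε.le (le_trans ?_ (h1 n hn h3))
    have hsub : ((bridges n).filter fun s => curve s ∈ {γ : C(unitInterval, ℂ) | ¬ HolderWith (3 * M + B).toNNReal a γ}) ⊆
        (bridges n).filter fun s => ∃ i j : ℕ, i < j ∧ j ≤ n ∧
          M * size n * (((j : ℝ) - i) / n) ^ (a : ℝ) < ‖pos s j - pos s i‖ := by
      intro s hs
      rw [Finset.mem_filter] at hs ⊢
      refine ⟨hs.1, ?_⟩
      by_contra hcon
      push Not at hcon
      apply hs.2
      rw [Hd_iff, hc]
      exact (curve_hold hn1 hM.le ha' ha1 hcon).mono (by linarith)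
    exact_mod_cast Finset.card_le_card hsub

lemma closed_holder (M a : NNReal) : IsClosed {f : C(unitInterval, ℂ) | HolderWith M a f} := by
  have h1 : {f : C(unitInterval, ℂ) | HolderWith M a f} =
      ⋂ x : unitInterval, ⋂ y : unitInterval,
        {f : C(unitInterval, ℂ) | edist (f x) (f y) ≤ (M : ENNReal) * edist x y ^ (a : ℝ)} := by
    ext f
    simp only [Set.mem_iInter, Set.mem_ofPred_eq]
    rfl
  rw [h1]
  refine isClosed_iInter fun x => isClosed_iInter fun y => ?_
  exact isClosed_le ((cont_eval x).edist (cont_eval y)) continuous_const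

/-- **Hoelder continuity of the limits** -/
theorem limit_holder {A : Set ℕ} (hA : Facts A) {a : NNReal} (hH : HoldA a A) (ha : 0 < a) (ha1 : (a : ℝ) ≤ 1) {φ : ℕ → ℕ}
    (hφA : ∀ k, φ k ∈ A) {ν : Measure C(unitInterval, ℂ)} (hν : IsProbabilityMeasure ν) (hlim : LawTo φ ν) :
    ∀ᵐ γ : C(unitInterval, ℂ) ∂ν, ∃ M : NNReal, HolderWith M a γ := by
  have hlim2 := (lawTo_iff hA hφA ⟨ν, hν⟩).1 hlim
  rw [ae_iff]
  refine le_antisymm (ENNReal.le_of_forall_pos_le_add ?_) zero_le
  intro ε hε _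
  obtain ⟨M, hM⟩ := law_holder hA hH ha ha1 (ε := ε) (by exact_mod_cast hε)
  have h1 : ν {f : C(unitInterval, ℂ) | HolderWith M a f}ᶜ ≤ ENNReal.ofReal ε :=
    open_le hlim2 (closed_holder M a).isOpen_compl (Eventually.of_forall fun k => hM (φ k) (hφA k))
  rw [zero_add]
  rw [ENNReal.ofReal_coe_nnreal] at h1
  refine (measure_mono ?_).trans h1
  intro f hf hfM
  exact hf ⟨M, hfM⟩

/-- **Hoelder continuity of the limits**, all orders less than 3 / 4 -/
theorem limit_holder_all {A : Set ℕ} (hA : Facts A) (hH : ∀ a : ℝ, 0 < a → a < 3 / 4 → HoldA a A) {φ : ℕ → ℕ}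
    (hφA : ∀ k, φ k ∈ A) {ν : Measure C(unitInterval, ℂ)} (hν : IsProbabilityMeasure ν) (hlim : LawTo φ ν) :
    ∀ᵐ γ : C(unitInterval, ℂ) ∂ν, ∀ a : NNReal, (a : ℝ) < 3 / 4 → ∃ M : NNReal, HolderWith M a γ := by
  -- a sequence of exponents
  have hseq : ∀ᵐ γ : C(unitInterval, ℂ) ∂ν, ∀ m : ℕ, ∃ M : NNReal, HolderWith M (3 / 4 - 1 / (m + 2 : NNReal)) γ := by
    rw [ae_all_iff]
    intro m
    have h1 : (1 : ℝ) / (m + 2) ≤ 1 / 2 := by
      apply one_div_le_one_div_of_le (by norm_num)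
      have : (0 : ℝ) ≤ m := Nat.cast_nonneg m
      linarith
    have h2 : ((1 / (m + 2 : NNReal) : NNReal) : ℝ) = 1 / (m + 2) := by push_cast; rfl
    have hle : (1 / (m + 2 : NNReal) : NNReal) ≤ 3 / 4 := by
      rw [← NNReal.coe_le_coe, h2]
      push_cast
      linarith
    have h3 : ((3 / 4 - 1 / (m + 2 : NNReal) : NNReal) : ℝ) = 3 / 4 - 1 / (m + 2) := by
      rw [NNReal.coe_sub hle, h2]
      push_cast
      ring
    have h4 : (0 : ℝ) < 1 / (m + 2) := by positivity
    refine limit_holder hA (hH _ ?_ ?_) ?_ ?_ hφA hν hlim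
    · rw [h3]
      linarith
    · rw [h3]
      linarith
    · rw [← NNReal.coe_pos, h3]
      linarith
    · rw [h3]
      linarith
  filter_upwards [hseq] with γ hγ a ha
  obtain ⟨m, hm⟩ := exists_nat_one_div_lt (show (0 : ℝ) < 3 / 4 - a by linarith)
  obtain ⟨M, hM⟩ := hγ m
  refine ⟨M, holder_anti ?_ hM⟩
  have h1 : (1 : ℝ) / (m + 2) ≤ 1 / (m + 1) := by
    apply one_div_le_one_div_of_le (by positivity)
    linarith
  have h2 : ((1 / (m + 2 : NNReal) : NNReal) : ℝ) = 1 / (m + 2) := by push_cast; rfl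
  have ha0 : (0 : ℝ) ≤ (a : ℝ) := NNReal.coe_nonneg a
  rw [le_tsub_iff_right]
  · rw [← NNReal.coe_le_coe, NNReal.coe_add, h2]
    push_cast
    linarith
  · rw [← NNReal.coe_le_coe, h2]
    push_cast
    linarith

end NTF
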