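import Pool.Agent.NT.FactHA
import Pool.Agent.NT.DenseS

/-!
NT (natural time), module 6k: the Hoelder modulus at the good scales with a constant factor.
-/

set_option autoImplicit false

namespace HexObs

namespace NTm

open Finset TS SDN SDN.CN

open scoped ENNReal

lemma good_GCK {K : ℝ} (hK : 1 ≤ K) (c : ℝ) (l : ℕ → ℕ) : Good l (GCK K c l) := by
  refine ⟨fun j => (K * (2 : ℝ) ^ (c * (j : ℝ)))⁻¹, fun j => by positivity, fun L hL j hj => ?_⟩
  have h := hL j hj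
  have h0 : 0 < K * (2 : ℝ) ^ (c * (j : ℝ)) := by positivity
  calc (K * (2 : ℝ) ^ (c * (j : ℝ)))⁻¹ * (l L : ℝ) ≤ (K * (2 : ℝ) ^ (c * (j : ℝ)))⁻¹ *
        (K * (2 : ℝ) ^ (c * (j : ℝ)) * l (L - j)) := by gcongr
    _ = l (L - j) := by
        rw [← mul_assoc, inv_mul_cancel₀ h0.ne', one_mul]

theorem factHK_of (hD : DispQ) (hP : Deep) {θ : ℝ} {l : ℕ → ℕ} (hl : Seq θ l) {a c : ℝ} (K2 : ℝ) (hc : 4 / 3 < c) (ha : 0 < a)
    (hac : a * c < 1) : FactH a l (GCK K2 c l) := by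
  intro e he
  have hc0 : 0 < c := by linarith
  -- the constant K2
  obtain ⟨jK, hjK⟩ : ∃ jK : ℕ, K2 ≤ (2 : ℝ) ^ (c * (jK : ℝ)) := by
    have h1 : 1 < (2 : ℝ) ^ c := Real.one_lt_rpow (by norm_num) hc0
    obtain ⟨j, hj⟩ := pow_unbounded_of_one_lt K2 h1
    refine ⟨j, hj.le.trans (le_of_eq ?_)⟩
    rw [← Real.rpow_natCast, ← Real.rpow_mul (by norm_num)]
  have hs0 : 0 < 1 - 4 / 3 * a := by nlinarith
  have ha1 : a < 1 := by nlinarith
  obtain ⟨K, k0, hK, hfar⟩ := far_seq hl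
  obtain ⟨d, C', hd, hdisp⟩ := hD
  obtain ⟨C, hC⟩ : ∃ C : ℕ, C = C' + 1 := ⟨_, rfl⟩
  have hC1 : 1 ≤ C := by omega
  obtain ⟨j1, hj1⟩ := seq_small hl hd
  have hCR : (1 : ℝ) ≤ C := by exact_mod_cast hC1
  -- the box
  obtain ⟨i0, hi0⟩ : ∃ i0 : ℕ, K / 2 ^ (20 * i0) ≤ e / 4 := by
    obtain ⟨n, hn⟩ := exists_pow_lt_of_lt_one (show 0 < e / (4 * K) by positivity) (show (1 / 2 : ℝ) < 1 by norm_num)
    refine ⟨n, ?_⟩
    have h1 : (1 / 2 : ℝ) ^ (20 * n) ≤ (1 / 2) ^ n := pow_le_pow_of_le_one (by norm_num) (by norm_num) (by omega)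
    calc K / 2 ^ (20 * n) = K * (1 / 2) ^ (20 * n) := by
          rw [one_div, inv_pow]
          rfl
      _ ≤ K * (e / (4 * K)) := by
          have := h1.trans hn.le
          gcongr
      _ = e / 4 := by
          field_simp
  -- the number s
  obtain ⟨s, hs⟩ : ∃ s : ℕ, 2 * 2 ^ i0 * (1 / 2 : ℝ) ^ s ≤ e / 4 := by
    obtain ⟨n, hn⟩ := exists_pow_lt_of_lt_one (show 0 < e / (4 * (2 * 2 ^ i0)) by positivity)
      (show (1 / 2 : ℝ) < 1 by norm_num)
    refine ⟨n, ?_⟩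
    calc 2 * 2 ^ i0 * (1 / 2 : ℝ) ^ n ≤ 2 * 2 ^ i0 * (e / (4 * (2 * 2 ^ i0))) := by
          have := hn.le
          gcongr
      _ = e / 4 := by
          field_simp
  obtain ⟨A, hA⟩ : ∃ A : ℝ, A = 2 * (C * (2 + s)) := ⟨_, rfl⟩
  have hA0 : 0 < A := by rw [hA]; positivity
  obtain ⟨K1, hK10, hK1⟩ := poly_exp hA0 (show 0 < 2 * (a * c) by positivity) (show 0 < 1 - a * c by linarith)
  obtain ⟨D0, hD0⟩ : ∃ D0 : ℝ, D0 = 824 * 2 ^ (i0 + 1) := ⟨_, rfl⟩
  have hD0p : 0 < D0 := by rw [hD0]; positivity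
  -- the deep scales
  obtain ⟨κ0, hκ0⟩ : ∃ κ0 : ℝ, κ0 = 1 / (32 * C) := ⟨_, rfl⟩
  have hκ0p : 0 < κ0 := by rw [hκ0]; positivity
  have hκ01 : κ0 ≤ 1 / 8 := by
    rw [hκ0]
    apply div_le_div_of_nonneg_left (by norm_num) (by norm_num)
    linarith
  obtain ⟨η, hη⟩ : ∃ η : ℝ, η = κ0 * (1 - 4 / 3 * a) / 4 := ⟨_, rfl⟩
  have hη0 : 0 < η := by rw [hη]; positivity
  have hη1 : η ≤ (1 - 4 / 3 * a) / 4 := by
    rw [hη]
    apply div_le_div_of_nonneg_right _ (by norm_num)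
    calc κ0 * (1 - 4 / 3 * a) ≤ 1 * (1 - 4 / 3 * a) := by gcongr; linarith
      _ = _ := one_mul _
  have hη2 : η ≤ 1 / 4 := by linarith
  obtain ⟨C2, hC2, hup⟩ := hl.up η hη0
  have haη : a * η ≤ η := by nlinarith
  have hσ : 0 < 1 - a * (4 / 3 + η) := by nlinarith
  have hab : a * (4 / 3 - η) < 1 := by nlinarith
  have hgap : 0 < 1 - a * (4 / 3 + η) - (1 - κ0) * (1 - a * (4 / 3 - η)) := by
    have e1 : 1 - a * (4 / 3 + η) - (1 - κ0) * (1 - a * (4 / 3 - η)) =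
        κ0 * (1 - 4 / 3 * a) - 2 * (a * η) + κ0 * (a * η) := by ring
    rw [e1]
    have e2 : κ0 * (1 - 4 / 3 * a) = 4 * η := by rw [hη]; ring
    rw [e2]
    have : 0 < κ0 * (a * η) := by positivity
    linarith
  obtain ⟨L2, hdeep⟩ := hP (4 / 3 - η) (1 - a * (4 / 3 + η)) 1 (by linarith) (by linarith) hσ
  -- large L
  obtain ⟨L3, hL3⟩ : ∃ L3 : ℕ, ∀ L : ℕ, L3 ≤ L → D0 ≤
      (2 : ℝ) ^ ((1 - a * (4 / 3 + η) - (1 - κ0) * (1 - a * (4 / 3 - η))) * (L : ℝ)) := by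
    have h1 : Filter.Tendsto (fun L : ℕ => (2 : ℝ) ^ ((1 - a * (4 / 3 + η) - (1 - κ0) * (1 - a * (4 / 3 - η))) * (L : ℝ)))
        Filter.atTop Filter.atTop :=
      (tendsto_rpow_atTop_of_base_gt_one 2 (by norm_num)).comp
        (tendsto_natCast_atTop_atTop.const_mul_atTop hgap)
    exact Filter.eventually_atTop.1 (h1.eventually_ge_atTop D0)
  obtain ⟨L4, hL4⟩ : ∃ L4 : ℕ, ∀ L : ℕ, L4 ≤ L → C2 ≤ (2 : ℝ) ^ ((2 - (4 / 3 + η)) * (L : ℝ)) := by
    have h1 : Filter.Tendsto (fun L : ℕ => (2 : ℝ) ^ ((2 - (4 / 3 + η)) * (L : ℝ))) Filter.atTop Filter.atTop :=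
      (tendsto_rpow_atTop_of_base_gt_one 2 (by norm_num)).comp
        (tendsto_natCast_atTop_atTop.const_mul_atTop (by linarith))
    exact Filter.eventually_atTop.1 (h1.eventually_ge_atTop C2)
  obtain ⟨L5, hL5⟩ : ∃ L5 : ℕ, ∀ L : ℕ, L5 ≤ L → (2 : ℝ) ^ (-(1 * (L : ℝ))) ≤ e / 4 := by
    have h1 : Filter.Tendsto (fun L : ℕ => (2 : ℝ) ^ (1 * (L : ℝ))) Filter.atTop Filter.atTop :=
      (tendsto_rpow_atTop_of_base_gt_one 2 (by norm_num)).comp
        (tendsto_natCast_atTop_atTop.const_mul_atTop (by norm_num))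
    obtain ⟨L5, hL5⟩ := Filter.eventually_atTop.1 (h1.eventually_ge_atTop (4 / e))
    refine ⟨L5, fun L hL => ?_⟩
    rw [Real.rpow_neg (by norm_num), inv_le_comm₀ (by positivity) (by positivity), inv_div]
    exact hL5 L hL
  obtain ⟨M, hM⟩ : ∃ M : ℝ, M = max (D0 * (2 : ℝ) ^ (a * c * ((j1 + jK : ℕ) : ℝ)) * K1) (C2 ^ a) := ⟨_, rfl⟩
  have hC2a : 0 < C2 ^ a := by positivity
  have hM1 : D0 * (2 : ℝ) ^ (a * c * ((j1 + jK : ℕ) : ℝ)) * K1 ≤ M := by
    rw [hM]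
    exact le_max_left _ _
  have hM2 : C2 ^ a ≤ M := by
    rw [hM]
    exact le_max_right _ _
  have hM0 : 0 < M := hC2a.trans_le hM2
  choose aJ haJ1 haJ2 using fun J : ℕ => exists_clog (C * (J + (J + s) + 1)) (Nat.mul_pos hC1 (Nat.succ_pos _))
  refine ⟨M, k0 + L2 + L3 + L4 + L5 + 32 * (C * (s + 1)) + 32 * C + 32 * j1 + i0 + 1000, hM0, fun L hLG hL => ?_⟩
  have hU := Ub_pos L
  have hU1 := Ch.one_le_Ub L
  obtain ⟨DS, hDS⟩ : ∃ DS : ℕ → Set (List Bool), DS = fun J => {t | (32 * (C * J) ≤ L ∧ 6 ≤ J) ∧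
      t ∈ DT (L + i0 - J) J ((l (L + i0 - J - 2 * aJ J - j1) : ℝ) + 1)} := ⟨_, rfl⟩
  -- natural numbers
  have hnat : ∀ J : ℕ, 32 * (C * J) ≤ L → J ≤ L / 32 ∧ C * (J + (J + s) + 1) ≤ 3 * (L / 32) + 31 ∧ aJ J ≤ 6 * (L / 32) + 62 := by
    intro J hJ
    have h1 : J ≤ C * J := Nat.le_mul_of_pos_left _ hC1
    have h2 : C * (J + (J + s) + 1) = 2 * (C * J) + C * (s + 1) := by ring
    have h3 := haJ2 J
    have h4 : aJ J < 2 ^ aJ J := Nat.lt_two_pow_self
    omega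
  have hgood : ∀ J : ℕ, 32 * (C * J) ≤ L → 6 ≤ J → gf (DS J) ≤ ENNReal.ofReal ((1 / 2) ^ (J + s) * Ub (L + i0)) := by
    intro J hJ hJ6
    obtain ⟨n1, n2, n3⟩ := hnat J hJ
    have hAS := hj1 (L + i0 - J - 2 * aJ J) (by omega)
    have hCC : C' * (J + (J + s) + 1) ≤ C * (J + (J + s) + 1) := Nat.mul_le_mul_right _ (by omega)
    have h1 := hdisp (L + i0 - J) J (aJ J) (J + s) _ hJ6 (hCC.trans (haJ1 J)) (by omega) hAS
    rw [show L + i0 - J + J = L + i0 by omega] at h1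
    refine (gf_mono fun t ht => ?_).trans h1
    rw [hDS] at ht
    exact ht.2
  have hsumDS : gf (⋃ J ∈ range (L + i0 + 1), DS J) ≤ ENNReal.ofReal (e / 4 * Ub L) := by
    refine (ENNReal.tsum_biUnion_le (fun t => wE t) (range (L + i0 + 1)) DS).trans ?_
    have h1 : ∀ J ∈ range (L + i0 + 1), gf (DS J) ≤ ENNReal.ofReal ((1 / 2) ^ J * ((1 / 2) ^ s * Ub (L + i0))) := by
      intro J _
      by_cases hJ : 32 * (C * J) ≤ L ∧ 6 ≤ J
      · refine (hgood J hJ.1 hJ.2).trans (ENNReal.ofReal_le_ofReal (le_of_eq ?_))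
        rw [pow_add]
        ring
      · have : DS J = ∅ := by
          rw [hDS]
          ext t
          exact ⟨fun ht => hJ ht.1, fun ht => ht.elim⟩
        rw [this]
        simp [gf]
    refine (Finset.sum_le_sum h1).trans ?_
    have hUL := Ub_pos (L + i0)
    rw [← ENNReal.ofReal_sum_of_nonneg (fun J _ => by positivity), ← Finset.sum_mul]
    apply ENNReal.ofReal_le_ofReal
    have h2 : ∑ J ∈ range (L + i0 + 1), (1 / 2 : ℝ) ^ J ≤ 2 := by
      have := Summable.sum_le_tsum (f := fun J : ℕ => (1 / 2 : ℝ) ^ J) (range (L + i0 + 1)) (fun J _ => by positivity)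
        (summable_geometric_of_lt_one (by norm_num) (by norm_num))
      rw [tsum_geometric_two] at this
      exact this
    have h3 : Ub (L + i0) ≤ 2 ^ i0 * Ub L := UU_ratio_up L i0
    calc (∑ J ∈ range (L + i0 + 1), (1 / 2 : ℝ) ^ J) * ((1 / 2) ^ s * Ub (L + i0)) ≤
          2 * ((1 / 2) ^ s * (2 ^ i0 * Ub L)) := by gcongr
      _ = (2 * 2 ^ i0 * (1 / 2 : ℝ) ^ s) * Ub L := by ring
      _ ≤ _ := by gcongr
  have hlL1 : (1 : ℝ) ≤ l L := by exact_mod_cast hl.one L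
  have hlL0 : (0 : ℝ) < l L := by linarith
  have hlup : (l L : ℝ) ≤ C2 * (2 : ℝ) ^ ((4 / 3 + η) * (L : ℝ)) := hup L
  obtain ⟨DD, hDD⟩ : ∃ DD : Set (List Bool), DD = {t | t ∈ BU ∧ t.length ≤ 2 ^ (2 * L) ∧ ∃ (dir : Bool) (i j : ℕ), i < j ∧
    j ≤ t.length ∧ (2 : ℝ) ^ ((1 - a * (4 / 3 + η)) * (L : ℝ)) ≤ |((lvl dir (vx oo up t j) - lvl dir (vx oo up t i) : ℤ) : ℝ)| ∧
    (j : ℝ) - i ≤ |((lvl dir (vx oo up t j) - lvl dir (vx oo up t i) : ℤ) : ℝ)| ^ (4 / 3 - η)} := ⟨_, rfl⟩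
  have hdd : gf DD ≤ ENNReal.ofReal (e / 4 * Ub L) := by
    rw [hDD]
    refine (hdeep L (by omega)).trans (ENNReal.ofReal_le_ofReal ((hL5 L (by omega)).trans ?_))
    nlinarith
  have hff := hfar L i0 (by omega)
  have hsub : {t | t ∈ BU ∧ (t.length : ℝ) < (l L : ℝ) + 1 ∧ ∃ (dir : Bool) (i j : ℕ), i < j ∧ j ≤ t.length ∧
      M * 2 ^ L * (((j : ℝ) - i) / l L) ^ a ≤ |((lvl dir (vx oo up t j) - lvl dir (vx oo up t i) : ℤ) : ℝ)|} ⊆
      ((⋃ J ∈ range (L + i0 + 1), DS J) ∪ DD) ∪ {t | t ∈ BU ∧ (t.length : ℝ) < (l L : ℝ) + 1 ∧ t ∉ BL (L + i0)} := by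
    rintro t ⟨ht, hlt, dir, i, j, hij, hj, hx⟩
    by_cases hb : t ∈ BL (L + i0)
    swap
    · exact Or.inr ⟨ht, hlt, hb⟩
    left
    obtain ⟨x, hxx⟩ : ∃ x : ℝ, x = |((lvl dir (vx oo up t j) - lvl dir (vx oo up t i) : ℤ) : ℝ)| := ⟨_, rfl⟩
    obtain ⟨τ, hτ⟩ : ∃ τ : ℝ, τ = (j : ℝ) - i := ⟨_, rfl⟩
    rw [← hxx, ← hτ] at hx
    have hτ1 : 1 ≤ τ := by
      rw [hτ]
      have : (i : ℝ) + 1 ≤ j := by exact_mod_cast hij
      linarith
    have htlen : t.length ≤ l L := by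
      have : (t.length : ℝ) < ((l L + 1 : ℕ) : ℝ) := by push_cast; exact hlt
      have := Nat.cast_lt.1 this
      omega
    rcases le_or_gt x (D0 * (2 : ℝ) ^ ((1 - κ0) * (L : ℝ))) with hxd | hxd
    · -- deep
      right
      have h1 := time_deep (a := a) (b := 4 / 3 - η) (β := 4 / 3 + η) (κ0 := κ0) (D1 := D0) (C2 := C2) (M := M) (x := x)
        (τ := τ) (lL := l L) (L := L) ha hlL0 hτ1 hC2 hab hlup hM2 (by
          rw [hD0]
          have : (1 : ℝ) ≤ 2 ^ (i0 + 1) := one_le_pow₀ (by norm_num)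
          linarith) (by rw [Real.rpow_natCast]; exact hx) hxd (by linarith) (hL3 L (by omega))
      rw [hDD]
      refine ⟨ht, ?_, dir, i, j, hij, hj, by rw [← hxx]; exact h1.1, by rw [← hxx, ← hτ]; exact h1.2⟩
      refine htlen.trans ?_
      have h2 : (l L : ℝ) ≤ (2 : ℝ) ^ (2 * L) := by
        refine hlup.trans ?_
        calc C2 * (2 : ℝ) ^ ((4 / 3 + η) * (L : ℝ)) ≤ (2 : ℝ) ^ ((2 - (4 / 3 + η)) * (L : ℝ)) * (2 : ℝ) ^ ((4 / 3 + η) * (L : ℝ)) := by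
              have := hL4 L (by omega)
              gcongr
          _ = (2 : ℝ) ^ (2 * L) := by
              rw [← Real.rpow_add (by norm_num), ← Real.rpow_natCast]
              congr 1
              push_cast
              ring
      exact_mod_cast h2
    · -- the macroscopic scales
      left
      have h2L : (1 : ℝ) ≤ (2 : ℝ) ^ ((1 - κ0) * (L : ℝ)) :=
        Real.one_le_rpow (by norm_num) (by have : 0 ≤ 1 - κ0 := by linarith
                                           positivity)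
      have hx824 : 824 ≤ x := by
        have h1 : (1 : ℝ) ≤ 2 ^ (i0 + 1) := one_le_pow₀ (by norm_num)
        have h2 : 824 * 1 ≤ D0 * (2 : ℝ) ^ ((1 - κ0) * (L : ℝ)) := by
          rw [hD0]
          nlinarith
        linarith
      have hxB : x < 824 * 2 ^ (L + i0 - 7) := by
        have h1 := disp_BL hb (hij.le.trans hj) hj dir
        rw [← hxx] at h1
        have h2 : (2 : ℝ) ^ (L + i0) = 128 * 2 ^ (L + i0 - 7) := by
          have : (128 : ℝ) = 2 ^ 7 := by norm_num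
          rw [this, ← pow_add]
          congr 1
          omega
        have h3 : (8 : ℝ) ≤ 2 ^ (L + i0 - 7) := by
          have : (8 : ℝ) = 2 ^ 3 := by norm_num
          rw [this]
          exact pow_le_pow_right₀ (by norm_num) (by omega)
        rw [h2] at h1
        linarith
      obtain ⟨k, hkB, hk1, hk2⟩ := scale_of hx824 hxB
      obtain ⟨J, hJ⟩ : ∃ J, J = L + i0 - k := ⟨_, rfl⟩
      have hkJ : k + J = L + i0 := by omega
      -- J ≤ κ0 L
      have hJκ : (J : ℝ) ≤ κ0 * L := by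
        have h1 : D0 * (2 : ℝ) ^ ((1 - κ0) * (L : ℝ)) < 824 * 2 ^ (k + 1) := hxd.trans hk2
        rw [hD0] at h1
        have h2 : (2 : ℝ) ^ ((i0 : ℝ) + (1 - κ0) * L) < (2 : ℝ) ^ (k : ℝ) := by
          rw [Real.rpow_add (by norm_num), Real.rpow_natCast, Real.rpow_natCast]
          have h3 : (824 : ℝ) * 2 ^ (i0 + 1) * (2 : ℝ) ^ ((1 - κ0) * (L : ℝ)) = 1648 * (2 ^ i0 * (2 : ℝ) ^ ((1 - κ0) * (L : ℝ))) := by
            rw [pow_succ]
            ring
          have h4 : (824 : ℝ) * 2 ^ (k + 1) = 1648 * 2 ^ k := by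
            rw [pow_succ]
            ring
          rw [h3, h4] at h1
          linarith
        rw [Real.rpow_lt_rpow_left_iff (by norm_num)] at h2
        have h5 : (k : ℝ) + J = L + i0 := by exact_mod_cast hkJ
        linarith
      have hJC : 32 * (C * J) ≤ L := by
        rw [hκ0, div_mul_eq_mul_div, one_mul, le_div_iff₀ (by positivity)] at hJκ
        have : ((32 * (C * J) : ℕ) : ℝ) ≤ (L : ℝ) := by
          push_cast
          linarith
        exact_mod_cast this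
      have hJ6 : 6 ≤ J := by omega
      obtain ⟨n1, n2, n3⟩ := hnat J hJC
      rw [Set.mem_iUnion₂]
      refine ⟨J, Finset.mem_range.2 (by omega), ?_⟩
      rw [hDS]
      refine ⟨⟨hJC, hJ6⟩, ?_⟩
      have hLk : L + i0 - J = k := by omega
      rw [hLk]
      refine ⟨by rw [hkJ]; exact hb, dir, i, j, hij.le, hj, ?_, ?_⟩
      · -- the time
        have haJR : (2 : ℝ) ^ aJ J ≤ A * ((J : ℝ) + 1) := by
          have h1 := haJ2 J
          have h2 : ((2 ^ aJ J : ℕ) : ℝ) ≤ ((2 * (C * (J + (J + s) + 1)) : ℕ) : ℝ) := by exact_mod_cast h1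
          push_cast at h2
          refine h2.trans ?_
          rw [hA]
          have h3 : (J : ℝ) + (J + s) + 1 ≤ (2 + s) * (J + 1) := by
            have h4 : (0 : ℝ) ≤ s * J := by positivity
            nlinarith
          calc 2 * ((C : ℝ) * (J + (J + s) + 1)) ≤ 2 * (C * ((2 + s) * (J + 1))) := by gcongr
            _ = _ := by ring
        have hpow : (2 : ℝ) ^ (a * c * ((2 * aJ J : ℕ) : ℝ)) ≤ K1 * (2 : ℝ) ^ ((1 - a * c) * J) := by
          refine le_trans (le_of_eq ?_) ((Real.rpow_le_rpow (by positivity) haJR (show 0 ≤ 2 * (a * c) by positivity)).trans (hK1 J))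
          rw [← Real.rpow_natCast (2 : ℝ) (aJ J), ← Real.rpow_mul (by norm_num)]
          congr 1
          push_cast
          ring
        have h1 := time_short (a := a) (c := c) (D0 := D0) (M := M) (K1 := K1) (x := x) (τ := τ) (lL := l L) (L := L)
          (i0 := i0) (J := J) (aJ := 2 * aJ J) (j1 := j1 + jK) (k := k) ha hc0 hlL0 (by linarith) hM0 hkJ hk2 hx hD0 hpow hM1
        have h2 := hLG (J + 2 * aJ J + j1) (by omega)
        have h3 : l (L - (J + 2 * aJ J + j1)) ≤ l (k - 2 * aJ J - j1) := hl.mono (by omega)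
        have h4 : (l (L - (J + 2 * aJ J + j1)) : ℝ) ≤ l (k - 2 * aJ J - j1) := by exact_mod_cast h3
        have h5 : (2 : ℝ) ^ (-(c * (J + ((2 * aJ J : ℕ) : ℝ) + ((j1 + jK : ℕ) : ℝ)))) * (l L : ℝ) ≤
            l (L - (J + 2 * aJ J + j1)) := by
          have h6 : ((J + 2 * aJ J + j1 : ℕ) : ℝ) = (J : ℝ) + ((2 * aJ J : ℕ) : ℝ) + j1 := by push_cast; ring
          rw [h6] at h2
          have h7 : (l L : ℝ) ≤ (2 : ℝ) ^ (c * (J + ((2 * aJ J : ℕ) : ℝ) + ((j1 + jK : ℕ) : ℝ))) *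
              l (L - (J + 2 * aJ J + j1)) := by
            refine h2.trans ?_
            have h8 : (2 : ℝ) ^ (c * (J + ((2 * aJ J : ℕ) : ℝ) + ((j1 + jK : ℕ) : ℝ))) =
                (2 : ℝ) ^ (c * (jK : ℝ)) * (2 : ℝ) ^ (c * ((J : ℝ) + ((2 * aJ J : ℕ) : ℝ) + j1)) := by
              rw [← Real.rpow_add (by norm_num)]
              congr 1
              push_cast
              ring
            rw [h8]
            gcongr
          calc (2 : ℝ) ^ (-(c * (J + ((2 * aJ J : ℕ) : ℝ) + ((j1 + jK : ℕ) : ℝ)))) * (l L : ℝ) ≤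
                (2 : ℝ) ^ (-(c * (J + ((2 * aJ J : ℕ) : ℝ) + ((j1 + jK : ℕ) : ℝ)))) *
                  ((2 : ℝ) ^ (c * (J + ((2 * aJ J : ℕ) : ℝ) + ((j1 + jK : ℕ) : ℝ))) * l (L - (J + 2 * aJ J + j1))) := by gcongr
            _ = _ := by
                rw [← mul_assoc, ← Real.rpow_add (by norm_num), neg_add_cancel, Real.rpow_zero, one_mul]
        rw [hτ] at h1
        linarith
      · -- the displacement
        have h7 : 824 * 2 ^ k ≤ |((lvl dir (vx oo up t j) - lvl dir (vx oo up t i) : ℤ) : ℝ)| := by rw [← hxx]; exact hk1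
        rw [← Int.cast_abs] at h7
        have h8 : ((824 * (2 : ℤ) ^ k : ℤ) : ℝ) ≤ ((|lvl dir (vx oo up t j) - lvl dir (vx oo up t i)| : ℤ) : ℝ) := by
          push_cast
          push_cast at h7
          exact h7
        exact_mod_cast h8
  refine (gf_mono hsub).trans ((gf_union_le _ _).trans ((add_le_add ((gf_union_le _ _).trans (add_le_add hsumDS hdd)) hff).trans ?_))
  rw [← ENNReal.ofReal_add (by positivity) (by positivity), ← ENNReal.ofReal_add (by positivity) (by positivity)]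
  apply ENNReal.ofReal_le_ofReal
  have h1 : K / 2 ^ (20 * i0) * Ub L ≤ e / 4 * Ub L := by gcongr
  nlinarith

end NTm

end HexObs
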