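import Pool.Agent.NT.Disp

/-!
NT (natural time): interface between the critical weights and the uniform n-step bridges.
-/

set_option autoImplicit false

namespace HexObs

namespace NTm

open Finset TS SDN SDN.CN

open scoped ENNReal

/-- bridges with n letters -/
def BW (n : ℕ) : Set (List Bool) := {t | (∃ h, t ∈ Brd h) ∧ t.length = n}

/-- the output of the part with the critical weights: lengths A and scales R -/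
def Out : Prop := ∃ (A : Set ℕ) (R : ℕ → ℝ),
  (∀ δ : ℝ, 0 < δ → ∃ x₀ : ℝ, ∀ x : ℝ, x₀ ≤ x → ∃ n ∈ A, x ≤ n ∧ (n : ℝ) ≤ x ^ (1 + δ)) ∧
  (∀ n ∈ A, 1 ≤ n ∧ gf (BW n) ≠ 0) ∧
  (∀ n ∈ A, 1 ≤ R n) ∧
  (∀ ε : ℝ, 0 < ε → ∃ n0 : ℕ, ∀ n ∈ A, n0 ≤ n → (n : ℝ) ^ (3 / 4 - ε) ≤ R n ∧ R n ≤ (n : ℝ) ^ (3 / 4 + ε)) ∧
  (∀ ε r : ℝ, 0 < ε → 0 < r → ∃ (ρ : ℝ) (n0 : ℕ), 0 < ρ ∧ ∀ n ∈ A, n0 ≤ n →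
    gf {t | t ∈ BW n ∧ ∃ (dir : Bool) (i j : ℕ), i ≤ j ∧ j ≤ n ∧ (j : ℝ) - i ≤ ρ * n ∧
      r * R n ≤ |((lvl dir (vx oo up t j) - lvl dir (vx oo up t i) : ℤ) : ℝ)|} ≤ ENNReal.ofReal ε * gf (BW n)) ∧
  (∀ ε : ℝ, 0 < ε → ∃ (κ : ℝ) (n0 : ℕ), 0 < κ ∧ ∀ n ∈ A, n0 ≤ n →
    gf {t | t ∈ BW n ∧ (lev t n : ℝ) ≤ κ * R n} ≤ ENNReal.ofReal ε * gf (BW n)) ∧
  ∃ K : ℝ, 0 < K ∧ ∀ n ∈ A, ∀ i : ℕ,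
    gf {t | t ∈ BW n ∧ ∃ dir : Bool, (2 : ℝ) ^ i * R n ≤ |((lvl dir (vx oo up t n) : ℤ) : ℝ)|} ≤
      ENNReal.ofReal (K / 32 ^ i) * gf (BW n)

end NTm

end HexObs
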