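import Pool.Agent.NT.Facts
import Pool.Agent.NT.SeqDefsH

/-!
NT (natural time): from the output of the part with the critical weights (scales G, lengths A k) to the bridges with n
steps.
-/

set_option autoImplicit false

namespace NTF

open Finset

open HexObs hiding pos

open HexObs.SDN HexObs.NTm

open Pool.Agent.NT.ResNat

open scoped ENNReal Classical

/-- the size of the bridges with n steps, n in A k, is of the order 2 ^ k -/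
theorem core_size {ε : ℝ} {G : Set ℕ} {A : ℕ → Set ℕ} (hC : Core ε G A) : ∃ (c C : ℝ) (k0 : ℕ), 0 < c ∧ 0 < C ∧
    ∀ k ∈ G, ∀ n ∈ A k, size n ≤ C * 2 ^ k ∧ (k0 ≤ k → c * 2 ^ k ≤ size n) := by
  obtain ⟨K, hK, htail⟩ := hC.tail
  obtain ⟨κ, k0, hκ, hlow⟩ := hC.hgt (1 / 2) (by norm_num)
  refine ⟨κ / 4, 2 + 32 * K, k0, by positivity, by positivity, fun k hk n hn => ?_⟩
  have hne := (hC.pos k hk n hn).2
  have hb := bridges_nonempty hne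
  have h2k : (0 : ℝ) < 2 ^ k := by positivity
  constructor
  · have h1 : ∀ i : ℕ, (((bridges n).filter fun s => 2 ^ i * 2 ^ k ≤ ‖pos s n‖).card : ℝ) ≤
        K / 32 ^ i * ((bridges n).card : ℝ) := by
      intro i
      refine prop_le hne _ (by positivity) ?_ (htail k hk n hn i)
      intro t ht h1
      rw [pos_sw n t n le_rfl] at h1
      exact ⟨ht, exists_dir (by positivity) h1⟩
    have h2 := four_of h2k hK.le h1
    have h3 := size_le h2k hb (K := 1 + 32 * K) (by positivity) h2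
    linarith
  · intro hk0
    have h1 : (((bridges n).filter fun s => (pos s n).re ≤ κ / 2 * 2 ^ k).card : ℝ) ≤ 1 / 2 * ((bridges n).card : ℝ) := by
      refine prop_le hne _ (by norm_num) ?_ (hlow k hk hk0 n hn)
      intro t ht h2
      rw [re_sw n t n le_rfl] at h2
      exact ⟨ht, by linarith⟩
    have h2 := size_ge h2k hb (κ := κ / 2) (by positivity) h1
    linarith

/-- exponents -/
lemma exp_num {ε : ℝ} (hε : 0 < ε) : ∃ η : ℝ, 0 < η ∧ η < 4 / 3 ∧ ∀ (k n : ℕ), 1 ≤ n → (2 : ℝ) ^ ((4 / 3 - η) * k) ≤ n →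
    (n : ℝ) ≤ (2 : ℝ) ^ ((4 / 3 + η) * k) → (n : ℝ) ^ (3 / 4 - ε) ≤ 2 ^ k ∧ (2 : ℝ) ^ k ≤ (n : ℝ) ^ (3 / 4 + ε) := by
  obtain ⟨η, hη⟩ : ∃ η : ℝ, η = min (1 / 3) (ε / (1 + ε)) := ⟨_, rfl⟩
  have h0 : 0 < η := by
    rw [hη]
    positivity
  have h1 : η ≤ 1 / 3 := by
    rw [hη]
    exact min_le_left _ _
  have h2 : η * (1 + ε) ≤ ε := by
    have h3 : η ≤ ε / (1 + ε) := by
      rw [hη]
      exact min_le_right _ _
    rwa [le_div_iff₀ (by positivity)] at h3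
  refine ⟨η, h0, by linarith, fun k n hn ha hb => ?_⟩
  have hn1 : (1 : ℝ) ≤ n := by exact_mod_cast hn
  have hk : (0 : ℝ) ≤ k := Nat.cast_nonneg k
  constructor
  · rcases le_total (3 / 4 - ε) 0 with h3 | h3
    · exact (Real.rpow_le_one_of_one_le_of_nonpos hn1 h3).trans (one_le_pow₀ (by norm_num))
    · calc (n : ℝ) ^ (3 / 4 - ε) ≤ ((2 : ℝ) ^ ((4 / 3 + η) * k)) ^ (3 / 4 - ε) := Real.rpow_le_rpow (by linarith) hb h3
        _ = (2 : ℝ) ^ ((4 / 3 + η) * k * (3 / 4 - ε)) := by rw [← Real.rpow_mul (by norm_num)]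
        _ ≤ (2 : ℝ) ^ (k : ℝ) := by
            apply Real.rpow_le_rpow_of_exponent_le (by norm_num)
            have : (4 / 3 + η) * (3 / 4 - ε) ≤ 1 := by nlinarith
            nlinarith
        _ = 2 ^ k := Real.rpow_natCast 2 k
  · calc (2 : ℝ) ^ k = (2 : ℝ) ^ (k : ℝ) := (Real.rpow_natCast 2 k).symm
      _ ≤ (2 : ℝ) ^ ((4 / 3 - η) * k * (3 / 4 + ε)) := by
          apply Real.rpow_le_rpow_of_exponent_le (by norm_num)
          have : 1 ≤ (4 / 3 - η) * (3 / 4 + ε) := by nlinarith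
          nlinarith
      _ = ((2 : ℝ) ^ ((4 / 3 - η) * k)) ^ (3 / 4 + ε) := by rw [← Real.rpow_mul (by norm_num)]
      _ ≤ (n : ℝ) ^ (3 / 4 + ε) := Real.rpow_le_rpow (by positivity) ha (by positivity)

/-- all lengths -/
def AU (G : Set ℕ) (A : ℕ → Set ℕ) (k1 : ℕ) : Set ℕ := {n | ∃ k ∈ G, k1 ≤ k ∧ n ∈ A k}

/-- the Hoelder modulus of one order of the walks -/
def HoldA (a : ℝ) (A : Set ℕ) : Prop := ∀ ε : ℝ, 0 < ε → ∃ (M : ℝ) (n0 : ℕ), 0 < M ∧ ∀ n ∈ A, n0 ≤ n →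
  (((bridges n).filter fun s => ∃ i j : ℕ, i < j ∧ j ≤ n ∧
    M * size n * (((j : ℝ) - i) / n) ^ a < ‖pos s j - pos s i‖).card : ℝ) ≤ ε * ((bridges n).card : ℝ)

/-- **from the critical weights to the bridges with n steps** -/
theorem factsG_of {ε : ℝ} {G : Set ℕ} {A : ℕ → Set ℕ} (hC : Core ε G A) : ∃ k1 : ℕ, ∀ k2 : ℕ, k1 ≤ k2 →
    Facts (AU G A k2) ∧
    (∀ ε : ℝ, 0 < ε → ∃ n₀ : ℕ, ∀ n ∈ AU G A k2, n₀ ≤ n →
      (n : ℝ) ^ (3 / 4 - ε) ≤ size n ∧ size n ≤ (n : ℝ) ^ (3 / 4 + ε)) ∧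
    ∀ a : ℝ, 0 < a → HCore a G A → HoldA a (AU G A k2) := by
  obtain ⟨k1, hk1⟩ := hC.exps 1 one_pos
  refine ⟨k1, fun k2 hk2 => ?_⟩
  obtain ⟨κ, hκ⟩ : ∃ κ : ℕ → ℕ, ∀ n ∈ AU G A k2, κ n ∈ G ∧ k2 ≤ κ n ∧ n ∈ A (κ n) := by
    have : ∀ n : ℕ, ∃ k : ℕ, n ∈ AU G A k2 → k ∈ G ∧ k2 ≤ k ∧ n ∈ A k := by
      intro n
      by_cases hn : n ∈ AU G A k2
      · obtain ⟨k, h1, h2, h3⟩ := hn
        exact ⟨k, fun _ => ⟨h1, h2, h3⟩⟩
      · exact ⟨0, fun h => absurd h hn⟩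
    choose κ hκ using this
    exact ⟨κ, hκ⟩
  -- the scale tends to infinity with n
  have hlarge : ∀ k0 : ℕ, ∃ n0 : ℕ, ∀ n ∈ AU G A k2, n0 ≤ n → k0 ≤ κ n := by
    intro k0
    refine ⟨⌈(2 : ℝ) ^ ((4 / 3 + 1) * (k0 : ℝ))⌉₊ + 1, fun n hn hn0 => ?_⟩
    by_contra hcon
    push Not at hcon
    obtain ⟨h1, h2, h3⟩ := hκ n hn
    have h4 := (hk1 _ h1 (hk2.trans h2) n h3).2
    have h5 : (n : ℝ) ≤ (2 : ℝ) ^ ((4 / 3 + 1) * (k0 : ℝ)) := by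
      refine h4.trans (Real.rpow_le_rpow_of_exponent_le (by norm_num) ?_)
      have : (κ n : ℝ) ≤ k0 := by exact_mod_cast hcon.le
      nlinarith
    have h6 : (n : ℝ) ≤ ⌈(2 : ℝ) ^ ((4 / 3 + 1) * (k0 : ℝ))⌉₊ := h5.trans (Nat.le_ceil _)
    have h7 : n ≤ ⌈(2 : ℝ) ^ ((4 / 3 + 1) * (k0 : ℝ))⌉₊ := by exact_mod_cast h6
    omega
  obtain ⟨K, hK, htail⟩ := hC.tail
  have hone : ∀ n ∈ AU G A k2, 1 ≤ n ∧ gf (BW n) ≠ 0 := fun n hn => hC.pos _ (hκ n hn).1 n (hκ n hn).2.2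
  obtain ⟨h1, h2, c, n1, hc, h3⟩ := facts_core (A := AU G A k2) (R := fun n => 2 ^ κ n) hone
    (fun n _ => one_le_pow₀ (by norm_num)) (by
      intro ε hε
      obtain ⟨η, hη, -, hnum⟩ := exp_num hε
      obtain ⟨k0, hk0⟩ := hC.exps η hη
      obtain ⟨n0, hn0⟩ := hlarge k0
      refine ⟨n0, fun n hn hnn => ?_⟩
      obtain ⟨a1, a2, a3⟩ := hκ n hn
      obtain ⟨b1, b2⟩ := hk0 _ a1 (hn0 n hn hnn) n a3
      exact hnum (κ n) n (hone n hn).1 b1 b2) (by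
      intro ε r hε hr
      obtain ⟨ρ, k0, hρ, h4⟩ := hC.modu r ε hr hε
      obtain ⟨n0, hn0⟩ := hlarge k0
      exact ⟨ρ, n0, hρ, fun n hn hnn => h4 _ (hκ n hn).1 (hn0 n hn hnn) n (hκ n hn).2.2⟩) (by
      intro ε hε
      obtain ⟨κ', k0, hκ', h4⟩ := hC.hgt ε hε
      obtain ⟨n0, hn0⟩ := hlarge k0
      exact ⟨κ', n0, hκ', fun n hn hnn => h4 _ (hκ n hn).1 (hn0 n hn hnn) n (hκ n hn).2.2⟩) hK
    (fun n hn i => htail _ (hκ n hn).1 n (hκ n hn).2.2 i)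
  refine ⟨h1, h2, fun a ha hH ε hε => ?_⟩
  obtain ⟨M, k0, hM, h4⟩ := hH ε hε
  obtain ⟨n0, hn0⟩ := hlarge k0
  refine ⟨M / c, max n0 n1, by positivity, fun n hn hnn => ?_⟩
  refine prop_le (hone n hn).2 _ hε.le ?_ (h4 _ (hκ n hn).1 (hn0 n hn (le_of_max_le_left hnn)) n (hκ n hn).2.2)
  rintro t ht ⟨i, j, hij, hj, h5⟩
  rw [pos_sw n t j hj, pos_sw n t i (hij.le.trans hj), ← JJ_sub] at h5
  have h6 := h3 n hn (le_of_max_le_right hnn)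
  have hij' : (0 : ℝ) ≤ (j : ℝ) - i := by
    have : (i : ℝ) ≤ j := by exact_mod_cast hij.le
    linarith
  have h7 : (0 : ℝ) ≤ (((j : ℝ) - i) / n) ^ a := by positivity
  have h8 : M * 2 ^ κ n * (((j : ℝ) - i) / n) ^ a ≤ ‖JJ (vx oo up t j - vx oo up t i)‖ := by
    refine le_trans ?_ h5.le
    apply mul_le_mul_of_nonneg_right _ h7
    calc M * 2 ^ κ n = M / c * (c * 2 ^ κ n) := by field_simp
      _ ≤ M / c * size n := mul_le_mul_of_nonneg_left h6 (by positivity)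
  obtain ⟨dir, h9⟩ := exists_dir (by positivity) h8
  rw [lvl_sub] at h9
  exact ⟨ht, dir, i, j, hij, hj, h9⟩

end NTF
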