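import Pool.Agent.NT.SeqDefsH
import Pool.Agent.NT.Disp

/-!
NT (natural time): the two inputs of the Hoelder form.
-/

set_option autoImplicit false

namespace HexObs

namespace NTm

open Finset TS SDN SDN.CN

open scoped ENNReal

/-- the quantitative form of disp -/
def DispQ : Prop := ∃ (d : ℝ) (C : ℕ), 0 < d ∧ ∀ (kc J a q : ℕ) (lam : ℝ), 6 ≤ J → C * (J + q + 1) ≤ 2 ^ a →
  C * (J + q + 1) + 2 * a ≤ kc → AS lam (d * Ub (kc - 2 * a)) →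
  gf (DT kc J lam) ≤ ENNReal.ofReal ((1 / 2) ^ q * Ub (kc + J))

/-- no displacement x ≥ 2 ^ (κ L) in a time at most x ^ b, b < 4 / 3 -/
def Deep : Prop := ∀ b κ Q : ℝ, 0 < b → b < 4 / 3 → 0 < κ → ∃ L0 : ℕ, ∀ L : ℕ, L0 ≤ L →
  gf {t | t ∈ BU ∧ t.length ≤ 2 ^ (2 * L) ∧ ∃ (dir : Bool) (i j : ℕ), i < j ∧ j ≤ t.length ∧
    (2 : ℝ) ^ (κ * L) ≤ |((lvl dir (vx oo up t j) - lvl dir (vx oo up t i) : ℤ) : ℝ)| ∧
    (j : ℝ) - i ≤ |((lvl dir (vx oo up t j) - lvl dir (vx oo up t i) : ℤ) : ℝ)| ^ b} ≤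
    ENNReal.ofReal ((2 : ℝ) ^ (-(Q * L)))

end NTm

end HexObs
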