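import Pool.Agent.NT.FactHK
import Pool.Agent.NT.FactB
import Pool.Agent.NT.FactA
import Pool.Agent.NT.SeqEx
import Pool.Agent.NT.Pick
import Pool.Agent.NT.Grow
import Pool.Agent.NT.DenseH
import Pool.Agent.NTQ.DispQ
import Pool.Agent.NTQ.Deep

/-!
NT (natural time): the output of the part with the critical weights.
-/

set_option autoImplicit false

namespace HexObs

namespace NTm

open Finset TS SDN SDN.CN

open scoped ENNReal Classical

theorem facts_all {θ : ℝ} {l : ℕ → ℕ} {G : Set ℕ} (hl : Seq θ l) (hG : Good l G) : Facts l G :=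
  ⟨fun r ε hr hε => facts_modu hl hG r ε hr hε, facts_few hl hG, facts_hgt, facts_tail hl⟩

lemma Dense.mono {e e' : ℝ} {G : Set ℕ} (h : Dense e G) (he : e ≤ e') : Dense e' G := by
  intro δ hδ
  obtain ⟨x0, hx0⟩ := h δ hδ
  refine ⟨x0, fun x hx => le_trans ?_ (hx0 x hx)⟩
  apply mul_le_mul_of_nonneg_right _ (by positivity)
  linarith

/-- the output of the part with the critical weights, Hoelder form, with the better density -/
def OutHK : Prop := ∀ a ε : ℝ, 0 < a → a < 3 / 4 → 0 < ε → ε < 1 → ∃ (G : Set ℕ) (A : ℕ → Set ℕ),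
  Dense (a / (3 * (1 - a)) + ε) G ∧ Core ε G A ∧ HCore a G A

theorem outHK : OutHK := by
  intro a ε ha ha1 hε hε1
  obtain ⟨q, hq⟩ : ∃ q : ℝ, q = a / (3 * (1 - a)) := ⟨_, rfl⟩
  have h1a : 0 < 1 - a := by linarith
  have hq0 : 0 < q := by
    rw [hq]
    positivity
  have hq1 : q < 1 := by
    rw [hq, div_lt_one (by positivity)]
    linarith
  have hqa : q * (3 * (1 - a)) = a := by
    rw [hq]
    field_simp
  obtain ⟨e, he⟩ : ∃ e : ℝ, e = min ε (1 - q) := ⟨_, rfl⟩
  have he0 : 0 < e := by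
    rw [he]
    exact lt_min hε (by linarith)
  have heε : e ≤ ε := by
    rw [he]
    exact min_le_left _ _
  have heq : e ≤ 1 - q := by
    rw [he]
    exact min_le_right _ _
  have hd0 : 0 < q + e / 2 := by positivity
  obtain ⟨c, hc⟩ : ∃ c : ℝ, c = 1 + 1 / 3 / (q + e / 2) := ⟨_, rfl⟩
  have hc43 : 4 / 3 < c := by
    rw [hc]
    have : 1 / 3 < 1 / 3 / (q + e / 2) := by
      rw [lt_div_iff₀ hd0]
      linarith
    linarith
  have hac : a * c < 1 := by
    have h1 : a * (1 / 3 / (q + e / 2)) < 1 - a := by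
      rw [mul_div_assoc', div_lt_iff₀ hd0]
      nlinarith
    rw [hc]
    linarith
  have hdens : 1 - (c - 4 / 3) / (c - 1) + e / 2 = q + e := by
    have h1 : c - 1 = 1 / 3 / (q + e / 2) := by
      rw [hc]
      ring
    have h2 : c - 4 / 3 = (c - 1) - 1 / 3 := by ring
    have h3 : 0 < c - 1 := by linarith
    rw [h2, sub_div, div_self h3.ne', h1]
    field_simp
    ring
  obtain ⟨l, hl⟩ := seq_exists (θ := ε / 2) (by linarith) (by linarith)
  obtain ⟨K, hK, hD⟩ := dense_GCK hl (seq_grow hl (by linarith) (by linarith)) hc43 (show 0 < e / 2 by linarith)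
  rw [hdens] at hD
  exact pickH hε ha hl (facts_all hl (good_GCK hK c l)) (factHK_of disp_q deep hl K hc43 ha hac)
    (hD.mono (by rw [← hq]; linarith))

/-- the form with the density 1 - 4 a / 3 - ε -/
theorem outH : OutH := by
  intro a ε ha ha1 hε hε1
  obtain ⟨G, A, hD, h⟩ := outHK a ε ha ha1 hε hε1
  refine ⟨G, A, hD.mono ?_, h⟩
  have h1a : 0 < 1 - a := by linarith
  have : a / (3 * (1 - a)) ≤ 4 / 3 * a := by
    rw [div_le_iff₀ (by positivity)]
    nlinarith
  linarith

end NTm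

end HexObs
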