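import Pool.Agent.NT.TallW
import Pool.Agent.NT.TallV

/-!
NT (natural time), module 4f: a bridge of height 2 H 2 ^ (kc + s) has at least (H / b) lam letters, up to the weight
Ub kc / 2 ^ H.
-/

set_option autoImplicit false

namespace HexObs

namespace NTm

open Finset TS SDN SDN.CN

open scoped ENNReal

/-- number of times lam in the length -/
noncomputable def qq (lam : ℝ) (g : List Bool) : ℕ := ⌊(g.length : ℝ) / lam⌋₊

/-- the damping factor -/
noncomputable def omg (b : ℕ) (lam : ℝ) (g : List Bool) : ℝ≥0∞ := (1 / 2 : ℝ≥0∞) ^ (b * qq lam g)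

lemma half_le_one : (1 / 2 : ℝ≥0∞) ≤ 1 := by
  rw [one_div]
  exact ENNReal.inv_le_one.2 (by norm_num)

lemma omg_le_one (b : ℕ) (lam : ℝ) (g : List Bool) : omg b lam g ≤ 1 := pow_le_one₀ (zero_le) half_le_one

lemma omg_long {b : ℕ} {lam : ℝ} (hlam : 0 < lam) {g : List Bool} (h : ¬ (g.length : ℝ) < lam) :
    omg b lam g ≤ (1 / 2 : ℝ≥0∞) ^ b := by
  unfold omg
  apply pow_le_pow_of_le_one zero_le half_le_one
  have h1 : 1 ≤ qq lam g := by
    unfold qq
    rw [Nat.one_le_floor_iff]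
    rw [le_div_iff₀ hlam]
    linarith
  calc b = b * 1 := (mul_one b).symm
    _ ≤ b * qq lam g := Nat.mul_le_mul_left _ h1

lemma sw_split (S : Set (List Bool)) {b : ℕ} {lam : ℝ} (hlam : 0 < lam) (Φ : List Bool → ℝ≥0∞) :
    Rec8.sw S (fun g => omg b lam g * Φ g) ≤ Rec8.sw {g | g ∈ S ∧ g ∈ SHO lam} Φ + (1 / 2 : ℝ≥0∞) ^ b * Rec8.sw S Φ := by
  classical
  rw [Rec8.sw_ind, Rec8.sw_ind, Rec8.sw_ind, ← ENNReal.tsum_mul_left, ← ENNReal.tsum_add]
  refine ENNReal.tsum_le_tsum fun g => ?_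
  by_cases hg : g ∈ S
  · rw [if_pos hg, if_pos hg]
    by_cases hs : g ∈ SHO lam
    · rw [if_pos (show g ∈ {g | g ∈ S ∧ g ∈ SHO lam} from ⟨hg, hs⟩)]
      refine le_trans ?_ le_self_add
      refine mul_le_mul_right ?_ _
      calc omg b lam g * Φ g ≤ 1 * Φ g := mul_le_mul_left (omg_le_one b lam g) _
        _ = Φ g := one_mul _
    · refine le_trans ?_ le_add_self
      have h1 : omg b lam g ≤ (1 / 2 : ℝ≥0∞) ^ b := omg_long hlam hs
      calc wE g * (omg b lam g * Φ g) ≤ wE g * ((1 / 2 : ℝ≥0∞) ^ b * Φ g) := by gcongr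
        _ = _ := by ring
  · rw [if_neg hg]
    exact zero_le

/-- the norm of the damped leaves, all heights -/
theorem smW_omg : ∃ (d : ℝ) (b s k0 : ℕ), 0 < d ∧ 1 ≤ b ∧ 6 ≤ s ∧ ∀ (kc : ℕ) (lam : ℝ), k0 ≤ kc → 0 < lam → AS lam (d * Ub kc) →
    ∃ ν : ℕ → ℝ≥0∞, TW.SmW (omg b lam) kc s ν := by
  obtain ⟨K, s, hK, hs, hcn⟩ := clean_norm
  -- the classes of the large heights
  obtain ⟨n0, hn0⟩ : ∃ n0 : ℕ, 4 * K * (1 / 2) ^ n0 ≤ 1 / 8 := by
    obtain ⟨n0, hn0⟩ := exists_pow_lt_of_lt_one (show 0 < 1 / (32 * K) by positivity) (show (1 / 2 : ℝ) < 1 by norm_num)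
    refine ⟨n0, ?_⟩
    calc 4 * K * (1 / 2) ^ n0 ≤ 4 * K * (1 / (32 * K)) := by gcongr
      _ = 1 / 8 := by
          field_simp
          norm_num
  obtain ⟨δ, hδ⟩ : ∃ δ : ℝ, δ = 1 / (16 * (n0 + 1) * 2 ^ n0) := ⟨_, rfl⟩
  have hδ0 : 0 < δ := by rw [hδ]; positivity
  obtain ⟨b, hb1, hb⟩ : ∃ b : ℕ, 1 ≤ b ∧ (1 / 2 : ℝ) ^ b * K ≤ δ := by
    obtain ⟨b, hb⟩ := exists_pow_lt_of_lt_one (show 0 < δ / K by positivity) (show (1 / 2 : ℝ) < 1 by norm_num)
    refine ⟨b + 1, by omega, ?_⟩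
    have h1 : (1 / 2 : ℝ) ^ (b + 1) ≤ (1 / 2) ^ b := pow_le_pow_of_le_one (by norm_num) (by norm_num) (by omega)
    calc (1 / 2 : ℝ) ^ (b + 1) * K ≤ δ / K * K := by
          have := h1.trans hb.le
          gcongr
      _ = δ := by
          field_simp
  obtain ⟨J, hJ⟩ : ∃ J, J = s + n0 := ⟨_, rfl⟩
  obtain ⟨d, k0, hd, hsm⟩ := sm_short J hδ0
  refine ⟨d, b, s, k0, hd, hb1, hs, fun kc lam hkc hlam hAS => ?_⟩
  have hU := Ub_pos kc
  have hS : Sm kc (SL kc J lam) δ := by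
    refine hsm kc lam hkc (AS_short hAS ?_)
    have hN : Ub kc ≤ UU (2 ^ (kc + J)) := UU_mono (Nat.pow_le_pow_right (by norm_num) (by omega))
    gcongr
  have hpow : (1 / 2 : ℝ≥0∞) ^ b = ENNReal.ofReal ((1 / 2) ^ b) := by
    rw [ENNReal.ofReal_pow (by norm_num), ENNReal.ofReal_div_of_pos (by norm_num), ENNReal.ofReal_one,
      ENNReal.ofReal_ofNat]
  have hK0 : 0 ≤ K := by linarith
  have hKj : ∀ j : ℕ, K / 4 ^ j ≤ K := fun j => div_le_self hK0 (one_le_pow₀ (by norm_num))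
  have hcl : ∀ j : ℕ, j < n0 → {g | g ∈ TW.Cj kc s j ∧ g ∈ SHO lam} ⊆ SL kc J lam := by
    rintro j hj g ⟨⟨⟨-, h, h1, h2, h3⟩, h', h4, h5⟩, h6⟩
    have e : h' = h := Brd_height h5 h3
    refine ⟨⟨h, by omega, ?_, h3⟩, h6⟩
    have h8 : (j + 1) * 2 ^ (kc + s) ≤ 2 ^ n0 * 2 ^ (kc + s) := Nat.mul_le_mul_right _ (by
      have := Nat.lt_two_pow_self (n := n0)
      omega)
    rw [← pow_add] at h8
    rw [hJ]
    rw [show kc + (s + n0) = n0 + (kc + s) by omega]
    omega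
  have hsum2 : (1 / 2 : ℝ≥0∞) ^ b * ENNReal.ofReal K ≤ ENNReal.ofReal δ := by
    rw [hpow, ← ENNReal.ofReal_mul (by positivity)]
    exact ENNReal.ofReal_le_ofReal hb
  refine ⟨fun j => if j < n0 then ENNReal.ofReal (2 * δ) else ENNReal.ofReal (K / 4 ^ j), ?_, ?_, ?_⟩
  · intro j Φ hΦ
    by_cases hj : j < n0
    · rw [if_pos hj]
      have h1 : ∀ t, vA (2 ^ (kc + 4)) (TW.Cj kc s j) (fun g => omg b lam g * Φ g) t ≤
          vA (2 ^ (kc + 4)) (SL kc J lam) Φ t + (1 / 2 : ℝ≥0∞) ^ b * vA (2 ^ (kc + 4)) (TW.Cj kc s j) Φ t := by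
        intro t
        unfold vA
        refine (sw_split _ hlam Φ).trans (add_le_add ?_ le_rfl)
        exact Rec8.sw_mono (fun g hg => ⟨hcl j hj ⟨hg.1.1, hg.2⟩, hg.1.2⟩) fun _ _ => le_rfl
      refine (xT_mono h1).trans ((xT_add _ _ _ _).trans ?_)
      have h2 := hS.near Φ hΦ
      have h3 : xT (2 ^ (kc + 4)) kc (fun t => (1 / 2 : ℝ≥0∞) ^ b * vA (2 ^ (kc + 4)) (TW.Cj kc s j) Φ t) ≤
          ENNReal.ofReal δ * xT (2 ^ (kc + 4)) kc Φ := by
        refine (xT_smul _ _ _ _).trans ?_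
        have h4 : xT (2 ^ (kc + 4)) kc (vA (2 ^ (kc + 4)) (TW.Cj kc s j) Φ) ≤ ENNReal.ofReal K * xT (2 ^ (kc + 4)) kc Φ :=
          (hcn kc j Φ hΦ).1.trans (mul_le_mul_left (ENNReal.ofReal_le_ofReal (hKj j)) _)
        calc (1 / 2 : ℝ≥0∞) ^ b * xT (2 ^ (kc + 4)) kc (vA (2 ^ (kc + 4)) (TW.Cj kc s j) Φ) ≤
              (1 / 2 : ℝ≥0∞) ^ b * (ENNReal.ofReal K * xT (2 ^ (kc + 4)) kc Φ) := mul_le_mul_right h4 _
          _ = ((1 / 2 : ℝ≥0∞) ^ b * ENNReal.ofReal K) * xT (2 ^ (kc + 4)) kc Φ := by ring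
          _ ≤ _ := mul_le_mul_left hsum2 _
      refine (add_le_add h2 h3).trans (le_of_eq ?_)
      rw [← add_mul, ← ENNReal.ofReal_add hδ0.le hδ0.le, two_mul]
    · rw [if_neg hj]
      refine (xT_mono fun t => ?_).trans (hcn kc j Φ hΦ).1
      unfold vA
      refine Rec8.sw_mono (fun g hg => hg) fun g _ => ?_
      calc omg b lam g * Φ g ≤ 1 * Φ g := mul_le_mul_left (omg_le_one b lam g) _
        _ = Φ g := one_mul _
  · intro j Φ hΦ
    by_cases hj : j < n0
    · rw [if_pos hj]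
      refine (sw_split _ hlam Φ).trans ?_
      have h2 : Rec8.sw {g | g ∈ TW.Cj kc s j ∧ g ∈ SHO lam} Φ ≤ ENNReal.ofReal (δ * Ub kc) * xT (2 ^ (kc + 4)) kc Φ :=
        (Rec8.sw_mono (hcl j hj) fun _ _ => le_rfl).trans (hS.free Φ hΦ)
      have h3 : (1 / 2 : ℝ≥0∞) ^ b * Rec8.sw (TW.Cj kc s j) Φ ≤ ENNReal.ofReal (δ * Ub kc) * xT (2 ^ (kc + 4)) kc Φ := by
        have h4 := (hcn kc j Φ hΦ).2
        calc (1 / 2 : ℝ≥0∞) ^ b * Rec8.sw (TW.Cj kc s j) Φ ≤
              (1 / 2 : ℝ≥0∞) ^ b * (ENNReal.ofReal (K * Ub kc) * xT (2 ^ (kc + 4)) kc Φ) := by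
              refine mul_le_mul_right (h4.trans (mul_le_mul_left (ENNReal.ofReal_le_ofReal ?_) _)) _
              calc K * Ub kc / 4 ^ j = K / 4 ^ j * Ub kc := by ring
                _ ≤ K * Ub kc := by
                    have := hKj j
                    gcongr
          _ = ((1 / 2 : ℝ≥0∞) ^ b * ENNReal.ofReal K) * (ENNReal.ofReal (Ub kc) * xT (2 ^ (kc + 4)) kc Φ) := by
              rw [ENNReal.ofReal_mul hK0]
              ring
          _ ≤ ENNReal.ofReal δ * (ENNReal.ofReal (Ub kc) * xT (2 ^ (kc + 4)) kc Φ) := mul_le_mul_left hsum2 _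
          _ = _ := by
              rw [ENNReal.ofReal_mul hδ0.le]
              ring
      refine (add_le_add h2 h3).trans (le_of_eq ?_)
      rw [← add_mul, ← ENNReal.ofReal_add (by positivity) (by positivity), ← two_mul, ← mul_assoc,
        ENNReal.ofReal_mul (by positivity)]
    · rw [if_neg hj]
      have h4 : Rec8.sw (TW.Cj kc s j) (fun g => omg b lam g * Φ g) ≤ Rec8.sw (TW.Cj kc s j) Φ := by
        refine Rec8.sw_mono (fun g hg => hg) fun g _ => ?_
        calc omg b lam g * Φ g ≤ 1 * Φ g := mul_le_mul_left (omg_le_one b lam g) _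
          _ = Φ g := one_mul _
      refine h4.trans ((hcn kc j Φ hΦ).2.trans (le_of_eq ?_))
      rw [← ENNReal.ofReal_mul (by positivity)]
      congr 2
      ring
  · -- the sum
    have e2 : ∀ j : ℕ, (2 : ℝ≥0∞) ^ (j + 1) = ENNReal.ofReal (2 ^ (j + 1)) := by
      intro j
      rw [ENNReal.ofReal_pow (by norm_num)]
      congr 1
      norm_num
    have h1 : ∀ j : ℕ, (2 : ℝ≥0∞) ^ (j + 1) * (if j < n0 then ENNReal.ofReal (2 * δ) else ENNReal.ofReal (K / 4 ^ j)) ≤
        (if j < n0 then ENNReal.ofReal (2 ^ n0 * (2 * δ)) else 0) + ENNReal.ofReal (if j < n0 then 0 else 2 * K * (1 / 2) ^ j) := by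
      intro j
      rw [e2]
      split_ifs with hj
      · rw [← ENNReal.ofReal_mul (by positivity)]
        refine le_trans (ENNReal.ofReal_le_ofReal ?_) le_self_add
        apply mul_le_mul_of_nonneg_right _ (by positivity)
        exact pow_le_pow_right₀ (by norm_num) (by omega)
      · rw [← ENNReal.ofReal_mul (by positivity), zero_add]
        apply ENNReal.ofReal_le_ofReal
        apply le_of_eq
        have e4 : (4 : ℝ) ^ j = 2 ^ j * 2 ^ j := by
          rw [← mul_pow]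
          norm_num
        rw [e4, one_div, inv_pow, pow_succ]
        field_simp
    refine (ENNReal.tsum_le_tsum h1).trans ?_
    rw [ENNReal.tsum_add]
    have h2 : ∑' j : ℕ, (if j < n0 then ENNReal.ofReal (2 ^ n0 * (2 * δ)) else 0) ≤ ENNReal.ofReal (1 / 8) := by
      rw [tsum_eq_sum (s := range n0) (fun j hj => by
        rw [Finset.mem_range] at hj
        rw [if_neg hj])]
      have h3 : ∑ j ∈ range n0, (if j < n0 then ENNReal.ofReal (2 ^ n0 * (2 * δ)) else 0) =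
          n0 * ENNReal.ofReal (2 ^ n0 * (2 * δ)) := by
        rw [Finset.sum_congr rfl (g := fun _ => ENNReal.ofReal (2 ^ n0 * (2 * δ))) (fun j hj => by
          rw [Finset.mem_range] at hj
          rw [if_pos hj]), Finset.sum_const, Finset.card_range, nsmul_eq_mul]
      rw [h3, ← ENNReal.ofReal_natCast, ← ENNReal.ofReal_mul (by positivity)]
      apply ENNReal.ofReal_le_ofReal
      rw [hδ]
      rw [show (n0 : ℝ) * (2 ^ n0 * (2 * (1 / (16 * (n0 + 1) * 2 ^ n0)))) = (n0 / (n0 + 1)) / 8 by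
        field_simp
        ring]
      have h4 : (n0 : ℝ) / (n0 + 1) ≤ 1 := by
        rw [div_le_one (by positivity)]
        linarith
      linarith
    have h5 : ∑' j : ℕ, ENNReal.ofReal (if j < n0 then 0 else 2 * K * (1 / 2) ^ j) ≤ ENNReal.ofReal (1 / 8) := by
      have hsum : Summable (fun j : ℕ => 2 * K * (1 / 2 : ℝ) ^ (j + n0)) := by
        have := (summable_geometric_of_lt_one (r := (1 / 2 : ℝ)) (by norm_num) (by norm_num)).mul_left (2 * K * (1 / 2) ^ n0)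
        refine this.congr fun j => ?_
        rw [pow_add]
        ring
      obtain ⟨f, hf⟩ : ∃ f : ℕ → ℝ≥0∞, f = fun j => ENNReal.ofReal (if j < n0 then 0 else 2 * K * (1 / 2) ^ j) := ⟨_, rfl⟩
      have hf1 : ∀ j, j < n0 → f j = 0 := fun j hj => by
        rw [hf]
        show ENNReal.ofReal (if j < n0 then 0 else 2 * K * (1 / 2) ^ j) = 0
        rw [if_pos hj, ENNReal.ofReal_zero]
      have hf2 : ∀ j, f (j + n0) = ENNReal.ofReal (2 * K * (1 / 2 : ℝ) ^ (j + n0)) := fun j => by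
        rw [hf]
        show ENNReal.ofReal (if j + n0 < n0 then 0 else 2 * K * (1 / 2) ^ (j + n0)) = _
        rw [if_neg (by omega)]
      have h6 : ∑' j : ℕ, f j = ∑' j : ℕ, ENNReal.ofReal (2 * K * (1 / 2 : ℝ) ^ (j + n0)) := by
        have h8 := Summable.sum_add_tsum_nat_add' (f := f) (k := n0) ENNReal.summable
        rw [← h8, Finset.sum_eq_zero (fun j hj => hf1 j (Finset.mem_range.1 hj)), zero_add]
        exact tsum_congr hf2
      rw [← hf]
      rw [h6, ← ENNReal.ofReal_tsum_of_nonneg (fun j => by positivity) hsum]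
      apply ENNReal.ofReal_le_ofReal
      have h7 : ∀ j : ℕ, 2 * K * (1 / 2 : ℝ) ^ (j + n0) = (2 * K * (1 / 2) ^ n0) * (1 / 2) ^ j := by
        intro j
        rw [pow_add]
        ring
      rw [tsum_congr h7, tsum_mul_left, tsum_geometric_two]
      linarith
    refine (add_le_add h2 h5).trans ?_
    rw [← ENNReal.ofReal_add (by norm_num) (by norm_num)]
    apply ENNReal.ofReal_le_ofReal
    norm_num

/-- tall bridges with few letters -/
def TT (K H b : ℕ) (lam : ℝ) : Set (List Bool) := {t | ∃ T, 2 * H * 2 ^ K ≤ T ∧ t ∈ Brd T ∧ b * (t.length : ℝ) ≤ H * lam}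

lemma sum_qq {lam : ℝ} (hlam : 0 < lam) (gs : List (List Bool)) :
    (((gs.map (qq lam)).sum : ℕ) : ℝ) * lam ≤ (((gs.map List.length).sum : ℕ) : ℝ) := by
  induction gs with
  | nil => simp
  | cons g gs ih =>
    rw [List.map_cons, List.sum_cons, List.map_cons, List.sum_cons, Nat.cast_add, Nat.cast_add, add_mul]
    have h1 : (qq lam g : ℝ) ≤ (g.length : ℝ) / lam := Nat.floor_le (by positivity)
    rw [le_div_iff₀ hlam] at h1
    exact add_le_add h1 ih

lemma wv_eq (b : ℕ) (lam : ℝ) (k s : ℕ) (gs : List (List Bool)) : TW.wv (omg b lam) k s gs =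
    SDN.wl gs * (2 ^ ((gs.map fun g => hgt g / 2 ^ (k + s) + 1).sum) * (1 / 2 : ℝ≥0∞) ^ (b * (gs.map (qq lam)).sum)) := by
  induction gs with
  | nil => simp [TW.wv, SDN.wl]
  | cons g gs ih =>
    unfold TW.wv at ih ⊢
    rw [List.map_cons, List.prod_cons, ih, wl_cons, List.map_cons, List.sum_cons, List.map_cons, List.sum_cons,
      pow_add _ (hgt g / 2 ^ (k + s) + 1), mul_add, pow_add _ (b * qq lam g)]
    unfold TW.w1 omg
    ring

theorem tallT : ∃ (d : ℝ) (b s k0 : ℕ), 0 < d ∧ 1 ≤ b ∧ ∀ (kc : ℕ) (lam : ℝ), k0 ≤ kc → 0 < lam → AS lam (d * Ub kc) →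
    ∀ H : ℕ, 1 ≤ H → gf (TT (kc + s) H b lam) ≤ ENNReal.ofReal (Ub kc / 2 ^ H) := by
  classical
  obtain ⟨d, b, s, k0, hd, hb, hs, hsm⟩ := smW_omg
  refine ⟨d, b, s, k0, hd, hb, fun kc lam hkc hlam hAS H hH => ?_⟩
  obtain ⟨ν, hν⟩ := hsm kc lam hkc hlam hAS
  have hU := Ub_pos kc
  have hpk : 1 ≤ 2 ^ kc := Nat.one_le_two_pow
  have hcov : 2 ^ H * gf (TT (kc + s) H b lam) ≤ ∑' gs : List (List Bool), ∑' n : ℕ, (if gs.length = n + 1 ∧ gs.IsChain LFold ∧
      (∀ u ∈ gs, u ∈ CCh.Sg kc) then TW.wv (omg b lam) kc s gs else 0) := by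
    have hfun : ∀ F : List (List Bool) → ℝ≥0∞, (∀ t ∈ TT (kc + s) H b lam, ∃ gs, unf gs = t ∧ 2 ^ H * wE t ≤ F gs) →
        2 ^ H * gf (TT (kc + s) H b lam) ≤ ∑' gs, F gs := by
      intro F hF
      have h1 : 2 ^ H * gf (TT (kc + s) H b lam) = Rec8.sw (TT (kc + s) H b lam) (fun _ => 2 ^ H) := by
        rw [← Rec8.sw_one, Rec8.sw_ind, Rec8.sw_ind, ← ENNReal.tsum_mul_left]
        refine tsum_congr fun t => ?_
        split_ifs
        · rw [mul_one, mul_comm]
        · rw [mul_zero]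
      rw [h1]
      refine Rec8.sw_cover _ _ _ (fun gs : List (List Bool) => unf gs) ?_
      intro t ht
      obtain ⟨gs, h2, h3⟩ := hF t ht
      refine ⟨gs, h2, ?_⟩
      rw [mul_comm]
      exact h3
    refine hfun _ ?_
    rintro t ⟨T, hT, ht, hl⟩
    obtain ⟨m, u, e, h⟩ := lf_exists false (kc + 5) t
    have hTbig : 2 ^ (kc + 6) ≤ T := by
      have h1 : 2 ^ (kc + 6) ≤ 2 ^ (kc + s) := Nat.pow_le_pow_right (by norm_num) (by omega)
      have h2 : 1 * 2 ^ (kc + s) ≤ 2 * H * 2 ^ (kc + s) := Nat.mul_le_mul_right _ (by omega)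
      omega
    have hm : 1 ≤ m := by
      by_contra hcon
      have h0 : m = 0 := by omega
      subst h0
      have h3 := no_leaf h (i := 0) (j := t.length) (by omega) le_rfl
      simp only [lvl_false] at h3
      rw [(mem_Brd.1 ht).2.2.2, lev_zero, sub_zero, abs_of_nonneg (by positivity)] at h3
      unfold RR at h3
      have h4 : (2 : ℤ) ^ (kc + 6) = 2 * 2 ^ (kc + 5) := by ring
      have h5 : ((2 ^ (kc + 6) : ℕ) : ℤ) ≤ T := by exact_mod_cast hTbig
      push_cast at h5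
      omega
    obtain ⟨gs, h1, h2, h3, h4, h5⟩ := bridge_rep_get ht (by omega) h hm
    refine ⟨gs, h2, ?_⟩
    refine le_trans ?_ (ENNReal.le_tsum (m - 1))
    have hbr : ∀ g ∈ gs, ∃ k : ℕ, g ∈ Brd k := fun g hg => by
      obtain ⟨k, hk, -⟩ := h4 g hg
      exact ⟨k, hk⟩
    have hne : ∀ g ∈ gs, g ≠ [] := fun g hg => by
      obtain ⟨k, b1, b2⟩ := h4 g hg
      refine Brd_ne_nil b1 ?_
      have : 2 ≤ 2 ^ (kc + 5) := by
        calc 2 = 2 ^ 1 := by norm_num
          _ ≤ 2 ^ (kc + 5) := Nat.pow_le_pow_right (by norm_num) (by omega)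
      omega
    have hgne : gs ≠ [] := by
      rintro rfl
      simp at h1
      omega
    have hsum := hgt_sum ht hm h1 hbr h5
    have hlen := unf_length hne hgne
    rw [h2] at hlen
    -- the heights in units
    have hV : 2 * H ≤ (gs.map fun g => hgt g / 2 ^ (kc + s) + 1).sum := by
      have hq : ∀ ls : List (List Bool), (ls.map fun g => hgt g + 1).sum ≤
          (ls.map fun g => hgt g / 2 ^ (kc + s) + 1).sum * 2 ^ (kc + s) := by
        intro ls
        induction ls with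
        | nil => simp
        | cons g ls ih =>
          rw [List.map_cons, List.sum_cons, List.map_cons, List.sum_cons, add_mul]
          have h6 := Nat.lt_mul_div_succ (hgt g) (show 0 < 2 ^ (kc + s) by positivity)
          have h7 : 2 ^ (kc + s) * (hgt g / 2 ^ (kc + s) + 1) = (hgt g / 2 ^ (kc + s) + 1) * 2 ^ (kc + s) := mul_comm _ _
          omega
      have h6 := hq gs
      have h7 : 2 * H * 2 ^ (kc + s) ≤ (gs.map fun g => hgt g / 2 ^ (kc + s) + 1).sum * 2 ^ (kc + s) := by omega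
      exact Nat.le_of_mul_le_mul_right h7 (by positivity)
    -- the number of lam's
    have hQ : b * (gs.map (qq lam)).sum ≤ H := by
      have h6 := sum_qq hlam gs
      have h7 : (((gs.map List.length).sum : ℕ) : ℝ) ≤ t.length := by
        have : 1 ≤ gs.length := List.length_pos_iff.2 hgne
        exact_mod_cast (by omega : (gs.map List.length).sum ≤ t.length)
      have h8 : (b : ℝ) * (((gs.map (qq lam)).sum : ℕ) : ℝ) * lam ≤ H * lam := by
        calc (b : ℝ) * (((gs.map (qq lam)).sum : ℕ) : ℝ) * lam = b * ((((gs.map (qq lam)).sum : ℕ) : ℝ) * lam) := by ring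
          _ ≤ b * (t.length : ℝ) := by
              have := h6.trans h7
              gcongr
          _ ≤ H * lam := hl
      have h9 := le_of_mul_le_mul_right h8 hlam
      exact_mod_cast h9
    rw [if_pos]
    · rw [wv_eq]
      have hw : wE t ≤ SDN.wl gs := by
        rw [← h2]
        exact wE_unf hne hgne
      rw [mul_comm]
      refine mul_le_mul' hw ?_
      have h6 : (2 : ℝ≥0∞) ^ (2 * H) ≤ 2 ^ ((gs.map fun g => hgt g / 2 ^ (kc + s) + 1).sum) :=
        pow_le_pow_right₀ (by norm_num) hV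
      have h7 : (1 / 2 : ℝ≥0∞) ^ H ≤ (1 / 2 : ℝ≥0∞) ^ (b * (gs.map (qq lam)).sum) :=
        pow_le_pow_of_le_one zero_le half_le_one hQ
      refine le_trans (le_of_eq ?_) (mul_le_mul' h6 h7)
      rw [two_mul, pow_add, mul_assoc, ← mul_pow]
      have h8 : (2 : ℝ≥0∞) * (1 / 2) = 1 := by
        rw [one_div]
        exact ENNReal.mul_inv_cancel (by norm_num) (by norm_num)
      rw [h8, one_pow, mul_one]
    · refine ⟨by omega, h3, ?_⟩
      intro g hg
      obtain ⟨l, hl', rfl⟩ := List.mem_iff_getElem.1 hg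
      have hlf := h5 l hl'
      obtain ⟨k, b1, b2⟩ := h4 _ hg
      refine ⟨isLf_cl ht (by omega) h (by omega) hlf, k, ?_, b1⟩
      have : 2 ^ (kc + 5) = 2 * 2 ^ (kc + 4) := by rw [← pow_succ']
      have : 1 ≤ 2 ^ (kc + 4) := Nat.one_le_two_pow
      omega
  have htot : 2 ^ H * gf (TT (kc + s) H b lam) ≤ ENNReal.ofReal (Ub kc) := by
    refine hcov.trans ?_
    rw [ENNReal.tsum_comm]
    refine (ENNReal.tsum_le_tsum fun n => TW.chain_W hν n).trans ?_
    have hsum : Summable (fun n : ℕ => Ub kc * ((1 / 2) * (1 / 4 : ℝ) ^ n)) := by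
      have := (summable_geometric_of_lt_one (r := (1 / 4 : ℝ)) (by norm_num) (by norm_num)).mul_left (Ub kc / 2)
      refine this.congr fun n => ?_
      ring
    rw [← ENNReal.ofReal_tsum_of_nonneg (fun n => by positivity) hsum]
    apply ENNReal.ofReal_le_ofReal
    have h7 : ∀ n : ℕ, Ub kc * ((1 / 2) * (1 / 4 : ℝ) ^ n) = (Ub kc / 2) * (1 / 4) ^ n := fun n => by ring
    rw [tsum_congr h7, tsum_mul_left, tsum_geometric_of_lt_one (by norm_num) (by norm_num)]
    have h10 : (1 - 1 / 4 : ℝ)⁻¹ = 4 / 3 := by norm_num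
    rw [h10]
    linarith
  have h2H : (2 : ℝ≥0∞) ^ H ≠ 0 := by positivity
  have h2H' : (2 : ℝ≥0∞) ^ H ≠ ∞ := ENNReal.pow_ne_top (by norm_num)
  have h6 : ENNReal.ofReal (Ub kc / 2 ^ H) = ENNReal.ofReal (Ub kc) / 2 ^ H := by
    rw [ENNReal.ofReal_div_of_pos (by positivity)]
    congr 1
    rw [ENNReal.ofReal_pow (by norm_num)]
    congr 1
    norm_num
  rw [h6, ENNReal.le_div_iff_mul_le (Or.inl h2H) (Or.inl h2H'), mul_comm]
  exact htot

end NTm

end HexObs
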