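import Pool.Agent.NT.OutDefs
import Pool.Agent.NT.ResDefs

/-!
NT (natural time): the dictionary between the bridges with n steps and the words BW n.
-/

set_option autoImplicit false

namespace NTF

open Finset

open HexObs hiding pos

open HexObs.SDN HexObs.NTm

open Pool.Agent.NT.ResNat

open scoped ENNReal

/-! ### The plane -/

/-- the position of a vertex in the plane; up is the real unit -/
noncomputable def JJ (v : Pt) : ℂ := ⟨(v.1 : ℝ) / 2 + v.2, -(Real.sqrt 3 / 2 * v.1)⟩

lemma JJ_re (v : Pt) : (JJ v).re = (v.1 : ℝ) / 2 + v.2 := rfl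

lemma JJ_im (v : Pt) : (JJ v).im = -(Real.sqrt 3 / 2 * v.1) := rfl

lemma JJ_add (v w : Pt) : JJ (v + w) = JJ v + JJ w := by
  apply Complex.ext
  · rw [Complex.add_re, JJ_re, JJ_re, JJ_re, Prod.fst_add, Prod.snd_add]
    push_cast
    ring
  · rw [Complex.add_im, JJ_im, JJ_im, JJ_im, Prod.fst_add]
    push_cast
    ring

lemma JJ_neg (v : Pt) : JJ (-v) = -JJ v := by
  apply Complex.ext
  · rw [Complex.neg_re, JJ_re, JJ_re, Prod.fst_neg, Prod.snd_neg]
    push_cast
    ring
  · rw [Complex.neg_im, JJ_im, JJ_im, Prod.fst_neg]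
    push_cast
    ring

lemma JJ_sub (v w : Pt) : JJ (v - w) = JJ v - JJ w := by
  rw [sub_eq_add_neg, JJ_add, JJ_neg, sub_eq_add_neg]

lemma JJ_lvl (v : Pt) : (JJ v).re = ((lvl false v : ℤ) : ℝ) / 2 := by
  rw [JJ_re]
  simp only [lvl, hd, ip, up, Bool.false_eq_true, if_false]
  push_cast
  ring

lemma JJ_norm (v : Pt) : ‖JJ v‖ ^ 2 = ((nrm v : ℤ) : ℝ) := by
  rw [Complex.sq_norm, Complex.normSq_apply, JJ_re, JJ_im]
  have h : Real.sqrt 3 * Real.sqrt 3 = 3 := Real.mul_self_sqrt (by norm_num)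
  unfold nrm
  push_cast
  linear_combination ((v.1 : ℝ) ^ 2 / 4) * h

lemma JJ_inj {v w : Pt} (h : JJ v = JJ w) : v = w := by
  have h1 := congrArg Complex.im h
  have h2 := congrArg Complex.re h
  rw [JJ_im, JJ_im] at h1
  rw [JJ_re, JJ_re] at h2
  have h3 : (0 : ℝ) < Real.sqrt 3 := Real.sqrt_pos.2 (by norm_num)
  have h4 : (v.1 : ℝ) = w.1 := by
    have : Real.sqrt 3 / 2 * ((v.1 : ℝ) - w.1) = 0 := by linarith
    rcases mul_eq_zero.1 this with h5 | h5
    · linarith
    · linarith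
  have h5 : (v.2 : ℝ) = w.2 := by linarith
  exact Prod.ext (by exact_mod_cast h4) (by exact_mod_cast h5)

lemma two_nrm (v : Pt) : 2 * nrm v ≤ lvl false v ^ 2 + lvl true v ^ 2 := by
  simp only [lvl, hd, ip, nrm, up, Bool.false_eq_true, if_false, if_true]
  nlinarith [sq_nonneg (v.1 + v.2), sq_nonneg v.1, sq_nonneg v.2]

/-- a large displacement is large in one of the two directions -/
lemma exists_dir {v : Pt} {D : ℝ} (hD : 0 ≤ D) (h : D ≤ ‖JJ v‖) : ∃ dir : Bool, D ≤ |((lvl dir v : ℤ) : ℝ)| := by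
  have h0 : D ^ 2 ≤ ((nrm v : ℤ) : ℝ) := by
    rw [← JJ_norm]
    exact pow_le_pow_left₀ hD h 2
  have h1 : (2 : ℝ) * ((nrm v : ℤ) : ℝ) ≤ ((lvl false v : ℤ) : ℝ) ^ 2 + ((lvl true v : ℤ) : ℝ) ^ 2 := by
    exact_mod_cast two_nrm v
  by_contra hcon
  push Not at hcon
  have h2 := hcon false
  have h3 := hcon true
  have h4 : ((lvl false v : ℤ) : ℝ) ^ 2 < D ^ 2 := by
    rw [← sq_abs]
    exact pow_lt_pow_left₀ h2 (abs_nonneg _) two_ne_zero
  have h5 : ((lvl true v : ℤ) : ℝ) ^ 2 < D ^ 2 := by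
    rw [← sq_abs]
    exact pow_lt_pow_left₀ h3 (abs_nonneg _) two_ne_zero
  linarith

lemma lvl_sub (dir : Bool) (v w : Pt) : lvl dir (v - w) = lvl dir v - lvl dir w := by
  unfold lvl
  rw [ip_sub_left]

/-! ### The steps -/

/-- the direction number of a step -/
def aa (v : Pt) : Fin 3 := if v.1 = 0 then 0 else if v.2 = 0 then 1 else 2

/-- the three directions of the even steps -/
def Ed (a : Fin 3) : Pt := if a = 0 then (0, 1) else if a = 1 then (-1, 0) else (1, -1)

/-- the direction of the step number i -/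
def de (i : ℕ) (a : Fin 3) : Pt := if Even i then Ed a else -Ed a

lemma aa_de (i : ℕ) (a : Fin 3) : aa (de i a) = a := by
  unfold de
  split_ifs
  · revert a
    decide
  · revert a
    decide

lemma de_dirs (i : ℕ) (a : Fin 3) : de i a ∈ dirs := by
  unfold de
  split_ifs
  · revert a
    decide
  · revert a
    decide

lemma cl_de (i : ℕ) (a : Fin 3) : cl (de i a) = if Even i then cl up else -cl up := by
  unfold de
  split_ifs
  · revert a
    decide
  · revert a
    decide

lemma de_aa : ∀ v ∈ dirs, (cl v = cl up → Ed (aa v) = v) ∧ (cl v = -cl up → -Ed (aa v) = v) := by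
  decide

lemma JJ_Ed (a : Fin 3) : JJ (Ed a) = Complex.exp (2 * (Real.pi : ℂ) * Complex.I * ((a : ℕ) : ℂ) / 3) := by
  have c1 : Real.cos (2 * Real.pi / 3) = -(1 / 2) := by
    rw [show 2 * Real.pi / 3 = Real.pi - Real.pi / 3 by ring, Real.cos_pi_sub, Real.cos_pi_div_three]
  have s1 : Real.sin (2 * Real.pi / 3) = Real.sqrt 3 / 2 := by
    rw [show 2 * Real.pi / 3 = Real.pi - Real.pi / 3 by ring, Real.sin_pi_sub, Real.sin_pi_div_three]
  have c2 : Real.cos (4 * Real.pi / 3) = -(1 / 2) := by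
    rw [show 4 * Real.pi / 3 = Real.pi / 3 + Real.pi by ring, Real.cos_add_pi, Real.cos_pi_div_three]
  have s2 : Real.sin (4 * Real.pi / 3) = -(Real.sqrt 3 / 2) := by
    rw [show 4 * Real.pi / 3 = Real.pi / 3 + Real.pi by ring, Real.sin_add_pi, Real.sin_pi_div_three]
  fin_cases a
  · simp only [Fin.zero_eta, Nat.cast_zero, mul_zero, zero_div, Complex.exp_zero]
    apply Complex.ext
    · rw [JJ_re]
      simp [Ed]
    · rw [JJ_im]
      simp [Ed]
  · have e : 2 * (Real.pi : ℂ) * Complex.I * (((⟨1, by norm_num⟩ : Fin 3) : ℕ) : ℂ) / 3 =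
        ((2 * Real.pi / 3 : ℝ) : ℂ) * Complex.I := by
      push_cast
      ring
    show JJ (-1, 0) = Complex.exp (2 * (Real.pi : ℂ) * Complex.I * (((⟨1, by norm_num⟩ : Fin 3) : ℕ) : ℂ) / 3)
    rw [e]
    apply Complex.ext
    · rw [JJ_re, Complex.exp_ofReal_mul_I_re, c1]
      norm_num
    · rw [JJ_im, Complex.exp_ofReal_mul_I_im, s1]
      push_cast
      ring
  · have e : 2 * (Real.pi : ℂ) * Complex.I * (((⟨2, by norm_num⟩ : Fin 3) : ℕ) : ℂ) / 3 =
        ((4 * Real.pi / 3 : ℝ) : ℂ) * Complex.I := by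
      push_cast
      ring
    show JJ (1, -1) = Complex.exp (2 * (Real.pi : ℂ) * Complex.I * (((⟨2, by norm_num⟩ : Fin 3) : ℕ) : ℂ) / 3)
    rw [e]
    apply Complex.ext
    · rw [JJ_re, Complex.exp_ofReal_mul_I_re, c2]
      norm_num
    · rw [JJ_im, Complex.exp_ofReal_mul_I_im, s2]
      push_cast
      ring

lemma JJ_de (i : ℕ) (a : Fin 3) : JJ (de i a) = step i a := by
  unfold de step
  split_ifs with h
  · rw [h.neg_one_pow, one_mul, JJ_Ed]
  · rw [(Nat.not_even_iff_odd.1 h).neg_one_pow, JJ_neg, JJ_Ed, neg_one_mul]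

/-- two directions of opposite class that are not opposite differ by a turn -/
lemma turn_of : ∀ d ∈ dirs, ∀ e ∈ dirs, cl e = -cl d → e ≠ -d → turn (decide (rotL d = e)) d = e := by
  decide

/-! ### Positions -/

lemma pos_zero {n : ℕ} (s : Fin n → Fin 3) : pos s 0 = 0 := by
  unfold pos
  rw [filter_false_of_mem (by simp), sum_empty]

lemma pos_succ {n : ℕ} (s : Fin n → Fin 3) (j : ℕ) (hj : j < n) : pos s (j + 1) = pos s j + step j (s ⟨j, hj⟩) := by
  unfold pos
  have h : univ.filter (fun i : Fin n => (i : ℕ) < j + 1) =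
      insert (⟨j, hj⟩ : Fin n) (univ.filter (fun i : Fin n => (i : ℕ) < j)) := by
    ext i
    simp only [mem_filter, mem_univ, true_and, mem_insert, Fin.ext_iff]
    omega
  rw [h, sum_insert (by simp), add_comm]

/-- the walk of a word -/
def sw (n : ℕ) (t : List Bool) : Fin n → Fin 3 := fun i => aa (dx up t i)

lemma step_sw (n : ℕ) (t : List Bool) (j : ℕ) (hj : j < n) : step j (sw n t ⟨j, hj⟩) = JJ (dx up t j) := by
  rw [← JJ_de]
  congr 1
  show de j (aa (dx up t j)) = dx up t j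
  have h1 := de_aa _ (dx_mem upd t j)
  have h2 := cl_dx up t j
  unfold de
  split_ifs at h2 ⊢
  · exact h1.1 h2
  · exact h1.2 h2

theorem pos_sw (n : ℕ) (t : List Bool) (k : ℕ) (hk : k ≤ n) : pos (sw n t) k = JJ (vx oo up t k) := by
  induction k with
  | zero =>
    rw [pos_zero]
    show 0 = JJ (0, 0)
    apply Complex.ext
    · rw [JJ_re]
      simp
    · rw [JJ_im]
      simp
  | succ k ih => rw [pos_succ _ k hk, ih (by omega), step_sw, vx_succ, JJ_add]

lemma re_sw (n : ℕ) (t : List Bool) (k : ℕ) (hk : k ≤ n) : (pos (sw n t) k).re = (lev t k : ℝ) / 2 := by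
  rw [pos_sw n t k hk, JJ_lvl]
  rfl

/-! ### The bijection -/

lemma mem_bridges {n : ℕ} {s : Fin n → Fin 3} : s ∈ bridges n ↔
    (∀ j k : ℕ, j ≤ n → k ≤ n → pos s j = pos s k → j = k) ∧
    ∀ k : ℕ, 1 ≤ k → k ≤ n → 0 < (pos s k).re ∧ (pos s k).re ≤ (pos s n).re := by
  classical
  unfold bridges saw
  simp only [Finset.mem_filter, Finset.mem_univ, true_and]

theorem sw_mem {n : ℕ} {t : List Bool} (ht : t ∈ BW n) : sw n t ∈ bridges n := by
  obtain ⟨⟨h, ht⟩, hl⟩ := ht
  rw [mem_Brd] at ht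
  obtain ⟨h1, h2, h3, h4⟩ := ht
  rw [hl] at h1 h2 h4
  rw [mem_bridges]
  constructor
  · intro j k hj hk he
    rw [pos_sw n t j hj, pos_sw n t k hk] at he
    have he := JJ_inj he
    rcases lt_trichotomy j k with h5 | h5 | h5
    · exact absurd he (h2 j k h5 hk)
    · exact h5
    · exact absurd he.symm (h2 k j h5 hj)
  · intro k hk1 hk
    rw [re_sw n t k hk, re_sw n t n le_rfl]
    obtain ⟨h5, h6⟩ := h1 k hk1 hk
    rw [← h4] at h6
    have h7 : (0 : ℝ) < (lev t k : ℝ) := by exact_mod_cast h5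
    have h8 : (lev t k : ℝ) ≤ (lev t n : ℝ) := by exact_mod_cast h6
    constructor <;> linarith

theorem sw_inj {n : ℕ} : Set.InjOn (sw n) (BW n) := by
  intro t ht t' ht' he
  obtain ⟨⟨h, ht⟩, hl⟩ := ht
  obtain ⟨⟨h', ht'⟩, hl'⟩ := ht'
  rw [mem_Brd] at ht ht'
  have e1 : ∀ i, i ≤ n → dx up t i = dx up t' i := by
    intro i hi
    rcases lt_or_eq_of_le hi with h5 | h5
    · have h6 : aa (dx up t i) = aa (dx up t' i) := congrFun he ⟨i, h5⟩
      have a1 := de_aa _ (dx_mem upd t i)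
      have a2 := de_aa _ (dx_mem upd t' i)
      have b1 := cl_dx up t i
      have b2 := cl_dx up t' i
      split_ifs at b1 b2
      · rw [← a1.1 b1, ← a2.1 b2, h6]
      · rw [← a1.2 b1, ← a2.2 b2, h6]
    · have a1 := ht.2.2.1
      have a2 := ht'.2.2.1
      rw [hl] at a1
      rw [hl'] at a2
      rw [h5, a1, a2]
  have hturn : ∀ d ∈ dirs, ∀ b b' : Bool, turn b d = turn b' d → b = b' := by decide
  apply List.ext_getElem (by rw [hl, hl'])
  intro i h5 h6
  have a1 := e1 (i + 1) (by omega)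
  rw [dx_succ, dx_succ, e1 i (by omega)] at a1
  have a2 := hturn _ (dx_mem upd t' i) _ _ a1
  have b1 : tf t i = t[i] := by
    unfold tf
    rw [List.getD_eq_getElem _ _ h5]
  have b2 : tf t' i = t'[i] := by
    unfold tf
    rw [List.getD_eq_getElem _ _ h6]
  rw [← b1, ← b2, a2]

theorem sw_surj {n : ℕ} (hn : Even n) {s : Fin n → Fin 3} (hs : s ∈ bridges n) :
    ∃ t ∈ BW n, sw n t = s := by
  rcases Nat.eq_zero_or_pos n with rfl | h1n
  · refine ⟨[], ⟨⟨0, ?_⟩, rfl⟩, Subsingleton.elim _ _⟩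
    rw [mem_Brd]
    refine ⟨fun i h1 h2 => ?_, fun i k h1 h2 => ?_, rfl, rfl⟩
    · simp at h2
      omega
    · simp at h2
      omega
  rw [mem_bridges] at hs
  obtain ⟨hinj, hre⟩ := hs
  -- the directions
  obtain ⟨D, hD⟩ : ∃ D : ℕ → Pt, D = fun i => if h : i < n then de i (s ⟨i, h⟩) else up := ⟨_, rfl⟩
  have hD1 : ∀ i (h : i < n), D i = de i (s ⟨i, h⟩) := fun i h => by
    rw [hD]
    simp only [dif_pos h]
  have hDn : D n = up := by
    rw [hD]
    simp only [lt_irrefl, dif_neg, not_false_iff]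
  have hDd : ∀ i, D i ∈ dirs := fun i => by
    rw [hD]
    simp only
    split_ifs
    · exact de_dirs _ _
    · exact upd
  have hDcl : ∀ i, i ≤ n → cl (D i) = if Even i then cl up else -cl up := fun i hi => by
    rcases lt_or_eq_of_le hi with h | h
    · rw [hD1 i h, cl_de]
    · rw [h, hDn, if_pos hn]
  have hJ : ∀ i, i < n → pos s (i + 1) = pos s i + JJ (D i) := fun i hi => by
    rw [pos_succ s i hi, hD1 i hi, JJ_de]
  have hre0 : (pos s 0).re = 0 := by rw [pos_zero, Complex.zero_re]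
  -- the first direction
  have hD0 : D 0 = up := by
    have h2 := (hre 1 le_rfl h1n).1
    rw [hJ 0 (by omega), Complex.add_re, hre0, zero_add, JJ_lvl] at h2
    have h3 : 0 < lvl false (D 0) := by
      have : (0 : ℝ) < ((lvl false (D 0) : ℤ) : ℝ) := by linarith
      exact_mod_cast this
    have h4 := hDcl 0 (by omega)
    rw [if_pos (by decide)] at h4
    have key : ∀ d ∈ dirs, cl d = cl up → 0 < lvl false d → d = up := by decide
    exact key _ (hDd 0) h4 h3
  -- no reversal
  have hrev : ∀ i, i < n → D (i + 1) ≠ -D i := by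
    intro i hi he
    rcases lt_or_eq_of_le (show i + 1 ≤ n from hi) with h | h
    · have h2 := hJ (i + 1) h
      rw [hJ i hi, he, JJ_neg] at h2
      have h3 : pos s (i + 1 + 1) = pos s i := by rw [h2]; ring
      have := hinj _ _ (by omega) (by omega) h3
      omega
    · rw [h, hDn] at he
      have h2 : n ≠ 1 := by
        rintro rfl
        exact absurd hn (by decide)
      have h3 := (hre i (by omega) (by omega)).2
      have h4 : D i = -up := by rw [he, neg_neg]
      have h5 := hJ i hi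
      rw [h4, h] at h5
      rw [h5, Complex.add_re, JJ_neg, Complex.neg_re] at h3
      have h6 : (JJ up).re = 1 := by
        rw [JJ_re]
        simp [up]
      rw [h6] at h3
      linarith
  -- the word
  obtain ⟨t, ht⟩ : ∃ t : List Bool, t = List.ofFn fun i : Fin n => decide (rotL (D i) = D (i + 1)) := ⟨_, rfl⟩
  have hl : t.length = n := by rw [ht, List.length_ofFn]
  have htf : ∀ i, i < n → tf t i = decide (rotL (D i) = D (i + 1)) := fun i hi => by
    unfold tf
    rw [List.getD_eq_getElem _ _ (by omega)]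
    simp only [ht, List.getElem_ofFn]
  have hdx : ∀ i, i ≤ n → dx up t i = D i := by
    intro i
    induction i with
    | zero =>
      intro _
      rw [hD0]
      rfl
    | succ i ih =>
      intro hi
      rw [dx_succ, ih (by omega), htf i (by omega)]
      refine turn_of _ (hDd i) _ (hDd (i + 1)) ?_ (hrev i (by omega))
      rw [hDcl _ hi, hDcl i (by omega)]
      rcases Nat.even_or_odd i with h | h
      · rw [if_neg (by rw [Nat.even_add_one]; exact fun h' => h' h), if_pos h]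
      · rw [if_pos (by rw [Nat.even_add_one]; exact Nat.not_even_iff_odd.2 h),
          if_neg (Nat.not_even_iff_odd.2 h), neg_neg]
  have hsw : sw n t = s := by
    funext i
    show aa (dx up t i) = s i
    rw [hdx i (by omega), hD1 i i.2, aa_de]
  have hlev : ∀ k, k ≤ n → (pos s k).re = (lev t k : ℝ) / 2 := fun k hk => by
    rw [← re_sw n t k hk, hsw]
  have hlevn : ∀ k, 1 ≤ k → k ≤ n → 0 < lev t k ∧ lev t k ≤ lev t n := fun k h1 hk => by
    obtain ⟨h2, h3⟩ := hre k h1 hk
    rw [hlev k hk] at h2 h3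
    rw [hlev n le_rfl] at h3
    constructor
    · have : (0 : ℝ) < (lev t k : ℝ) := by linarith
      exact_mod_cast this
    · have : (lev t k : ℝ) ≤ (lev t n : ℝ) := by linarith
      exact_mod_cast this
  have hdvd : (3 : ℤ) ∣ lev t n := by
    have := lev_mod t n
    rwa [if_pos hn, sub_zero] at this
  obtain ⟨q, hq⟩ := hdvd
  have hq0 : 0 < q := by
    have := (hlevn n h1n le_rfl).1
    omega
  refine ⟨t, ⟨⟨q.toNat, ?_⟩, hl⟩, hsw⟩
  have hqq : ((q.toNat : ℕ) : ℤ) = q := Int.toNat_of_nonneg hq0.le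
  rw [mem_Brd, hl, hqq, ← hq]
  refine ⟨fun i h2 h3 => hlevn i h2 h3, ?_, ?_, rfl⟩
  · intro i k hik hk he
    have h2 : pos s i = pos s k := by
      rw [← hsw, pos_sw n t i (by omega), pos_sw n t k hk, he]
    have := hinj i k (by omega) hk h2
    omega
  · rw [hdx n le_rfl, hDn]

/-- words of BW n have an even number of letters -/
theorem even_of_mem {n : ℕ} {t : List Bool} (ht : t ∈ BW n) : Even n := by
  obtain ⟨⟨h, ht⟩, hl⟩ := ht
  rw [mem_Brd] at ht
  have h1 := lev_mod t n
  have h2 := ht.2.2.2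
  rw [hl] at h2
  by_contra hcon
  rw [if_neg hcon, h2] at h1
  omega

/-! ### Counting -/

lemma gf_card {n : ℕ} {B : Set (List Bool)} (hB : ∀ t ∈ B, t.length = n) :
    gf B = (B.ncard : ℝ≥0∞) * ENNReal.ofReal (xc ^ n) := by
  have hTf : B.Finite := (List.finite_length_eq Bool n).subset hB
  unfold gf
  have := hTf.fintype
  rw [tsum_fintype]
  have h2 : ∀ t : B, wE (t : List Bool) = ENNReal.ofReal (xc ^ n) := by
    rintro ⟨t, ht⟩
    unfold wE
    rw [hB t ht]
  rw [Finset.sum_congr rfl fun t _ => h2 t, Finset.sum_const, nsmul_eq_mul, Finset.card_univ,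
    Set.ncard_eq_toFinset_card' B, Set.toFinset_card]

/-- the number of the bridges with a property -/
theorem card_eq {n : ℕ} (hn : Even n) (P : (Fin n → Fin 3) → Prop) [DecidablePred P] :
    ((bridges n).filter P).card = {t | t ∈ BW n ∧ P (sw n t)}.ncard := by
  rw [← Set.ncard_coe_finset]
  have h : (((bridges n).filter P : Finset (Fin n → Fin 3)) : Set (Fin n → Fin 3)) =
      sw n '' {t | t ∈ BW n ∧ P (sw n t)} := by
    ext s
    rw [Finset.mem_coe, Finset.mem_filter]
    constructor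
    · rintro ⟨h1, h2⟩
      obtain ⟨t, ht, rfl⟩ := sw_surj hn h1
      exact ⟨t, ⟨ht, h2⟩, rfl⟩
    · rintro ⟨t, ⟨ht, h2⟩, rfl⟩
      exact ⟨sw_mem ht, h2⟩
  rw [h]
  exact (sw_inj.mono fun t ht => ht.1).ncard_image

lemma gf_emp : gf ∅ = 0 := by
  unfold gf
  simp

lemma xcn_pos (n : ℕ) : ENNReal.ofReal (xc ^ n) ≠ 0 := by
  have := xc_pos
  rw [ne_eq, ENNReal.ofReal_eq_zero, not_le]
  positivity

/-- **the dictionary for proportions** -/
theorem prop_le {n : ℕ} (hne : gf (BW n) ≠ 0) (P : (Fin n → Fin 3) → Prop) [DecidablePred P]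
    {c : ℝ} (hc : 0 ≤ c) {B : Set (List Bool)} (hPB : ∀ t ∈ BW n, P (sw n t) → t ∈ B)
    (h : gf B ≤ ENNReal.ofReal c * gf (BW n)) :
    (((bridges n).filter P).card : ℝ) ≤ c * ((bridges n).card : ℝ) := by
  have hev : Even n := by
    by_contra hcon
    apply hne
    have : BW n = ∅ := by
      rw [Set.eq_empty_iff_forall_notMem]
      exact fun t ht => hcon (even_of_mem ht)
    rw [this]
    exact gf_emp
  have h1 : gf {t | t ∈ BW n ∧ P (sw n t)} ≤ ENNReal.ofReal c * gf (BW n) :=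
    (gf_mono fun t ht => hPB t ht.1 ht.2).trans h
  rw [gf_card (n := n) (fun t ht => ht.1.2), gf_card (n := n) (B := BW n) (fun t ht => ht.2), ← card_eq hev P] at h1
  have h2 : (bridges n).card = (BW n).ncard := by
    have := card_eq hev (fun _ => True)
    rw [Finset.filter_true_of_mem (fun _ _ => trivial)] at this
    rw [this]
    congr 1
    ext t
    exact ⟨fun h => h.1, fun h => ⟨h, trivial⟩⟩
  rw [← h2, ← mul_assoc] at h1
  have h3 : ENNReal.ofReal (xc ^ n) ≠ ⊤ := ENNReal.ofReal_ne_top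
  have h4 := (ENNReal.mul_le_mul_iff_left (xcn_pos n) h3).1 h1
  rw [← ENNReal.ofReal_natCast, ← ENNReal.ofReal_natCast, ← ENNReal.ofReal_mul hc] at h4
  exact (ENNReal.ofReal_le_ofReal_iff (by positivity)).1 h4

theorem bridges_nonempty {n : ℕ} (hne : gf (BW n) ≠ 0) : (bridges n).Nonempty := by
  by_contra hcon
  apply hne
  have : BW n = ∅ := by
    rw [Set.eq_empty_iff_forall_notMem]
    intro t ht
    exact hcon ⟨_, sw_mem ht⟩
  rw [this]
  exact gf_emp

end NTF
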