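import Pool.Agent.Tight.Prokh

/-!
NT (natural time): tightness in the space of the curves from a modulus of continuity.
-/

set_option autoImplicit false

namespace NTF

open MeasureTheory Filter Topology

/-- the curve moves at most r in the time δ -/
def Md (δ r : ℝ) (f : C(unitInterval, ℂ)) : Prop := ∀ u v : unitInterval, dist u v ≤ δ → dist (f u) (f v) ≤ r

/-- the functions with a common modulus of continuity -/
lemma modulus_closed (δ r : ℕ → ℝ) :
    IsClosed {f : unitInterval → ℂ | f 0 = 0 ∧ ∀ q u v, dist u v ≤ δ q → dist (f u) (f v) ≤ r q} := by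
  have h1 : IsClosed {f : unitInterval → ℂ | f 0 = 0} := isClosed_eq (continuous_apply 0) continuous_const
  have h2 : IsClosed {f : unitInterval → ℂ | ∀ q u v, dist u v ≤ δ q → dist (f u) (f v) ≤ r q} := by
    have e : {f : unitInterval → ℂ | ∀ q u v, dist u v ≤ δ q → dist (f u) (f v) ≤ r q} =
        ⋂ q : ℕ, ⋂ u : unitInterval, ⋂ v : unitInterval, ⋂ _ : dist u v ≤ δ q,
          {f : unitInterval → ℂ | dist (f u) (f v) ≤ r q} := by
      ext f
      simp only [Set.mem_iInter, Set.mem_ofPred_eq]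
    rw [e]
    exact isClosed_iInter fun q => isClosed_iInter fun u => isClosed_iInter fun v => isClosed_iInter fun _ =>
      isClosed_le ((continuous_apply u).dist (continuous_apply v)) continuous_const
  exact h1.inter h2

/-- a bound for the functions with a modulus of continuity -/
lemma modulus_bound {δ r : ℝ} (hδ : 0 < δ) {f : unitInterval → ℂ} (h0 : f 0 = 0)
    (h : ∀ u v, dist u v ≤ δ → dist (f u) (f v) ≤ r) {m : ℕ} (hm : 1 ≤ m) (hmδ : 1 / (m : ℝ) ≤ δ) (x : unitInterval) :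
    dist (f x) 0 ≤ m * r := by
  have hm0 : (0 : ℝ) < m := by exact_mod_cast hm
  have hx0 := x.2.1
  have hx1 := x.2.2
  have hp : ∀ k : ℕ, k ≤ m → (x : ℝ) * k / m ∈ Set.Icc (0 : ℝ) 1 := by
    intro k hk
    have hk' : (k : ℝ) ≤ m := by exact_mod_cast hk
    constructor
    · positivity
    · rw [div_le_one hm0]
      calc (x : ℝ) * k ≤ 1 * k := mul_le_mul_of_nonneg_right hx1 (Nat.cast_nonneg k)
        _ ≤ m := by linarith
  have key : ∀ k : ℕ, (hk : k ≤ m) → dist (f ⟨_, hp k hk⟩) 0 ≤ k * r := by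
    intro k
    induction k with
    | zero =>
      intro hk
      have : (⟨_, hp 0 hk⟩ : unitInterval) = 0 := by
        apply Subtype.ext
        show (x : ℝ) * (0 : ℕ) / m = 0
        simp
      rw [this, h0]
      simp
    | succ k ih =>
      intro hk
      have h1 := ih (by omega)
      have h2 : dist (⟨_, hp (k + 1) hk⟩ : unitInterval) ⟨_, hp k (by omega)⟩ ≤ δ := by
        rw [Subtype.dist_eq, Real.dist_eq]
        show |(x : ℝ) * ((k + 1 : ℕ) : ℝ) / m - (x : ℝ) * (k : ℝ) / m| ≤ δ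
        have e : (x : ℝ) * ((k + 1 : ℕ) : ℝ) / m - (x : ℝ) * (k : ℝ) / m = x / m := by
          push_cast
          ring
        rw [e, abs_of_nonneg (by positivity)]
        refine le_trans ?_ hmδ
        exact div_le_div_of_nonneg_right hx1 hm0.le
      have h3 := h _ _ h2
      have h4 := dist_triangle (f ⟨_, hp (k + 1) hk⟩) (f ⟨_, hp k (by omega)⟩) 0
      have e : ((k + 1 : ℕ) : ℝ) * r = k * r + r := by
        push_cast
        ring
      rw [e]
      linarith
  have h5 := key m le_rfl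
  have h6 : (⟨_, hp m le_rfl⟩ : unitInterval) = x := by
    apply Subtype.ext
    show (x : ℝ) * (m : ℝ) / m = x
    field_simp
  rwa [h6] at h5

/-- Arzela-Ascoli -/
theorem isCompact_modulus (δ r : ℕ → ℝ) (hδ : ∀ q, 0 < δ q) (hr : Tendsto r atTop (𝓝 0)) :
    IsCompact {f : C(unitInterval, ℂ) | f 0 = 0 ∧ ∀ q, Md (δ q) (r q) f} := by
  have hcont : ∀ f : unitInterval → ℂ, (∀ q u v, dist u v ≤ δ q → dist (f u) (f v) ≤ r q) → Continuous f := by
    intro f hf
    rw [Metric.continuous_iff]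
    intro u ε hε
    obtain ⟨q, hq⟩ := (hr.eventually_lt_const hε).exists
    refine ⟨δ q, hδ q, fun v hv => (hf q v u hv.le).trans_lt hq⟩
  apply ArzelaAscoli.isCompact_of_equicontinuous
  · have e : ContinuousMap.toFun '' {f : C(unitInterval, ℂ) | f 0 = 0 ∧ ∀ q, Md (δ q) (r q) f} =
        {f : unitInterval → ℂ | f 0 = 0 ∧ ∀ q u v, dist u v ≤ δ q → dist (f u) (f v) ≤ r q} := by
      ext f
      constructor
      · rintro ⟨g, hg, rfl⟩
        exact hg
      · rintro ⟨h0, hf⟩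
        exact ⟨⟨f, hcont f hf⟩, ⟨h0, hf⟩, rfl⟩
    rw [e]
    obtain ⟨m, hm⟩ := exists_nat_one_div_lt (hδ 0)
    have hc : IsCompact (Set.pi Set.univ fun _ : unitInterval => Metric.closedBall (0 : ℂ) (((m + 1 : ℕ) : ℝ) * r 0)) :=
      isCompact_univ_pi fun _ => isCompact_closedBall _ _
    refine hc.of_isClosed_subset (modulus_closed δ r) ?_
    rintro f ⟨h0, hf⟩ x _
    rw [Metric.mem_closedBall]
    exact modulus_bound (hδ 0) h0 (hf 0) (Nat.succ_le_succ (Nat.zero_le m)) (by push_cast; exact hm.le) x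
  · intro u
    rw [Metric.equicontinuousAt_iff]
    intro ε hε
    obtain ⟨q, hq⟩ := (hr.eventually_lt_const hε).exists
    refine ⟨δ q, hδ q, fun v hv f => ?_⟩
    exact (f.2.2 q u v (by rw [dist_comm]; exact hv.le)).trans_lt hq

/-- tightness from a modulus of continuity -/
theorem tight_of_modulus (S : Set (Measure C(unitInterval, ℂ)))
    (h0 : ∀ μ ∈ S, μ {f : C(unitInterval, ℂ) | ¬ f 0 = 0} = 0)
    (hm : ∀ ε r : ℝ, 0 < ε → 0 < r → ∃ δ : ℝ, 0 < δ ∧ ∀ μ ∈ S, μ {f : C(unitInterval, ℂ) | ¬ Md δ r f} ≤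
      ENNReal.ofReal ε) : IsTightMeasureSet S := by
  rw [isTightMeasureSet_iff_exists_isCompact_measure_compl_le]
  intro ε hε
  have h1 : min ε 1 ≠ ⊤ := ne_top_of_le_ne_top ENNReal.one_ne_top (min_le_right _ _)
  obtain ⟨η, hη⟩ : ∃ η : ℝ, η = (min ε 1).toReal := ⟨_, rfl⟩
  have hη0 : 0 < η := by
    rw [hη]
    exact ENNReal.toReal_pos (lt_min hε one_pos).ne' h1
  choose δ hδ hmδ using fun q : ℕ => hm (η / 2 * (1 / 2) ^ q) (1 / (q + 1)) (by positivity) (by positivity)
  refine ⟨{f | f 0 = 0 ∧ ∀ q, Md (δ q) (1 / (q + 1)) f}, isCompact_modulus δ _ hδ tendsto_one_div_add_atTop_nhds_zero_nat, ?_⟩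
  intro μ hμ
  have h2 : {f : C(unitInterval, ℂ) | f 0 = 0 ∧ ∀ q : ℕ, Md (δ q) (1 / (q + 1)) f}ᶜ ⊆
      {f | ¬ f 0 = 0} ∪ ⋃ q : ℕ, {f | ¬ Md (δ q) (1 / (q + 1)) f} := by
    intro f hf
    by_contra h3
    apply hf
    rw [Set.mem_union, not_or, Set.mem_iUnion, not_exists] at h3
    exact ⟨not_not.1 h3.1, fun q => not_not.1 (h3.2 q)⟩
  refine (measure_mono h2).trans ((measure_union_le _ _).trans ?_)
  rw [h0 μ hμ, zero_add]
  refine (measure_iUnion_le _).trans ?_
  have h3 : ∑' q : ℕ, μ {f : C(unitInterval, ℂ) | ¬ Md (δ q) (1 / (q + 1)) f} ≤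
      ∑' q : ℕ, ENNReal.ofReal (η / 2 * (1 / 2) ^ q) := ENNReal.tsum_le_tsum fun q => hmδ q μ hμ
  refine h3.trans ?_
  have h4 : Summable fun q : ℕ => η / 2 * (1 / 2 : ℝ) ^ q :=
    (summable_geometric_of_lt_one (by norm_num) (by norm_num)).mul_left _
  rw [← ENNReal.ofReal_tsum_of_nonneg (fun q => by positivity) h4, tsum_mul_left,
    tsum_geometric_of_lt_one (by norm_num) (by norm_num)]
  have e : η / 2 * (1 - 1 / 2 : ℝ)⁻¹ = η := by ring
  rw [e, hη, ENNReal.ofReal_toReal h1]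
  exact min_le_left _ _

/-- finitely many curves have a common modulus of continuity -/
lemma finite_modulus {F : Set C(unitInterval, ℂ)} (hF : F.Finite) {r : ℝ} (hr : 0 < r) :
    ∃ δ : ℝ, 0 < δ ∧ ∀ f ∈ F, Md δ r f := by
  refine hF.induction_on_subset _ ⟨1, one_pos, fun f hf => absurd hf (Set.notMem_empty f)⟩ ?_
  rintro f G - - - ⟨δ, hδ, hG⟩
  have h1 := CompactSpace.uniformContinuous_of_continuous f.continuous
  rw [Metric.uniformContinuous_iff] at h1
  obtain ⟨δ', hδ', h2⟩ := h1 r hr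
  refine ⟨min δ (δ' / 2), lt_min hδ (by positivity), ?_⟩
  intro g hg
  rcases Set.mem_insert_iff.1 hg with rfl | hg
  · intro u v huv
    exact (h2 (lt_of_le_of_lt (huv.trans (min_le_right _ _)) (by linarith))).le
  · intro u v huv
    exact hG g hg u v (huv.trans (min_le_left _ _))

end NTF
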