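import Pool.Agent.NT.Dict

/-!
NT (natural time): from the words to the bridges with n steps; the size.
-/

set_option autoImplicit false

namespace NTF

open Finset

open HexObs hiding pos

open HexObs.SDN HexObs.NTm

open Pool.Agent.NT.ResNat

open scoped ENNReal

open scoped Classical in
/-- what is used of the lengths A in the limit -/
structure Facts (A : Set ℕ) : Prop where
  one : ∀ n ∈ A, 1 ≤ n ∧ (bridges n).Nonempty
  mod : ∀ ε r : ℝ, 0 < ε → 0 < r → ∃ (ρ : ℝ) (n0 : ℕ), 0 < ρ ∧ ∀ n ∈ A, n0 ≤ n →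
    (((bridges n).filter fun s => ∃ i j : ℕ, i ≤ j ∧ j ≤ n ∧ (j : ℝ) - i ≤ ρ * n ∧
      r * size n < ‖pos s j - pos s i‖).card : ℝ) ≤ ε * ((bridges n).card : ℝ)
  low : ∀ ε : ℝ, 0 < ε → ∃ (κ : ℝ) (n0 : ℕ), 0 < κ ∧ ∀ n ∈ A, n0 ≤ n →
    (((bridges n).filter fun s => (pos s n).re ≤ κ * size n).card : ℝ) ≤ ε * ((bridges n).card : ℝ)
  four : ∃ (C : ℝ) (n0 : ℕ), 0 < C ∧ ∀ n ∈ A, n0 ≤ n →
    ∑ s ∈ bridges n, ‖pos s n‖ ^ 4 ≤ C * size n ^ 4 * ((bridges n).card : ℝ)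

/-- layers of the fourth power -/
lemma layer {x : ℝ} (hx : 0 ≤ x) (I : ℕ) (hI : x < 2 ^ I) :
    x ^ 4 ≤ 1 + 16 * ∑ i ∈ range I, 16 ^ i * (if 2 ^ i ≤ x then (1 : ℝ) else 0) := by
  induction I with
  | zero =>
    rw [range_zero, sum_empty, mul_zero, add_zero]
    rw [pow_zero] at hI
    exact pow_le_one₀ hx hI.le
  | succ I ih =>
    rw [sum_range_succ]
    by_cases h : x < 2 ^ I
    · rw [if_neg (not_le.2 h), mul_zero, add_zero]
      exact ih h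
    · rw [if_pos (not_lt.1 h), mul_one]
      have h1 : x ^ 4 ≤ (2 ^ (I + 1)) ^ 4 := pow_le_pow_left₀ hx hI.le 4
      have h2 : ((2 : ℝ) ^ (I + 1)) ^ 4 = 16 * 16 ^ I := by
        rw [← pow_mul, mul_comm (I + 1) 4, pow_mul]
        norm_num
        ring
      have h3 : 0 ≤ ∑ i ∈ range I, (16 : ℝ) ^ i * (if 2 ^ i ≤ x then (1 : ℝ) else 0) := by
        apply sum_nonneg
        intro i _
        split_ifs <;> positivity
      rw [h2] at h1
      linarith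

lemma geo (I : ℕ) (K : ℝ) (hK : 0 ≤ K) : ∑ i ∈ range I, (16 : ℝ) ^ i * (K / 32 ^ i) ≤ 2 * K := by
  have h : ∀ I : ℕ, ∑ i ∈ range I, (16 : ℝ) ^ i * (K / 32 ^ i) = 2 * K * (1 - (1 / 2) ^ I) := by
    intro I
    induction I with
    | zero => simp
    | succ I ih =>
      rw [sum_range_succ, ih]
      have h1 : (16 : ℝ) ^ I * (K / 32 ^ I) = K * (1 / 2) ^ I := by
        rw [show (32 : ℝ) = 16 * 2 by norm_num, mul_pow, one_div, inv_pow]
        field_simp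
      rw [h1, pow_succ]
      ring
  rw [h]
  have h1 : (0 : ℝ) ≤ (1 / 2) ^ I := by positivity
  nlinarith

section

variable {n : ℕ} {R : ℝ}

/-- the fourth moment -/
theorem four_of (hR : 0 < R) {K : ℝ} (hK : 0 ≤ K)
    (h : ∀ i : ℕ, (((bridges n).filter fun s => 2 ^ i * R ≤ ‖pos s n‖).card : ℝ) ≤
      K / 32 ^ i * ((bridges n).card : ℝ)) :
    ∑ s ∈ bridges n, ‖pos s n‖ ^ 4 ≤ (1 + 32 * K) * R ^ 4 * ((bridges n).card : ℝ) := by
  obtain ⟨I, hI⟩ : ∃ I : ℕ, ∀ s ∈ bridges n, ‖pos s n‖ / R < 2 ^ I := by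
    obtain ⟨M, hM⟩ : ∃ M : ℝ, ∀ s ∈ bridges n, ‖pos s n‖ / R ≤ M :=
      ⟨∑ s ∈ bridges n, ‖pos s n‖ / R, fun s hs =>
        single_le_sum (f := fun s => ‖pos s n‖ / R) (fun _ _ => by positivity) hs⟩
    obtain ⟨I, hI⟩ := pow_unbounded_of_one_lt M (one_lt_two (α := ℝ))
    exact ⟨I, fun s hs => (hM s hs).trans_lt hI⟩
  have h1 : ∑ s ∈ bridges n, (‖pos s n‖ / R) ^ 4 ≤
      ∑ s ∈ bridges n, (1 + 16 * ∑ i ∈ range I, 16 ^ i * (if 2 ^ i ≤ ‖pos s n‖ / R then (1 : ℝ) else 0)) :=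
    sum_le_sum fun s hs => layer (by positivity) I (hI s hs)
  have h2 : ∑ s ∈ bridges n, (1 + 16 * ∑ i ∈ range I, 16 ^ i * (if 2 ^ i ≤ ‖pos s n‖ / R then (1 : ℝ) else 0)) =
      ((bridges n).card : ℝ) + 16 * ∑ i ∈ range I, 16 ^ i *
        (((bridges n).filter fun s => 2 ^ i * R ≤ ‖pos s n‖).card : ℝ) := by
    rw [sum_add_distrib, sum_const, nsmul_eq_mul, mul_one, ← mul_sum, sum_comm]
    congr 2
    apply sum_congr rfl
    intro i _
    rw [← mul_sum]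
    congr 1
    rw [card_filter]
    push_cast
    apply sum_congr rfl
    intro s _
    simp only [le_div_iff₀ hR]
  have h3 : ∑ i ∈ range I, (16 : ℝ) ^ i * (((bridges n).filter fun s => 2 ^ i * R ≤ ‖pos s n‖).card : ℝ) ≤
      2 * K * ((bridges n).card : ℝ) := by
    calc _ ≤ ∑ i ∈ range I, (16 : ℝ) ^ i * (K / 32 ^ i * ((bridges n).card : ℝ)) :=
          sum_le_sum fun i _ => mul_le_mul_of_nonneg_left (h i) (by positivity)
      _ = (∑ i ∈ range I, (16 : ℝ) ^ i * (K / 32 ^ i)) * ((bridges n).card : ℝ) := by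
          rw [sum_mul]
          exact sum_congr rfl fun i _ => by ring
      _ ≤ _ := mul_le_mul_of_nonneg_right (geo I K hK) (Nat.cast_nonneg _)
  rw [h2] at h1
  have h4 : ∑ s ∈ bridges n, ‖pos s n‖ ^ 4 = R ^ 4 * ∑ s ∈ bridges n, (‖pos s n‖ / R) ^ 4 := by
    rw [mul_sum]
    apply sum_congr rfl
    intro s _
    rw [div_pow]
    field_simp
  rw [h4]
  have h5 : (0 : ℝ) < R ^ 4 := by positivity
  nlinarith

lemma size_sq (hne : (bridges n).Nonempty) :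
    size n ^ 2 * ((bridges n).card : ℝ) = ∑ s ∈ bridges n, ‖pos s n‖ ^ 2 := by
  have hc : (0 : ℝ) < ((bridges n).card : ℝ) := by exact_mod_cast hne.card_pos
  unfold size
  rw [Real.sq_sqrt (by positivity)]
  field_simp

lemma size_nonneg (n : ℕ) : 0 ≤ size n := Real.sqrt_nonneg _

/-- the size from above -/
theorem size_le (hR : 0 < R) (hne : (bridges n).Nonempty) {K : ℝ} (hK : 0 ≤ K)
    (h : ∑ s ∈ bridges n, ‖pos s n‖ ^ 4 ≤ K * R ^ 4 * ((bridges n).card : ℝ)) :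
    size n ≤ (1 + K) * R := by
  have hc : (0 : ℝ) < ((bridges n).card : ℝ) := by exact_mod_cast hne.card_pos
  have h1 := size_sq hne
  have h2 : R ^ 2 * ∑ s ∈ bridges n, ‖pos s n‖ ^ 2 ≤ R ^ 4 * ((bridges n).card : ℝ) + ∑ s ∈ bridges n, ‖pos s n‖ ^ 4 := by
    rw [mul_sum]
    calc ∑ s ∈ bridges n, R ^ 2 * ‖pos s n‖ ^ 2 ≤ ∑ s ∈ bridges n, (R ^ 4 + ‖pos s n‖ ^ 4) :=
          sum_le_sum fun s _ => by nlinarith [sq_nonneg (R ^ 2 - ‖pos s n‖ ^ 2), sq_nonneg (R ^ 2), sq_nonneg (‖pos s n‖ ^ 2)]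
      _ = _ := by
        rw [sum_add_distrib, sum_const, nsmul_eq_mul]
        ring
  have h3 : R ^ 2 * (size n ^ 2 * ((bridges n).card : ℝ)) ≤ ((1 + K) * R ^ 4) * ((bridges n).card : ℝ) := by
    rw [h1]
    linarith
  have hR2 : (0 : ℝ) < R ^ 2 := by positivity
  have h4 : size n ^ 2 ≤ (1 + K) * R ^ 2 := by
    by_contra hcon
    push Not at hcon
    have h5 : R ^ 2 * ((1 + K) * R ^ 2) < R ^ 2 * size n ^ 2 := mul_lt_mul_of_pos_left hcon hR2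
    have h6 : (R ^ 2 * ((1 + K) * R ^ 2)) * ((bridges n).card : ℝ) < (R ^ 2 * size n ^ 2) * ((bridges n).card : ℝ) :=
      mul_lt_mul_of_pos_right h5 hc
    nlinarith
  apply le_of_sq_le_sq _ (by positivity)
  calc size n ^ 2 ≤ (1 + K) * R ^ 2 := h4
    _ ≤ ((1 + K) * R) ^ 2 := by
      rw [mul_pow]
      exact mul_le_mul_of_nonneg_right (by nlinarith) hR2.le

/-- the size from below -/
theorem size_ge (hR : 0 < R) (hne : (bridges n).Nonempty) {κ : ℝ} (hκ : 0 < κ)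
    (h : (((bridges n).filter fun s => (pos s n).re ≤ κ * R).card : ℝ) ≤ 1 / 2 * ((bridges n).card : ℝ)) :
    κ / 2 * R ≤ size n := by
  have hc : (0 : ℝ) < ((bridges n).card : ℝ) := by exact_mod_cast hne.card_pos
  have h1 := size_sq hne
  have h2 : ((bridges n).card : ℝ) = (((bridges n).filter fun s => (pos s n).re ≤ κ * R).card : ℝ) +
      (((bridges n).filter fun s => ¬ (pos s n).re ≤ κ * R).card : ℝ) := by
    have := Finset.card_filter_add_card_filter_not (s := bridges n) (fun s => (pos s n).re ≤ κ * R)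
    exact_mod_cast this.symm
  have h3 : (κ * R) ^ 2 * (((bridges n).filter fun s => ¬ (pos s n).re ≤ κ * R).card : ℝ) ≤
      ∑ s ∈ bridges n, ‖pos s n‖ ^ 2 := by
    calc _ = ∑ s ∈ (bridges n).filter (fun s => ¬ (pos s n).re ≤ κ * R), (κ * R) ^ 2 := by
          rw [sum_const, nsmul_eq_mul]
          ring
      _ ≤ ∑ s ∈ (bridges n).filter (fun s => ¬ (pos s n).re ≤ κ * R), ‖pos s n‖ ^ 2 := by
          apply sum_le_sum
          intro s hs
          rw [Finset.mem_filter] at hs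
          apply pow_le_pow_left₀ (by positivity)
          exact (not_le.1 hs.2).le.trans ((le_abs_self _).trans (Complex.abs_re_le_norm _))
      _ ≤ _ := sum_le_sum_of_subset_of_nonneg (filter_subset _ _) fun _ _ _ => by positivity
  rw [← h1] at h3
  have h4 : (κ * R) ^ 2 * (1 / 2 * ((bridges n).card : ℝ)) ≤ size n ^ 2 * ((bridges n).card : ℝ) := by
    refine le_trans ?_ h3
    apply mul_le_mul_of_nonneg_left _ (by positivity)
    linarith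
  have h5 : (κ * R) ^ 2 * (1 / 2) ≤ size n ^ 2 := by
    rw [← mul_assoc] at h4
    exact le_of_mul_le_mul_right h4 hc
  apply le_of_sq_le_sq _ (size_nonneg n)
  nlinarith [sq_nonneg (κ * R)]

end

open scoped Classical in
/-- **from the words to the bridges** -/
theorem facts_core {A : Set ℕ} {R : ℕ → ℝ} (hone : ∀ n ∈ A, 1 ≤ n ∧ gf (BW n) ≠ 0) (hR1 : ∀ n ∈ A, 1 ≤ R n)
    (hRe : ∀ ε : ℝ, 0 < ε → ∃ n0 : ℕ, ∀ n ∈ A, n0 ≤ n → (n : ℝ) ^ (3 / 4 - ε) ≤ R n ∧ R n ≤ (n : ℝ) ^ (3 / 4 + ε))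
    (hmod : ∀ ε r : ℝ, 0 < ε → 0 < r → ∃ (ρ : ℝ) (n0 : ℕ), 0 < ρ ∧ ∀ n ∈ A, n0 ≤ n →
      gf {t | t ∈ BW n ∧ ∃ (dir : Bool) (i j : ℕ), i ≤ j ∧ j ≤ n ∧ (j : ℝ) - i ≤ ρ * n ∧
        r * R n ≤ |((lvl dir (vx oo up t j) - lvl dir (vx oo up t i) : ℤ) : ℝ)|} ≤ ENNReal.ofReal ε * gf (BW n))
    (hlow : ∀ ε : ℝ, 0 < ε → ∃ (κ : ℝ) (n0 : ℕ), 0 < κ ∧ ∀ n ∈ A, n0 ≤ n →
      gf {t | t ∈ BW n ∧ (lev t n : ℝ) ≤ κ * R n} ≤ ENNReal.ofReal ε * gf (BW n)) {K : ℝ} (hK : 0 < K)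
    (htail : ∀ n ∈ A, ∀ i : ℕ,
      gf {t | t ∈ BW n ∧ ∃ dir : Bool, (2 : ℝ) ^ i * R n ≤ |((lvl dir (vx oo up t n) : ℤ) : ℝ)|} ≤
        ENNReal.ofReal (K / 32 ^ i) * gf (BW n)) : Facts A ∧
    (∀ ε : ℝ, 0 < ε → ∃ n₀ : ℕ, ∀ n ∈ A, n₀ ≤ n → (n : ℝ) ^ (3 / 4 - ε) ≤ size n ∧ size n ≤ (n : ℝ) ^ (3 / 4 + ε)) ∧
    ∃ (c : ℝ) (n1 : ℕ), 0 < c ∧ ∀ n ∈ A, n1 ≤ n → c * R n ≤ size n := by
  have hne : ∀ n ∈ A, (bridges n).Nonempty := fun n hn => bridges_nonempty (hone n hn).2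
  have hR : ∀ n ∈ A, 0 < R n := fun n hn => zero_lt_one.trans_le (hR1 n hn)
  -- the tail
  have htail' : ∀ n ∈ A, ∀ i : ℕ, (((bridges n).filter fun s => 2 ^ i * R n ≤ ‖pos s n‖).card : ℝ) ≤
      K / 32 ^ i * ((bridges n).card : ℝ) := by
    intro n hn i
    have hRn := hR n hn
    refine prop_le (hone n hn).2 _ (by positivity) ?_ (htail n hn i)
    intro t ht h1
    rw [pos_sw n t n le_rfl] at h1
    exact ⟨ht, exists_dir (by positivity) h1⟩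
  have hfour : ∀ n ∈ A, ∑ s ∈ bridges n, ‖pos s n‖ ^ 4 ≤ (1 + 32 * K) * R n ^ 4 * ((bridges n).card : ℝ) :=
    fun n hn => four_of (hR n hn) hK.le (htail' n hn)
  have hup : ∀ n ∈ A, size n ≤ (2 + 32 * K) * R n := fun n hn => by
    have := size_le (hR n hn) (hne n hn) (K := 1 + 32 * K) (by positivity) (hfour n hn)
    linarith
  -- low levels
  have hlow' : ∀ ε : ℝ, 0 < ε → ∃ (κ : ℝ) (n0 : ℕ), 0 < κ ∧ ∀ n ∈ A, n0 ≤ n →
      (((bridges n).filter fun s => (pos s n).re ≤ κ * R n).card : ℝ) ≤ ε * ((bridges n).card : ℝ) := by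
    intro ε hε
    obtain ⟨κ, n0, hκ, h1⟩ := hlow ε hε
    refine ⟨κ / 2, n0, by positivity, fun n hn hn0 => ?_⟩
    refine prop_le (hone n hn).2 _ hε.le ?_ (h1 n hn hn0)
    intro t ht h2
    rw [re_sw n t n le_rfl] at h2
    exact ⟨ht, by linarith⟩
  obtain ⟨κ, n1, hκ, hκ1⟩ := hlow' (1 / 2) (by norm_num)
  have hdown : ∀ n ∈ A, n1 ≤ n → κ / 2 * R n ≤ size n := fun n hn hn1 =>
    size_ge (hR n hn) (hne n hn) hκ (hκ1 n hn hn1)
  refine ⟨⟨fun n hn => ⟨(hone n hn).1, hne n hn⟩, ?_, ?_, ?_⟩, ?_, κ / 2, n1, by positivity, hdown⟩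
  · intro ε r hε hr
    obtain ⟨ρ, n0, hρ, h1⟩ := hmod ε (r * (κ / 2)) hε (by positivity)
    refine ⟨ρ, max n0 n1, hρ, fun n hn hn0 => ?_⟩
    refine prop_le (hone n hn).2 _ hε.le ?_ (h1 n hn (le_of_max_le_left hn0))
    rintro t ht ⟨i, j, hij, hj, hji, h2⟩
    rw [pos_sw n t j hj, pos_sw n t i (hij.trans hj), ← JJ_sub] at h2
    have h3 := hdown n hn (le_of_max_le_right hn0)
    have h4 : r * (κ / 2) * R n ≤ ‖JJ (vx oo up t j - vx oo up t i)‖ := by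
      refine le_trans ?_ h2.le
      rw [mul_assoc]
      exact mul_le_mul_of_nonneg_left h3 hr.le
    have hRn := hR n hn
    obtain ⟨dir, h5⟩ := exists_dir (by positivity) h4
    rw [lvl_sub] at h5
    exact ⟨ht, dir, i, j, hij, hj, hji, h5⟩
  · intro ε hε
    obtain ⟨κ', n0, hκ', h1⟩ := hlow' ε hε
    refine ⟨κ' / (2 + 32 * K), n0, by positivity, fun n hn hn0 => ?_⟩
    refine le_trans ?_ (h1 n hn hn0)
    have hsub : ((bridges n).filter fun s => (pos s n).re ≤ κ' / (2 + 32 * K) * size n) ⊆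
        (bridges n).filter fun s => (pos s n).re ≤ κ' * R n := by
      intro s hs
      rw [Finset.mem_filter] at hs ⊢
      refine ⟨hs.1, hs.2.trans ?_⟩
      have h3 := hup n hn
      calc κ' / (2 + 32 * K) * size n ≤ κ' / (2 + 32 * K) * ((2 + 32 * K) * R n) :=
            mul_le_mul_of_nonneg_left h3 (by positivity)
        _ = κ' * R n := by field_simp
    exact_mod_cast Finset.card_le_card hsub
  · refine ⟨(1 + 32 * K) * (2 / κ) ^ 4, n1, by positivity, fun n hn hn1 => ?_⟩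
    refine (hfour n hn).trans ?_
    apply mul_le_mul_of_nonneg_right _ (Nat.cast_nonneg _)
    rw [mul_assoc]
    apply mul_le_mul_of_nonneg_left _ (by positivity)
    rw [← mul_pow]
    apply pow_le_pow_left₀ (hR n hn).le
    have h3 := hdown n hn hn1
    calc R n = 2 / κ * (κ / 2 * R n) := by field_simp
      _ ≤ _ := mul_le_mul_of_nonneg_left h3 (by positivity)
  · intro ε hε
    obtain ⟨n2, h2⟩ := hRe (ε / 2) (by positivity)
    have hlim : Filter.Tendsto (fun n : ℕ => (n : ℝ) ^ (ε / 2)) Filter.atTop Filter.atTop :=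
      (tendsto_rpow_atTop (by positivity)).comp tendsto_natCast_atTop_atTop
    obtain ⟨n3, h3⟩ := Filter.eventually_atTop.1 (hlim.eventually_ge_atTop (max (2 + 32 * K) (2 / κ)))
    refine ⟨max (max n1 n2) (max n3 1), fun n hn hn0 => ?_⟩
    have a1 : n1 ≤ n := (le_max_left _ _).trans ((le_max_left _ _).trans hn0)
    have a2 : n2 ≤ n := (le_max_right _ _).trans ((le_max_left _ _).trans hn0)
    have a3 : n3 ≤ n := (le_max_left _ _).trans ((le_max_right _ _).trans hn0)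
    have a4 : 1 ≤ n := (le_max_right _ _).trans ((le_max_right _ _).trans hn0)
    have hn' : (0 : ℝ) < n := by exact_mod_cast a4
    have b := h3 n a3
    have b1 : 2 + 32 * K ≤ (n : ℝ) ^ (ε / 2) := (le_max_left _ _).trans b
    have b2 : 2 / κ ≤ (n : ℝ) ^ (ε / 2) := (le_max_right _ _).trans b
    obtain ⟨c1, c2⟩ := h2 n hn a2
    constructor
    · have h4 := hdown n hn a1
      have h5 : (n : ℝ) ^ (3 / 4 - ε) * (n : ℝ) ^ (ε / 2) = (n : ℝ) ^ (3 / 4 - ε / 2) := by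
        rw [← Real.rpow_add hn']
        congr 1
        ring
      have h6 : (n : ℝ) ^ (3 / 4 - ε) * (2 / κ) ≤ R n := by
        refine le_trans ?_ c1
        rw [← h5]
        exact mul_le_mul_of_nonneg_left b2 (by positivity)
      calc (n : ℝ) ^ (3 / 4 - ε) = κ / 2 * ((n : ℝ) ^ (3 / 4 - ε) * (2 / κ)) := by field_simp
        _ ≤ κ / 2 * R n := mul_le_mul_of_nonneg_left h6 (by positivity)
        _ ≤ _ := h4
    · have h4 := hup n hn
      have h5 : (n : ℝ) ^ (ε / 2) * (n : ℝ) ^ (3 / 4 + ε / 2) = (n : ℝ) ^ (3 / 4 + ε) := by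
        rw [← Real.rpow_add hn']
        congr 1
        ring
      rw [← h5]
      refine h4.trans (mul_le_mul b1 c2 (hR n hn).le (by positivity))

theorem facts_of (h : Out) : ∃ A : Set ℕ,
    (∀ δ : ℝ, 0 < δ → ∃ x₀ : ℝ, ∀ x : ℝ, x₀ ≤ x → ∃ n ∈ A, x ≤ n ∧ (n : ℝ) ≤ x ^ (1 + δ)) ∧ Facts A ∧
    ∀ ε : ℝ, 0 < ε → ∃ n₀ : ℕ, ∀ n ∈ A, n₀ ≤ n → (n : ℝ) ^ (3 / 4 - ε) ≤ size n ∧ size n ≤ (n : ℝ) ^ (3 / 4 + ε) := by
  obtain ⟨A, R, hA, hone, hR1, hRe, hmod, hlow, K, hK, htail⟩ := h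
  obtain ⟨h1, h2, -⟩ := facts_core hone hR1 hRe hmod hlow hK htail
  exact ⟨A, hA, h1, h2⟩

end NTF
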