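import Mathlib

/-!
NT (natural time), module Good: the choice of good scales (running minima). Text: doc proof/NAT_TIME, section 6.
-/

set_option autoImplicit false

namespace HexObs

namespace NTm

/-- Good scales: if `l L = 2 ^ ((4 / 3 + o(1)) L)`, then every `[L, (1 + δ) L]` contains a scale `L'` with
`l L' ≤ 4 ^ j l (L' - j)` for all `j ≤ L'`. -/
theorem good_scales (l : ℕ → ℝ) (hpos : ∀ L, 1 ≤ l L)
    (hup : ∀ e : ℝ, 0 < e → ∃ C : ℝ, 0 < C ∧ ∀ L : ℕ, l L ≤ C * (2 : ℝ) ^ ((4 / 3 + e) * L))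
    (hlow : ∀ e : ℝ, 0 < e → ∃ L0 : ℕ, ∀ L : ℕ, L0 ≤ L → (2 : ℝ) ^ ((4 / 3 - e) * L) ≤ l L) :
    ∀ δ : ℝ, 0 < δ → ∃ L1 : ℕ, ∀ L : ℕ, L1 ≤ L → ∃ L' : ℕ, L ≤ L' ∧ (L' : ℝ) ≤ (1 + δ) * L ∧
      ∀ j : ℕ, j ≤ L' → l L' ≤ 4 ^ j * l (L' - j) := by
  intro δ hδ
  obtain ⟨e, he⟩ : ∃ e : ℝ, e = δ / (3 * (2 + δ)) := ⟨_, rfl⟩
  have he0 : 0 < e := by rw [he]; positivity
  have he1 : e * (2 + δ) = δ / 3 := by rw [he]; field_simp
  have he2 : e ≤ 1 / 3 := by
    rw [he, div_le_div_iff₀ (by positivity) (by norm_num)]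
    linarith
  obtain ⟨C, hC, hup⟩ := hup e he0
  obtain ⟨L0, hlow⟩ := hlow e he0
  -- lower bound for all scales
  obtain ⟨c, hc⟩ : ∃ c : ℝ, c = (2 : ℝ) ^ (-((4 / 3 - e) * L0)) := ⟨_, rfl⟩
  have hc0 : 0 < c := by rw [hc]; positivity
  have hc1 : c ≤ 1 := by
    rw [hc]
    refine Real.rpow_le_one_of_one_le_of_nonpos (by norm_num) ?_
    have : 0 ≤ (4 / 3 - e) * (L0 : ℝ) := mul_nonneg (by linarith) (Nat.cast_nonneg _)
    linarith
  have hlow' : ∀ L : ℕ, c * (2 : ℝ) ^ ((4 / 3 - e) * L) ≤ l L := by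
    intro L
    rcases le_or_gt L0 L with h | h
    · refine le_trans ?_ (hlow L h)
      calc c * (2 : ℝ) ^ ((4 / 3 - e) * L) ≤ 1 * (2 : ℝ) ^ ((4 / 3 - e) * L) :=
            mul_le_mul_of_nonneg_right hc1 (by positivity)
        _ = _ := one_mul _
    · refine le_trans ?_ (hpos L)
      rw [hc, ← Real.rpow_add (by norm_num)]
      refine Real.rpow_le_one_of_one_le_of_nonpos (by norm_num) ?_
      have h1 : (L : ℝ) ≤ L0 := by exact_mod_cast h.le
      have h2 : (4 / 3 - e) * (L : ℝ) ≤ (4 / 3 - e) * L0 := mul_le_mul_of_nonneg_left h1 (by linarith)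
      linarith
  -- the threshold
  have ht : Filter.Tendsto (fun L : ℕ => (2 : ℝ) ^ (δ / 3 * (L : ℝ))) Filter.atTop Filter.atTop := by
    have h1 : Filter.Tendsto (fun L : ℕ => δ / 3 * (L : ℝ)) Filter.atTop Filter.atTop :=
      tendsto_natCast_atTop_atTop.const_mul_atTop (by positivity)
    have h2 : Filter.Tendsto (fun y : ℝ => (2 : ℝ) ^ y) Filter.atTop Filter.atTop :=
      tendsto_rpow_atTop_of_base_gt_one 2 (by norm_num)
    exact h2.comp h1
  obtain ⟨L1, hL1⟩ := Filter.eventually_atTop.1 (ht.eventually_gt_atTop (C * 2 / c))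
  refine ⟨L1, fun L hL => ?_⟩
  obtain ⟨M, hM⟩ : ∃ M : ℕ, M = ⌊(1 + δ) * (L : ℝ)⌋₊ := ⟨_, rfl⟩
  have hLR : (0 : ℝ) ≤ L := Nat.cast_nonneg _
  have hM1 : (M : ℝ) ≤ (1 + δ) * L := by rw [hM]; exact Nat.floor_le (by positivity)
  have hM2 : (1 + δ) * (L : ℝ) < M + 1 := by rw [hM]; exact Nat.lt_floor_add_one _
  have hLM : L ≤ M := by
    rw [hM]
    refine Nat.le_floor ?_
    nlinarith
  -- the minimum
  obtain ⟨L', hL', hmin⟩ := Finset.exists_min_image (Finset.range (M + 1)) (fun x => l x / 4 ^ x)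
    ⟨0, Finset.mem_range.2 (Nat.succ_pos _)⟩
  rw [Finset.mem_range] at hL'
  refine ⟨L', ?_, ?_, fun j hj => ?_⟩
  · by_contra hcon
    push Not at hcon
    have h1 := hmin M (Finset.mem_range.2 (Nat.lt_succ_self _))
    have e4 : ∀ x : ℕ, (4 : ℝ) ^ x = (2 : ℝ) ^ (2 * (x : ℝ)) := by
      intro x
      rw [Real.rpow_mul (by norm_num), Real.rpow_natCast]
      norm_num
    have h2 : c * (2 : ℝ) ^ (-((2 / 3 + e) * L)) ≤ l L' / 4 ^ L' := by
      rw [le_div_iff₀ (by positivity), e4]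
      refine le_trans ?_ (hlow' L')
      rw [mul_assoc, ← Real.rpow_add (by norm_num)]
      refine mul_le_mul_of_nonneg_left (Real.rpow_le_rpow_of_exponent_le (by norm_num) ?_) hc0.le
      have h3 : (L' : ℝ) ≤ L := by exact_mod_cast hcon.le
      have h4 : (2 / 3 + e) * (L' : ℝ) ≤ (2 / 3 + e) * L := mul_le_mul_of_nonneg_left h3 (by linarith)
      linarith
    have h3 : l M / 4 ^ M ≤ C * (2 : ℝ) ^ (-((2 / 3 - e) * M)) := by
      rw [div_le_iff₀ (by positivity), e4]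
      refine (hup M).trans (le_of_eq ?_)
      rw [mul_assoc, ← Real.rpow_add (by norm_num)]
      congr 2
      ring
    have h4 : (2 : ℝ) ^ (-((2 / 3 - e) * (M : ℝ))) ≤ (2 : ℝ) ^ (-((2 / 3 + e) * (L : ℝ)) + (1 - δ / 3 * L)) := by
      refine Real.rpow_le_rpow_of_exponent_le (by norm_num) ?_
      have h5 : (2 / 3 - e) * ((1 + δ) * L - 1) ≤ (2 / 3 - e) * (M : ℝ) :=
        mul_le_mul_of_nonneg_left (by linarith) (by linarith)
      have h6 : (2 / 3 - e) * ((1 + δ) * (L : ℝ) - 1) = (2 / 3 + e) * L + (2 / 3 * δ - e * (2 + δ)) * L - (2 / 3 - e) := by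
        ring
      rw [he1] at h6
      have h7 : (2 / 3 * δ - δ / 3) * (L : ℝ) = δ / 3 * L := by ring
      linarith
    have h5 : c * (2 : ℝ) ^ (-((2 / 3 + e) * (L : ℝ))) ≤
        C * ((2 : ℝ) ^ (-((2 / 3 + e) * (L : ℝ))) * (2 * (2 : ℝ) ^ (-(δ / 3 * (L : ℝ))))) := by
      refine h2.trans (h1.trans (h3.trans (mul_le_mul_of_nonneg_left (h4.trans (le_of_eq ?_)) hC.le)))
      rw [Real.rpow_add (by norm_num), sub_eq_add_neg, Real.rpow_add (by norm_num), Real.rpow_one]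
    have hA : (0 : ℝ) < (2 : ℝ) ^ (-((2 / 3 + e) * (L : ℝ))) := by positivity
    have h6 : c ≤ C * (2 * (2 : ℝ) ^ (-(δ / 3 * (L : ℝ)))) := by
      refine le_of_mul_le_mul_right ?_ hA
      calc c * (2 : ℝ) ^ (-((2 / 3 + e) * (L : ℝ))) ≤ _ := h5
        _ = _ := by ring
    have hB : (0 : ℝ) < (2 : ℝ) ^ (δ / 3 * (L : ℝ)) := by positivity
    have h7 : (2 : ℝ) ^ (-(δ / 3 * (L : ℝ))) = ((2 : ℝ) ^ (δ / 3 * (L : ℝ)))⁻¹ := Real.rpow_neg (by norm_num) _
    rw [h7] at h6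
    have h8 : c * (2 : ℝ) ^ (δ / 3 * (L : ℝ)) ≤ C * 2 := by
      calc c * (2 : ℝ) ^ (δ / 3 * (L : ℝ)) ≤ C * (2 * ((2 : ℝ) ^ (δ / 3 * (L : ℝ)))⁻¹) * (2 : ℝ) ^ (δ / 3 * (L : ℝ)) :=
            mul_le_mul_of_nonneg_right h6 hB.le
        _ = C * 2 := by field_simp
    have h9 := hL1 L hL
    rw [div_lt_iff₀ hc0] at h9
    linarith
  · have h1 : (L' : ℝ) ≤ M := by exact_mod_cast (by omega : L' ≤ M)
    exact h1.trans hM1
  · have h1 := hmin (L' - j) (Finset.mem_range.2 (by omega))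
    rw [div_le_div_iff₀ (by positivity) (by positivity)] at h1
    have h2 : (4 : ℝ) ^ L' = 4 ^ j * 4 ^ (L' - j) := by
      rw [← pow_add]
      congr 1
      omega
    rw [h2] at h1
    have h3 : (0 : ℝ) < 4 ^ (L' - j) := by positivity
    refine le_of_mul_le_mul_right ?_ h3
    linarith

/-- Running minima against a concave majorant: if `f = o(L)`, there is a set `G` of scales, one in every
`[L, (1 + d) L]`, such that `f L - f (L - j) ≤ η j + C η` for all `L` in `G`, `j ≤ L`, `η > 0`. -/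
theorem conc_scales (f : ℕ → ℝ) (hf : ∀ ε : ℝ, 0 < ε → ∃ C : ℝ, ∀ x : ℕ, |f x| ≤ ε * x + C) :
    ∃ G : Set ℕ, (∀ d : ℝ, 0 < d → ∃ L1 : ℕ, ∀ L : ℕ, L1 ≤ L → ∃ L' ∈ G, L ≤ L' ∧ (L' : ℝ) ≤ (1 + d) * L) ∧
      ∀ η : ℝ, 0 < η → ∃ C : ℝ, ∀ L ∈ G, ∀ j : ℕ, j ≤ L → f L - f (L - j) ≤ η * j + C := by
  classical
  -- the property of the slopes
  obtain ⟨P, hP⟩ : ∃ P : ℕ → ℕ → Prop, P = fun s i => ∀ t : ℕ, s ≤ t → ∀ x : ℕ, x ≤ t → |f x| ≤ (1 / 4) ^ i * (t : ℝ) :=
    ⟨_, rfl⟩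
  have hPm : ∀ s s' i, s ≤ s' → P s i → P s' i := by
    intro s s' i hs h
    rw [hP] at h ⊢
    exact fun t ht x hx => h t (hs.trans ht) x hx
  have hPe : ∀ i : ℕ, ∃ s : ℕ, P s i := by
    intro i
    have hq : (0 : ℝ) < (1 / 4) ^ i := by positivity
    obtain ⟨C, hC⟩ := hf ((1 / 4) ^ i / 2) (by positivity)
    obtain ⟨s, hs⟩ := exists_nat_ge (C / ((1 / 4) ^ i / 2))
    refine ⟨s, ?_⟩
    rw [hP]
    intro t ht x hx
    have h1 : (s : ℝ) ≤ t := by exact_mod_cast ht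
    have h2 : (x : ℝ) ≤ t := by exact_mod_cast hx
    have h3 : C ≤ (1 / 4) ^ i / 2 * t := by
      rw [div_le_iff₀ (by positivity)] at hs
      have := mul_le_mul_of_nonneg_right h1 (by positivity : (0 : ℝ) ≤ (1 / 4) ^ i / 2)
      linarith
    have h4 : (1 / 4 : ℝ) ^ i / 2 * x ≤ (1 / 4) ^ i / 2 * t := mul_le_mul_of_nonneg_left h2 (by positivity)
    have h5 := hC x
    linarith
  obtain ⟨I, hI⟩ : ∃ I : ℕ → ℕ, I = fun s => Nat.findGreatest (P s) s := ⟨_, rfl⟩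
  have hIm : Monotone I := by
    intro s s' hs
    rw [hI]
    exact Nat.findGreatest_mono (fun i hi => hPm s s' i hs hi) hs
  have hIe : ∀ i : ℕ, ∃ s : ℕ, i ≤ I s := by
    intro i
    obtain ⟨s, hs⟩ := hPe i
    refine ⟨max s i, ?_⟩
    rw [hI]
    exact Nat.le_findGreatest (le_max_right _ _) (hPm s _ i (le_max_left _ _) hs)
  have hIs : ∀ s : ℕ, 1 ≤ I s → P s (I s) := by
    intro s hs
    have h1 : I s ≠ 0 := by omega
    rw [hI] at h1 ⊢
    exact Nat.findGreatest_of_ne_zero rfl h1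
  -- the slopes
  obtain ⟨g, hg⟩ : ∃ g : ℕ → ℝ, g = fun s => (1 / 2 : ℝ) ^ I s := ⟨_, rfl⟩
  have hg0 : ∀ s, 0 < g s := by intro s; rw [hg]; positivity
  have hg1 : ∀ s, g s ≤ 1 := by
    intro s
    rw [hg]
    exact pow_le_one₀ (by norm_num) (by norm_num)
  have hga : Antitone g := by
    intro s s' hs
    rw [hg]
    exact pow_le_pow_of_le_one (by norm_num) (by norm_num) (hIm hs)
  obtain ⟨φ, hφ⟩ : ∃ φ : ℕ → ℝ, φ = fun t => ∑ s ∈ Finset.range t, g s := ⟨_, rfl⟩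
  have hφs : ∀ a b : ℕ, φ (a + b) = φ a + ∑ s ∈ Finset.range b, g (a + s) := by
    intro a b
    rw [hφ]
    exact Finset.sum_range_add g a b
  have hφc : ∀ a b : ℕ, φ (a + b) - φ a ≤ φ b := by
    intro a b
    rw [hφs, add_sub_cancel_left, hφ]
    exact Finset.sum_le_sum fun s _ => hga (by omega)
  have hφl : ∀ a b : ℕ, (b : ℝ) * g (a + b) ≤ φ (a + b) - φ a := by
    intro a b
    rw [hφs, add_sub_cancel_left]
    calc (b : ℝ) * g (a + b) = ∑ _s ∈ Finset.range b, g (a + b) := by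
          rw [Finset.sum_const, Finset.card_range, nsmul_eq_mul]
      _ ≤ _ := Finset.sum_le_sum fun s hs => hga (by have := Finset.mem_range.1 hs; omega)
  refine ⟨{L | ∀ x : ℕ, x ≤ L → f L - φ L ≤ f x - φ x}, ?_, ?_⟩
  · intro d hd
    -- a large index
    obtain ⟨i0, hi0⟩ := exists_pow_lt_of_lt_one (show (0 : ℝ) < d / (8 * (1 + d)) by positivity)
      (show (1 / 2 : ℝ) < 1 by norm_num)
    obtain ⟨s0, hs0⟩ := hIe (i0 + 1)
    obtain ⟨n0, hn0⟩ := exists_nat_ge (2 / d)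
    refine ⟨s0 + n0 + 1, fun L hL => ?_⟩
    have hLR : (1 : ℝ) ≤ L := by exact_mod_cast (by omega : 1 ≤ L)
    have hdL : 2 ≤ d * L := by
      have h1 : (n0 : ℝ) ≤ L := by exact_mod_cast (by omega : n0 ≤ L)
      rw [div_le_iff₀ hd] at hn0
      nlinarith
    obtain ⟨M, hM⟩ : ∃ M : ℕ, M = ⌊(1 + d) * (L : ℝ)⌋₊ := ⟨_, rfl⟩
    have hM1 : (M : ℝ) ≤ (1 + d) * L := by rw [hM]; exact Nat.floor_le (by positivity)
    have hM2 : (1 + d) * (L : ℝ) < M + 1 := by rw [hM]; exact Nat.lt_floor_add_one _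
    have hLM : L ≤ M := by
      rw [hM]
      refine Nat.le_floor ?_
      nlinarith
    obtain ⟨L', hL', hmin⟩ := Finset.exists_min_image (Finset.range (M + 1)) (fun x => f x - φ x)
      ⟨0, Finset.mem_range.2 (Nat.succ_pos _)⟩
    rw [Finset.mem_range] at hL'
    refine ⟨L', fun x hx => hmin x (Finset.mem_range.2 (by omega)), ?_, ?_⟩
    · by_contra hcon
      push Not at hcon
      have h1 := hmin M (Finset.mem_range.2 (Nat.lt_succ_self _))
      have hIM : i0 + 1 ≤ I M := hs0.trans (hIm (by omega))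
      have h2 := hIs M (by omega)
      rw [hP] at h2
      have h3 := h2 M le_rfl M le_rfl
      have h4 := h2 M le_rfl L' (by omega)
      have h5 : ((M - L : ℕ) : ℝ) * g M ≤ φ M - φ L := by
        have := hφl L (M - L)
        rwa [Nat.add_sub_cancel' hLM] at this
      have h6 : φ L' ≤ φ L := by
        rw [hφ]
        refine Finset.sum_le_sum_of_subset_of_nonneg ?_ fun s _ _ => (hg0 s).le
        intro x hx
        rw [Finset.mem_range] at hx ⊢
        omega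
      rw [Nat.cast_sub hLM] at h5
      have h7 : (1 / 4 : ℝ) ^ I M = g M * g M := by
        rw [hg, ← mul_pow]
        norm_num
      have h8 : g M < d / (8 * (1 + d)) := by
        refine lt_of_le_of_lt ?_ hi0
        rw [hg]
        exact pow_le_pow_of_le_one (by norm_num) (by norm_num) (by omega)
      rw [h7] at h3 h4
      have h9 := abs_le.1 h3
      have h10 := abs_le.1 h4
      have hgM := hg0 M
      have h11 : (M - L : ℝ) * g M ≤ 2 * (g M * g M * M) := by linarith [h9.2, h10.1]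
      have h12 : (M - L : ℝ) ≤ 2 * (g M * M) := by
        refine le_of_mul_le_mul_right ?_ hgM
        linarith
      have h13 : g M * M ≤ d / (8 * (1 + d)) * ((1 + d) * L) :=
        mul_le_mul h8.le hM1 (Nat.cast_nonneg _) (by positivity)
      have h14 : d / (8 * (1 + d)) * ((1 + d) * (L : ℝ)) = d * L / 8 := by
        field_simp
      linarith
    · have h1 : (L' : ℝ) ≤ M := by exact_mod_cast (by omega : L' ≤ M)
      exact h1.trans hM1
  · intro η hη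
    obtain ⟨i, hi⟩ := exists_pow_lt_of_lt_one hη (show (1 / 2 : ℝ) < 1 by norm_num)
    obtain ⟨s, hs⟩ := hIe i
    refine ⟨s, fun L hL j hj => ?_⟩
    have h1 : f L - φ L ≤ f (L - j) - φ (L - j) := hL (L - j) (Nat.sub_le _ _)
    have h2 := hφc (L - j) j
    rw [Nat.sub_add_cancel hj] at h2
    have h3 : φ j ≤ η * j + s := by
      rcases le_total j s with h | h
      · have h4 : φ j ≤ j := by
          rw [hφ]
          calc ∑ s ∈ Finset.range j, g s ≤ ∑ _s ∈ Finset.range j, (1 : ℝ) := Finset.sum_le_sum fun s _ => hg1 s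
            _ = j := by rw [Finset.sum_const, Finset.card_range, nsmul_eq_mul, mul_one]
        have h5 : (j : ℝ) ≤ s := by exact_mod_cast h
        have h6 : 0 ≤ η * (j : ℝ) := by positivity
        linarith
      · have h4 : φ j = φ s + ∑ x ∈ Finset.range (j - s), g (s + x) := by
          rw [← hφs, Nat.add_sub_cancel' h]
        have h5 : φ s ≤ s := by
          rw [hφ]
          calc ∑ x ∈ Finset.range s, g x ≤ ∑ _x ∈ Finset.range s, (1 : ℝ) := Finset.sum_le_sum fun x _ => hg1 x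
            _ = s := by rw [Finset.sum_const, Finset.card_range, nsmul_eq_mul, mul_one]
        have h6 : ∑ x ∈ Finset.range (j - s), g (s + x) ≤ η * j := by
          calc ∑ x ∈ Finset.range (j - s), g (s + x) ≤ ∑ _x ∈ Finset.range (j - s), η := by
                refine Finset.sum_le_sum fun x _ => ?_
                refine (hga (Nat.le_add_right s x)).trans (le_trans ?_ hi.le)
                rw [hg]
                exact pow_le_pow_of_le_one (by norm_num) (by norm_num) hs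
            _ = ((j - s : ℕ) : ℝ) * η := by rw [Finset.sum_const, Finset.card_range, nsmul_eq_mul]
            _ ≤ (j : ℝ) * η := by
                refine mul_le_mul_of_nonneg_right ?_ hη.le
                exact_mod_cast Nat.sub_le _ _
            _ = η * j := mul_comm _ _
        linarith
    linarith

/-- Good scales, strong form: if `l L = 2 ^ ((4 / 3 + o(1)) L)`, there is ONE set `G` of scales, with an element in
every `[L, (1 + d) L]`, `d > 0`, `L ≥ L1(d)`, such that `l (L - j) ≥ c 2 ^ (- (4 / 3 + η) j) l L` for all `L` in `G`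
and `j ≤ L`, for every `η > 0` with a constant `c = c(η) > 0`. -/
theorem good_scales_strong (l : ℕ → ℝ) (hpos : ∀ L, 1 ≤ l L)
    (hup : ∀ e : ℝ, 0 < e → ∃ C : ℝ, 0 < C ∧ ∀ L : ℕ, l L ≤ C * (2 : ℝ) ^ ((4 / 3 + e) * L))
    (hlow : ∀ e : ℝ, 0 < e → ∃ L0 : ℕ, ∀ L : ℕ, L0 ≤ L → (2 : ℝ) ^ ((4 / 3 - e) * L) ≤ l L) :
    ∃ G : Set ℕ, (∀ d : ℝ, 0 < d → ∃ L1 : ℕ, ∀ L : ℕ, L1 ≤ L → ∃ L' ∈ G, L ≤ L' ∧ (L' : ℝ) ≤ (1 + d) * L) ∧
      ∀ η : ℝ, 0 < η → ∃ c : ℝ, 0 < c ∧ ∀ L ∈ G, ∀ j : ℕ, j ≤ L →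
        c * (2 : ℝ) ^ (-((4 / 3 + η) * j)) * l L ≤ l (L - j) := by
  have hl0 : ∀ L, 0 < l L := fun L => lt_of_lt_of_le one_pos (hpos L)
  obtain ⟨f, hf⟩ : ∃ f : ℕ → ℝ, f = fun L => Real.logb 2 (l L) - 4 / 3 * L := ⟨_, rfl⟩
  have hf1 : ∀ ε : ℝ, 0 < ε → ∃ C : ℝ, ∀ x : ℕ, |f x| ≤ ε * x + C := by
    intro ε hε
    obtain ⟨C, hC, h1⟩ := hup ε hε
    obtain ⟨L0, h2⟩ := hlow ε hε
    refine ⟨max (Real.logb 2 C) (4 / 3 * L0), fun x => ?_⟩
    have hx0 : (0 : ℝ) ≤ x := Nat.cast_nonneg _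
    rw [hf, abs_le]
    constructor
    · rcases le_or_gt L0 x with h | h
      · have h3 : (4 / 3 - ε) * x ≤ Real.logb 2 (l x) := by
          rw [Real.le_logb_iff_rpow_le (by norm_num) (hl0 x)]
          exact h2 x h
        have h4 : 0 ≤ max (Real.logb 2 C) (4 / 3 * L0) := le_max_of_le_right (by positivity)
        show -(ε * (x : ℝ) + max (Real.logb 2 C) (4 / 3 * L0)) ≤ Real.logb 2 (l x) - 4 / 3 * x
        linarith
      · have h3 : 0 ≤ Real.logb 2 (l x) := Real.logb_nonneg (by norm_num) (hpos x)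
        have h4 : 4 / 3 * (x : ℝ) ≤ 4 / 3 * L0 := by
          have : (x : ℝ) ≤ L0 := by exact_mod_cast h.le
          linarith
        have h5 : 4 / 3 * (L0 : ℝ) ≤ max (Real.logb 2 C) (4 / 3 * L0) := le_max_right _ _
        have h6 : 0 ≤ ε * (x : ℝ) := by positivity
        show -(ε * (x : ℝ) + max (Real.logb 2 C) (4 / 3 * L0)) ≤ Real.logb 2 (l x) - 4 / 3 * x
        linarith
    · have h3 : Real.logb 2 (l x) ≤ Real.logb 2 (C * (2 : ℝ) ^ ((4 / 3 + ε) * x)) :=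
        Real.logb_le_logb_of_le (by norm_num) (hl0 x) (h1 x)
      rw [Real.logb_mul hC.ne' (by positivity), Real.logb_rpow (by norm_num) (by norm_num)] at h3
      have h5 : Real.logb 2 C ≤ max (Real.logb 2 C) (4 / 3 * L0) := le_max_left _ _
      show Real.logb 2 (l x) - 4 / 3 * x ≤ ε * (x : ℝ) + max (Real.logb 2 C) (4 / 3 * L0)
      linarith
  obtain ⟨G, hG1, hG2⟩ := conc_scales f hf1
  refine ⟨G, hG1, fun η hη => ?_⟩
  obtain ⟨C, hC⟩ := hG2 η hη
  refine ⟨(2 : ℝ) ^ (-C), by positivity, fun L hL j hj => ?_⟩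
  have h1 := hC L hL j hj
  rw [hf] at h1
  have h2 : Real.logb 2 (l L) - (4 / 3 + η) * j - C ≤ Real.logb 2 (l (L - j)) := by
    have h3 : ((L - j : ℕ) : ℝ) = L - j := Nat.cast_sub hj
    have h4 : Real.logb 2 (l L) - 4 / 3 * L - (Real.logb 2 (l (L - j)) - 4 / 3 * ((L - j : ℕ) : ℝ)) ≤ η * j + C := h1
    rw [h3] at h4
    linarith
  have e1 : ∀ y : ℝ, 0 < y → (2 : ℝ) ^ Real.logb 2 y = y := fun y hy =>
    Real.rpow_logb (by norm_num) (by norm_num) hy
  calc (2 : ℝ) ^ (-C) * (2 : ℝ) ^ (-((4 / 3 + η) * j)) * l L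
      = (2 : ℝ) ^ (Real.logb 2 (l L) - (4 / 3 + η) * j - C) := by
        rw [← Real.rpow_add (by norm_num)]
        nth_rewrite 1 [← e1 (l L) (hl0 L)]
        rw [← Real.rpow_add (by norm_num)]
        congr 1
        ring
    _ ≤ (2 : ℝ) ^ Real.logb 2 (l (L - j)) := Real.rpow_le_rpow_of_exponent_le (by norm_num) h2
    _ = l (L - j) := e1 _ (hl0 _)

end NTm

end HexObs
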