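import Pool.Agent.NT.Facts
import Pool.Agent.NT.Compact

/-!
NT (natural time): the laws of the curves, tightness.
-/

set_option autoImplicit false

namespace NTF

open Finset MeasureTheory Filter Topology

open Pool.Agent.NT.ResNat

open scoped ENNReal Classical

/-! ### The curve -/

lemma curve_eq {n : ℕ} (s : Fin n → Fin 3) : curve s = Tight.poly (fun k => pos s k / size n) n := by
  ext u
  show ∑ k ∈ range n, ((max 0 (min 1 ((u : ℝ) * n - k)) : ℝ) : ℂ) * ((pos s (k + 1) - pos s k) / size n) =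
    pos s 0 / size n + ∑ k ∈ range n, ((max 0 (min 1 ((u : ℝ) * n - k)) : ℝ) : ℂ) *
      (pos s (k + 1) / size n - pos s k / size n)
  rw [pos_zero, zero_div, zero_add]
  apply sum_congr rfl
  intro k _
  rw [sub_div]

lemma curve_zero {n : ℕ} (s : Fin n → Fin 3) : curve s 0 = 0 := by
  rw [curve_eq, Tight.poly_zero, pos_zero, zero_div]

lemma curve_one {n : ℕ} (s : Fin n → Fin 3) : curve s 1 = pos s n / size n := by
  rw [curve_eq, Tight.poly_one]

/-- a point of the curve lies between two consecutive points of the walk -/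
lemma curve_apply {n : ℕ} (hn : 1 ≤ n) (s : Fin n → Fin 3) (u : unitInterval) : ∃ (i : ℕ) (a : ℝ), i < n ∧ 0 ≤ a ∧ a ≤ 1 ∧
    (i : ℝ) ≤ u * n ∧ (u : ℝ) * n ≤ i + 1 ∧
    curve s u = (((1 - a : ℝ) : ℂ) * pos s i + (a : ℂ) * pos s (i + 1)) / size n := by
  obtain ⟨i, hi, h1, h2⟩ := Tight.th2_idx hn u
  refine ⟨i, u * n - i, hi, by linarith, by linarith, h1, h2, ?_⟩
  rw [curve_eq, Tight.poly_apply hi h1 h2]
  push_cast
  ring

lemma norm_comb {a : ℝ} (h0 : 0 ≤ a) (h1 : a ≤ 1) {x y : ℂ} {r : ℝ} (hx : ‖x‖ ≤ r) (hy : ‖y‖ ≤ r) :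
    ‖((1 - a : ℝ) : ℂ) * x + (a : ℂ) * y‖ ≤ r := by
  refine (norm_add_le _ _).trans ?_
  rw [norm_mul, norm_mul, Complex.norm_of_nonneg (by linarith), Complex.norm_of_nonneg h0]
  have h2 : (1 - a) * ‖x‖ ≤ (1 - a) * r := mul_le_mul_of_nonneg_left hx (by linarith)
  have h3 : a * ‖y‖ ≤ a * r := mul_le_mul_of_nonneg_left hy h0
  linarith

/-- the modulus of continuity of the curve -/
lemma curve_mod {n : ℕ} (hn : 1 ≤ n) {s : Fin n → Fin 3} {ρ r : ℝ} (hr : 0 ≤ r) (hρ : 4 ≤ ρ * n)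
    (h : ∀ i j : ℕ, i ≤ j → j ≤ n → (j : ℝ) - i ≤ ρ * n → ‖pos s j - pos s i‖ ≤ r * size n) :
    Md (ρ / 2) r (curve s) := by
  have hn0 : (0 : ℝ) < n := by exact_mod_cast hn
  have hsym : ∀ i j : ℕ, i ≤ n → j ≤ n → |(j : ℝ) - i| ≤ ρ * n → ‖pos s j - pos s i‖ ≤ r * size n := by
    intro i j hi hj hij
    rcases le_total i j with h1 | h1
    · exact h i j h1 hj ((le_abs_self _).trans hij)
    · rw [norm_sub_rev]
      refine h j i h1 hi ?_
      rw [abs_sub_comm] at hij
      exact (le_abs_self _).trans hij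
  intro u v huv
  rw [Subtype.dist_eq, Real.dist_eq] at huv
  obtain ⟨i, a, hi, a0, a1, i1, i2, e1⟩ := curve_apply hn s u
  obtain ⟨j, b, hj, b0, b1, j1, j2, e2⟩ := curve_apply hn s v
  have huv' : |(u : ℝ) * n - v * n| ≤ ρ / 2 * n := by
    rw [← sub_mul, abs_mul, abs_of_pos hn0]
    exact mul_le_mul_of_nonneg_right huv hn0.le
  rw [abs_le] at huv'
  have key : ∀ i' j' : ℕ, (i' = i ∨ i' = i + 1) → (j' = j ∨ j' = j + 1) → ‖pos s i' - pos s j'‖ ≤ r * size n := by
    intro i' j' hi' hj'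
    have c1 : (i : ℝ) ≤ i' ∧ (i' : ℝ) ≤ i + 1 := by
      rcases hi' with rfl | rfl
      · constructor <;> linarith
      · push_cast
        constructor <;> linarith
    have c2 : (j : ℝ) ≤ j' ∧ (j' : ℝ) ≤ j + 1 := by
      rcases hj' with rfl | rfl
      · constructor <;> linarith
      · push_cast
        constructor <;> linarith
    apply hsym j' i' (by omega) (by omega)
    rw [abs_le]
    constructor <;> linarith [c1.1, c1.2, c2.1, c2.2, huv'.1, huv'.2]
  rw [dist_eq_norm, e1, e2]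
  have e3 : (((1 - a : ℝ) : ℂ) * pos s i + (a : ℂ) * pos s (i + 1)) / size n -
      (((1 - b : ℝ) : ℂ) * pos s j + (b : ℂ) * pos s (j + 1)) / size n =
      (((1 - a : ℝ) : ℂ) * (((1 - b : ℝ) : ℂ) * (pos s i - pos s j) + (b : ℂ) * (pos s i - pos s (j + 1))) +
        (a : ℂ) * (((1 - b : ℝ) : ℂ) * (pos s (i + 1) - pos s j) + (b : ℂ) * (pos s (i + 1) - pos s (j + 1)))) /
        size n := by
    push_cast
    ring
  rw [e3, norm_div]
  have h1 := norm_comb a0 a1 (norm_comb b0 b1 (key i j (Or.inl rfl) (Or.inl rfl)) (key i (j + 1) (Or.inl rfl) (Or.inr rfl)))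
    (norm_comb b0 b1 (key (i + 1) j (Or.inr rfl) (Or.inl rfl)) (key (i + 1) (j + 1) (Or.inr rfl) (Or.inr rfl)))
  rw [Complex.norm_of_nonneg (size_nonneg n)]
  exact div_le_of_le_mul₀ (size_nonneg n) hr h1

/-! ### The law -/

section

variable {n : ℕ}

lemma law_apply (E : Set C(unitInterval, ℂ)) : law n E =
    ((bridges n).card : ℝ≥0∞)⁻¹ * (((bridges n).filter fun s => curve s ∈ E).card : ℝ≥0∞) := by
  unfold law
  rw [Measure.finsetSum_apply]
  have h : ∀ s ∈ bridges n, (((bridges n).card : ℝ≥0∞)⁻¹ • Measure.dirac (curve s)) E =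
      ((bridges n).card : ℝ≥0∞)⁻¹ * (if curve s ∈ E then 1 else 0) := by
    intro s _
    rw [Measure.smul_apply, Measure.dirac_apply, smul_eq_mul, Set.indicator_apply, Pi.one_apply]
  rw [sum_congr rfl h, ← mul_sum]
  congr 1
  rw [card_filter]
  push_cast
  rfl

lemma law_le (hne : (bridges n).Nonempty) {E : Set C(unitInterval, ℂ)} {c : ℝ} (hc : 0 ≤ c)
    (h : (((bridges n).filter fun s => curve s ∈ E).card : ℝ) ≤ c * ((bridges n).card : ℝ)) :
    law n E ≤ ENNReal.ofReal c := by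
  rw [law_apply]
  have h0 : ((bridges n).card : ℝ≥0∞) ≠ 0 := by
    have := hne.card_pos
    exact_mod_cast this.ne'
  have ht : ((bridges n).card : ℝ≥0∞) ≠ ⊤ := ENNReal.natCast_ne_top _
  have h1 : (((bridges n).filter fun s => curve s ∈ E).card : ℝ≥0∞) ≤ ENNReal.ofReal c * ((bridges n).card : ℝ≥0∞) := by
    rw [← ENNReal.ofReal_natCast, ← ENNReal.ofReal_natCast, ← ENNReal.ofReal_mul hc]
    exact ENNReal.ofReal_le_ofReal h
  calc ((bridges n).card : ℝ≥0∞)⁻¹ * (((bridges n).filter fun s => curve s ∈ E).card : ℝ≥0∞) ≤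
      ((bridges n).card : ℝ≥0∞)⁻¹ * (ENNReal.ofReal c * ((bridges n).card : ℝ≥0∞)) := by gcongr
    _ = ENNReal.ofReal c * (((bridges n).card : ℝ≥0∞)⁻¹ * ((bridges n).card : ℝ≥0∞)) := by ring
    _ = ENNReal.ofReal c := by rw [ENNReal.inv_mul_cancel h0 ht, mul_one]

lemma law_prob (hne : (bridges n).Nonempty) : IsProbabilityMeasure (law n) := by
  constructor
  rw [law_apply]
  have h0 : ((bridges n).card : ℝ≥0∞) ≠ 0 := by
    have := hne.card_pos
    exact_mod_cast this.ne'
  simp only [Set.mem_univ, Finset.filter_true]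
  exact ENNReal.inv_mul_cancel h0 (ENNReal.natCast_ne_top _)

lemma law_zero {E : Set C(unitInterval, ℂ)} (h : ∀ s ∈ bridges n, curve s ∉ E) : law n E = 0 := by
  rw [law_apply, Finset.filter_false_of_mem h, card_empty, Nat.cast_zero, mul_zero]

lemma integral_law (f : C(unitInterval, ℂ) → ℝ) : ∫ γ, f γ ∂(law n) =
    (∑ s ∈ bridges n, f (curve s)) / ((bridges n).card : ℝ) := by
  unfold law
  rw [integral_finsetSum_measure]
  · rw [sum_div]
    apply sum_congr rfl
    intro s _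
    rw [integral_smul_measure, integral_dirac, ENNReal.toReal_inv, ENNReal.toReal_natCast, smul_eq_mul]
    ring
  · intro s hs
    have h0 : ((bridges n).card : ℝ≥0∞) ≠ 0 := by
      have := Finset.card_pos.2 ⟨s, hs⟩
      exact_mod_cast this.ne'
    refine Integrable.smul_measure ?_ (ENNReal.inv_ne_top.2 h0)
    exact integrable_dirac (by simp)

end

/-! ### Tightness -/

theorem tight {A : Set ℕ} (hA : Facts A) : IsTightMeasureSet {μ | ∃ n ∈ A, μ = law n} := by
  apply tight_of_modulus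
  · rintro _ ⟨n, hn, rfl⟩
    exact law_zero fun s _ h => h (curve_zero s)
  · intro ε r hε hr
    obtain ⟨ρ, n0, hρ, h1⟩ := hA.mod ε r hε hr
    obtain ⟨N, hN⟩ : ∃ N : ℕ, N = max n0 ⌈4 / ρ⌉₊ := ⟨_, rfl⟩
    have hF : (⋃ n ∈ Finset.range N, (curve '' (bridges n : Set (Fin n → Fin 3)))).Finite :=
      Set.Finite.biUnion (Finset.finite_toSet _) fun n _ => (Finset.finite_toSet _).image _
    obtain ⟨δ, hδ, h2⟩ := finite_modulus hF hr
    refine ⟨min δ (ρ / 2), lt_min hδ (by positivity), ?_⟩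
    rintro _ ⟨n, hn, rfl⟩
    rcases lt_or_ge n N with h3 | h3
    · rw [law_zero]
      · exact zero_le
      · intro s hs h4
        apply h4
        intro u v huv
        refine h2 (curve s) ?_ u v (huv.trans (min_le_left _ _))
        rw [Set.mem_iUnion₂]
        exact ⟨n, Finset.mem_range.2 h3, s, hs, rfl⟩
    · rw [hN] at h3
      obtain ⟨hn1, hne⟩ := hA.one n hn
      have h4 : 4 ≤ ρ * n := by
        have h5 : 4 / ρ ≤ n := (Nat.le_ceil _).trans (by exact_mod_cast (le_max_right _ _).trans h3)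
        rw [div_le_iff₀ hρ] at h5
        linarith
      refine law_le hne hε.le (le_trans ?_ (h1 n hn ((le_max_left _ _).trans h3)))
      have hsub : ((bridges n).filter fun s => curve s ∈ {f : C(unitInterval, ℂ) | ¬ Md (min δ (ρ / 2)) r f}) ⊆
          (bridges n).filter fun s => ∃ i j : ℕ, i ≤ j ∧ j ≤ n ∧ (j : ℝ) - i ≤ ρ * n ∧
            r * size n < ‖pos s j - pos s i‖ := by
        intro s hs
        rw [Finset.mem_filter] at hs ⊢
        refine ⟨hs.1, ?_⟩
        by_contra hcon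
        push Not at hcon
        apply hs.2
        intro u v huv
        exact curve_mod hn1 hr.le h4 (fun i j a b c => hcon i j a b c) u v (huv.trans (min_le_right _ _))
      exact_mod_cast Finset.card_le_card hsub

end NTF
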