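import Pool.Agent.NT.LimN

/-!
Natural time: the final theorem, from the output of the part with the critical weights (NT/OutDefs).
-/

set_option autoImplicit false

open MeasureTheory Filter Topology ENNReal

namespace Pool.Agent.NT.ResNat

theorem result_of (h : HexObs.NTm.Out) : ∃ A : Set ℕ,
    (∀ δ : ℝ, 0 < δ → ∃ x₀ : ℝ, ∀ x : ℝ, x₀ ≤ x → ∃ n ∈ A, x ≤ n ∧ (n : ℝ) ≤ x ^ (1 + δ)) ∧
    (∀ n ∈ A, (bridges n).Nonempty ∧ IsProbabilityMeasure (law n)) ∧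
    (∀ ε : ℝ, 0 < ε → ∃ n₀ : ℕ, ∀ n ∈ A, n₀ ≤ n →
      (n : ℝ) ^ (3 / 4 - ε) ≤ size n ∧ size n ≤ (n : ℝ) ^ (3 / 4 + ε)) ∧
    IsTightMeasureSet {μ | ∃ n ∈ A, μ = law n} ∧
    (∀ φ : ℕ → ℕ, StrictMono φ → (∀ k, φ k ∈ A) → ∃ ψ : ℕ → ℕ, StrictMono ψ ∧ ∃ ν : Measure C(unitInterval, ℂ),
      IsProbabilityMeasure ν ∧ LawTo (fun k => φ (ψ k)) ν) ∧
    ∀ (φ : ℕ → ℕ) (ν : Measure C(unitInterval, ℂ)), Tendsto φ atTop atTop → (∀ k, φ k ∈ A) →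
      IsProbabilityMeasure ν → LawTo φ ν →
      (∀ᵐ γ : C(unitInterval, ℂ) ∂ν, γ 0 = 0 ∧ (∀ u, 0 ≤ (γ u).re ∧ (γ u).re ≤ (γ 1).re) ∧ 0 < (γ 1).re) ∧
      ∫ γ : C(unitInterval, ℂ), ‖γ 1‖ ^ 2 ∂ν = 1 := by
  obtain ⟨A, h1, hA, h2⟩ := NTF.facts_of h
  exact ⟨A, h1, fun n hn => ⟨(hA.one n hn).2, NTF.law_prob (hA.one n hn).2⟩, h2, NTF.tight hA,
    fun φ _ hφA => NTF.subseq hA hφA, fun φ ν hφ hφA hν hlim => NTF.limit_props hA hφ hφA hν hlim⟩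

theorem statement_of (h : HexObs.NTm.Out) : Statement := result_of h

end Pool.Agent.NT.ResNat
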