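import Pool.Agent.NT.PartsG
import Pool.Agent.NT.LawH

/-!
Natural time: the final theorems, from the output of the part with the critical weights (NT/SeqDefs, NT/SeqDefsH).
-/

set_option autoImplicit false

open MeasureTheory Filter Topology ENNReal
open scoped Classical

namespace Pool.Agent.NT.ResNat

/-- the part that concerns the scales -/
theorem scales_of {e ε : ℝ} {G : Set ℕ} {A : ℕ → Set ℕ} (hD : HexObs.NTm.Dense e G) (hC : HexObs.NTm.Core ε G A) (k1 : ℕ) :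
    ∃ (k2 : ℕ) (C : ℝ), k1 ≤ k2 ∧ 1 ≤ C ∧ ∀ δ : ℝ, 0 < δ → ∃ x₀ : ℕ, ∀ x : ℕ, x₀ ≤ x → (1 - e) * (δ * x) ≤
      (((Finset.Icc x ⌊(1 + δ) * (x : ℝ)⌋₊).filter fun k =>
        mass k {n | ¬ (n ∈ NTF.AU G A k2 ∧ 2 ^ k / C ≤ size n ∧ size n ≤ C * 2 ^ k)} ≤
          ENNReal.ofReal ε * mass k Set.univ).card : ℝ) := by
  obtain ⟨c, C, k0, hc, hC0, hsize⟩ := NTF.core_size hC
  refine ⟨max k1 k0, max 1 (max C (1 / c)), le_max_left _ _, le_max_left _ _, fun δ hδ => ?_⟩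
  obtain ⟨x0, hx0⟩ := hD δ hδ
  refine ⟨max x0 (max k1 k0), fun x hx => (hx0 x (le_of_max_le_left hx)).trans ?_⟩
  have hx2 := le_of_max_le_right hx
  rw [Nat.cast_le]
  apply Finset.card_le_card
  intro k hk
  rw [Finset.mem_filter, Finset.mem_Icc] at hk
  rw [Finset.mem_filter, Finset.mem_Icc]
  refine ⟨hk.1, ?_⟩
  have hk2 : max k1 k0 ≤ k := hx2.trans hk.1.1
  have h2k : (0 : ℝ) < 2 ^ k := by positivity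
  refine NTF.mass_typ hC hk.2 (B := {n | n ∈ NTF.AU G A (max k1 k0) ∧ 2 ^ k / max 1 (max C (1 / c)) ≤ size n ∧
    size n ≤ max 1 (max C (1 / c)) * 2 ^ k}) fun n hn => ?_
  obtain ⟨h1, h2⟩ := hsize k hk.2 n hn
  refine ⟨⟨k, hk.2, hk2, hn⟩, ?_, ?_⟩
  · refine le_trans ?_ (h2 (le_of_max_le_right hk2))
    rw [div_le_iff₀ (lt_of_lt_of_le one_pos (le_max_left _ _))]
    have h3 : 1 / c ≤ max 1 (max C (1 / c)) := (le_max_right _ _).trans (le_max_right _ _)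
    rw [div_le_iff₀ hc] at h3
    nlinarith
  · refine h1.trans (mul_le_mul_of_nonneg_right ?_ h2k.le)
    exact (le_max_left _ _).trans (le_max_right _ _)

theorem result_gen {a : NNReal} {ε e : ℝ} {G : Set ℕ} {A : ℕ → Set ℕ} (ha : 0 < a) (ha1 : (a : ℝ) ≤ 1) (hε1 : ε < 1)
    (he : e < 1) (hD : HexObs.NTm.Dense e G) (hC : HexObs.NTm.Core ε G A) (hH : HexObs.NTm.HCore a G A) :
    ∃ (A : Set ℕ) (C : ℝ), 1 ≤ C ∧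
    (∀ k, mass k Set.univ ≠ 0 ∧ mass k Set.univ ≠ ∞) ∧
    (∀ δ : ℝ, 0 < δ → ∃ x₀ : ℕ, ∀ x : ℕ, x₀ ≤ x → (1 - e) * (δ * x) ≤
      (((Finset.Icc x ⌊(1 + δ) * (x : ℝ)⌋₊).filter fun k =>
        mass k {n | ¬ (n ∈ A ∧ 2 ^ k / C ≤ size n ∧ size n ≤ C * 2 ^ k)} ≤ ENNReal.ofReal ε * mass k Set.univ).card : ℝ)) ∧
    (∀ δ : ℝ, 0 < δ → ∃ x₀ : ℝ, ∀ x : ℝ, x₀ ≤ x → ∃ n ∈ A, x ≤ n ∧ (n : ℝ) ≤ x ^ (1 + δ)) ∧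
    (∀ n ∈ A, (bridges n).Nonempty ∧ IsProbabilityMeasure (law n)) ∧
    (∀ ε' : ℝ, 0 < ε' → ∃ n₀ : ℕ, ∀ n ∈ A, n₀ ≤ n →
      (n : ℝ) ^ (3 / 4 - ε') ≤ size n ∧ size n ≤ (n : ℝ) ^ (3 / 4 + ε')) ∧
    (∀ ε' : ℝ, 0 < ε' → ∃ M : NNReal, ∀ n ∈ A,
      law n {γ : C(unitInterval, ℂ) | ¬ HolderWith M a γ} ≤ ENNReal.ofReal ε') ∧
    IsTightMeasureSet {μ | ∃ n ∈ A, μ = law n} ∧
    (∀ φ : ℕ → ℕ, StrictMono φ → (∀ k, φ k ∈ A) → ∃ ψ : ℕ → ℕ, StrictMono ψ ∧ ∃ ν : Measure C(unitInterval, ℂ),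
      IsProbabilityMeasure ν ∧ LawTo (fun k => φ (ψ k)) ν) ∧
    ∀ (φ : ℕ → ℕ) (ν : Measure C(unitInterval, ℂ)), Tendsto φ atTop atTop → (∀ k, φ k ∈ A) →
      IsProbabilityMeasure ν → LawTo φ ν →
      (∀ᵐ γ : C(unitInterval, ℂ) ∂ν, γ 0 = 0 ∧ (∀ u, 0 ≤ (γ u).re ∧ (γ u).re ≤ (γ 1).re) ∧ 0 < (γ 1).re ∧
        ∃ M : NNReal, HolderWith M a γ) ∧
      ∫ γ : C(unitInterval, ℂ), ‖γ 1‖ ^ 2 ∂ν = 1 := by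
  have ha0 : (0 : ℝ) < a := ha
  obtain ⟨k1, hk1⟩ := NTF.factsG_of hC
  obtain ⟨k2, C, hk2, hC1, hscale⟩ := scales_of hD hC k1
  obtain ⟨hA, hexp, hhold⟩ := hk1 k2 hk2
  have hHA := hhold a ha0 hH
  refine ⟨NTF.AU G A k2, C, hC1, fun k => ⟨NTF.mass_univ_ne_zero k, NTF.mass_univ_ne_top k⟩, hscale,
    NTF.lengths_dense hD he hC hε1 k2, fun n hn => ⟨(hA.one n hn).2, NTF.law_prob (hA.one n hn).2⟩, hexp,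
    fun ε' hε' => NTF.law_holder hA hHA ha ha1 hε', NTF.tight hA,
    fun φ _ hφA => NTF.subseq hA hφA, fun φ ν hφ hφA hν hlim => ?_⟩
  obtain ⟨h1, h2⟩ := NTF.limit_props hA hφ hφA hν hlim
  refine ⟨?_, h2⟩
  filter_upwards [h1, NTF.limit_holder hA hHA ha ha1 hφA hν hlim] with γ h3 h4
  exact ⟨h3.1, h3.2.1, h3.2.2, h4⟩

theorem resultH_of (h : HexObs.NTm.OutH) (a : NNReal) (ε : ℝ) (ha : 0 < a) (hε : 0 < ε) (haε : 4 / 3 * (a : ℝ) + ε < 1) :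
    ∃ (A : Set ℕ) (C : ℝ), 1 ≤ C ∧
    (∀ k, mass k Set.univ ≠ 0 ∧ mass k Set.univ ≠ ∞) ∧
    (∀ δ : ℝ, 0 < δ → ∃ x₀ : ℕ, ∀ x : ℕ, x₀ ≤ x → (1 - (4 / 3 * (a : ℝ) + ε)) * (δ * x) ≤
      (((Finset.Icc x ⌊(1 + δ) * (x : ℝ)⌋₊).filter fun k =>
        mass k {n | ¬ (n ∈ A ∧ 2 ^ k / C ≤ size n ∧ size n ≤ C * 2 ^ k)} ≤ ENNReal.ofReal ε * mass k Set.univ).card : ℝ)) ∧
    (∀ δ : ℝ, 0 < δ → ∃ x₀ : ℝ, ∀ x : ℝ, x₀ ≤ x → ∃ n ∈ A, x ≤ n ∧ (n : ℝ) ≤ x ^ (1 + δ)) ∧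
    (∀ n ∈ A, (bridges n).Nonempty ∧ IsProbabilityMeasure (law n)) ∧
    (∀ ε' : ℝ, 0 < ε' → ∃ n₀ : ℕ, ∀ n ∈ A, n₀ ≤ n →
      (n : ℝ) ^ (3 / 4 - ε') ≤ size n ∧ size n ≤ (n : ℝ) ^ (3 / 4 + ε')) ∧
    (∀ ε' : ℝ, 0 < ε' → ∃ M : NNReal, ∀ n ∈ A,
      law n {γ : C(unitInterval, ℂ) | ¬ HolderWith M a γ} ≤ ENNReal.ofReal ε') ∧
    IsTightMeasureSet {μ | ∃ n ∈ A, μ = law n} ∧
    (∀ φ : ℕ → ℕ, StrictMono φ → (∀ k, φ k ∈ A) → ∃ ψ : ℕ → ℕ, StrictMono ψ ∧ ∃ ν : Measure C(unitInterval, ℂ),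
      IsProbabilityMeasure ν ∧ LawTo (fun k => φ (ψ k)) ν) ∧
    ∀ (φ : ℕ → ℕ) (ν : Measure C(unitInterval, ℂ)), Tendsto φ atTop atTop → (∀ k, φ k ∈ A) →
      IsProbabilityMeasure ν → LawTo φ ν →
      (∀ᵐ γ : C(unitInterval, ℂ) ∂ν, γ 0 = 0 ∧ (∀ u, 0 ≤ (γ u).re ∧ (γ u).re ≤ (γ 1).re) ∧ 0 < (γ 1).re ∧
        ∃ M : NNReal, HolderWith M a γ) ∧
      ∫ γ : C(unitInterval, ℂ), ‖γ 1‖ ^ 2 ∂ν = 1 := by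
  have ha1 : (a : ℝ) < 3 / 4 := by linarith
  have hε1 : ε < 1 := by linarith
  obtain ⟨G, A, hD, hC, hH⟩ := h a ε ha ha1 hε hε1
  exact result_gen ha (by linarith) hε1 haε hD hC hH

theorem resultT_of (h : HexObs.NTm.OutT) (ε : ℝ) (hε : 0 < ε) (hε1 : ε < 1) :
    ∃ (A : Set ℕ) (C : ℝ), 1 ≤ C ∧
    (∀ k, mass k Set.univ ≠ 0 ∧ mass k Set.univ ≠ ∞) ∧
    (∀ δ : ℝ, 0 < δ → ∃ x₀ : ℕ, ∀ x : ℕ, x₀ ≤ x → (1 - ε) * (δ * x) ≤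
      (((Finset.Icc x ⌊(1 + δ) * (x : ℝ)⌋₊).filter fun k =>
        mass k {n | ¬ (n ∈ A ∧ 2 ^ k / C ≤ size n ∧ size n ≤ C * 2 ^ k)} ≤ ENNReal.ofReal ε * mass k Set.univ).card : ℝ)) ∧
    (∀ δ : ℝ, 0 < δ → ∃ x₀ : ℝ, ∀ x : ℝ, x₀ ≤ x → ∃ n ∈ A, x ≤ n ∧ (n : ℝ) ≤ x ^ (1 + δ)) ∧
    (∀ n ∈ A, (bridges n).Nonempty ∧ IsProbabilityMeasure (law n)) ∧
    (∀ ε' : ℝ, 0 < ε' → ∃ n₀ : ℕ, ∀ n ∈ A, n₀ ≤ n →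
      (n : ℝ) ^ (3 / 4 - ε') ≤ size n ∧ size n ≤ (n : ℝ) ^ (3 / 4 + ε')) ∧
    IsTightMeasureSet {μ | ∃ n ∈ A, μ = law n} ∧
    (∀ φ : ℕ → ℕ, StrictMono φ → (∀ k, φ k ∈ A) → ∃ ψ : ℕ → ℕ, StrictMono ψ ∧ ∃ ν : Measure C(unitInterval, ℂ),
      IsProbabilityMeasure ν ∧ LawTo (fun k => φ (ψ k)) ν) ∧
    ∀ (φ : ℕ → ℕ) (ν : Measure C(unitInterval, ℂ)), Tendsto φ atTop atTop → (∀ k, φ k ∈ A) →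
      IsProbabilityMeasure ν → LawTo φ ν →
      (∀ᵐ γ : C(unitInterval, ℂ) ∂ν, γ 0 = 0 ∧ (∀ u, 0 ≤ (γ u).re ∧ (γ u).re ≤ (γ 1).re) ∧ 0 < (γ 1).re) ∧
      ∫ γ : C(unitInterval, ℂ), ‖γ 1‖ ^ 2 ∂ν = 1 := by
  obtain ⟨G, A, hD, hC⟩ := h ε hε hε1
  obtain ⟨k1, hk1⟩ := NTF.factsG_of hC
  obtain ⟨k2, C, hk2, hC1, hscale⟩ := scales_of hD hC k1
  obtain ⟨hA, hexp, -⟩ := hk1 k2 hk2
  exact ⟨NTF.AU G A k2, C, hC1, fun k => ⟨NTF.mass_univ_ne_zero k, NTF.mass_univ_ne_top k⟩, hscale,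
    NTF.lengths_dense hD hε1 hC hε1 k2, fun n hn => ⟨(hA.one n hn).2, NTF.law_prob (hA.one n hn).2⟩, hexp,
    NTF.tight hA, fun φ _ hφA => NTF.subseq hA hφA, fun φ ν hφ hφA hν hlim => NTF.limit_props hA hφ hφA hν hlim⟩

end Pool.Agent.NT.ResNat
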