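import Pool.Agent.NT.Zig
import Pool.Agent.SDN.CleanNorm

/-!
NT (natural time), module 2: one step of the norm estimate of the leaves without backtracks in a window, general form.
-/

set_option autoImplicit false

namespace HexObs

namespace NTm

open Finset TS SDN SDN.CN

open scoped ENNReal

/-- the words of G are cut at every row of [A1, A2), or have a short zig-zag over it -/
structure Stp (k A1 A2 D : ℕ) (G X W : Set (List Bool)) : Prop where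
  dec : ∀ g ∈ G, ∀ a, A1 ≤ a → a < A2 → (∃ t1 ∈ Brd a, t1 ∈ X ∧ ∃ t2 ∈ W, g = t1 ++ t2) ∨
    ∃ G1 D G3, G1 ∈ X ∧ D ∈ SBr (k + 5) ∧ G3 ∈ W ∧ unf [G1, D, G3] = g ∧ LFold G1 D ∧ LFold D G3 ∧
      a ≤ hgt G1 ∧ hgt G1 ≤ a + hgt D
  hG : G ⊆ HB D
  hX : X ⊆ HB (2 ^ (k + 5))
  hW : W ⊆ HB D
  hD : 1 ≤ D

open Classical in
/-- one level -/
theorem step_a {k A1 A2 D a : ℕ} {G X W : Set (List Bool)} (h : Stp k A1 A2 D G X W) {Φ : List Bool → ℝ≥0∞} (hΦ : HerD D Φ)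
    (ha1 : A1 ≤ a) (ha2 : a < A2) (Q : List Bool → Prop) (hQ1 : ∀ x y, Q (x ++ y) → Q x)
    (hQ2 : ∀ x y z, x ≠ [] → Q (unf [x, y, z]) → Q x) :
    Rec8.sw {g | g ∈ G ∧ Q g} Φ ≤
      Rec8.sw {x | x ∈ X ∧ Q x} (fun x => (if hgt x = a then 1 else 0) * Rec8.sw W Φ) +
      Rec8.sw {x | x ∈ X ∧ Q x} (fun x => Rec8.sw {y | y ∈ SBr (k + 5) ∧ LFold x y}
        (fun y => (if a ≤ hgt x ∧ hgt x ≤ a + hgt y then 1 else 0) * Rec8.sw {z | z ∈ W ∧ LFold y z} Φ)) := by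
  refine (TN5b_sw_union (B := {g | (g ∈ G ∧ Q g) ∧ ∃ t1 ∈ Brd a, t1 ∈ X ∧ ∃ t2 ∈ W, g = t1 ++ t2})
    (C := {g | (g ∈ G ∧ Q g) ∧ ∃ G1 D G3, G1 ∈ X ∧ D ∈ SBr (k + 5) ∧ G3 ∈ W ∧ unf [G1, D, G3] = g ∧ LFold G1 D ∧
      LFold D G3 ∧ a ≤ hgt G1 ∧ hgt G1 ≤ a + hgt D}) ?_ Φ).trans ?_
  · rintro g ⟨hg, hgQ⟩
    rcases h.dec g hg a ha1 ha2 with h1 | h1
    · exact Or.inl ⟨⟨hg, hgQ⟩, h1⟩
    · exact Or.inr ⟨⟨hg, hgQ⟩, h1⟩
  · refine add_le_add ?_ ?_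
    · -- cut
      have e1 : Rec8.sw {x | x ∈ X ∧ Q x} (fun x => (if hgt x = a then 1 else 0) * Rec8.sw W Φ) =
          Rec8.sw {x | x ∈ X ∧ Q x} (fun x => Rec8.sw W (fun y => (if hgt x = a then 1 else 0) * Φ y)) :=
        Rec8.sw_congr fun x _ => (Rec8.sw_mul_left _ _ _).symm
      rw [e1, sw2]
      refine Rec8.sw_cover _ _ _ (fun p : List Bool × List Bool => p.1 ++ p.2) ?_
      rintro g ⟨⟨hgW, hgQ⟩, t1, ht1, ht1X, t2, ht2, rfl⟩
      refine ⟨(t1, t2), rfl, ?_⟩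
      rw [if_pos (⟨⟨ht1X, hQ1 _ _ hgQ⟩, ht2⟩ : _ ∧ _), wE_append]
      show wE t1 * wE t2 * Φ (t1 ++ t2) ≤ wE t1 * (wE t2 * ((if hgt t1 = a then 1 else 0) * Φ t2))
      rw [if_pos (hgt_eq ht1), one_mul, mul_assoc]
      gcongr
      exact hΦ.her t1 ⟨a, ht1⟩ t2
    · -- zig-zag
      rw [sw3]
      refine Rec8.sw_cover _ _ _ (fun p : List Bool × (List Bool × List Bool) => unf [p.1, p.2.1, p.2.2]) ?_
      rintro g ⟨⟨hgW, hgQ⟩, G1, D1, G3, hG1, hD, hG3, hunf, f1, f2, i1, i2⟩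
      refine ⟨(G1, (D1, G3)), hunf, ?_⟩
      have n1 : G1 ≠ [] := by
        obtain ⟨u, u1, u3⟩ := h.hX hG1
        have : 1 ≤ 2 ^ (k + 5) := Nat.one_le_two_pow
        exact Brd_ne_nil u3 (by omega)
      have n2 : D1 ≠ [] := by
        obtain ⟨u, u1, u2, u3⟩ := hD
        exact Brd_ne_nil u3 u1
      have n3 : G3 ≠ [] := by
        obtain ⟨u, u1, u3⟩ := h.hW hG3
        have := h.hD
        exact Brd_ne_nil u3 (by omega)
      have hQG : Q G1 := hQ2 G1 D1 G3 n1 (by rw [hunf]; exact hgQ)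
      rw [if_pos (⟨⟨hG1, hQG⟩, ⟨hD, f1⟩, hG3, f2⟩ : _ ∧ _ ∧ _)]
      show wE g * Φ g ≤ wE G1 * (wE D1 * ((if a ≤ hgt G1 ∧ hgt G1 ≤ a + hgt D1 then 1 else 0) * (wE G3 * Φ G3)))
      rw [if_pos ⟨i1, i2⟩, one_mul]
      have h1 : wE g ≤ wE G1 * (wE D1 * wE G3) := by
        rw [← hunf]
        exact wE_unf3 n1 n2 n3
      have h2 : Φ g ≤ Φ G3 := by
        obtain ⟨s', hs'⟩ : ∃ s', g = s' ++ G3 := by
          refine ⟨G1.dropLast ++ (!lst G1) :: (!lst G1) :: (D1.dropLast ++ [(!lst D1), (!lst D1)]), ?_⟩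
          rw [← hunf]
          show G1.dropLast ++ (!lst G1) :: (!lst G1) :: (D1.dropLast ++ (!lst D1) :: (!lst D1) :: G3) = _
          simp [List.append_assoc]
        rw [hs']
        refine hΦ.suf s' G3 (h.hW hG3) ?_
        rw [← hs']
        exact h.hG hgW
      calc wE g * Φ g ≤ (wE G1 * (wE D1 * wE G3)) * Φ G3 := by gcongr
        _ = _ := by ring

open Classical in
/-- average over the levels of the window [A1, A2) -/
theorem step_avg {k A1 A2 D : ℕ} {G X W : Set (List Bool)} (h : Stp k A1 A2 D G X W) {Φ : List Bool → ℝ≥0∞} (hΦ : HerD D Φ)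
    (Q : List Bool → Prop) (hQ1 : ∀ x y, Q (x ++ y) → Q x) (hQ2 : ∀ x y z, x ≠ [] → Q (unf [x, y, z]) → Q x) :
    ((A2 - A1 : ℕ) : ℝ≥0∞) * Rec8.sw {g | g ∈ G ∧ Q g} Φ ≤
      Rec8.sw {x | x ∈ X ∧ Q x} (fun _ => 257 * Rec8.sw W Φ) +
      ∑ j ∈ Ico 4 (k + 5), 2 ^ (j + 1) * Rec8.sw {x | x ∈ X ∧ Q x} (ZZ j W Φ) := by
  obtain ⟨A, hA⟩ : ∃ A : Set (List Bool), A = {x | x ∈ X ∧ Q x} := ⟨_, rfl⟩
  have h1 : ∀ a ∈ Ico A1 A2, Rec8.sw {g | g ∈ G ∧ Q g} Φ ≤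
      Rec8.sw A (fun x => (if hgt x = a then 1 else 0) * Rec8.sw W Φ) +
      Rec8.sw A (fun x => Rec8.sw {y | y ∈ SBr (k + 5) ∧ LFold x y}
        (fun y => (if a ≤ hgt x ∧ hgt x ≤ a + hgt y then 1 else 0) * Rec8.sw {z | z ∈ W ∧ LFold y z} Φ)) := by
    intro a ha
    rw [Finset.mem_Ico] at ha
    rw [hA]
    exact step_a h hΦ ha.1 ha.2 Q hQ1 hQ2
  have h2 := Finset.sum_le_sum h1
  rw [Finset.sum_const, nsmul_eq_mul, Nat.card_Ico, Finset.sum_add_distrib, ← Rec8.sw_sum, ← Rec8.sw_sum] at h2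
  rw [← hA]
  refine h2.trans ?_
  have h3 : Rec8.sw A (fun x => ∑ a ∈ Ico A1 A2, (if hgt x = a then 1 else 0) * Rec8.sw W Φ) ≤
      Rec8.sw A (fun _ => Rec8.sw W Φ) := by
    refine Rec8.sw_mono' fun x _ => ?_
    rw [← Finset.sum_mul]
    have h4 : ∑ a ∈ Ico A1 A2, (if hgt x = a then (1 : ℝ≥0∞) else 0) ≤ 1 := by
      rw [Finset.sum_ite_eq]
      split_ifs
      · exact le_rfl
      · exact zero_le
    calc (∑ a ∈ Ico A1 A2, (if hgt x = a then (1 : ℝ≥0∞) else 0)) * Rec8.sw W Φ ≤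
          1 * Rec8.sw W Φ := mul_le_mul_left h4 _
      _ = _ := one_mul _
  have h5 : Rec8.sw A (fun x => ∑ a ∈ Ico A1 A2, Rec8.sw {y | y ∈ SBr (k + 5) ∧ LFold x y}
        (fun y => (if a ≤ hgt x ∧ hgt x ≤ a + hgt y then 1 else 0) * Rec8.sw {z | z ∈ W ∧ LFold y z} Φ)) ≤
      Rec8.sw A (fun x => 256 * Rec8.sw W Φ + ∑ j ∈ Ico 4 (k + 5), 2 ^ (j + 1) * ZZ j W Φ x) := by
    refine Rec8.sw_mono' fun x hx => ?_
    rw [← Rec8.sw_sum]
    have hxH : x ∈ HB (2 ^ (k + 5)) := by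
      rw [hA] at hx
      exact h.hX hx.1
    refine le_trans (Rec8.sw_mono' fun y _ => ?_) (dyadic hxH)
    rw [← Finset.sum_mul]
    gcongr
    rw [← Finset.sum_filter, Finset.sum_const, nsmul_eq_mul, mul_one]
    have := card_win A1 A2 (hgt x) (hgt y)
    have h6 : (((Ico A1 A2).filter (fun a => a ≤ hgt x ∧ hgt x ≤ a + hgt y)).card : ℝ≥0∞) ≤
        ((hgt y + 1 : ℕ) : ℝ≥0∞) := by exact_mod_cast this
    push_cast at h6
    exact h6
  refine (add_le_add h3 h5).trans (le_of_eq ?_)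
  rw [Rec8.sw_add, Rec8.sw_sum, ← add_assoc]
  congr 1
  · rw [← Rec8.sw_add]
    refine Rec8.sw_congr fun x _ => ?_
    have : (257 : ℝ≥0∞) = 1 + 256 := by norm_num
    rw [this, add_mul, one_mul]
  · exact Finset.sum_congr rfl fun j _ => Rec8.sw_mul_left _ _ _

/-- the sum of the links: numbers -/
noncomputable def lk (k : ℕ) (K2 : ℝ) : ℝ := 514 + ∑ i ∈ range (k + 1), 2 ^ (i + 5) * (32 * K2) / Ub i

lemma lk_nonneg (k : ℕ) {K2 : ℝ} (h : 1 ≤ K2) : 0 ≤ lk k K2 := by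
  unfold lk
  have : 0 ≤ ∑ i ∈ range (k + 1), 2 ^ (i + 5) * (32 * K2) / Ub i := by
    refine Finset.sum_nonneg fun i _ => ?_
    have hU := Ub_pos i
    positivity
  linarith

/-- the sum over the links, after the operator with the bound κ for the first piece -/
lemma link {k : ℕ} {W : Set (List Bool)} {Φ : List Bool → ℝ≥0∞} {x : ℝ≥0∞} {m K1 K2 κ : ℝ} (hm : 0 ≤ m) (hK1 : 0 ≤ K1)
    (hK2 : 1 ≤ K2) (hκ : 0 ≤ κ)
    (h1 : ∀ i, i ≤ k → xT (2 ^ (i + 4)) i (vA (2 ^ (i + 4)) W Φ) ≤ ENNReal.ofReal (m / Ub i) * x)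
    (h2 : Rec8.sw W Φ ≤ ENNReal.ofReal m * x)
    (hnA : ∀ (i : ℕ) (Ψ : List Bool → ℝ≥0∞), Hered Ψ → xT (2 ^ (i + 4)) i (vA (2 ^ (i + 4)) (BrR (2 ^ (i + 4)) (2 ^ (i + 4 + 1))) Ψ) ≤
      ENNReal.ofReal (32 * K2) * xT (2 ^ (i + 4)) i Ψ)
    {X : ℝ≥0∞} {Z : ℕ → ℝ≥0∞} (hX : X ≤ ENNReal.ofReal (K1 * κ) * (2 * (257 * Rec8.sw W Φ)))
    (hZ : ∀ i, i ≤ k → Z (i + 4) ≤ ENNReal.ofReal (K1 * κ) * xT (2 ^ (i + 4)) i (ZZ (i + 4) W Φ)) :
    X + ∑ j ∈ Ico 4 (k + 5), 2 ^ (j + 1) * Z j ≤ ENNReal.ofReal (K1 * lk k K2 * (m * κ)) * x := by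
  have hX' : X ≤ ENNReal.ofReal (K1 * κ * (514 * m)) * x := by
    refine hX.trans ?_
    calc ENNReal.ofReal (K1 * κ) * (2 * (257 * Rec8.sw W Φ)) ≤
          ENNReal.ofReal (K1 * κ) * (2 * (257 * (ENNReal.ofReal m * x))) := by gcongr
      _ = ENNReal.ofReal (K1 * κ * (514 * m)) * x := by
          have e : ENNReal.ofReal 514 = 2 * 257 := by
            rw [ENNReal.ofReal_ofNat]
            norm_num
          rw [ENNReal.ofReal_mul (p := K1 * κ) (by positivity), ENNReal.ofReal_mul (p := 514) (by norm_num), e]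
          ring
  have hZ' : ∀ i ∈ range (k + 1), 2 ^ (i + 4 + 1) * Z (i + 4) ≤
      ENNReal.ofReal (K1 * κ * ((2 ^ (i + 5) * (32 * K2) / Ub i) * m)) * x := by
    intro i hi
    rw [Finset.mem_range] at hi
    have hU := Ub_pos i
    have h3 : xT (2 ^ (i + 4)) i (ZZ (i + 4) W Φ) ≤
        ENNReal.ofReal (32 * K2) * (ENNReal.ofReal (m / Ub i) * x) := by
      refine (hnA i _ (hered_vA _ _ _)).trans ?_
      exact mul_le_mul_right (h1 i (by omega)) _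
    calc (2 : ℝ≥0∞) ^ (i + 4 + 1) * Z (i + 4) ≤ 2 ^ (i + 4 + 1) * (ENNReal.ofReal (K1 * κ) *
          (ENNReal.ofReal (32 * K2) * (ENNReal.ofReal (m / Ub i) * x))) := by
          refine mul_le_mul_right ((hZ i (by omega)).trans (mul_le_mul_right h3 _)) _
      _ = _ := by
          have e : (2 : ℝ≥0∞) ^ (i + 4 + 1) = ENNReal.ofReal (2 ^ (i + 5)) := by
            rw [ENNReal.ofReal_pow (by norm_num)]
            norm_num
          rw [e, ← mul_assoc, ← mul_assoc, ← mul_assoc, ← ENNReal.ofReal_mul (by positivity),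
            ← ENNReal.ofReal_mul (by positivity), ← ENNReal.ofReal_mul (by positivity)]
          congr 2
          field_simp
  have hsum : ∑ j ∈ Ico 4 (k + 5), (2 : ℝ≥0∞) ^ (j + 1) * Z j = ∑ i ∈ range (k + 1), 2 ^ (i + 4 + 1) * Z (i + 4) := by
    rw [Finset.sum_Ico_eq_sum_range]
    refine Finset.sum_congr (by congr 1) fun i _ => ?_
    rw [add_comm 4 i]
  rw [hsum]
  calc X + ∑ i ∈ range (k + 1), 2 ^ (i + 4 + 1) * Z (i + 4) ≤
        ENNReal.ofReal (K1 * κ * (514 * m)) * x + ∑ i ∈ range (k + 1),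
          ENNReal.ofReal (K1 * κ * ((2 ^ (i + 5) * (32 * K2) / Ub i) * m)) * x :=
        add_le_add hX' (Finset.sum_le_sum hZ')
    _ = ENNReal.ofReal (K1 * lk k K2 * (m * κ)) * x := by
        rw [← Finset.sum_mul, ← add_mul, ← ENNReal.ofReal_sum_of_nonneg, ← ENNReal.ofReal_add]
        · congr 2
          rw [← Finset.mul_sum, ← Finset.sum_mul]
          unfold lk
          ring
        · positivity
        · refine Finset.sum_nonneg fun i _ => ?_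
          have hU := Ub_pos i
          positivity
        · intro i _
          have hU := Ub_pos i
          positivity

end NTm

end HexObs
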