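import Pool.Agent.NT.Short
import Pool.Agent.SDN.CleanChain

/-!
NT (natural time), module 4e: chains of leaves with a damping factor ω of small norm, with the exponential moment of the
heights.
-/

set_option autoImplicit false

namespace HexObs

namespace NTm

open Finset TS SDN SDN.CN

open scoped ENNReal

namespace TW

/-- the leaves without backtracks, height class j -/
def Cj (k s j : ℕ) : Set (List Bool) := CK (k + 5) (k + s) j ∩ HB (2 ^ (k + 4))

/-- the sum over the next n leaves, with the exponential moment -/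
noncomputable def FF (ω : List Bool → ℝ≥0∞) (k s : ℕ) : ℕ → List Bool → ℝ≥0∞
  | 0 => fun _ => 1
  | n + 1 => fun t => ∑' j : ℕ, 2 ^ (j + 1) * vA (2 ^ (k + 4)) (Cj k s j) (fun g => ω g * FF ω k s n g) t

/-- weight of one leaf -/
noncomputable def w1 (ω : List Bool → ℝ≥0∞) (k s : ℕ) (g : List Bool) : ℝ≥0∞ := wE g * (2 ^ (hgt g / 2 ^ (k + s) + 1) * ω g)

/-- weight of a chain -/
noncomputable def wv (ω : List Bool → ℝ≥0∞) (k s : ℕ) (gs : List (List Bool)) : ℝ≥0∞ := (gs.map (w1 ω k s)).prod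

variable {ω : List Bool → ℝ≥0∞}

lemma FF_her (k s n : ℕ) : HerD (2 ^ (k + 4)) (FF ω k s n) := by
  cases n with
  | zero => exact ⟨fun _ _ _ => le_rfl, fun _ _ _ _ => le_rfl⟩
  | succ n =>
    constructor
    · intro a ha t
      exact ENNReal.tsum_le_tsum fun j => mul_le_mul_right (CN.hered_vA _ _ _ a ha t) _
    · intro a t ht _
      exact ENNReal.tsum_le_tsum fun j => mul_le_mul_right (CCh.vA_suf (Nat.one_le_two_pow) _ _ ht) _

/-- the class has small norm -/
structure SmW (ω : List Bool → ℝ≥0∞) (k s : ℕ) (ν : ℕ → ℝ≥0∞) : Prop where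
  near : ∀ (j : ℕ) (Φ : List Bool → ℝ≥0∞), HerD (2 ^ (k + 4)) Φ → xT (2 ^ (k + 4)) k (vA (2 ^ (k + 4)) (Cj k s j) (fun g => ω g * Φ g)) ≤
    ν j * xT (2 ^ (k + 4)) k Φ
  free : ∀ (j : ℕ) (Φ : List Bool → ℝ≥0∞), HerD (2 ^ (k + 4)) Φ → Rec8.sw (Cj k s j) (fun g => ω g * Φ g) ≤
    ν j * ENNReal.ofReal (Ub k) * xT (2 ^ (k + 4)) k Φ
  sum : ∑' j : ℕ, 2 ^ (j + 1) * ν j ≤ ENNReal.ofReal (1 / 4)

lemma xT_FF {k s : ℕ} {ν : ℕ → ℝ≥0∞} (h : SmW ω k s ν) (n : ℕ) :
    xT (2 ^ (k + 4)) k (FF ω k s n) ≤ ENNReal.ofReal (2 * (1 / 4) ^ n) := by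
  induction n with
  | zero =>
    refine (xT_one _ _).trans ?_
    rw [pow_zero, mul_one]
    norm_num
  | succ n ih =>
    have h1 : xT (2 ^ (k + 4)) k (FF ω k s (n + 1)) ≤ ∑' j : ℕ, (2 : ℝ≥0∞) ^ (j + 1) * ν j *
        xT (2 ^ (k + 4)) k (FF ω k s n) := by
      refine (xT_tsum _ _ _).trans (ENNReal.tsum_le_tsum fun j => ?_)
      refine (xT_smul _ _ _ _).trans ?_
      rw [mul_assoc]
      exact mul_le_mul_right (h.near j _ (FF_her k s n)) _
    refine h1.trans ?_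
    rw [ENNReal.tsum_mul_right]
    refine (mul_le_mul' h.sum ih).trans ?_
    rw [← ENNReal.ofReal_mul (by norm_num)]
    apply ENNReal.ofReal_le_ofReal
    rw [pow_succ]
    linarith

/-- the sum over the leaves of the class, by the heights -/
lemma sum_leaf (k s : ℕ) (R : List Bool → Prop) (Φ : List Bool → ℝ≥0∞) (F : ℕ → ℝ≥0∞)
    (hF : ∀ j, Rec8.sw {g | g ∈ Cj k s j ∧ R g} Φ ≤ F j) :
    Rec8.sw {g | g ∈ CCh.Sg k ∧ R g} (fun g => 2 ^ (hgt g / 2 ^ (k + s) + 1) * Φ g) ≤ ∑' j : ℕ, 2 ^ (j + 1) * F j := by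
  classical
  have h1 : ∑' j : ℕ, (2 : ℝ≥0∞) ^ (j + 1) * Rec8.sw {g | g ∈ Cj k s j ∧ R g} Φ ≤
      ∑' j : ℕ, 2 ^ (j + 1) * F j := ENNReal.tsum_le_tsum fun j => mul_le_mul_right (hF j) _
  refine le_trans ?_ h1
  have h2 : ∀ j : ℕ, (2 : ℝ≥0∞) ^ (j + 1) * Rec8.sw {g | g ∈ Cj k s j ∧ R g} Φ =
      ∑' g : List Bool, (if g ∈ Cj k s j ∧ R g then 2 ^ (j + 1) * (wE g * Φ g) else 0) := by
    intro j
    rw [Rec8.sw_ind, ← ENNReal.tsum_mul_left]
    refine tsum_congr fun g => ?_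
    by_cases hg : g ∈ Cj k s j ∧ R g
    · rw [if_pos hg, if_pos (show g ∈ {g | g ∈ Cj k s j ∧ R g} from hg)]
    · rw [if_neg hg, if_neg (show ¬ g ∈ {g | g ∈ Cj k s j ∧ R g} from hg), mul_zero]
  rw [tsum_congr h2, ENNReal.tsum_comm, Rec8.sw_ind]
  refine ENNReal.tsum_le_tsum fun g => ?_
  by_cases hg : g ∈ {g | g ∈ CCh.Sg k ∧ R g}
  · rw [if_pos hg]
    obtain ⟨⟨hc, h, hh, hB⟩, hR⟩ := hg
    have hgt1 : hgt g = h := hgt_eq hB
    have hmem : g ∈ Cj k s (hgt g / 2 ^ (k + s)) ∧ R g := by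
      refine ⟨⟨⟨hc, h, ?_, ?_, hB⟩, h, hh, hB⟩, hR⟩
      · rw [hgt1]
        exact Nat.div_mul_le_self h _
      · rw [hgt1]
        rw [mul_comm]
        exact Nat.lt_mul_div_succ h (by positivity)
    refine le_trans ?_ (ENNReal.le_tsum (hgt g / 2 ^ (k + s)))
    rw [if_pos hmem]
    exact le_of_eq (by ring)
  · rw [if_neg hg]
    exact zero_le

open Classical in
/-- chains behind the leaf g -/
noncomputable def Tc (ω : List Bool → ℝ≥0∞) (k s n : ℕ) (g : List Bool) : ℝ≥0∞ :=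
  ∑' gs : List (List Bool), if gs.length = n ∧ (g :: gs).IsChain LFold ∧ ∀ u ∈ gs, u ∈ CCh.Sg k then wv ω k s gs else 0

lemma Tc_zero (k s : ℕ) (g : List Bool) : Tc ω k s 0 g ≤ 1 := by
  classical
  unfold Tc
  rw [tsum_eq_single []]
  · split_ifs
    · simp [wv]
    · exact zero_le_one
  · intro gs hgs
    rw [if_neg]
    rintro ⟨h, -⟩
    exact hgs (List.length_eq_zero_iff.1 h)

lemma Tc_le (k s n : ℕ) : ∀ g ∈ HB (2 ^ (k + 4)), Tc ω k s n g ≤ FF ω k s n g := by
  classical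
  induction n with
  | zero =>
    intro g _
    exact Tc_zero k s g
  | succ n ih =>
    intro g hg
    have h1 : Tc ω k s (n + 1) g ≤ Rec8.sw {g' | g' ∈ CCh.Sg k ∧ RT (2 ^ (k + 4)) LFold g g'}
        (fun g' => 2 ^ (hgt g' / 2 ^ (k + s) + 1) * (ω g' * FF ω k s n g')) := by
      unfold Tc
      refine (CCh.tsum_list _ ?_).trans ?_
      · rw [if_neg]
        rintro ⟨h, -⟩
        simp at h
      · rw [Rec8.sw_ind]
        refine ENNReal.tsum_le_tsum fun g' => ?_
        by_cases h2 : g' ∈ CCh.Sg k ∧ LFold g g'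
        · have h3 : g' ∈ {g' | g' ∈ CCh.Sg k ∧ RT (2 ^ (k + 4)) LFold g g'} := ⟨h2.1, RT_of hg h2.2⟩
          rw [if_pos h3]
          have h4 : wE g' * (2 ^ (hgt g' / 2 ^ (k + s) + 1) * (ω g' * FF ω k s n g')) = w1 ω k s g' * FF ω k s n g' := by
            unfold w1
            ring
          rw [h4]
          refine le_trans ?_ (mul_le_mul_right (ih g' h2.1.2) _)
          unfold Tc
          rw [← ENNReal.tsum_mul_left]
          refine ENNReal.tsum_le_tsum fun gs => ?_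
          by_cases h5 : (g' :: gs).length = n + 1 ∧ (g :: g' :: gs).IsChain LFold ∧ ∀ u ∈ g' :: gs, u ∈ CCh.Sg k
          · rw [if_pos h5, if_pos]
            · unfold wv
              rw [List.map_cons, List.prod_cons]
            · refine ⟨?_, ?_, ?_⟩
              · have := h5.1
                rw [List.length_cons] at this
                omega
              · exact (List.isChain_cons_cons.1 h5.2.1).2
              · exact fun u hu => h5.2.2 u (List.mem_cons_of_mem _ hu)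
          · rw [if_neg h5]
            exact zero_le
        · have h3 : ∀ gs : List (List Bool), (if (g' :: gs).length = n + 1 ∧ (g :: g' :: gs).IsChain LFold ∧
              ∀ u ∈ g' :: gs, u ∈ CCh.Sg k then wv ω k s (g' :: gs) else 0) = 0 := by
            intro gs
            rw [if_neg]
            rintro ⟨-, h4, h5⟩
            exact h2 ⟨h5 g' List.mem_cons_self, (List.isChain_cons_cons.1 h4).1⟩
          rw [tsum_congr h3, tsum_zero]
          exact zero_le
    refine h1.trans ?_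
    exact sum_leaf k s (fun g' => RT (2 ^ (k + 4)) LFold g g') (fun g' => ω g' * FF ω k s n g')
      (fun j => vA (2 ^ (k + 4)) (Cj k s j) (fun g' => ω g' * FF ω k s n g') g) (fun j => le_rfl)

/-- all chains -/
lemma all_chains {k s : ℕ} {ν : ℕ → ℝ≥0∞} (h : SmW ω k s ν) (n : ℕ) :
    Rec8.sw (CCh.Sg k) (fun g => 2 ^ (hgt g / 2 ^ (k + s) + 1) * (ω g * Tc ω k s n g)) ≤
      ENNReal.ofReal (Ub k * ((1 / 2) * (1 / 4) ^ n)) := by
  have hUk : 0 < Ub k := Ub_pos k
  have h1 : Rec8.sw (CCh.Sg k) (fun g => 2 ^ (hgt g / 2 ^ (k + s) + 1) * (ω g * Tc ω k s n g)) ≤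
      Rec8.sw {g | g ∈ CCh.Sg k ∧ True} (fun g => 2 ^ (hgt g / 2 ^ (k + s) + 1) * (ω g * FF ω k s n g)) :=
    Rec8.sw_mono (fun g hg => ⟨hg, trivial⟩) fun g hg => mul_le_mul_right (mul_le_mul_right (Tc_le k s n g hg.2) _) _
  refine h1.trans ?_
  have h2 := sum_leaf k s (fun _ => True) (fun g => ω g * FF ω k s n g)
      (fun j => ν j * ENNReal.ofReal (Ub k) * xT (2 ^ (k + 4)) k (FF ω k s n)) (fun j =>
        (Rec8.sw_mono (fun g hg => hg.1) fun _ _ => le_rfl).trans (h.free j _ (FF_her k s n)))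
  refine h2.trans ?_
  have h3 : ∀ j : ℕ, (2 : ℝ≥0∞) ^ (j + 1) * (ν j * ENNReal.ofReal (Ub k) * xT (2 ^ (k + 4)) k (FF ω k s n)) =
      (2 : ℝ≥0∞) ^ (j + 1) * ν j * (ENNReal.ofReal (Ub k) * xT (2 ^ (k + 4)) k (FF ω k s n)) := fun j => by ring
  rw [tsum_congr h3, ENNReal.tsum_mul_right]
  refine (mul_le_mul' h.sum (mul_le_mul_right (xT_FF h n) _)).trans ?_
  rw [← ENNReal.ofReal_mul hUk.le, ← ENNReal.ofReal_mul (by norm_num)]
  apply ENNReal.ofReal_le_ofReal
  apply le_of_eq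
  ring

open Classical in
/-- the chains of n + 1 leaves, damped, with the exponential moment of the heights -/
theorem chain_W {k s : ℕ} {ν : ℕ → ℝ≥0∞} (h : SmW ω k s ν) (n : ℕ) :
    ∑' gs : List (List Bool), (if gs.length = n + 1 ∧ gs.IsChain LFold ∧ ∀ u ∈ gs, u ∈ CCh.Sg k then wv ω k s gs else 0) ≤
      ENNReal.ofReal (Ub k * ((1 / 2) * (1 / 4) ^ n)) := by
  refine le_trans ?_ (all_chains h n)
  refine (CCh.tsum_list _ ?_).trans ?_
  · rw [if_neg]
    rintro ⟨h, -⟩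
    simp at h
  · rw [Rec8.sw_ind]
    refine ENNReal.tsum_le_tsum fun g => ?_
    by_cases hg : g ∈ CCh.Sg k
    · rw [if_pos hg]
      have h4 : wE g * (2 ^ (hgt g / 2 ^ (k + s) + 1) * (ω g * Tc ω k s n g)) = w1 ω k s g * Tc ω k s n g := by
        unfold w1
        ring
      rw [h4]
      unfold Tc
      rw [← ENNReal.tsum_mul_left]
      refine ENNReal.tsum_le_tsum fun gs => ?_
      by_cases h5 : (g :: gs).length = n + 1 ∧ (g :: gs).IsChain LFold ∧ ∀ u ∈ g :: gs, u ∈ CCh.Sg k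
      · rw [if_pos h5, if_pos]
        · unfold wv
          rw [List.map_cons, List.prod_cons]
        · refine ⟨?_, h5.2.1, fun u hu => h5.2.2 u (List.mem_cons_of_mem _ hu)⟩
          have := h5.1
          rw [List.length_cons] at this
          omega
      · rw [if_neg h5]
        exact zero_le
    · rw [if_neg hg]
      have h5 : ∀ gs : List (List Bool), (if (g :: gs).length = n + 1 ∧ (g :: gs).IsChain LFold ∧
          ∀ u ∈ g :: gs, u ∈ CCh.Sg k then wv ω k s (g :: gs) else 0) = 0 := by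
        intro gs
        rw [if_neg]
        rintro ⟨-, -, h6⟩
        exact hg (h6 g List.mem_cons_self)
      rw [tsum_congr h5, tsum_zero]

end TW

end NTm

end HexObs
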