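import Pool.Agent.NT.Step

/-!
NT (natural time), module 2: the tall bridges without backtracks in a low window have exponentially small weight.
-/

set_option autoImplicit false

namespace HexObs

namespace NTm

open Finset TS SDN SDN.CN

open scoped ENNReal

/-- bridges of height at most N without backtracks in the lowest n 2 ^ (k + s) rows, with at least E rows over them -/
def VW (k s E N n : ℕ) : Set (List Bool) :=
  {g | ∃ h, n * 2 ^ (k + s) + E ≤ h ∧ h ≤ N ∧ g ∈ Brd h ∧ Win (k + 5) 0 (n * 2 ^ (k + s)) g}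

lemma VW_sub {k s E N n : ℕ} : VW k s E N n ⊆ BrR E N := by
  rintro g ⟨h, h1, h2, h3, -⟩
  exact ⟨h, by omega, h2, h3⟩

lemma VW_HB {k s E N n D : ℕ} (hDE : D ≤ E) : VW k s E N n ⊆ HB D := by
  rintro g ⟨h, h1, h2, h3, -⟩
  exact ⟨h, by omega, h3⟩

/-- a step of the recursion -/
lemma stp_VW {k s E N n D : ℕ} (hs : 6 ≤ s) (hn : 4 ≤ n) (hD : 1 ≤ D) (hDE : D ≤ E) :
    Stp k (2 * 2 ^ (k + s)) (3 * 2 ^ (k + s)) D (VW k s E N n) (BrR (2 * 2 ^ (k + s)) (4 * 2 ^ (k + s)))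
      (VW k s E N (n - 3)) := by
  obtain ⟨R, hR⟩ : ∃ R, R = 2 ^ (k + s) := ⟨_, rfl⟩
  have hR1 : 2 * 2 ^ (k + 5) ≤ R := by
    rw [hR, ← pow_succ']
    exact Nat.pow_le_pow_right (by norm_num) (by omega)
  have hp5 : 1 ≤ 2 ^ (k + 5) := Nat.one_le_two_pow
  have e3 : (n - 3) * R + 3 * R = n * R := by
    rw [← add_mul]
    congr 1
    omega
  have e4 : 4 * R ≤ n * R := Nat.mul_le_mul_right _ hn
  refine ⟨?_, VW_HB hDE, ?_, VW_HB hDE, hD⟩
  · rintro g ⟨h, h1, h2, hg, hw⟩ a ha1 ha2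
    rw [← hR] at h1 hw ha1 ha2 ⊢
    rcases cut_or_zig (b := k + 5) (by omega) hg hw (by omega : 1 ≤ a) (by omega : a < h) (Or.inl rfl) (by omega)
      (by omega) with ⟨t1, ht1, t2, ht2, ht2c, rfl⟩ |
        ⟨u, d, w, G1, D, G3, hG1, hD, hG3, hG3c, hunf, f1, f2, i1, i2, i3, i4, i5, -⟩
    · left
      refine ⟨t1, ht1, ⟨a, ha1, by omega, ht1⟩, t2, ⟨h - a, ?_, by omega, ht2, ?_⟩, rfl⟩
      · rw [← hR]
        omega
      · rw [← hR]
        exact Win_mono le_rfl (by omega) ht2c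
    · right
      refine ⟨G1, D, G3, ⟨u, by omega, by omega, hG1⟩, ⟨d, i3, i4, hD⟩, ⟨w, ?_, by omega, hG3, ?_⟩, hunf, f1, f2, ?_, ?_⟩
      · rw [← hR]
        omega
      · rw [← hR]
        exact Win_mono le_rfl (by omega) hG3c
      · rw [hgt_eq hG1]
        exact i1
      · rw [hgt_eq hG1, hgt_eq hD]
        exact i2
  · rintro g ⟨u, u1, u2, u3⟩
    rw [← hR] at u1
    exact ⟨u, by omega, u3⟩

/-- the bounds of the class number n -/
structure PV (k s E N D kc : ℕ) (Φ : List Bool → ℝ≥0∞) (M : ℝ) (n : ℕ) : Prop where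
  near : ∀ i, i ≤ k → xT (2 ^ (i + 4)) i (vA (2 ^ (i + 4)) (VW k s E N n) Φ) ≤
    ENNReal.ofReal (M / 4 ^ n / Ub i) * xT D kc Φ
  free : Rec8.sw (VW k s E N n) Φ ≤ ENNReal.ofReal (M / 4 ^ n) * xT D kc Φ

lemma fin_link {a b : ℝ} {x : ℝ≥0∞} {j : ℕ} (h : a ≤ 2 ^ j * b) :
    ENNReal.ofReal a * x ≤ 2 ^ j * (ENNReal.ofReal b * x) := by
  have e1 : (2 : ℝ≥0∞) ^ j = ENNReal.ofReal (2 ^ j) := by
    rw [ENNReal.ofReal_pow (by norm_num), ENNReal.ofReal_ofNat]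
  rw [e1, ← mul_assoc (ENNReal.ofReal (2 ^ j)), ← ENNReal.ofReal_mul (by positivity)]
  exact mul_le_mul_left (ENNReal.ofReal_le_ofReal h) _

/-- all classes -/
theorem PV_all {K0 K1 K2 : ℝ} (hK0 : 1 ≤ K0) (hK1 : 1 ≤ K1) (hK2 : 1 ≤ K2)
    (htot : ∀ (D N k : ℕ) (Φ : List Bool → ℝ≥0∞), Hered Φ → 2 ^ (k + 4) ≤ D →
      Rec8.sw (BrR D N) Φ ≤ ENNReal.ofReal (K0 * UU N) * xT D k Φ)
    (htwo : ∀ (D0 k0 D1 k1 E N : ℕ) (Φ : List Bool → ℝ≥0∞), Hered Φ → 2 ^ (k0 + 4) ≤ D0 →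
      2 ^ (k1 + 4) ≤ D1 → D0 ≤ E → D1 ≤ E → E ≤ N →
      xT D0 k0 (vA D0 (BrR E N) Φ) ≤ ENNReal.ofReal (K1 * (UU N / Ub k0)) * xT D1 k1 Φ)
    (hnA : ∀ (i : ℕ) (Ψ : List Bool → ℝ≥0∞), Hered Ψ → xT (2 ^ (i + 4)) i (vA (2 ^ (i + 4)) (BrR (2 ^ (i + 4)) (2 ^ (i + 4 + 1))) Ψ) ≤
      ENNReal.ofReal (32 * K2) * xT (2 ^ (i + 4)) i Ψ)
    {k s E N D kc : ℕ} (hs : 6 ≤ s) (hkc : 2 ^ (kc + 4) ≤ D) (hkD : 2 ^ (k + 4) ≤ D) (hDE : D ≤ E) (hEN : E ≤ N)
    (hnum : (K0 + K1) * UU (4 * 2 ^ (k + s)) * (64 * lk k K2) ≤ 2 ^ (k + s))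
    {Φ : List Bool → ℝ≥0∞} (hΦ : HerD D Φ) {M : ℝ} (hM : 64 * ((K0 + K1) * UU N) ≤ M) :
    ∀ n, PV k s E N D kc Φ M n := by
  have hU4 : 0 < UU (4 * 2 ^ (k + s)) := Num2Aux.UU_pos _
  have hUN : 0 < UU N := Num2Aux.UU_pos _
  have hM0 : 0 ≤ M := le_trans (by positivity) hM
  intro n
  induction n using Nat.strong_induction_on with
  | _ n ih =>
  obtain ⟨R, hR⟩ : ∃ R, R = 2 ^ (k + s) := ⟨_, rfl⟩
  have hR1 : 2 * 2 ^ (k + 5) ≤ R := by
    rw [hR, ← pow_succ']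
    exact Nat.pow_le_pow_right (by norm_num) (by omega)
  have hp5 : 2 ^ (k + 5) = 2 * 2 ^ (k + 4) := by rw [← pow_succ']
  have hp4 : 1 ≤ 2 ^ (k + 4) := Nat.one_le_two_pow
  have hi4 : ∀ i, i ≤ k → 2 ^ (i + 4) ≤ 2 ^ (k + 4) := fun i hi => Nat.pow_le_pow_right (by norm_num) (by omega)
  rcases Nat.lt_or_ge n 4 with hn | hn
  · -- the first classes
    have h4n : (4 : ℝ) ^ n ≤ 64 := by
      calc (4 : ℝ) ^ n ≤ 4 ^ 3 := pow_le_pow_right₀ (by norm_num) (by omega)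
        _ = 64 := by norm_num
    have hM1 : K1 * UU N ≤ M / 4 ^ n := by
      rw [le_div_iff₀ (by positivity)]
      calc K1 * UU N * 4 ^ n ≤ (K0 + K1) * UU N * 64 := by gcongr; linarith
        _ ≤ M := by linarith
    have hM2 : K0 * UU N ≤ M / 4 ^ n := by
      rw [le_div_iff₀ (by positivity)]
      calc K0 * UU N * 4 ^ n ≤ (K0 + K1) * UU N * 64 := by gcongr; linarith
        _ ≤ M := by linarith
    refine ⟨fun i hi => ?_, ?_⟩
    · have hU := Ub_pos i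
      refine (xT_mono (Ψ := vA (2 ^ (i + 4)) (BrR E N) Φ) fun t => ?_).trans
        ((htwo (2 ^ (i + 4)) i D kc E N Φ hΦ.her le_rfl hkc (by have := hi4 i hi; omega) hDE
          hEN).trans (mul_le_mul_left (ENNReal.ofReal_le_ofReal ?_) _))
      · unfold vA
        exact Rec8.sw_mono (fun g hg => ⟨VW_sub hg.1, hg.2⟩) fun _ _ => le_rfl
      · rw [← mul_div_assoc]
        exact div_le_div_of_nonneg_right hM1 hU.le
    · refine (Rec8.sw_mono (B := BrR D N) (Ψ := Φ) (fun g hg => ?_) fun _ _ => le_rfl).trans ((htot D N kc Φ hΦ.her hkc).trans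
        (mul_le_mul_left (ENNReal.ofReal_le_ofReal hM2) _))
      obtain ⟨h, h1, h2, h3⟩ := VW_sub hg
      exact ⟨h, by omega, h2, h3⟩
  · -- the recursion
    have hstp := stp_VW (k := k) (s := s) (E := E) (N := N) (D := D) hs hn (by omega) hDE
    obtain ⟨W, hW⟩ : ∃ W, W = VW k s E N (n - 3) := ⟨_, rfl⟩
    rw [← hW] at hstp
    have hih := ih (n - 3) (by omega)
    obtain ⟨m, hm⟩ : ∃ m, m = M / 4 ^ (n - 3) := ⟨_, rfl⟩
    have hm0 : 0 ≤ m := by rw [hm]; positivity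
    have hmn : m = 64 * (M / 4 ^ n) := by
      rw [hm]
      have e : n = n - 3 + 3 := by omega
      conv_rhs => rw [e, pow_add]
      field_simp
      norm_num
    have hcard : ((3 * 2 ^ (k + s) - 2 * 2 ^ (k + s) : ℕ) : ℝ≥0∞) = 2 ^ (k + s) := by
      have : 3 * 2 ^ (k + s) - 2 * 2 ^ (k + s) = 2 ^ (k + s) := by omega
      rw [this]
      push_cast
      rfl
    have ih1 : ∀ i, i ≤ k → xT (2 ^ (i + 4)) i (vA (2 ^ (i + 4)) W Φ) ≤ ENNReal.ofReal (m / Ub i) * xT D kc Φ := by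
      intro i hi
      rw [hW, hm]
      exact hih.near i hi
    have ih2 : Rec8.sw W Φ ≤ ENNReal.ofReal m * xT D kc Φ := by
      rw [hW, hm]
      exact hih.free
    have hK : 0 ≤ (K0 + K1) * UU (4 * R) := by rw [hR]; positivity
    refine ⟨fun i hi => ?_, ?_⟩
    · have hU := Ub_pos i
      have hstep : ∀ t, 2 ^ (k + s) * vA (2 ^ (i + 4)) (VW k s E N n) Φ t ≤
          vA (2 ^ (i + 4)) (BrR (2 * R) (4 * R)) (fun _ => 257 * Rec8.sw W Φ) t +
          ∑ j ∈ Ico 4 (k + 5), 2 ^ (j + 1) * vA (2 ^ (i + 4)) (BrR (2 * R) (4 * R)) (ZZ j W Φ) t := by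
        intro t
        have h0 := step_avg hstp hΦ (fun g => RT (2 ^ (i + 4)) LFold t g)
          (fun x y ⟨Z, z1, z2, z3⟩ => ⟨Z, z1, z2, LFold_pre z3⟩)
          (fun x y z hx ⟨Z, z1, z2, z3⟩ => ⟨Z, z1, z2, LFold_fst hx z3⟩)
        rw [hcard] at h0
        rw [hR]
        exact h0
      have h1 : 2 ^ (k + s) * xT (2 ^ (i + 4)) i (vA (2 ^ (i + 4)) (VW k s E N n) Φ) ≤
          xT (2 ^ (i + 4)) i (vA (2 ^ (i + 4)) (BrR (2 * R) (4 * R)) (fun _ => 257 * Rec8.sw W Φ)) +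
          ∑ j ∈ Ico 4 (k + 5), 2 ^ (j + 1) *
            xT (2 ^ (i + 4)) i (vA (2 ^ (i + 4)) (BrR (2 * R) (4 * R)) (ZZ j W Φ)) := by
        have hc0 : (2 : ℝ≥0∞) ^ (k + s) ≠ 0 := by positivity
        have hct : (2 : ℝ≥0∞) ^ (k + s) ≠ ⊤ := ENNReal.pow_ne_top (by norm_num)
        have h2 : vA (2 ^ (i + 4)) (VW k s E N n) Φ = fun t => (2 ^ (k + s))⁻¹ * (2 ^ (k + s) * vA (2 ^ (i + 4)) (VW k s E N n) Φ t) := by
          funext t
          rw [← mul_assoc, ENNReal.inv_mul_cancel hc0 hct, one_mul]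
        have h3 : xT (2 ^ (i + 4)) i (vA (2 ^ (i + 4)) (VW k s E N n) Φ) ≤ (2 ^ (k + s))⁻¹ *
            xT (2 ^ (i + 4)) i (fun t => 2 ^ (k + s) * vA (2 ^ (i + 4)) (VW k s E N n) Φ t) := by
          conv_lhs => rw [h2]
          exact xT_smul _ _ _ _
        calc 2 ^ (k + s) * xT (2 ^ (i + 4)) i (vA (2 ^ (i + 4)) (VW k s E N n) Φ) ≤
              2 ^ (k + s) * ((2 ^ (k + s))⁻¹ * xT (2 ^ (i + 4)) i (fun t => 2 ^ (k + s) * vA (2 ^ (i + 4)) (VW k s E N n) Φ t)) := by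
              gcongr
          _ = xT (2 ^ (i + 4)) i (fun t => 2 ^ (k + s) * vA (2 ^ (i + 4)) (VW k s E N n) Φ t) := by
              rw [← mul_assoc, ENNReal.mul_inv_cancel hc0 hct, one_mul]
          _ ≤ _ := by
              refine (xT_mono hstep).trans ((xT_add _ _ _ _).trans (add_le_add le_rfl ?_))
              refine (xT_sum _ _ _ _).trans (Finset.sum_le_sum fun j _ => ?_)
              exact xT_smul _ _ _ _
      apply le_of_mul (k := k) (s := s)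
      refine h1.trans ?_
      have h5 := link (k := k) (W := W) (Φ := Φ) (x := xT D kc Φ) (m := m) (K1 := (K0 + K1) * UU (4 * R)) (K2 := K2)
        (κ := 1 / Ub i) hm0 hK hK2 (by positivity) ih1 ih2 hnA
        (X := xT (2 ^ (i + 4)) i (vA (2 ^ (i + 4)) (BrR (2 * R) (4 * R)) (fun _ => 257 * Rec8.sw W Φ)))
        (Z := fun j => xT (2 ^ (i + 4)) i (vA (2 ^ (i + 4)) (BrR (2 * R) (4 * R)) (ZZ j W Φ))) ?_ ?_
      · refine h5.trans (fin_link ?_)
        have h6 : (K0 + K1) * UU (4 * R) * lk k K2 * (m * (1 / Ub i)) =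
            (K0 + K1) * UU (4 * R) * (64 * lk k K2) * (M / 4 ^ n / Ub i) := by
          rw [hmn]
          ring
        rw [h6, hR]
        exact mul_le_mul_of_nonneg_right hnum (by positivity)
      · refine (htwo (2 ^ (i + 4)) i (2 ^ (i + 4)) i (2 * R) (4 * R) _ (fun _ _ _ => le_rfl) le_rfl le_rfl
          (by have := hi4 i hi; omega) (by have := hi4 i hi; omega) (by omega)).trans ?_
        refine mul_le_mul' (ENNReal.ofReal_le_ofReal ?_) (xT_const _ _ _)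
        rw [mul_div_assoc', mul_one_div]
        apply div_le_div_of_nonneg_right _ hU.le
        rw [hR]
        exact mul_le_mul_of_nonneg_right (by linarith) hU4.le
      · intro j hj
        refine (htwo (2 ^ (i + 4)) i (2 ^ (j + 4)) j (2 * R) (4 * R) _ (hered_vA _ _ _) le_rfl le_rfl
          (by have := hi4 i hi; omega) (by have := hi4 j hj; omega) (by omega)).trans ?_
        refine mul_le_mul_left (ENNReal.ofReal_le_ofReal ?_) _
        rw [mul_div_assoc', mul_one_div]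
        apply div_le_div_of_nonneg_right _ hU.le
        rw [hR]
        exact mul_le_mul_of_nonneg_right (by linarith) hU4.le
    · have h1 := step_avg hstp hΦ (fun _ => True) (fun _ _ _ => trivial) (fun _ _ _ _ _ => trivial)
      rw [hcard] at h1
      apply le_of_mul (k := k) (s := s)
      have e1 : Rec8.sw {g | g ∈ VW k s E N n ∧ True} Φ = Rec8.sw (VW k s E N n) Φ := by
        congr 1
        ext g
        simp
      rw [e1] at h1
      refine h1.trans ?_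
      rw [← hR]
      have h5 := link (k := k) (W := W) (Φ := Φ) (x := xT D kc Φ) (m := m) (K1 := (K0 + K1) * UU (4 * R)) (K2 := K2)
        (κ := 1) hm0 hK hK2 (by norm_num) ih1 ih2 hnA
        (X := Rec8.sw {x | x ∈ BrR (2 * R) (4 * R) ∧ True} (fun _ => 257 * Rec8.sw W Φ))
        (Z := fun j => Rec8.sw {x | x ∈ BrR (2 * R) (4 * R) ∧ True} (ZZ j W Φ)) ?_ ?_
      · rw [hR]
        rw [hR] at h5
        refine h5.trans (fin_link ?_)
        have h6 : (K0 + K1) * UU (4 * 2 ^ (k + s)) * lk k K2 * (m * 1) =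
            (K0 + K1) * UU (4 * 2 ^ (k + s)) * (64 * lk k K2) * (M / 4 ^ n) := by
          rw [hmn]
          ring
        rw [h6]
        exact mul_le_mul_of_nonneg_right hnum (by positivity)
      · refine (Rec8.sw_mono (B := BrR (2 * R) (4 * R)) (Ψ := fun _ => 257 * Rec8.sw W Φ) (fun x hx => hx.1)
          fun _ _ => le_rfl).trans ?_
        refine (htot (2 * R) (4 * R) k _ (fun _ _ _ => le_rfl) (by omega)).trans ?_
        refine mul_le_mul' (ENNReal.ofReal_le_ofReal ?_) (xT_const _ _ _)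
        rw [mul_one, hR]
        exact mul_le_mul_of_nonneg_right (by linarith) hU4.le
      · intro j hj
        have hj2 := hi4 j hj
        refine (Rec8.sw_mono (B := BrR (2 ^ (j + 4)) (4 * R)) (Ψ := ZZ (j + 4) W Φ) (fun x hx => by
          obtain ⟨⟨u, u1, u2, u3⟩, -⟩ := hx
          exact ⟨u, by omega, u2, u3⟩) fun _ _ => le_rfl).trans ?_
        refine (htot (2 ^ (j + 4)) (4 * R) j _ (hered_vA _ _ _) le_rfl).trans ?_
        refine mul_le_mul_left (ENNReal.ofReal_le_ofReal ?_) _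
        rw [mul_one, hR]
        exact mul_le_mul_of_nonneg_right (by linarith) hU4.le

end NTm

end HexObs
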